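import Pool.Agent.H.MP_ebc13b_lc.h61.Alg
import Pool.Agent.H.MP_5be563_lc.PT.Main

/-!
Instances of Colouring, their codes, and the reduction to coverings by cliques.
-/

namespace Pool.Agent.H.MP_ebc13b_lc.h61

open Pool.Agent.H.MP_5be563_lc.PT

/-- An instance of Colouring: a graph with `n` vertices and a number `k`. -/
structure Inst where
  /-- number of vertices -/
  n : ℕ
  /-- the graph -/
  G : SimpleGraph (Fin n)
  /-- number of colours -/
  k : ℕ

open Classical in
/-- The input string of an instance: `n` in unary, the adjacency matrix row by row, and the binary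
digits of `k`. -/
noncomputable def Inst.encode (x : Inst) : List Bool :=
  List.replicate x.n true ++ [false] ++
  (List.finRange x.n).flatMap
    (fun i => (List.finRange x.n).map (fun j => decide (x.G.Adj i j))) ++
  Nat.bits x.k

/-! ### Parsing -/

/-- number of vertices -/
def pn (raw : List Bool) : ℕ := (raw.takeWhile (fun b => b)).length

/-- entry of the adjacency matrix -/
def ent (raw : List Bool) (i j : ℕ) : Bool :=
  (raw.drop (pn raw + 1)).getD (i * pn raw + j) false

/-- the edges of the complement -/
def pEs (raw : List Bool) : List (ℕ × ℕ) :=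
  (List.range (pn raw)).flatMap fun i => ((List.range (pn raw)).filter fun j =>
    !(decide (i = j)) && !(ent raw i j)).map fun j => (i, j)

/-- binary digits of a number in unary -/
def ubits (i : ℕ) : List Bool := (badd [true])^[i] []

/-- the number of colours, or the number of vertices if there are more colours -/
def pk (raw : List Bool) : ℕ :=
  ((List.range (pn raw)).filter fun i =>
    ble (ubits (i + 1)) ((raw.drop (pn raw + 1)).drop (pn raw * pn raw))).length

/-- the decision procedure on bit strings -/
def dec (raw : List Bool) : Bool := alg (pn raw) (pEs raw) (pk raw)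

theorem bval_ubits (i : ℕ) : bval (ubits i) = i := by
  unfold ubits
  induction i with
  | zero => rfl
  | succ i ih => rw [Function.iterate_succ_apply', bval_badd, ih]; simp; ring

theorem length_ubits (i : ℕ) : (ubits i).length ≤ i + 1 := by
  unfold ubits
  have : ∀ i, ((badd [true])^[i] []).length ≤ i + 1 := by
    intro i
    induction i with
    | zero => simp
    | succ i ih =>
      rw [Function.iterate_succ_apply', length_badd]
      simp only [List.length_singleton]
      omega
  exact this i

section
variable {α : Type} [Enc α]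

@[fun_prop]
theorem Poly.takeWhileT {l : α → List Bool} (hl : Poly l) :
    Poly (fun a => (l a).takeWhile (fun b => b)) := by
  have e : ∀ (l : List Bool),
      l.foldr (fun b s => bif b then b :: s else []) [] = l.takeWhile (fun b => b) := by
    intro l
    induction l with
    | nil => simp
    | cons x l ih => cases x <;> simp [ih]
  have key := Poly.foldr (f := fun p : α × List Bool × Bool => bif p.2.2 then p.2.2 :: p.2.1
      else []) (l := l)
    (s0 := fun _ => []) (B := fun a => sz (l a))
    (Poly.cond (by fun_prop) (by fun_prop) (by fun_prop)) hl (by fun_prop) hl.sz_le (by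
      intro a l₁ l₂ h
      simp only
      rw [e, h]
      exact sz_sublist_le ((List.takeWhile_sublist _).trans (List.sublist_append_right _ _)))
  simpa [e] using key

@[fun_prop]
theorem Poly.pn {l : α → List Bool} (hl : Poly l) : Poly (fun a => pn (l a)) := by
  unfold h61.pn
  fun_prop

@[fun_prop]
theorem Poly.ent {l : α → List Bool} {i j : α → ℕ} (hl : Poly l) (hi : Poly i) (hj : Poly j) :
    Poly (fun a => ent (l a) (i a) (j a)) := by
  unfold h61.ent
  fun_prop

@[fun_prop]
theorem Poly.pEs {l : α → List Bool} (hl : Poly l) : Poly (fun a => pEs (l a)) := by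
  unfold h61.pEs
  fun_prop

@[fun_prop]
theorem Poly.ubits {i : α → ℕ} (hi : Poly i) : Poly (fun a => ubits (i a)) := by
  refine Poly.iterate (f := fun _ l => badd [true] l) (s := fun _ => []) (n := i)
    (B := fun a => 4 * (sz (i a) + 1) + 1) (by fun_prop) (by fun_prop) hi
    (((PBdd.const 4).mul (hi.sz_le.add (PBdd.const 1))).add (PBdd.const 1)) ?_
  intro a k hk
  have h1 := length_ubits k
  have h2 := (sz_bool_list (h61.ubits k)).2
  have h3 : k ≤ sz (i a) := by rw [sz_nat]; omega
  change sz (h61.ubits k) ≤ _
  omega

@[fun_prop]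
theorem Poly.pk {l : α → List Bool} (hl : Poly l) : Poly (fun a => pk (l a)) := by
  unfold h61.pk
  fun_prop

@[fun_prop]
theorem Poly.triL {n : α → ℕ} {Es : α → List (ℕ × ℕ)} (hn : Poly n) (hE : Poly Es) :
    Poly (fun a => triL (n a) (Es a)) := by
  unfold h61.triL
  fun_prop

@[fun_prop]
theorem Poly.edgL {n : α → ℕ} {Es : α → List (ℕ × ℕ)} (hn : Poly n) (hE : Poly Es) :
    Poly (fun a => edgL (n a) (Es a)) := by
  unfold h61.edgL
  fun_prop

@[fun_prop]
theorem Poly.restL {n : α → ℕ} {Es : α → List (ℕ × ℕ)} (hn : Poly n) (hE : Poly Es) :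
    Poly (fun a => restL (n a) (Es a)) := by
  unfold h61.restL
  fun_prop

@[fun_prop]
theorem Poly.restE {n : α → ℕ} {Es : α → List (ℕ × ℕ)} (hn : Poly n) (hE : Poly Es) :
    Poly (fun a => restE (n a) (Es a)) := by
  unfold h61.restE
  fun_prop

@[fun_prop]
theorem Poly.prec {n : α → ℕ} (hn : Poly n) : Poly (fun a => prec (n a)) := by
  unfold h61.prec
  fun_prop

@[fun_prop]
theorem Poly.test {n : α → ℕ} {Es : α → List (ℕ × ℕ)} {k t h : α → ℕ} (hn : Poly n)
    (hE : Poly Es) (hk : Poly k) (ht : Poly t) (hh : Poly h) :
    Poly (fun a => test (n a) (Es a) (k a) (t a) (h a)) := by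
  unfold h61.test
  fun_prop

@[fun_prop]
theorem Poly.alg {n : α → ℕ} {Es : α → List (ℕ × ℕ)} {k : α → ℕ} (hn : Poly n)
    (hE : Poly Es) (hk : Poly k) : Poly (fun a => alg (n a) (Es a) (k a)) := by
  unfold h61.alg
  fun_prop

@[fun_prop]
theorem Poly.dec {l : α → List Bool} (hl : Poly l) : Poly (fun a => dec (l a)) := by
  unfold h61.dec
  fun_prop

end

end Pool.Agent.H.MP_ebc13b_lc.h61
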