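import Pool.Agent.H.MP_ebc13b_lc.h61.Parse

/-!
Forbidden induced subgraphs.
-/

namespace Pool.Agent.H.MP_ebc13b_lc.h61

/-- The co-diamond: one edge and two isolated vertices. -/
def coDiamond : SimpleGraph (Fin 4) := SimpleGraph.fromEdgeSet {s(0, 1)}

/-- `C₄ + K₁`: a cycle of length four and an isolated vertex. -/
def c4PlusK1 : SimpleGraph (Fin 5) :=
  SimpleGraph.fromEdgeSet {s(0, 1), s(1, 2), s(2, 3), s(3, 0)}

section
variable {n : ℕ} {G : SimpleGraph (Fin n)}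

theorem embed {m : ℕ} {H : SimpleGraph (Fin m)} (f : Fin m → Fin n)
    (hf : Function.Injective f) (h : ∀ i j, i < j → (G.Adj (f i) (f j) ↔ H.Adj i j)) :
    H.IsIndContained G := by
  refine ⟨⟨⟨f, hf⟩, ?_⟩⟩
  intro i j
  change G.Adj (f i) (f j) ↔ H.Adj i j
  rcases lt_trichotomy i j with h1 | h1 | h1
  · exact h i j h1
  · subst h1
    simp
  · rw [SimpleGraph.adj_comm, SimpleGraph.adj_comm H]
    exact h j i h1

theorem claw_of {a b c v : Fin n} (hva : G.Adj v a) (hvb : G.Adj v b) (hvc : G.Adj v c)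
    (hab : ¬ G.Adj a b) (hac : ¬ G.Adj a c) (hbc : ¬ G.Adj b c) (nab : a ≠ b) (nac : a ≠ c)
    (nbc : b ≠ c) : (completeBipartiteGraph (Fin 1) (Fin 3)).IsIndContained G := by
  have hba : ¬ G.Adj b a := fun h => hab h.symm
  have hca : ¬ G.Adj c a := fun h => hac h.symm
  have hcb : ¬ G.Adj c b := fun h => hbc h.symm
  refine ⟨⟨⟨Sum.elim (fun _ => v) ![a, b, c], ?_⟩, ?_⟩⟩
  · rintro (i | i) (j | j) h
    · rw [Subsingleton.elim i j]
    · exfalso
      fin_cases j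
      · exact hva.ne h
      · exact hvb.ne h
      · exact hvc.ne h
    · exfalso
      fin_cases i
      · exact hva.ne h.symm
      · exact hvb.ne h.symm
      · exact hvc.ne h.symm
    · have : i = j := by
        fin_cases i <;> fin_cases j <;> first
          | rfl
          | exact absurd h nab
          | exact absurd h nac
          | exact absurd h nbc
          | exact absurd h.symm nab
          | exact absurd h.symm nac
          | exact absurd h.symm nbc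
      rw [this]
  · rintro (i | i) (j | j)
    · simp
    · fin_cases j <;> simp [hva, hvb, hvc]
    · fin_cases i <;> simp [hva.symm, hvb.symm, hvc.symm]
    · fin_cases i <;> fin_cases j <;> simp [hab, hac, hbc, hba, hca, hcb]

theorem coDiamond_of {a b c d : Fin n} (hab : G.Adj a b) (hac : ¬ G.Adj a c) (had : ¬ G.Adj a d)
    (hbc : ¬ G.Adj b c) (hbd : ¬ G.Adj b d) (hcd : ¬ G.Adj c d) (nac : a ≠ c) (nad : a ≠ d)
    (nbc : b ≠ c) (nbd : b ≠ d) (ncd : c ≠ d) : coDiamond.IsIndContained G := by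
  refine embed ![a, b, c, d] ?_ ?_
  · have nab := hab.ne
    intro i j h
    fin_cases i <;> fin_cases j <;> simp_all
  · intro i j hij
    unfold coDiamond
    fin_cases i <;> fin_cases j <;>
      first
      | exact absurd hij (by decide)
      | simp [SimpleGraph.fromEdgeSet_adj, hab, hac, had, hbc, hbd, hcd]

theorem fourK1_of {a b c d : Fin n} (hab : ¬ G.Adj a b) (hac : ¬ G.Adj a c) (had : ¬ G.Adj a d)
    (hbc : ¬ G.Adj b c) (hbd : ¬ G.Adj b d) (hcd : ¬ G.Adj c d) (nab : a ≠ b) (nac : a ≠ c)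
    (nad : a ≠ d) (nbc : b ≠ c) (nbd : b ≠ d) (ncd : c ≠ d) :
    (⊥ : SimpleGraph (Fin 4)).IsIndContained G := by
  refine embed ![a, b, c, d] ?_ ?_
  · intro i j h
    fin_cases i <;> fin_cases j <;> simp_all
  · intro i j hij
    fin_cases i <;> fin_cases j <;>
      first
      | exact absurd hij (by decide)
      | simp [hab, hac, had, hbc, hbd, hcd]

theorem c4PlusK1_of {a b c d e : Fin n} (hab : G.Adj a b) (hbc : G.Adj b c) (hcd : G.Adj c d)
    (hda : G.Adj d a) (hac : ¬ G.Adj a c) (hbd : ¬ G.Adj b d) (hae : ¬ G.Adj a e)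
    (hbe : ¬ G.Adj b e) (hce : ¬ G.Adj c e) (hde : ¬ G.Adj d e) (nac : a ≠ c) (nbd : b ≠ d)
    (nae : a ≠ e) (nbe : b ≠ e) (nce : c ≠ e) (nde : d ≠ e) : c4PlusK1.IsIndContained G := by
  refine embed ![a, b, c, d, e] ?_ ?_
  · have nab := hab.ne
    have nbc := hbc.ne
    have ncd := hcd.ne
    have nda := hda.ne
    intro i j h
    fin_cases i <;> fin_cases j <;> simp_all
  · have had := hda.symm
    intro i j hij
    unfold c4PlusK1
    fin_cases i <;> fin_cases j <;>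
      first
      | exact absurd hij (by decide)
      | simp [SimpleGraph.fromEdgeSet_adj, hab, hac, had, hbc, hbd, hcd, hae, hbe, hce, hde]

end

/-- The complement of a (claw, 4K₁, co-diamond)-free graph is prismatic. -/
theorem prismatic_of (x : Inst) (h1 : ¬ (completeBipartiteGraph (Fin 1) (Fin 3)).IsIndContained x.G)
    (h2 : ¬ (⊥ : SimpleGraph (Fin 4)).IsIndContained x.G) (h3 : ¬ coDiamond.IsIndContained x.G) :
    Prismatic (Finset.range x.n) (EE (pEs x.encode)) := by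
  rintro a b c v ⟨hab, hbc, hac⟩ hv nva nvb nvc
  rw [EE_encode] at hab hbc hac
  rw [Finset.mem_range] at hv
  obtain ⟨ha, hb, nab, hab⟩ := hab
  obtain ⟨_, hc, nbc, hbc⟩ := hbc
  obtain ⟨_, _, nac, hac⟩ := hac
  have conv : ∀ {i j : ℕ} (hi : i < x.n) (hj : j < x.n), (x.A i j ↔ x.G.Adj ⟨i, hi⟩ ⟨j, hj⟩) :=
    fun hi hj => ⟨fun ⟨_, _, h⟩ => h, fun h => ⟨hi, hj, h⟩⟩
  have ne : ∀ {i j : ℕ} (hi : i < x.n) (hj : j < x.n), i ≠ j → (⟨i, hi⟩ : Fin x.n) ≠ ⟨j, hj⟩ :=
    fun _ _ h h' => h (Fin.mk.inj h')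
  rw [conv ha hb] at hab
  rw [conv hb hc] at hbc
  rw [conv ha hc] at hac
  have e : ∀ {w : ℕ} (hw : w < x.n), v ≠ w →
      (EE (pEs x.encode) v w ↔ ¬ x.G.Adj ⟨v, hv⟩ ⟨w, hw⟩) := by
    intro w hw hvw
    rw [EE_encode, conv hv hw]
    tauto
  rw [e ha nva, e hb nvb, e hc nvc]
  by_cases ka : x.G.Adj ⟨v, hv⟩ ⟨a, ha⟩ <;> by_cases kb : x.G.Adj ⟨v, hv⟩ ⟨b, hb⟩ <;>
    by_cases kc : x.G.Adj ⟨v, hv⟩ ⟨c, hc⟩
  · exact absurd (claw_of ka kb kc hab hac hbc (ne ha hb nab) (ne ha hc nac) (ne hb hc nbc)) h1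
  · tauto
  · tauto
  · -- adjacent to `a` only
    exact absurd (coDiamond_of ka kb kc hab hac hbc (ne hv hb nvb) (ne hv hc nvc) (ne ha hb nab)
      (ne ha hc nac) (ne hb hc nbc)) h3
  · tauto
  · exact absurd (coDiamond_of kb ka kc (fun h => hab h.symm) hbc hac (ne hv ha nva)
      (ne hv hc nvc) (ne hb ha nab.symm) (ne hb hc nbc) (ne ha hc nac)) h3
  · exact absurd (coDiamond_of kc ka kb (fun h => hac h.symm) (fun h => hbc h.symm) hab
      (ne hv ha nva) (ne hv hb nvb) (ne hc ha nac.symm) (ne hc hb nbc.symm) (ne ha hb nab)) h3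
  · exact absurd (fourK1_of ka kb kc hab hac hbc (ne hv ha nva) (ne hv hb nvb) (ne hv hc nvc)
      (ne ha hb nab) (ne ha hc nac) (ne hb hc nbc)) h2

/-- If moreover the graph is (C₄ + K₁)-free then the triangles of the complement are disjoint. -/
theorem clean_of (x : Inst) (hP : Prismatic (Finset.range x.n) (EE (pEs x.encode)))
    (h4 : ¬ c4PlusK1.IsIndContained x.G) : Clean (EE (pEs x.encode)) := by
  intro a b c b' c' hT hT'
  by_contra hcon
  push Not at hcon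
  obtain ⟨nb'b, nb'c⟩ := hcon
  have hG := gr_encode x
  have hb' := hG.mem' hT'.1
  have nb'a : b' ≠ a := (hG.ne hT'.1).symm
  have key := hP _ _ _ b' hT hb' nb'a nb'b nb'c
  have hb'a : EE (pEs x.encode) b' a := hG.sym _ _ hT'.1
  -- `c'` is different from `b` and `c`
  have nc'b : c' ≠ b := by
    rintro rfl
    have := hT'.2.1
    tauto
  have nc'c : c' ≠ c := by
    rintro rfl
    have := hT'.2.1
    tauto
  have nc'a : c' ≠ a := (hG.ne hT'.2.2).symm
  have hc' := hG.mem' hT'.2.2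
  have key' := hP _ _ _ c' hT hc' nc'a nc'b nc'c
  have hc'a : EE (pEs x.encode) c' a := hG.sym _ _ hT'.2.2
  have k1 : ¬ EE (pEs x.encode) b' b := by tauto
  have k2 : ¬ EE (pEs x.encode) b' c := by tauto
  have k3 : ¬ EE (pEs x.encode) c' b := by tauto
  have k4 : ¬ EE (pEs x.encode) c' c := by tauto
  have hbc := hT.2.1
  have hab := hT.1
  have hac := hT.2.2
  have hb'c' := hT'.2.1
  have hab' := hT'.1
  have hac' := hT'.2.2
  have ha : a < x.n := Finset.mem_range.1 (hG.mem _ _ hab)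
  have hb : b < x.n := Finset.mem_range.1 (hG.mem' hab)
  have hc : c < x.n := Finset.mem_range.1 (hG.mem' hac)
  have hb'n : b' < x.n := Finset.mem_range.1 hb'
  have hc'n : c' < x.n := Finset.mem_range.1 hc'
  have conv : ∀ {i j : ℕ} (hi : i < x.n) (hj : j < x.n), (x.A i j ↔ x.G.Adj ⟨i, hi⟩ ⟨j, hj⟩) :=
    fun hi hj => ⟨fun ⟨_, _, h⟩ => h, fun h => ⟨hi, hj, h⟩⟩
  have ne : ∀ {i j : ℕ} (hi : i < x.n) (hj : j < x.n), i ≠ j → (⟨i, hi⟩ : Fin x.n) ≠ ⟨j, hj⟩ :=
    fun _ _ h h' => h (Fin.mk.inj h')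
  have pos : ∀ {i j : ℕ} (hi : i < x.n) (hj : j < x.n), i ≠ j → ¬ EE (pEs x.encode) i j →
      x.G.Adj ⟨i, hi⟩ ⟨j, hj⟩ := by
    intro i j hi hj hij h
    rw [EE_encode, conv hi hj] at h
    tauto
  have neg : ∀ {i j : ℕ} (hi : i < x.n) (hj : j < x.n), EE (pEs x.encode) i j →
      ¬ x.G.Adj ⟨i, hi⟩ ⟨j, hj⟩ := by
    intro i j hi hj h
    rw [EE_encode, conv hi hj] at h
    exact h.2.2.2
  apply h4
  -- the cycle is b, b', c, c'
  exact c4PlusK1_of (a := ⟨b, hb⟩) (b := ⟨b', hb'n⟩) (c := ⟨c, hc⟩) (d := ⟨c', hc'n⟩)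
    (e := ⟨a, ha⟩) (pos hb'n hb nb'b k1).symm (pos hb'n hc nb'c k2) (pos hc'n hc nc'c k4).symm
    (pos hc'n hb nc'b k3) (neg hb hc hbc) (neg hb'n hc'n hb'c') (neg hb ha (hG.sym _ _ hab))
    (neg hb'n ha hb'a) (neg hc ha (hG.sym _ _ hac)) (neg hc'n ha hc'a)
    (ne hb hc (hG.ne hbc)) (ne hb'n hc'n (hG.ne hb'c')) (ne hb ha (hG.ne hab).symm)
    (ne hb'n ha nb'a) (ne hc ha (hG.ne hac).symm) (ne hc'n ha nc'a)

end Pool.Agent.H.MP_ebc13b_lc.h61
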