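import Pool.Agent.H.MP_ebc13b_lc.h61.PolyA

/-!
Maximum matchings are computable in polynomial time.
-/

namespace Pool.Agent.H.MP_ebc13b_lc.h61

open Pool.Agent.H.MP_5be563_lc.PT

/-- states of the iterative version of `aug` -/
abbrev St := (List ℕ × List (ℕ × ℕ) × List (ℕ × ℕ)) × List (List (ℕ × ℕ) × List ℕ) ×
  Option (Option (List (ℕ × ℕ)))

/-- one step of the iterative version of `aug` -/
def down (s : St) : St :=
  if s.2.2.isSome then s else
    (pick s.1.2.1 (forest s.1.1 s.1.2.1 s.1.2.2)).elim (s.1, s.2.1, some none) fun c =>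
      if (stem c.1 c.2).isEmpty then (s.1, s.2.1, some (some (augM s.1.2.2 c.1 c.2)))
      else ((cV (rst c.1 c.2) s.1.1, cE ((stem c.1 c.2).headD 0) (rst c.1 c.2) s.1.2.1,
        flowM s.1.2.2 c.1 c.2),
        (s.1.2.1, (stem c.1 c.2).headD 0 :: rst c.1 c.2) :: s.2.1, none)

@[fun_prop]
theorem Poly.down {α : Type} [Enc α] {s : α → St} (hs : Poly s) : Poly (fun a => down (s a)) := by
  unfold h61.down
  fun_prop

/-- expand along the stack -/
def unw (stk : List (List (ℕ × ℕ) × List ℕ)) (M : List (ℕ × ℕ)) : List (ℕ × ℕ) :=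
  stk.foldl (fun M c => expand c.1 c.2 M) M

theorem down_some (x : List ℕ × List (ℕ × ℕ) × List (ℕ × ℕ)) (stk : List (List (ℕ × ℕ) × List ℕ))
    (r : Option (List (ℕ × ℕ))) (n : ℕ) : down^[n] (x, stk, some r) = (x, stk, some r) := by
  induction n with
  | zero => rfl
  | succ n ih => rw [Function.iterate_succ_apply]; exact ih

theorem down_iter : ∀ (n : ℕ) (Vs : List ℕ) (Es M : List (ℕ × ℕ))
    (stk : List (List (ℕ × ℕ) × List ℕ)),
    (down^[n] ((Vs, Es, M), stk, none)).2.2.join.map
      (unw (down^[n] ((Vs, Es, M), stk, none)).2.1) = (aug n Vs Es M).map (unw stk)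
  | 0, _, _, _, _ => rfl
  | n + 1, Vs, Es, M, stk => by
    rw [Function.iterate_succ_apply]
    unfold aug
    cases hc : pick Es (forest Vs Es M) with
    | none =>
      have e : down ((Vs, Es, M), stk, none) = ((Vs, Es, M), stk, some none) := by
        simp only [down, hc, Option.isSome_none, Bool.false_eq_true, if_false, Option.elim_none]
      rw [e, down_some]
      rfl
    | some c =>
      by_cases hs : (stem c.1 c.2).isEmpty
      · have e : down ((Vs, Es, M), stk, none) = ((Vs, Es, M), stk, some (some (augM M c.1 c.2))) := by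
          simp only [down, hc, Option.isSome_none, Bool.false_eq_true, if_false,
            Option.elim_some, if_pos hs]
        rw [e, down_some]
        simp only [if_pos hs]
        rfl
      · have e : down ((Vs, Es, M), stk, none) =
            ((cV (rst c.1 c.2) Vs, cE ((stem c.1 c.2).headD 0) (rst c.1 c.2) Es,
              flowM M c.1 c.2), (Es, (stem c.1 c.2).headD 0 :: rst c.1 c.2) :: stk, none) := by
          simp only [down, hc, Option.isSome_none, Bool.false_eq_true, if_false,
            Option.elim_some, if_neg hs]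
        rw [e, down_iter n]
        simp only [if_neg hs, Option.map_map]
        rfl

/-- bounded states -/
structure SB (K V E L i C : ℕ) (s : St) : Prop where
  v : NB K s.1.1 ∧ s.1.1.length ≤ V
  e : EB K s.1.2.1 ∧ s.1.2.1.length ≤ E
  m : EB K s.1.2.2 ∧ s.1.2.2.length ≤ L + i * C
  k : s.2.1.length ≤ i ∧ ∀ c ∈ s.2.1, (EB K c.1 ∧ c.1.length ≤ E) ∧ NB K c.2 ∧ c.2.length ≤ 2 * C + 1
  r : ∀ r M, s.2.2 = some r → r = some M → EB K M ∧ M.length ≤ L + i * C + 2 * C

theorem stem_le (p q : List ℕ) : (stem p q).length ≤ p.length := List.length_filter_le _ _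

theorem rst_le (p q : List ℕ) : (rst p q).length ≤ p.length + q.length := by
  unfold rst
  rw [List.length_append, List.length_reverse]
  have h1 := List.length_filter_le (fun x => !(memb x q)) p
  have h2 := List.length_filter_le (fun x => !(memb x p)) q
  omega

theorem NB.stem {K : ℕ} {p q : List ℕ} (h : NB K p) : NB K (stem p q) := by
  intro x hx
  unfold h61.stem at hx
  exact h x (List.mem_filter.1 hx).1

theorem NB.rst {K : ℕ} {p q : List ℕ} (h : NB K p) (h' : NB K q) : NB K (rst p q) := by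
  intro x hx
  unfold h61.rst at hx
  rcases List.mem_append.1 hx with hx | hx
  · exact h x (List.mem_filter.1 (List.mem_reverse.1 hx)).1
  · exact h' x (List.mem_filter.1 hx).1

theorem NB.tail {K : ℕ} {l : List ℕ} (h : NB K l) : NB K l.tail :=
  fun x hx => h x (List.mem_of_mem_tail hx)

theorem NB.reverse {K : ℕ} {l : List ℕ} (h : NB K l) : NB K l.reverse :=
  fun x hx => h x (List.mem_reverse.1 hx)

theorem con_le {K z : ℕ} {r : List ℕ} {x : ℕ} (hz : z ≤ K) (hx : x ≤ K) : con z r x ≤ K := by
  unfold con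
  split_ifs <;> assumption

theorem length_flowM_le (M : List (ℕ × ℕ)) (p q : List ℕ) :
    (flowM M p q).length ≤ M.length + p.length := by
  unfold flowM
  rw [List.length_append]
  have h1 := List.length_filter_le (fun e : ℕ × ℕ => !(memb e.1 (stem p q ++ rst p q))) M
  have h2 := length_pairUp_le (stem p q).tail
  have h3 := stem_le p q
  rw [List.length_tail] at h2
  omega

theorem length_augM_le (M : List (ℕ × ℕ)) (p q : List ℕ) :
    (augM M p q).length ≤ M.length + (p.length + q.length) := by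
  unfold augM
  rw [List.length_append]
  have h1 := List.length_filter_le (fun e : ℕ × ℕ => !(memb e.1 (p.reverse ++ q))) M
  have h2 := length_pairUp_le (p.reverse ++ q)
  rw [List.length_append, List.length_reverse] at h2
  omega

theorem SB.step {K V E L i C : ℕ} {s : St} (h : SB K V E L i C s) (hC : 1 + 2 * (V + 1) ≤ C) :
    SB K V E L (i + 1) C (down s) := by
  have hi : (i + 1) * C = i * C + C := by ring
  have hmono : SB K V E L (i + 1) C s := by
    refine ⟨h.v, h.e, ⟨h.m.1, ?_⟩, ⟨?_, h.k.2⟩, ?_⟩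
    · have := h.m.2; omega
    · have := h.k.1; omega
    · intro r M h1 h2
      have := h.r r M h1 h2
      exact ⟨this.1, by omega⟩
  unfold h61.down
  by_cases hs : s.2.2.isSome
  · rw [if_pos hs]; exact hmono
  · rw [if_neg hs]
    cases hc : pick s.1.2.1 (forest s.1.1 s.1.2.1 s.1.2.2) with
    | none =>
      simp only [Option.elim_none]
      refine ⟨hmono.v, hmono.e, hmono.m, hmono.k, ?_⟩
      intro r M h1 h2
      simp only [Option.some.injEq] at h1
      rw [← h1] at h2
      simp at h2
    | some c =>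
      obtain ⟨p, q⟩ := c
      obtain ⟨hp, hq, _⟩ := pick_some hc
      have hg := grow_bd (K := K) h.v.1 h.e.1 h.m.1 (s.1.1.length + 1)
      have hV := h.v.2
      have hp1 := hg.2 p hp
      have hq1 := hg.2 q hq
      have hpC : p.length ≤ C := by omega
      have hqC : q.length ≤ C := by omega
      have hz : (stem p q).headD 0 ≤ K := (NB.stem hp1.2).headD
      simp only [Option.elim_some]
      by_cases hst : (stem p q).isEmpty
      · rw [if_pos hst]
        refine ⟨hmono.v, hmono.e, hmono.m, hmono.k, ?_⟩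
        intro r M h1 h2
        simp only [Option.some.injEq] at h1
        rw [← h1, Option.some.injEq] at h2
        subst h2
        constructor
        · unfold augM
          refine EB.append ?_ (EB.pairUp ((NB.reverse hp1.2).append hq1.2))
          intro x hx
          exact h.m.1 x (List.mem_filter.1 hx).1
        · have := length_augM_le s.1.2.2 p q
          have h3 := h.m.2
          omega
      · rw [if_neg hst]
        refine ⟨⟨?_, ?_⟩, ⟨?_, ?_⟩, ⟨?_, ?_⟩, ⟨?_, ?_⟩, ?_⟩
        · intro x hx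
          exact h.v.1 x (mem_cV.1 hx).1
        · exact (List.length_filter_le _ _).trans hV
        · rintro ⟨x, y⟩ hx
          obtain ⟨_, a, b, hab, rfl, rfl⟩ := mem_cE.1 hx
          exact ⟨con_le hz (h.e.1 _ hab).1, con_le hz (h.e.1 _ hab).2⟩
        · refine (List.length_filter_le _ _).trans ?_
          rw [List.length_map]
          exact h.e.2
        · unfold flowM
          refine EB.append ?_ (EB.pairUp (NB.tail (NB.stem hp1.2)))
          intro x hx
          exact h.m.1 x (List.mem_filter.1 hx).1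
        · have := length_flowM_le s.1.2.2 p q
          have h3 := h.m.2
          simp only
          omega
        · simp only [List.length_cons]
          have := h.k.1
          omega
        · intro c hc'
          rcases List.mem_cons.1 hc' with rfl | hc'
          · refine ⟨h.e, ?_, ?_⟩
            · intro x hx
              rcases List.mem_cons.1 hx with rfl | hx
              · exact hz
              · exact (NB.rst hp1.2 hq1.2) x hx
            · have := rst_le p q
              simp only [List.length_cons]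
              omega
          · exact h.k.2 c hc'
        · intro r M h1 h2
          simp at h1

theorem SB.iter {K V E L C : ℕ} {s : St} (hC : 1 + 2 * (V + 1) ≤ C) (h : SB K V E L 0 C s)
    (n : ℕ) : SB K V E L n C (down^[n] s) := by
  induction n with
  | zero => exact h
  | succ n ih => rw [Function.iterate_succ_apply']; exact ih.step hC

theorem expand_bd {K : ℕ} {Es M : List (ℕ × ℕ)} {c : List ℕ} (hc : NB K c)
    (hM : EB K M) : EB K (expand Es c M) ∧ (expand Es c M).length ≤ M.length + (c.length + 1) := by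
  have hport : port Es c M ≤ K := by
    unfold port
    apply NB.headD
    intro x hx
    exact hc x (List.mem_filter.1 hx).1
  have hmate : mate M (c.headD 0) ≤ K := mate_le hM hc.headD
  have hrot : NB K (rotTo (port Es c M) c) := by
    intro x hx
    exact hc x ((rot_iter_perm _ _ _).mem_iff.1 hx)
  have hrotl : (rotTo (port Es c M) c).length = c.length := (rot_iter_perm _ _ _).length_eq
  unfold expand
  split_ifs
  · constructor
    · refine EB.append ?_ ?_
      · intro x hx
        unfold avoid at hx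
        exact hM x (List.mem_filter.1 hx).1
      · intro x hx
        rcases List.mem_cons.1 hx with rfl | hx
        · exact ⟨hport, hmate⟩
        · exact EB.pairUp hrot.tail x hx
    · rw [List.length_append, List.length_cons]
      have h1 : (avoid (c.headD 0) M).length ≤ M.length := List.length_filter_le _ _
      have h2 := length_pairUp_le (rotTo (port Es c M) c).tail
      rw [List.length_tail, hrotl] at h2
      omega
  · constructor
    · exact EB.append hM (EB.pairUp hc.tail)
    · rw [List.length_append]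
      have h2 := length_pairUp_le c.tail
      rw [List.length_tail] at h2
      omega

theorem unw_bd {K C : ℕ} : ∀ (stk : List (List (ℕ × ℕ) × List ℕ)) (M : List (ℕ × ℕ)),
    (∀ c ∈ stk, NB K c.2 ∧ c.2.length ≤ 2 * C + 1) → EB K M →
    EB K (unw stk M) ∧ (unw stk M).length ≤ M.length + stk.length * (2 * C + 2)
  | [], M, _, hM => ⟨hM, by simp [unw]⟩
  | c :: stk, M, h, hM => by
    obtain ⟨h1, h2⟩ := h c List.mem_cons_self
    obtain ⟨h3, h4⟩ := expand_bd (Es := c.1) h1 hM
    obtain ⟨h5, h6⟩ := unw_bd stk (expand c.1 c.2 M)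
      (fun d hd => h d (List.mem_cons_of_mem _ hd)) h3
    refine ⟨h5, ?_⟩
    have e : unw (c :: stk) M = unw stk (expand c.1 c.2 M) := rfl
    rw [e, List.length_cons, Nat.add_mul]
    omega

theorem aug_eq (n : ℕ) (Vs : List ℕ) (Es M : List (ℕ × ℕ)) : aug n Vs Es M =
    (down^[n] ((Vs, Es, M), [], none)).2.2.join.map
      (unw (down^[n] ((Vs, Es, M), [], none)).2.1) := by
  rw [down_iter]
  have : unw [] = id := rfl
  rw [this, Option.map_id_fun, id_eq]

theorem sb_init {K V E L C : ℕ} {Vs : List ℕ} {Es M : List (ℕ × ℕ)} (hV : NB K Vs)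
    (hV' : Vs.length ≤ V) (hE : EB K Es) (hE' : Es.length ≤ E) (hM : EB K M)
    (hM' : M.length ≤ L) : SB K V E L 0 C ((Vs, Es, M), [], none) :=
  ⟨⟨hV, hV'⟩, ⟨hE, hE'⟩, ⟨hM, by simp only; omega⟩, ⟨le_rfl, by simp⟩, by intro r M h1; simp at h1⟩

theorem aug_bd {K V L C n : ℕ} {Vs : List ℕ} {Es M M' : List (ℕ × ℕ)} (hV : NB K Vs)
    (hV' : Vs.length ≤ V) (hE : EB K Es) (hM : EB K M) (hC : 1 + 2 * (V + 1) ≤ C)
    (hM' : M.length ≤ L) (h : aug n Vs Es M = some M') :
    EB K M' ∧ M'.length ≤ L + n * C + 2 * C + n * (2 * C + 2) := by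
  have hS := (sb_init (C := C) hV hV' hE le_rfl hM hM').iter hC n
  rw [aug_eq, Option.map_eq_some_iff] at h
  obtain ⟨M1, h1, rfl⟩ := h
  rw [Option.join_eq_some_iff] at h1
  obtain ⟨h2, h3⟩ := hS.r _ M1 h1 rfl
  obtain ⟨h4, h5⟩ := unw_bd (K := K) (C := C) (down^[n] ((Vs, Es, M), [], none)).2.1 M1
    (fun c hc => (hS.k.2 c hc).2) h2
  refine ⟨h4, h5.trans ?_⟩
  have := Nat.mul_le_mul_right (2 * C + 2) hS.k.1
  omega

theorem sz_stk {K E C i : ℕ} {stk : List (List (ℕ × ℕ) × List ℕ)} (h1 : stk.length ≤ i)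
    (h2 : ∀ c ∈ stk, (EB K c.1 ∧ c.1.length ≤ E) ∧ NB K c.2 ∧ c.2.length ≤ 2 * C + 1) :
    sz stk ≤ i * (E * (4 * K + 4) + 1 + ((2 * C + 1) * (2 * K + 2) + 1) + 1 + 1) + 1 := by
  refine (sz_le_of_forall stk (E * (4 * K + 4) + 1 + ((2 * C + 1) * (2 * K + 2) + 1) + 1) ?_).trans
    (Nat.add_le_add_right (Nat.mul_le_mul_right _ h1) 1)
  intro c hc
  obtain ⟨⟨h3, h4⟩, h5, h6⟩ := h2 c hc
  have h7 := h3.sz_le h4
  have h8 := h5.sz_le h6
  rw [sz_prod]
  omega

theorem SB.sz_le {K V E L i C : ℕ} {s : St} (h : SB K V E L i C s) :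
    sz s ≤ (V * (2 * K + 2) + 1) + (E * (4 * K + 4) + 1) + ((L + i * C) * (4 * K + 4) + 1) +
      (i * (E * (4 * K + 4) + 1 + ((2 * C + 1) * (2 * K + 2) + 1) + 1 + 1) + 1) +
      ((L + i * C + 2 * C) * (4 * K + 4) + 1) + 8 := by
  have h1 := h.v.1.sz_le h.v.2
  have h2 := h.e.1.sz_le h.e.2
  have h3 := h.m.1.sz_le h.m.2
  have h4 := sz_stk h.k.1 h.k.2
  have h5 : sz s.2.2 ≤ ((L + i * C + 2 * C) * (4 * K + 4) + 1) + 4 := by
    cases hr : s.2.2 with
    | none => simp
    | some r =>
      cases r with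
      | none => simp
      | some M =>
        obtain ⟨h6, h7⟩ := h.r _ M hr rfl
        have := h6.sz_le h7
        rw [sz_some, sz_some]
        omega
  rw [sz_prod, sz_prod, sz_prod, sz_prod]
  omega

section
variable {α : Type} [Enc α]

theorem Poly.unw {stk : α → List (List (ℕ × ℕ) × List ℕ)} {M : α → List (ℕ × ℕ)}
    (hs : Poly stk) (hM : Poly M) : Poly (fun a => unw (stk a) (M a)) := by
  have hK : PBdd (fun a => sz (stk a) + sz (M a)) := hs.sz_le.add hM.sz_le
  refine Poly.foldl (f := fun p : α × List (ℕ × ℕ) × (List (ℕ × ℕ) × List ℕ) =>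
      h61.expand p.2.2.1 p.2.2.2 p.2.1) (l := stk) (s0 := M)
    (B := fun a => (sz (M a) + sz (stk a) * (2 * sz (stk a) + 2)) *
      (4 * (sz (stk a) + sz (M a)) + 4) + 1) (by fun_prop) hs hM
    (((hM.sz_le.add (hs.sz_le.mul (((PBdd.const 2).mul hs.sz_le).add (PBdd.const 2)))).mul
      (((PBdd.const 4).mul hK).add (PBdd.const 4))).add (PBdd.const 1)) ?_
  intro a l₁ l₂ hl
  have h1 : ∀ c ∈ l₁, NB (sz (stk a) + sz (M a)) c.2 ∧ c.2.length ≤ 2 * sz (stk a) + 1 := by
    intro c hc
    have h2 : sz c < sz (stk a) := sz_mem_lt (by rw [hl]; exact List.mem_append_left _ hc)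
    rw [sz_prod] at h2
    refine ⟨(nb_sz _).mono (by omega), ?_⟩
    have := length_lt_sz c.2
    omega
  obtain ⟨h2, h3⟩ := unw_bd (K := sz (stk a) + sz (M a)) (C := sz (stk a)) l₁ (M a) h1
    ((eb_sz _).mono (by omega))
  have h4 : l₁.length ≤ sz (stk a) := by
    have := length_lt_sz (stk a)
    rw [hl, List.length_append] at this
    rw [hl]
    omega
  have h5 := Nat.mul_le_mul_right (2 * sz (stk a) + 2) h4
  have h6 := length_lt_sz (M a)
  exact h2.sz_le (by omega)

theorem Poly.join {β : Type} [Enc β] {o : α → Option (Option β)} (h : Poly o) :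
    Poly (fun a => (o a).join) := by
  have : Poly (fun a => (o a).getD none) := by fun_prop
  refine (show (fun a => (o a).join) = _ from ?_) ▸ this
  funext a
  cases o a <;> rfl

theorem Poly.aug {n : α → ℕ} {Vs : α → List ℕ} {Es M : α → List (ℕ × ℕ)} (hn : Poly n)
    (hV : Poly Vs) (hE : Poly Es) (hM : Poly M) :
    Poly (fun a => aug (n a) (Vs a) (Es a) (M a)) := by
  have hK : PBdd (fun a => sz (Vs a) + sz (Es a) + sz (M a)) := (hV.sz_le.add hE.sz_le).add hM.sz_le
  have hK4 : PBdd (fun a => 4 * (sz (Vs a) + sz (Es a) + sz (M a)) + 4) :=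
    ((PBdd.const 4).mul hK).add (PBdd.const 4)
  have hK2 : PBdd (fun a => 2 * (sz (Vs a) + sz (Es a) + sz (M a)) + 2) :=
    ((PBdd.const 2).mul hK).add (PBdd.const 2)
  have hC : PBdd (fun a => 1 + 2 * (sz (Vs a) + 1)) :=
    (PBdd.const 1).add ((PBdd.const 2).mul (hV.sz_le.add (PBdd.const 1)))
  have hN : PBdd (fun a => sz (n a)) := hn.sz_le
  have hL : PBdd (fun a => sz (M a) + sz (n a) * (1 + 2 * (sz (Vs a) + 1))) :=
    hM.sz_le.add (hN.mul hC)
  have key : Poly (fun a => h61.down^[n a] ((Vs a, Es a, M a), [], none)) := by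
    refine Poly.iterate (f := fun _ s => h61.down s) (s := fun a => ((Vs a, Es a, M a), [], none))
      (n := n)
      (B := fun a => (sz (Vs a) * (2 * (sz (Vs a) + sz (Es a) + sz (M a)) + 2) + 1) +
        (sz (Es a) * (4 * (sz (Vs a) + sz (Es a) + sz (M a)) + 4) + 1) +
        ((sz (M a) + sz (n a) * (1 + 2 * (sz (Vs a) + 1))) *
          (4 * (sz (Vs a) + sz (Es a) + sz (M a)) + 4) + 1) +
        (sz (n a) * (sz (Es a) * (4 * (sz (Vs a) + sz (Es a) + sz (M a)) + 4) + 1 +
          ((2 * (1 + 2 * (sz (Vs a) + 1)) + 1) * (2 * (sz (Vs a) + sz (Es a) + sz (M a)) + 2)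
            + 1) + 1 + 1) + 1) +
        ((sz (M a) + sz (n a) * (1 + 2 * (sz (Vs a) + 1)) + 2 * (1 + 2 * (sz (Vs a) + 1))) *
          (4 * (sz (Vs a) + sz (Es a) + sz (M a)) + 4) + 1) + 8)
      (by fun_prop) (by fun_prop) hn ?_ ?_
    · exact (((((hV.sz_le.mul hK2).add (PBdd.const 1)).add
        ((hE.sz_le.mul hK4).add (PBdd.const 1))).add ((hL.mul hK4).add (PBdd.const 1))).add
        ((hN.mul (((((hE.sz_le.mul hK4).add (PBdd.const 1)).add
          (((((PBdd.const 2).mul hC).add (PBdd.const 1)).mul hK2).add (PBdd.const 1))).add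
            (PBdd.const 1)).add (PBdd.const 1))).add (PBdd.const 1))).add
        (((hL.add ((PBdd.const 2).mul hC)).mul hK4).add (PBdd.const 1)) |>.add (PBdd.const 8)
    · intro a k hk
      have hl1 := length_lt_sz (Vs a)
      have hl2 := length_lt_sz (Es a)
      have hl3 := length_lt_sz (M a)
      have hS := (sb_init (K := sz (Vs a) + sz (Es a) + sz (M a)) (V := sz (Vs a))
        (E := sz (Es a)) (L := sz (M a)) (C := 1 + 2 * (sz (Vs a) + 1)) (Vs := Vs a)
        (Es := Es a) (M := M a) ((nb_sz _).mono (by omega)) (by omega)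
        ((eb_sz _).mono (by omega)) (by omega) ((eb_sz _).mono (by omega)) (by omega)).iter
        le_rfl k
      have h := hS.sz_le
      have hkn : k ≤ sz (n a) := by rw [sz_nat]; omega
      refine h.trans ?_
      gcongr
  have e : (fun a => h61.aug (n a) (Vs a) (Es a) (M a)) = fun a =>
      (h61.down^[n a] ((Vs a, Es a, M a), [], none)).2.2.join.map
      (h61.unw (h61.down^[n a] ((Vs a, Es a, M a), [], none)).2.1) := by
    funext a
    exact aug_eq _ _ _ _
  rw [e]
  exact Poly.omap (f := fun a M' => h61.unw (h61.down^[n a] ((Vs a, Es a, M a), [], none)).2.1 M')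
    (o := fun a => (h61.down^[n a] ((Vs a, Es a, M a), [], none)).2.2.join)
    (Poly.unw (Poly.comp (f := fun s : St => s.2.1) (by fun_prop)
      (Poly.comp key Poly.fst)) Poly.snd)
    (Poly.join (Poly.comp (f := fun s : St => s.2.2) (by fun_prop) key))

theorem mm_bd {K V C : ℕ} {Vs : List ℕ} {Es : List (ℕ × ℕ)} (hV : NB K Vs)
    (hV' : Vs.length ≤ V) (hE : EB K Es) (hC : 1 + 2 * (V + 1) ≤ C) (n k : ℕ) :
    EB K ((fun M => (aug n Vs Es M).getD M)^[k] []) ∧
      ((fun M => (aug n Vs Es M).getD M)^[k] []).length ≤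
        k * (n * C + 2 * C + n * (2 * C + 2)) := by
  induction k with
  | zero => exact ⟨by intro x hx; simp at hx, by simp⟩
  | succ k ih =>
    obtain ⟨h1, h2⟩ := ih
    rw [Function.iterate_succ_apply']
    cases hc : aug n Vs Es ((fun M => (aug n Vs Es M).getD M)^[k] []) with
    | none =>
      simp only [Option.getD_none]
      refine ⟨h1, h2.trans (Nat.mul_le_mul_right _ (Nat.le_succ k))⟩
    | some M' =>
      simp only [Option.getD_some]
      obtain ⟨h3, h4⟩ := aug_bd hV hV' hE h1 hC h2 hc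
      refine ⟨h3, h4.trans ?_⟩
      rw [Nat.add_mul]
      omega

@[fun_prop]
theorem Poly.maxMatch {Vs : α → List ℕ} {Es : α → List (ℕ × ℕ)} (hV : Poly Vs) (hE : Poly Es) :
    Poly (fun a => maxMatch (Vs a) (Es a)) := by
  have hK : PBdd (fun a => sz (Vs a) + sz (Es a)) := hV.sz_le.add hE.sz_le
  have hC : PBdd (fun a => 1 + 2 * (sz (Vs a) + 1)) :=
    (PBdd.const 1).add ((PBdd.const 2).mul (hV.sz_le.add (PBdd.const 1)))
  refine Poly.iterate (f := fun a M => (h61.aug ((Vs a).length + 1) (Vs a) (Es a) M).getD M)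
    (s := fun _ => []) (n := fun a => (Vs a).length + 1)
    (B := fun a => (sz (Vs a) * (sz (Vs a) * (1 + 2 * (sz (Vs a) + 1)) +
      2 * (1 + 2 * (sz (Vs a) + 1)) + sz (Vs a) * (2 * (1 + 2 * (sz (Vs a) + 1)) + 2))) *
      (4 * (sz (Vs a) + sz (Es a)) + 4) + 1) ?_ (by fun_prop) (by fun_prop) ?_ ?_
  · exact Poly.ogetD (Poly.aug (by fun_prop) (by fun_prop) (by fun_prop) (by fun_prop)) (by fun_prop)
  · exact ((hV.sz_le.mul (((hV.sz_le.mul hC).add ((PBdd.const 2).mul hC)).add
      (hV.sz_le.mul (((PBdd.const 2).mul hC).add (PBdd.const 2))))).mul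
      (((PBdd.const 4).mul hK).add (PBdd.const 4))).add (PBdd.const 1)
  · intro a k hk
    have hl := length_lt_sz (Vs a)
    obtain ⟨h1, h2⟩ := mm_bd (K := sz (Vs a) + sz (Es a)) (V := sz (Vs a))
      (C := 1 + 2 * (sz (Vs a) + 1)) (Vs := Vs a) (Es := Es a) ((nb_sz _).mono (by omega))
      (by omega) ((eb_sz _).mono (by omega)) le_rfl ((Vs a).length + 1) k
    refine h1.sz_le (h2.trans ?_)
    have h3 : k ≤ sz (Vs a) := by omega
    have h4 : (Vs a).length + 1 ≤ sz (Vs a) := by omega
    gcongr

end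

end Pool.Agent.H.MP_ebc13b_lc.h61
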