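import Pool.Agent.H.MP_ebc13b_lc.h61.Col
import Pool.Agent.H.MP_ebc13b_lc.h61.PolyB

/-!
The algorithm and its correctness for prismatic graphs with disjoint triangles.
-/

namespace Pool.Agent.H.MP_ebc13b_lc.h61

open Pool.Agent.H.MP_5be563_lc.PT (memb memb_iff)

/-- the vertices in no triangle -/
def restL (n : ℕ) (Es : List (ℕ × ℕ)) : List ℕ :=
  (List.range n).filter fun v => !((triL n Es).any fun c => memb v c)

/-- the edges between these vertices -/
def restE (n : ℕ) (Es : List (ℕ × ℕ)) : List (ℕ × ℕ) :=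
  Es.filter fun e => memb e.1 (restL n Es) && memb e.2 (restL n Es)

/-- precision -/
def prec (n : ℕ) : ℕ := 2 * n * (n + 2) + 1

/-- the test for given numbers of triangles and edges -/
def test (n : ℕ) (Es : List (ℕ × ℕ)) (k τ h : ℕ) : Bool :=
  (decide (n = 3 * τ + 2 * h) && decide (τ + h ≤ k)) &&
    (decide ((restL n Es).length + 3 * τ ≤
      2 * (maxMatch (restL n Es) (restE n Es)).length + (n - (restL n Es).length)) &&
    perc n τ h (triL n Es) (edgL n Es)
      (n * ((τ + h + 1) * (τ + h + 1)) * (prec n * prec n) + 1) (prec n))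

/-- the algorithm -/
def alg (n : ℕ) (Es : List (ℕ × ℕ)) (k : ℕ) : Bool :=
  decide (n ≤ k + (maxMatch (List.range n) Es).length) ||
    (List.range (n + 1)).any fun τ => (List.range (n + 1)).any fun h => test n Es k τ h

section
variable {n : ℕ} {Es : List (ℕ × ℕ)}

theorem isG_range (hG : Gr (Finset.range n) (EE Es)) : IsG (List.range n) Es :=
  ⟨fun _ _ h => hG.sym _ _ h, fun _ h => hG.irr _ h,
    fun _ _ h => List.mem_range.2 (Finset.mem_range.1 (hG.mem _ _ h)), List.nodup_range⟩

theorem mem_restL (hG : Gr (Finset.range n) (EE Es)) {v : ℕ} :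
    v ∈ restL n Es ↔ v < n ∧ ¬ Core (EE Es) v := by
  unfold restL
  simp only [List.mem_filter, List.mem_range, Bool.not_eq_true', List.any_eq_false, memb_iff]
  constructor
  · rintro ⟨h1, h2⟩
    refine ⟨h1, ?_⟩
    rintro ⟨b, d, h3⟩
    have hb : b < n := Finset.mem_range.1 (hG.mem' h3.1)
    have hd : d < n := Finset.mem_range.1 (hG.mem' h3.2.2)
    have e1 := hG.ne h3.1
    have e2 := hG.ne h3.2.1
    have e3 := hG.ne h3.2.2
    -- sort the three vertices
    have key : ∀ i j k, i < n → j < n → k < n → i < j → j < k → Tri (EE Es) i j k →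
        v = i ∨ v = j ∨ v = k → False := by
      intro i j k hi hj hk hij hjk hT hv
      refine h2 [i, j, k] (mem_triL.2 ⟨i, j, k, rfl, hi, hj, hk, hij, hjk, hT⟩) ?_
      simpa using hv
    rcases lt_or_gt_of_ne e1 with g1 | g1 <;> rcases lt_or_gt_of_ne e2 with g2 | g2 <;>
      rcases lt_or_gt_of_ne e3 with g3 | g3
    · exact key v b d h1 hb hd g1 g2 h3 (Or.inl rfl)
    · omega
    · exact key v d b h1 hd hb g3 g2 (h3.swap hG) (Or.inl rfl)
    · exact key d v b hd h1 hb g3 g1 ((h3.rot hG).rot hG) (Or.inr (Or.inl rfl))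
    · exact key b v d hb h1 hd g1 g3 ((h3.rot hG).swap hG) (Or.inr (Or.inl rfl))
    · exact key b d v hb hd h1 g2 g3 (h3.rot hG) (Or.inr (Or.inr rfl))
    · omega
    · exact key d b v hd hb h1 g2 g1 (((h3.rot hG).rot hG).swap hG) (Or.inr (Or.inr rfl))
  · rintro ⟨h1, h2⟩
    refine ⟨h1, ?_⟩
    intro c hc hv
    obtain ⟨i, j, k, rfl, _, _, _, _, _, h3⟩ := mem_triL.1 hc
    apply h2
    simp only [List.mem_cons, List.not_mem_nil, or_false] at hv
    rcases hv with rfl | rfl | rfl
    · exact ⟨_, _, h3⟩
    · exact ⟨_, _, h3.rot hG⟩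
    · exact ⟨_, _, (h3.rot hG).rot hG⟩

theorem nodup_restL : (restL n Es).Nodup := List.nodup_range.filter _

theorem mem_restE {x y : ℕ} :
    (x, y) ∈ restE n Es ↔ (x, y) ∈ Es ∧ x ∈ restL n Es ∧ y ∈ restL n Es := by
  unfold restE
  simp only [List.mem_filter, Bool.and_eq_true, memb_iff]

theorem isG_rest (hG : Gr (Finset.range n) (EE Es)) : IsG (restL n Es) (restE n Es) := by
  refine ⟨?_, ?_, ?_, nodup_restL⟩
  · intro x y h
    rw [mem_restE] at h ⊢
    exact ⟨hG.sym _ _ h.1, h.2.2, h.2.1⟩
  · intro x h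
    rw [mem_restE] at h
    exact hG.irr _ h.1
  · intro x y h
    rw [mem_restE] at h
    exact h.2.1

theorem mch_rest {M : List (ℕ × ℕ)} :
    Mch (EE Es) (restL n Es).toFinset M ↔ IsMat (restE n Es) M := by
  constructor
  · rintro ⟨h1, h2⟩
    refine ⟨fun p hp => ?_, h2⟩
    have h3 := h1 p hp
    rw [List.mem_toFinset, List.mem_toFinset] at h3
    exact mem_restE.2 h3
  · rintro ⟨h1, h2⟩
    refine ⟨fun p hp => ?_, h2⟩
    have h3 := mem_restE.1 (h1 p hp)
    rw [List.mem_toFinset, List.mem_toFinset]
    exact h3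

theorem prec_pos : 0 < prec n := by unfold prec; omega

/-- Soundness of the test. -/
theorem test_sound (hG : Gr (Finset.range n) (EE Es)) (hP : Prismatic (Finset.range n) (EE Es))
    (hC : Clean (EE Es)) {k τ h : ℕ} (ht : test n Es k τ h = true) :
    ColK (Finset.range n) (EE Es) k := by
  classical
  unfold test at ht
  simp only [Bool.and_eq_true, decide_eq_true_eq] at ht
  obtain ⟨⟨hn, hk⟩, hρ, hperc⟩ := ht
  set R := (restL n Es).toFinset with hRdef
  have hR : ∀ v, v ∈ R ↔ v ∈ Finset.range n ∧ ¬ Core (EE Es) v := by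
    intro v
    rw [hRdef, List.mem_toFinset, mem_restL hG, Finset.mem_range]
  have hRc : R.card = (restL n Es).length := List.toFinset_card_of_nodup nodup_restL
  rw [← hRc] at hρ
  obtain ⟨hM1, _⟩ := maxMatch_spec (isG_rest hG)
  set MR := maxMatch (restL n Es) (restE n Es) with hMR
  have hMR1 : Mch (EE Es) R MR := mch_rest.2 hM1
  have hMR2 := card_of_mch hG hMR1
  have hRn : R.card ≤ n := by
    have : R ⊆ Finset.range n := fun v hv => ((hR v).1 hv).1
    simpa using Finset.card_le_card this
  by_cases hcore : ∃ v, Core (EE Es) v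
  · obtain ⟨a, b', d, hT⟩ := hcore
    obtain ⟨m, t, cls, c, hm0, hL⟩ := exists_lin hG hP hC (a := ![a, b', d]) hT
    have hcorec : R.card + 3 * m = n := by
      have h1 : Finset.range n = R ∪ tset t (Finset.range m) := by
        ext v
        rw [Finset.mem_union, hR, ← core_iff hG hL]
        constructor
        · intro h1
          by_cases h2 : Core (EE Es) v
          · exact Or.inr h2
          · exact Or.inl ⟨h1, h2⟩
        · rintro (h1 | h1)
          · exact h1.1
          · exact h1.mem hG
      have h2 : Disjoint R (tset t (Finset.range m)) := by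
        rw [Finset.disjoint_left]
        intro v hv hv'
        exact ((hR v).1 hv).2 ((core_iff hG hL).2 hv')
      have h3 := congrArg Finset.card h1
      rw [Finset.card_union_of_disjoint h2, card_tset hL (Finset.Subset.refl _),
        Finset.card_range, Finset.card_range] at h3
      omega
    have hτm : τ ≤ m := by omega
    obtain ⟨b, hb⟩ := Nat.exists_eq_add_of_le hτm
    obtain ⟨z, y, hz, hy, hcov⟩ := perc_sound (Nat.succ_pos _) prec_pos hperc
    have hF := fs_of_frac hG hC hL hz hy hcov hb.symm
    have hX : (Finset.range n).Nonempty := ⟨a, hG.mem _ _ hT.1⟩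
    have hεδ : (1 : ℚ) / (prec n : ℚ) * (Finset.range n).card ≤ 1 / (2 * (m + 2)) := by
      have hmn : m ≤ n := by omega
      rw [Finset.card_range, div_mul_eq_mul_div, one_mul,
        div_le_div_iff₀ (by exact_mod_cast prec_pos) (by positivity)]
      have : n * (2 * (m + 2)) ≤ 1 * prec n := by
        unfold prec
        nlinarith
      exact_mod_cast this
    obtain ⟨U, hU, hUb, M, hM, hMl⟩ := clean_round hG hP hC hL hF (by positivity) hεδ hX hR
      (by omega) ⟨MR, hMR1, by omega⟩
    -- the covering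
    have hall : ∀ v ∈ R ∪ tset t U, v ∈ ends M := by
      have h1 : (ends M).toFinset ⊆ R ∪ tset t U := by
        intro v hv
        rw [List.mem_toFinset] at hv
        obtain ⟨p, hp, h1⟩ := mem_ends.1 hv
        rcases h1 with rfl | rfl
        · exact (hM.1 p hp).2.1
        · exact (hM.1 p hp).2.2
      have hd : Disjoint R (tset t U) := by
        rw [Finset.disjoint_left]
        intro v hv hv'
        obtain ⟨j, hj, i, rfl⟩ := mem_tset.1 hv'
        exact ((hR _).1 hv).2 (hL.tcore hG (Finset.mem_range.1 (hU hj)) i)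
      have h2 : (ends M).toFinset = R ∪ tset t U := by
        apply Finset.eq_of_subset_of_card_le h1
        rw [List.toFinset_card_of_nodup hM.2, length_ends, Finset.card_union_of_disjoint hd,
          card_tset hL hU]
        omega
      intro v hv
      rw [← h2, List.mem_toFinset] at hv
      exact hv
    refine colK_of_cover ((M.map fun p => ({p.1, p.2} : Finset ℕ)) ++
      ((Finset.range m \ U).toList.map fun j => ({t j 0, t j 1, t j 2} : Finset ℕ))) ?_ ?_ ?_
    · intro q hq u hu v hv huv
      rcases List.mem_append.1 hq with hq | hq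
      · obtain ⟨p, hp, rfl⟩ := List.mem_map.1 hq
        have h1 := (hM.1 p hp).1
        rw [Finset.mem_insert, Finset.mem_singleton] at hu hv
        rcases hu with rfl | rfl <;> rcases hv with rfl | rfl
        · exact absurd rfl huv
        · exact h1
        · exact hG.sym _ _ h1
        · exact absurd rfl huv
      · obtain ⟨j, hj, rfl⟩ := List.mem_map.1 hq
        rw [Finset.mem_toList, Finset.mem_sdiff, Finset.mem_range] at hj
        have h1 := fun i k (hik : i ≠ k) => tri_adj hG (hL.tri j hj.1) (i := i) (k := k) hik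
        simp only [Finset.mem_insert, Finset.mem_singleton] at hu hv
        rcases hu with rfl | rfl | rfl <;> rcases hv with rfl | rfl | rfl <;>
          first | exact absurd rfl huv | exact h1 _ _ (by decide)
    · intro v hv
      by_cases h1 : v ∈ R ∪ tset t U
      · obtain ⟨p, hp, h2⟩ := mem_ends.1 (hall v h1)
        exact ⟨_, List.mem_append_left _ (List.mem_map.2 ⟨p, hp, rfl⟩), by
          rw [Finset.mem_insert, Finset.mem_singleton]; exact h2⟩
      · rw [Finset.mem_union, not_or] at h1
        have h2 : Core (EE Es) v := by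
          by_contra h2
          exact h1.1 ((hR v).2 ⟨hv, h2⟩)
        obtain ⟨j, hj, i, rfl⟩ := mem_tset.1 ((core_iff hG hL).1 h2)
        have h3 : j ∉ U := fun h => h1.2 (mem_tset.2 ⟨j, h, i, rfl⟩)
        refine ⟨{t j 0, t j 1, t j 2}, List.mem_append_right _ (List.mem_map.2 ⟨j, ?_, rfl⟩), ?_⟩
        · rw [Finset.mem_toList, Finset.mem_sdiff]
          exact ⟨hj, h3⟩
        · simp only [Finset.mem_insert, Finset.mem_singleton]
          fin_cases i
          · exact Or.inl rfl
          · exact Or.inr (Or.inl rfl)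
          · exact Or.inr (Or.inr rfl)
    · have h1 := Finset.card_sdiff_add_card_eq_card hU
      rw [Finset.card_range] at h1
      simp only [List.length_append, List.length_map, Finset.length_toList]
      omega
  · push Not at hcore
    have h1 : R = Finset.range n := by
      ext v
      rw [hR]
      exact ⟨fun h => h.1, fun h => ⟨h, hcore v⟩⟩
    have h2 : R.card = n := by rw [h1, Finset.card_range]
    apply colK_of_mch hG (M := MR) (h1 ▸ hMR1)
    rw [Finset.card_range]
    omega

/-- weights from colour classes -/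
theorem frac_of_fib {f : ℕ → ℕ} {A : List (List ℕ)} (S : Finset ℕ) (cs : ℕ → List ℕ)
    (h1 : ∀ s ∈ S, cs s ∈ A) (h2 : ∀ s ∈ S, ∀ v, v ∈ cs s ↔ v ∈ fib (Finset.range n) f s)
    (h3 : ∀ s ∈ S, (fib (Finset.range n) f s).Nonempty) :
    Frac n A S.card (fun c => if c ∈ S.image cs then 1 else 0) ∧
    ∀ v < n, cov A (fun c => if c ∈ S.image cs then 1 else 0) v = if f v ∈ S then 1 else 0 := by
  have hsub : S.image cs ⊆ A.toFinset := by
    intro c hc
    obtain ⟨s, hs, rfl⟩ := Finset.mem_image.1 hc
    exact List.mem_toFinset.2 (h1 s hs)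
  have hinj : Set.InjOn cs S := by
    intro a ha b hb hab
    obtain ⟨v, hv⟩ := h3 a ha
    have h4 := (h2 a ha v).2 hv
    rw [hab] at h4
    have h5 := (h2 b hb v).1 h4
    exact (mem_fib.1 hv).2.symm.trans (mem_fib.1 h5).2
  constructor
  · refine ⟨fun c _ => by split_ifs <;> norm_num, ?_⟩
    rw [← Finset.sum_filter, Finset.filter_mem_eq_inter, Finset.inter_eq_right.2 hsub,
      Finset.sum_const, Finset.card_image_of_injOn hinj]
    simp
  · intro v hv
    unfold cov
    have e : ∀ c ∈ A.toFinset, (if v ∈ c then (if c ∈ S.image cs then (1 : ℚ) else 0) else 0) =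
        if c ∈ S.image cs then (if v ∈ c then 1 else 0) else 0 := by
      intro c _
      split_ifs <;> rfl
    rw [Finset.sum_congr rfl e, ← Finset.sum_filter, Finset.filter_mem_eq_inter,
      Finset.inter_eq_right.2 hsub, Finset.sum_image hinj]
    have e2 : ∀ s ∈ S, (if v ∈ cs s then (1 : ℚ) else 0) = if f v = s then 1 else 0 := by
      intro s hs
      have h4 := h2 s hs v
      rw [mem_fib] at h4
      by_cases h5 : f v = s
      · rw [if_pos h5, if_pos (h4.2 ⟨Finset.mem_range.2 hv, h5⟩)]
      · rw [if_neg h5, if_neg fun h6 => h5 (h4.1 h6).2]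
    rw [Finset.sum_congr rfl e2, Finset.sum_ite_eq]

/-- Completeness. -/
theorem test_complete (hG : Gr (Finset.range n) (EE Es)) {k : ℕ} {f : ℕ → ℕ}
    (hf1 : ∀ v ∈ Finset.range n, f v < k)
    (hf2 : ∀ u ∈ Finset.range n, ∀ v ∈ Finset.range n, u ≠ v → f u = f v → EE Es u v)
    (hf3 : ∀ s, (fib (Finset.range n) f s).card = 0 ∨ (fib (Finset.range n) f s).card = 2 ∨
      (fib (Finset.range n) f s).card = 3) :
    ∃ τ ≤ n, ∃ h ≤ n, test n Es k τ h = true := by
  classical
  set X := Finset.range n with hX
  set S3 := (Finset.range k).filter fun s => (fib X f s).card = 3 with hS3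
  set S2 := (Finset.range k).filter fun s => (fib X f s).card = 2 with hS2
  have hsum : n = 3 * S3.card + 2 * S2.card := by
    have h5 : X.card = ∑ s ∈ Finset.range k, (fib X f s).card :=
      Finset.card_eq_sum_card_fiberwise fun v hv => Finset.mem_coe.2 (Finset.mem_range.2 (hf1 v hv))
    rw [hX, Finset.card_range] at h5
    rw [hS3, hS2, Finset.card_filter, Finset.card_filter, Finset.mul_sum, Finset.mul_sum,
      ← Finset.sum_add_distrib]
    rw [h5]
    apply Finset.sum_congr rfl
    intro s _
    rcases hf3 s with h | h | h <;> rw [h] <;> simp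
  have hcount : S3.card + S2.card ≤ k := by
    rw [← Finset.card_union_of_disjoint]
    · have : S3 ∪ S2 ⊆ Finset.range k := by
        intro s hs
        rcases Finset.mem_union.1 hs with hs | hs <;> exact (Finset.mem_filter.1 hs).1
      simpa using Finset.card_le_card this
    · rw [Finset.disjoint_left]
      intro s hs hs'
      have h1 := (Finset.mem_filter.1 hs).2
      have h2 := (Finset.mem_filter.1 hs').2
      omega
  refine ⟨S3.card, by omega, S2.card, by omega, ?_⟩
  -- elements of the classes
  have hadj : ∀ s, ∀ u ∈ fib X f s, ∀ v ∈ fib X f s, u ≠ v → EE Es u v := by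
    intro s u hu v hv huv
    rw [mem_fib] at hu hv
    exact hf2 u hu.1 v hv.1 huv (hu.2.trans hv.2.symm)
  have hlt : ∀ s, ∀ u ∈ fib X f s, u < n := fun s u hu => Finset.mem_range.1 (mem_fib.1 hu).1
  have hpair : ∀ s, ∃ p : ℕ × ℕ, (fib X f s).card = 2 → (p.1 < p.2 ∧ fib X f s = {p.1, p.2}) := by
    intro s
    by_cases h : (fib X f s).card = 2
    · obtain ⟨x, y, hxy, he⟩ := Finset.card_eq_two.1 h
      rcases lt_or_gt_of_ne hxy with h1 | h1
      · exact ⟨(x, y), fun _ => ⟨h1, he⟩⟩
      · exact ⟨(y, x), fun _ => ⟨h1, by rw [he, Finset.pair_comm]⟩⟩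
    · exact ⟨(0, 0), fun h' => absurd h' h⟩
  choose p hp using hpair
  have hp1 : ∀ s, (fib X f s).card = 2 → (p s).1 ∈ fib X f s ∧ (p s).2 ∈ fib X f s := by
    intro s hs
    have h1 := (hp s hs).2
    constructor <;> rw [h1] <;> simp
  have htrip : ∀ s, ∃ c : List ℕ, (fib X f s).card = 3 → (c ∈ triL n Es ∧
      ∀ v, v ∈ c ↔ v ∈ fib X f s) := by
    intro s
    by_cases h : (fib X f s).card = 3
    · have key : ∀ i j k, i < j → j < k → fib X f s = {i, j, k} →
          ∃ c : List ℕ, (fib X f s).card = 3 → (c ∈ triL n Es ∧ ∀ v, v ∈ c ↔ v ∈ fib X f s) := by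
        intro i j k hij hjk he
        have hi : i ∈ fib X f s := by rw [he]; simp
        have hj : j ∈ fib X f s := by rw [he]; simp
        have hk : k ∈ fib X f s := by rw [he]; simp
        refine ⟨[i, j, k], fun _ => ⟨mem_triL.2 ⟨i, j, k, rfl, hlt s i hi, hlt s j hj,
          hlt s k hk, hij, hjk, hadj s i hi j hj hij.ne, hadj s j hj k hk hjk.ne,
          hadj s i hi k hk (hij.trans hjk).ne⟩, ?_⟩⟩
        intro v
        rw [he]
        simp
      obtain ⟨x, y, z, hxy, hxz, hyz, he⟩ := Finset.card_eq_three.1 h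
      rcases lt_or_gt_of_ne hxy with g1 | g1 <;> rcases lt_or_gt_of_ne hyz with g2 | g2 <;>
        rcases lt_or_gt_of_ne hxz with g3 | g3
      · exact key x y z g1 g2 he
      · omega
      · exact key x z y g3 g2 (by rw [he]; ext v; simp; tauto)
      · exact key z x y g3 g1 (by rw [he]; ext v; simp; tauto)
      · exact key y x z g1 g3 (by rw [he]; ext v; simp; tauto)
      · exact key y z x g2 g3 (by rw [he]; ext v; simp; tauto)
      · omega
      · exact key z y x g2 g1 (by rw [he]; ext v; simp; tauto)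
    · exact ⟨[], fun h' => absurd h' h⟩
  choose c3 hc3 using htrip
  obtain ⟨hz, hzc⟩ := frac_of_fib (n := n) (f := f) (A := triL n Es) S3 c3
    (fun s hs => (hc3 s (Finset.mem_filter.1 hs).2).1)
    (fun s hs => (hc3 s (Finset.mem_filter.1 hs).2).2)
    (fun s hs => Finset.card_pos.1 (by rw [(Finset.mem_filter.1 hs).2]; norm_num))
  obtain ⟨hy, hyc⟩ := frac_of_fib (n := n) (f := f) (A := edgL n Es) S2
    (fun s => [(p s).1, (p s).2])
    (by
      intro s hs
      have hs2 := (Finset.mem_filter.1 hs).2
      obtain ⟨h1, h2⟩ := hp1 s hs2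
      have h3 := (hp s hs2).1
      exact mem_edgL.2 ⟨_, _, rfl, hlt s _ h1, hlt s _ h2, h3, hadj s _ h1 _ h2 h3.ne⟩)
    (by
      intro s hs v
      rw [(hp s (Finset.mem_filter.1 hs).2).2]
      simp)
    (fun s hs => Finset.card_pos.1 (by rw [(Finset.mem_filter.1 hs).2]; norm_num))
  have hcov : ∀ v < n, cov (triL n Es) (fun c => if c ∈ S3.image c3 then 1 else 0) v +
      cov (edgL n Es) (fun c => if c ∈ S2.image (fun s => [(p s).1, (p s).2]) then 1 else 0) v =
      1 := by
    intro v hv
    rw [hzc v hv, hyc v hv]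
    have hvX : v ∈ X := Finset.mem_range.2 hv
    have hvf : v ∈ fib X f (f v) := mem_fib.2 ⟨hvX, rfl⟩
    have hk := hf1 v hvX
    rcases hf3 (f v) with h | h | h
    · rw [Finset.card_eq_zero] at h
      rw [h] at hvf
      simp at hvf
    · have h1 : f v ∈ S2 := Finset.mem_filter.2 ⟨Finset.mem_range.2 hk, h⟩
      have h2 : f v ∉ S3 := fun h3 => by
        have := (Finset.mem_filter.1 h3).2
        omega
      rw [if_pos h1, if_neg h2, zero_add]
    · have h1 : f v ∈ S3 := Finset.mem_filter.2 ⟨Finset.mem_range.2 hk, h⟩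
      have h2 : f v ∉ S2 := fun h3 => by
        have := (Finset.mem_filter.1 h3).2
        omega
      rw [if_pos h1, if_neg h2, add_zero]
  have hperc : perc n S3.card S2.card (triL n Es) (edgL n Es)
      (n * ((S3.card + S2.card + 1) * (S3.card + S2.card + 1)) * (prec n * prec n) + 1)
      (prec n) = true := by
    refine perc_complete (cols_triL n Es) (cols_edgL n Es) hz hy hcov ?_
    rw [sq, sq]
    omega
  -- the condition on the rest
  have hρ : (restL n Es).length + 3 * S3.card ≤
      2 * (maxMatch (restL n Es) (restE n Es)).length + (n - (restL n Es).length) := by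
    set R := (restL n Es).toFinset with hRdef
    have hR : ∀ v, v ∈ R ↔ v ∈ X ∧ ¬ Core (EE Es) v := by
      intro v
      rw [hRdef, List.mem_toFinset, mem_restL hG, hX, Finset.mem_range]
    have hRX : R ⊆ X := fun v hv => ((hR v).1 hv).1
    have hRc : R.card = (restL n Es).length := List.toFinset_card_of_nodup nodup_restL
    rw [← hRc]
    set S := (Finset.range k).filter fun s => (fib X f s).card = 2 ∧ fib X f s ⊆ R with hS
    obtain ⟨h1, h2⟩ := mch_of_fib (E := EE Es) (W := R) (f := f) S p (by
      intro s hs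
      obtain ⟨_, hs2, hsR⟩ := Finset.mem_filter.1 hs
      obtain ⟨h3, h4⟩ := hp1 s hs2
      have h5 := (hp s hs2).1
      exact ⟨hadj s _ h3 _ h4 h5.ne, hsR h3, hsR h4, h5.ne, (mem_fib.1 h3).2, (mem_fib.1 h4).2⟩)
    have h3 := maxMatch_max (isG_rest hG) (mch_rest.1 h1)
    rw [h2] at h3
    have h4 : R.card = ∑ s ∈ Finset.range k, (fib X f s ∩ R).card := by
      rw [Finset.card_eq_sum_card_fiberwise (s := R) (t := Finset.range k) (f := f)
        (fun v hv => Finset.mem_coe.2 (Finset.mem_range.2 (hf1 v (hRX hv))))]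
      apply Finset.sum_congr rfl
      intro s _
      congr 1
      ext v
      rw [Finset.mem_filter, Finset.mem_inter, mem_fib]
      exact ⟨fun h => ⟨⟨hRX h.1, h.2⟩, h.1⟩, fun h => ⟨h.2, h.1.2⟩⟩
    have h5 : n - R.card = ∑ s ∈ Finset.range k, (fib X f s \ R).card := by
      have h6 : (X \ R).card = n - R.card := by
        rw [Finset.card_sdiff_of_subset hRX, hX, Finset.card_range]
      rw [← h6, Finset.card_eq_sum_card_fiberwise (s := X \ R) (t := Finset.range k) (f := f)
        (fun v hv => Finset.mem_coe.2 (Finset.mem_range.2 (hf1 v (Finset.mem_sdiff.1 hv).1)))]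
      apply Finset.sum_congr rfl
      intro s _
      congr 1
      ext v
      rw [Finset.mem_filter, Finset.mem_sdiff, Finset.mem_sdiff, mem_fib]
      tauto
    rw [h5, h4, hS3, Finset.card_filter, Finset.mul_sum, ← Finset.sum_add_distrib]
    refine le_trans (b := 2 * S.card + ∑ s ∈ Finset.range k, (fib X f s \ R).card) ?_ (by omega)
    rw [hS, Finset.card_filter, Finset.mul_sum, ← Finset.sum_add_distrib]
    apply Finset.sum_le_sum
    intro s _
    have h6 := Finset.card_inter_add_card_sdiff (fib X f s) R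
    rcases hf3 s with h | h | h
    · rw [h] at h6
      rw [if_neg (by omega), if_neg (by omega)]
      omega
    · rw [if_neg (by omega)]
      by_cases h7 : fib X f s ⊆ R
      · rw [if_pos ⟨h, h7⟩]
        omega
      · rw [if_neg fun h8 => h7 h8.2]
        have h8 : 0 < (fib X f s \ R).card := by
          obtain ⟨v, hv, hvR⟩ := Finset.not_subset.1 h7
          exact Finset.card_pos.2 ⟨v, Finset.mem_sdiff.2 ⟨hv, hvR⟩⟩
        omega
    · rw [if_pos h, if_neg (by omega)]
      have h7 : fib X f s ∩ R = ∅ := by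
        rw [Finset.eq_empty_iff_forall_notMem]
        intro v hv
        rw [Finset.mem_inter] at hv
        obtain ⟨x, y, z, hxy, hxz, hyz, he⟩ := Finset.card_eq_three.1 h
        have hx : x ∈ fib X f s := by rw [he]; simp
        have hy : y ∈ fib X f s := by rw [he]; simp
        have hz : z ∈ fib X f s := by rw [he]; simp
        have hT : Tri (EE Es) x y z := ⟨hadj s x hx y hy hxy, hadj s y hy z hz hyz,
          hadj s x hx z hz hxz⟩
        apply ((hR v).1 hv.2).2
        have hv1 := hv.1
        rw [he] at hv1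
        simp only [Finset.mem_insert, Finset.mem_singleton] at hv1
        rcases hv1 with rfl | rfl | rfl
        · exact ⟨_, _, hT⟩
        · exact ⟨_, _, hT.rot hG⟩
        · exact ⟨_, _, (hT.rot hG).rot hG⟩
      rw [h7] at h6 ⊢
      simp at h6 ⊢
      omega
  unfold test
  simp only [Bool.and_eq_true, decide_eq_true_eq]
  exact ⟨⟨hsum, hcount⟩, hρ, hperc⟩

/-- **Correctness of the algorithm.** -/
theorem alg_iff (hG : Gr (Finset.range n) (EE Es)) (hP : Prismatic (Finset.range n) (EE Es))
    (hC : Clean (EE Es)) (k : ℕ) : alg n Es k = true ↔ ColK (Finset.range n) (EE Es) k := by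
  unfold alg
  simp only [Bool.or_eq_true, decide_eq_true_eq, List.any_eq_true, List.mem_range]
  constructor
  · rintro (h | ⟨τ, _, h, _, ht⟩)
    · obtain ⟨h1, _⟩ := maxMatch_spec (isG_range hG)
      refine colK_of_mch hG (M := maxMatch (List.range n) Es) ⟨?_, h1.nd⟩
        (by rw [Finset.card_range]; exact h)
      intro p hp
      have h2 := h1.sub p hp
      exact ⟨h2, hG.mem _ _ h2, hG.mem' h2⟩
    · exact test_sound hG hP hC ht
  · intro h
    rcases colK_cases hG hP h with ⟨M, hM, h1⟩ | ⟨f, h1, h2, h3⟩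
    · left
      have h2 := maxMatch_max (isG_range hG) (M := M) ⟨fun p hp => (hM.1 p hp).1, hM.2⟩
      rw [Finset.card_range] at h1
      omega
    · right
      obtain ⟨τ, hτ, h, hh, ht⟩ := test_complete hG h1 h2 h3
      exact ⟨τ, by omega, h, by omega, ht⟩

end

end Pool.Agent.H.MP_ebc13b_lc.h61
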