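import Pool.Agent.H.MP_ebc13b_lc.h61.Expand

/-!
The algorithm for maximum matchings and its correctness.
-/

namespace Pool.Agent.H.MP_ebc13b_lc.h61

open Pool.Agent.H.MP_5be563_lc.PT (memb memb_iff)

/-- a pair of paths whose heads are adjacent -/
def pick (Es : List (ℕ × ℕ)) (E : List (List ℕ)) : Option (List ℕ × List ℕ) :=
  (E.flatMap fun p => (E.filter fun q => hasE Es (p.headD 0) (q.headD 0)).map fun q =>
    (p, q)).head?

theorem pick_none {Es : List (ℕ × ℕ)} {E : List (List ℕ)} (h : pick Es E = none) :
    ∀ p ∈ E, ∀ q ∈ E, (p.headD 0, q.headD 0) ∉ Es := by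
  intro p hp q hq hc
  unfold pick at h
  rw [List.head?_eq_none_iff, List.flatMap_eq_nil_iff] at h
  have h1 := h p hp
  rw [List.map_eq_nil_iff, List.filter_eq_nil_iff] at h1
  exact h1 q hq (hasE_iff.2 hc)

theorem pick_some {Es : List (ℕ × ℕ)} {E : List (List ℕ)} {p q : List ℕ}
    (h : pick Es E = some (p, q)) : p ∈ E ∧ q ∈ E ∧ (p.headD 0, q.headD 0) ∈ Es := by
  unfold pick at h
  have h1 := List.mem_of_mem_head? h
  simp only [List.mem_flatMap, List.mem_map, List.mem_filter, Prod.mk.injEq] at h1
  obtain ⟨a, ha, b, ⟨hb1, hb2⟩, rfl, rfl⟩ := h1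
  exact ⟨ha, hb1, hasE_iff.1 hb2⟩

/-- common part of two paths -/
def stem (p q : List ℕ) : List ℕ := p.filter fun x => memb x q

/-- the rest of the cycle formed by two paths -/
def rst (p q : List ℕ) : List ℕ :=
  (p.filter fun x => !(memb x q)).reverse ++ q.filter fun x => !(memb x p)

/-- augmentation -/
def augM (M : List (ℕ × ℕ)) (p q : List ℕ) : List (ℕ × ℕ) :=
  (M.filter fun e => !(memb e.1 (p.reverse ++ q))) ++ pairUp (p.reverse ++ q)

/-- the matching of the contracted graph -/
def flowM (M : List (ℕ × ℕ)) (p q : List ℕ) : List (ℕ × ℕ) :=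
  (M.filter fun e => !(memb e.1 (stem p q ++ rst p q))) ++ pairUp (stem p q).tail

theorem chain_mono_mem {R S : ℕ → ℕ → Prop} : ∀ {l : List ℕ}, l.IsChain R →
    (∀ a ∈ l, ∀ b ∈ l, R a b → S a b) → l.IsChain S
  | [], _, _ => by simp
  | [a], _, _ => by simp
  | a :: b :: t, h, hRS => by
    rw [List.isChain_cons_cons] at h ⊢
    refine ⟨hRS a (by simp) b (by simp) h.1, chain_mono_mem h.2 ?_⟩
    intro x hx y hy
    exact hRS x (List.mem_cons_of_mem _ hx) y (List.mem_cons_of_mem _ hy)

theorem chain_reverse {Es : List (ℕ × ℕ)} {Vs : List ℕ} (hG : IsG Vs Es) {l : List ℕ}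
    (h : l.IsChain (fun a b => (a, b) ∈ Es)) : l.reverse.IsChain (fun a b => (a, b) ∈ Es) := by
  rw [List.isChain_reverse]
  exact h.imp fun a b hab => hG.sym _ _ hab

theorem chain_join {Es : List (ℕ × ℕ)} {l m : List ℕ} (hl : l.IsChain (fun a b => (a, b) ∈ Es))
    (hm : m.IsChain (fun a b => (a, b) ∈ Es)) (h : ∀ x ∈ l.getLast?, ∀ y ∈ m.head?, (x, y) ∈ Es) :
    (l ++ m).IsChain (fun a b => (a, b) ∈ Es) := by
  rw [List.isChain_append]
  exact ⟨hl, hm, h⟩

theorem filter_blk {M : List (ℕ × ℕ)} {ys : List ℕ} (h : ∀ y ∈ ys, y ∈ ends M) :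
    (blk M ys).filter (fun x => memb x (ends M)) = blk M ys := by
  rw [List.filter_eq_self]
  intro x hx
  rw [memb_iff]
  obtain ⟨y, hy, rfl | rfl⟩ := mem_blk.1 hx
  · exact mate_mem (h y hy)
  · exact h x hy

theorem path_closed {M : List (ℕ × ℕ)} (hM : (ends M).Nodup) {ys : List ℕ} {r : ℕ}
    (hr : r ∉ ends M) : ∀ x ∈ blk M ys ++ [r], mate M x ∈ blk M ys ++ [r] := by
  intro x hx
  rcases List.mem_append.1 hx with hx | hx
  · exact List.mem_append_left _ (mate_mem_blk hM hx)
  · rw [List.mem_singleton] at hx
    subst hx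
    rw [mate_eq_self hr]
    exact List.mem_append_right _ (List.mem_singleton_self _)

theorem aug_case {Vs : List ℕ} {Es M : List (ℕ × ℕ)} {E : List (List ℕ)} (hG : IsG Vs Es)
    (hM : IsMat Es M) (hI : Inv Vs Es M E) {p q : List ℕ} (hp : p ∈ E) (hq : q ∈ E)
    (he : (p.headD 0, q.headD 0) ∈ Es) (hd : p.Disjoint q) :
    IsMat Es (augM M p q) ∧ (augM M p q).length = M.length + 1 := by
  obtain ⟨hp1, hp2, ys, r, hp3, hr1, hr2, hr3⟩ := hI.form hG hM _ p rfl hp
  obtain ⟨hq1, hq2, zs, r', hq3, hr1', hr2', hr3'⟩ := hI.form hG hM _ q rfl hq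
  have hnd : (p.reverse ++ q).Nodup := by
    rw [List.nodup_append]
    refine ⟨List.nodup_reverse.2 hp1, hq1, ?_⟩
    intro x hx y hy hxy
    subst hxy
    exact hd (List.mem_reverse.1 hx) hy
  have hcl : ∀ x ∈ p.reverse ++ q, mate M x ∈ p.reverse ++ q := by
    intro x hx
    rcases List.mem_append.1 hx with hx | hx
    · apply List.mem_append_left
      rw [List.mem_reverse] at hx ⊢
      rw [hp3] at hx ⊢
      exact path_closed hM.nd hr2 x hx
    · apply List.mem_append_right
      rw [hq3] at hx ⊢
      exact path_closed hM.nd hr2' x hx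
  have hch : (p.reverse ++ q).IsChain (fun a b => (a, b) ∈ Es) := by
    refine chain_join (chain_reverse hG hp2) hq2 ?_
    intro x hx y hy
    rw [List.getLast?_reverse] at hx
    have h1 : p.headD 0 = x := by
      rw [List.headD_eq_head?_getD, Option.mem_def.1 hx]; rfl
    have h2 : q.headD 0 = y := by
      rw [List.headD_eq_head?_getD, Option.mem_def.1 hy]; rfl
    rw [← h1, ← h2]; exact he
  have hlen : (p.reverse ++ q).length = 2 * (ys.length + zs.length + 1) := by
    rw [List.length_append, List.length_reverse, hp3, hq3]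
    simp only [List.length_append, length_blk, List.length_singleton]
    ring
  obtain ⟨h1, h2, h3⟩ := replace (Es3 := Es) hM.nd hnd hnd (fun x hx => hx) hcl
    (fun e he _ _ => hM.sub e he) hch _ hlen
  refine ⟨h1, ?_⟩
  have hfil : ((p.reverse ++ q).filter fun x => memb x (ends M)).length =
      2 * (ys.length + zs.length) := by
    rw [List.filter_append, List.filter_reverse, hp3, hq3, List.filter_append, List.filter_append,
      filter_blk hr3, filter_blk hr3']
    simp only [List.filter_cons, memb_false.2 hr2, memb_false.2 hr2', List.filter_nil,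
      List.length_append, List.length_reverse, length_blk]
    simp
    ring
  rw [hfil, hlen] at h3
  unfold augM
  omega

/-- the data of a flower -/
theorem flower_case {Vs : List ℕ} {Es M : List (ℕ × ℕ)} {E : List (List ℕ)} (hG : IsG Vs Es)
    (hM : IsMat Es M) (hI : Inv Vs Es M E) {p q : List ℕ} (hp : p ∈ E) (hq : q ∈ E)
    (he : (p.headD 0, q.headD 0) ∈ Es) (hd : ¬ p.Disjoint q) :
    stem p q ≠ [] ∧ OddCycle Vs Es ((stem p q).headD 0) (rst p q) ∧ rst p q ≠ [] ∧
      IsMat (cE ((stem p q).headD 0) (rst p q) Es) (flowM M p q) ∧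
      (stem p q).headD 0 ∉ ends (flowM M p q) ∧
      (flowM M p q).length + (rst p q).length / 2 = M.length := by
  obtain ⟨ys, zs, s, hs, hpe, hqe, hd1, hd2⟩ := (hI.pairs p hp q hq).resolve_left hd
  obtain ⟨hp1, hp2, ys', r1, hp3, -, -, hp4⟩ := hI.form hG hM _ p rfl hp
  obtain ⟨hq1, hq2, zs', r2, hq3, -, -, hq4⟩ := hI.form hG hM _ q rfl hq
  obtain ⟨hs1, hs2, ws, r, hs3, hr1, hr2, hr3⟩ := hI.form hG hM _ s rfl hs
  have hst : stem p q = s := by
    unfold stem
    rw [hpe, List.filter_append]
    have h1 : (blk M ys).filter (fun x => memb x q) = [] := by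
      rw [List.filter_eq_nil_iff]
      intro x hx
      rw [memb_iff]
      exact fun hc => hd1 hx hc
    have h2 : s.filter (fun x => memb x q) = s := by
      rw [List.filter_eq_self]
      intro x hx
      rw [memb_iff, hqe]
      exact List.mem_append_right _ hx
    rw [h1, h2]; rfl
  have hpf : (p.filter fun x => !(memb x q)) = blk M ys := by
    rw [hpe, List.filter_append]
    have h1 : (blk M ys).filter (fun x => !(memb x q)) = blk M ys := by
      rw [List.filter_eq_self]
      intro x hx
      rw [Bool.not_eq_true', memb_false]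
      exact fun hc => hd1 hx hc
    have h2 : s.filter (fun x => !(memb x q)) = [] := by
      rw [List.filter_eq_nil_iff]
      intro x hx
      rw [Bool.not_eq_true', memb_false, hqe]
      exact fun hc => hc (List.mem_append_right _ hx)
    rw [h1, h2, List.append_nil]
  have hqf : (q.filter fun x => !(memb x p)) = blk M zs := by
    rw [hqe, List.filter_append]
    have h1 : (blk M zs).filter (fun x => !(memb x p)) = blk M zs := by
      rw [List.filter_eq_self]
      intro x hx
      rw [Bool.not_eq_true', memb_false]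
      exact fun hc => hd2 hx hc
    have h2 : s.filter (fun x => !(memb x p)) = [] := by
      rw [List.filter_eq_nil_iff]
      intro x hx
      rw [Bool.not_eq_true', memb_false, hpe]
      exact fun hc => hc (List.mem_append_right _ hx)
    rw [h1, h2, List.append_nil]
  have hrst : rst p q = (blk M ys).reverse ++ blk M zs := by
    unfold rst
    rw [hpf, hqf]
  have hsne := hI.ne hs
  obtain ⟨z, s', hzs⟩ := List.exists_cons_of_ne_nil hsne
  have hz : (stem p q).headD 0 = z := by rw [hst, hzs]; rfl
  rw [hz]
  have hsp : ∀ x ∈ s, x ∈ p ∧ x ∈ q := fun x hx =>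
    ⟨by rw [hpe]; exact List.mem_append_right _ hx, by rw [hqe]; exact List.mem_append_right _ hx⟩
  have hzs1 : z ∈ s := by rw [hzs]; exact List.mem_cons_self
  have hys : ∀ x ∈ blk M ys, x ∈ p ∧ x ∉ q ∧ x ∉ s := fun x hx =>
    ⟨by rw [hpe]; exact List.mem_append_left _ hx, fun hc => hd1 hx hc,
      fun hc => hd1 hx (hsp x hc).2⟩
  have hzs2 : ∀ x ∈ blk M zs, x ∈ q ∧ x ∉ p ∧ x ∉ s := fun x hx =>
    ⟨by rw [hqe]; exact List.mem_append_left _ hx, fun hc => hd2 hx hc,
      fun hc => hd2 hx (hsp x hc).1⟩
  have hndys : (blk M ys).Nodup := by rw [hpe, List.nodup_append] at hp1; exact hp1.1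
  have hndzs : (blk M zs).Nodup := by rw [hqe, List.nodup_append] at hq1; exact hq1.1
  have hndr : (rst p q).Nodup := by
    rw [hrst, List.nodup_append]
    refine ⟨List.nodup_reverse.2 hndys, hndzs, ?_⟩
    intro x hx y hy hxy
    subst hxy
    exact (hys x (List.mem_reverse.1 hx)).2.1 (hzs2 x hy).1
  have hrs : ∀ x ∈ rst p q, x ∉ s := by
    intro x hx
    rw [hrst, List.mem_append, List.mem_reverse] at hx
    rcases hx with hx | hx
    · exact (hys x hx).2.2
    · exact (hzs2 x hx).2.2
  have hrlen : (rst p q).length = 2 * (ys.length + zs.length) := by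
    rw [hrst, List.length_append, List.length_reverse, length_blk, length_blk]; ring
  have hrne : rst p q ≠ [] := by
    intro hc
    have h1 : ys.length + zs.length = 0 := by
      have h0 := congrArg List.length hc
      rw [hrlen, List.length_nil] at h0
      omega
    have h2 : ys = [] := List.length_eq_zero_iff.1 (by omega)
    have h3 : zs = [] := List.length_eq_zero_iff.1 (by omega)
    rw [hpe, hqe, h2, h3] at he
    exact hG.irr _ he
  have hzev : z ∈ Vs := by
    apply hI.sub
    exact List.mem_map.2 ⟨s, hs, by rw [hzs]; rfl⟩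
  -- the cycle
  have hcyc : OddCycle Vs Es z (rst p q) := by
    refine ⟨?_, ?_, ?_, hzev⟩
    · rw [List.nodup_cons]
      exact ⟨fun hc => hrs z hc hzs1, hndr⟩
    · rw [hrst]
      have e1 : z :: ((blk M ys).reverse ++ blk M zs) ++ [z] =
          (z :: (blk M ys).reverse) ++ (blk M zs ++ [z]) := by simp
      rw [e1]
      have c1 : (blk M ys ++ [z]).IsChain (fun a b => (a, b) ∈ Es) := by
        have : p = (blk M ys ++ [z]) ++ s' := by rw [hpe, hzs]; simp
        rw [this] at hp2
        exact hp2.left_of_append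
      have c2 : (blk M zs ++ [z]).IsChain (fun a b => (a, b) ∈ Es) := by
        have : q = (blk M zs ++ [z]) ++ s' := by rw [hqe, hzs]; simp
        rw [this] at hq2
        exact hq2.left_of_append
      have c3 : (z :: (blk M ys).reverse).IsChain (fun a b => (a, b) ∈ Es) := by
        have := chain_reverse hG c1
        rwa [List.reverse_append, List.reverse_singleton, List.singleton_append] at this
      refine chain_join c3 c2 ?_
      intro x hx y hy
      have h1 : (z :: (blk M ys).reverse) = (blk M ys ++ [z]).reverse := by simp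
      rw [h1, List.getLast?_reverse] at hx
      have h2 : (blk M ys ++ [z]).head? = p.head? := by
        rw [hpe, hzs]
        cases blk M ys <;> simp
      have h3 : (blk M zs ++ [z]).head? = q.head? := by
        rw [hqe, hzs]
        cases blk M zs <;> simp
      rw [h2] at hx
      rw [h3] at hy
      have h4 : p.headD 0 = x := by
        rw [List.headD_eq_head?_getD, Option.mem_def.1 hx]; rfl
      have h5 : q.headD 0 = y := by
        rw [List.headD_eq_head?_getD, Option.mem_def.1 hy]; rfl
      rw [← h4, ← h5]; exact he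
    · rw [hrlen]; exact even_two_mul _
  have hslen : s'.length = 2 * ws.length := by
    have : s.length = 2 * ws.length + 1 := by
      rw [hs3, List.length_append, length_blk, List.length_singleton]
    rw [hzs, List.length_cons] at this
    omega
  have hnds' : z ∉ s' ∧ s'.Nodup := by
    rw [hzs] at hs1
    exact List.nodup_cons.1 hs1
  have htail : (stem p q).tail = s' := by rw [hst, hzs]; rfl
  have hcE : ∀ a b, (a, b) ∈ Es → a ∉ rst p q → b ∉ rst p q → (a, b) ∈ cE z (rst p q) Es := by
    intro a b hab ha hb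
    rw [mem_cE]
    refine ⟨?_, a, b, hab, con_of_not_mem ha, con_of_not_mem hb⟩
    rintro rfl
    exact hG.irr _ hab
  obtain ⟨h1, h2, h3⟩ := replace (Es3 := cE z (rst p q) Es) (M := M) (Q := stem p q ++ rst p q)
    (P := (stem p q).tail) hM.nd
    (by
      rw [hst, List.nodup_append]
      refine ⟨hs1, hndr, ?_⟩
      intro x hx y hy hxy
      subst hxy
      exact hrs x hy hx)
    (by rw [htail]; exact hnds'.2)
    (by
      intro x hx
      rw [htail] at hx
      rw [hst, hzs]
      exact List.mem_append_left _ (List.mem_cons_of_mem _ hx))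
    (by
      intro x hx
      rw [hst, hrst] at hx ⊢
      simp only [List.mem_append, List.mem_reverse] at hx ⊢
      rcases hx with hx | hx | hx
      · left
        rw [hs3] at hx ⊢
        exact path_closed hM.nd hr2 x hx
      · exact Or.inr (Or.inl (mate_mem_blk hM.nd hx))
      · exact Or.inr (Or.inr (mate_mem_blk hM.nd hx)))
    (by
      intro e he' h4 h5
      rw [List.mem_append, not_or] at h4 h5
      exact hcE _ _ (hM.sub e he') h4.2 h5.2)
    (by
      rw [htail]
      refine chain_mono_mem (R := fun a b => (a, b) ∈ Es) ?_ ?_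
      · rw [hzs] at hs2; exact hs2.tail
      · intro a ha b hb hab
        have ha' : a ∈ s := by rw [hzs]; exact List.mem_cons_of_mem _ ha
        have hb' : b ∈ s := by rw [hzs]; exact List.mem_cons_of_mem _ hb
        exact hcE a b hab (fun hc => hrs a hc ha') (fun hc => hrs b hc hb'))
    ws.length (by rw [htail, hslen])
  refine ⟨by rw [hst]; exact hsne, hcyc, hrne, h1, ?_, ?_⟩
  · intro hc
    rcases (h2 z).1 hc with h4 | h4
    · apply h4.2
      rw [hst]
      exact List.mem_append_left _ hzs1
    · rw [htail] at h4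
      exact hnds'.1 h4
  · have hys3 : ∀ y ∈ ys, y ∈ ends M := by
      intro y hy
      have hyp : y ∈ p := (hys y (mem_blk.2 ⟨y, hy, Or.inr rfl⟩)).1
      by_contra hc
      -- the only exposed vertex of `p` is its last one
      have h4 : y ∈ blk M ys' ++ [r1] := hp3 ▸ hyp
      rcases List.mem_append.1 h4 with h5 | h5
      · obtain ⟨w, hw, h6 | h6⟩ := mem_blk.1 h5
        · exact hc (h6 ▸ mate_mem (hp4 w hw))
        · exact hc (h6 ▸ hp4 w hw)
      · rw [List.mem_singleton] at h5
        have h6 : (mate M y) = y := mate_eq_self hc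
        have h7 := hndys
        obtain ⟨l₁, l₂, h8⟩ := List.append_of_mem hy
        rw [h8] at h7
        simp only [blk, List.flatMap_append, List.flatMap_cons, h6] at h7
        rw [List.nodup_append] at h7
        simp at h7
    have hzs3 : ∀ y ∈ zs, y ∈ ends M := by
      intro y hy
      by_contra hc
      have h6 : (mate M y) = y := mate_eq_self hc
      have h7 := hndzs
      obtain ⟨l₁, l₂, h8⟩ := List.append_of_mem hy
      rw [h8] at h7
      simp only [blk, List.flatMap_append, List.flatMap_cons, h6] at h7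
      rw [List.nodup_append] at h7
      simp at h7
    have hfil : ((stem p q ++ rst p q).filter fun x => memb x (ends M)).length =
        2 * ws.length + (rst p q).length := by
      rw [List.filter_append, hst, hrst, List.filter_append, List.filter_reverse, hs3,
        List.filter_append, filter_blk hr3, filter_blk hys3, filter_blk hzs3]
      simp only [List.filter_cons, memb_false.2 hr2, List.filter_nil,
        List.length_append, List.length_reverse, length_blk]
      simp
    rw [hfil, htail, hslen] at h3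
    have hrfold : flowM M p q = (M.filter fun e => !(memb e.1 (stem p q ++ rst p q))) ++
      pairUp s' := by unfold flowM; rw [htail]
    rw [hrfold]
    omega

/-- Try to find a larger matching. -/
def aug : ℕ → List ℕ → List (ℕ × ℕ) → List (ℕ × ℕ) → Option (List (ℕ × ℕ))
  | 0, _, _, _ => none
  | n + 1, Vs, Es, M =>
    match pick Es (forest Vs Es M) with
    | none => none
    | some c =>
      if (stem c.1 c.2).isEmpty then some (augM M c.1 c.2)
      else (aug n (cV (rst c.1 c.2) Vs) (cE ((stem c.1 c.2).headD 0) (rst c.1 c.2) Es)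
        (flowM M c.1 c.2)).map (expand Es ((stem c.1 c.2).headD 0 :: rst c.1 c.2))

theorem stem_eq_nil {p q : List ℕ} : stem p q = [] ↔ p.Disjoint q := by
  unfold stem
  rw [List.filter_eq_nil_iff]
  constructor
  · intro h x hx hy
    exact h x hx (memb_iff.2 hy)
  · intro h x hx hy
    exact h hx (memb_iff.1 hy)

theorem aug_spec : ∀ (n : ℕ) (Vs : List ℕ) (Es M : List (ℕ × ℕ)), IsG Vs Es → IsMat Es M →
    Vs.length < n →
    (aug n Vs Es M = none → Cert Vs Es M.length) ∧
    ∀ M', aug n Vs Es M = some M' → IsMat Es M' ∧ M'.length = M.length + 1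
  | 0, _, _, _, _, _, h => absurd h (Nat.not_lt_zero _)
  | n + 1, Vs, Es, M, hG, hM, hn => by
    obtain ⟨hI, -⟩ := forest_spec hG hM
    unfold aug
    cases hc : pick Es (forest Vs Es M) with
    | none =>
      refine ⟨fun _ => cert_of_forest hG hM (pick_none hc), fun M' h => ?_⟩
      simp at h
    | some c =>
      obtain ⟨p, q⟩ := c
      obtain ⟨hp, hq, he⟩ := pick_some hc
      simp only
      by_cases hs : (stem p q).isEmpty
      · rw [if_pos hs]
        have hd : p.Disjoint q := stem_eq_nil.1 (List.isEmpty_iff.1 hs)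
        refine ⟨fun h => by simp at h, fun M' h => ?_⟩
        rw [Option.some.injEq] at h
        subst h
        exact aug_case hG hM hI hp hq he hd
      · rw [if_neg hs]
        have hd : ¬ p.Disjoint q := fun h => hs (List.isEmpty_iff.2 (stem_eq_nil.2 h))
        obtain ⟨h1, h2, h3, h4, h5, h6⟩ := flower_case hG hM hI hp hq he hd
        have hG' := isG_contract hG h2
        have hlt : (cV (rst p q) Vs).length < n := by
          have hlt' : (cV (rst p q) Vs).length < Vs.length := by
            obtain ⟨w, hw⟩ := List.exists_mem_of_ne_nil _ h3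
            have hwV : w ∈ Vs := h2.sub hG w (List.mem_cons_of_mem _ hw)
            unfold cV
            rw [List.length_filter_lt_length_iff_exists]
            exact ⟨w, hwV, by rw [Bool.not_eq_true', Bool.not_eq_false, memb_iff]; exact hw⟩
          omega
        obtain ⟨h7, h8⟩ := aug_spec n _ _ _ hG' h4 hlt
        refine ⟨fun h => ?_, fun M' h => ?_⟩
        · rw [Option.map_eq_none_iff] at h
          have := cert_contract hG h2 h4 h5 (h7 h)
          rwa [h6] at this
        · rw [Option.map_eq_some_iff] at h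
          obtain ⟨M2, h9, rfl⟩ := h
          obtain ⟨h10, h11⟩ := h8 M2 h9
          obtain ⟨h12, h13⟩ := expand_spec hG h2 h10
          refine ⟨h12, ?_⟩
          rw [h13, h11]
          omega

/-- a maximum matching -/
def maxMatch (Vs : List ℕ) (Es : List (ℕ × ℕ)) : List (ℕ × ℕ) :=
  (fun M => (aug (Vs.length + 1) Vs Es M).getD M)^[Vs.length + 1] []

theorem maxMatch_aux {Vs : List ℕ} {Es : List (ℕ × ℕ)} (hG : IsG Vs Es) (k : ℕ) :
    IsMat Es ((fun M => (aug (Vs.length + 1) Vs Es M).getD M)^[k] []) ∧
    (Cert Vs Es ((fun M => (aug (Vs.length + 1) Vs Es M).getD M)^[k] []).length ∨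
      k ≤ ((fun M => (aug (Vs.length + 1) Vs Es M).getD M)^[k] []).length) := by
  induction k with
  | zero => exact ⟨⟨by simp, by simp⟩, Or.inr (Nat.zero_le _)⟩
  | succ k ih =>
    obtain ⟨h1, h2⟩ := ih
    rw [Function.iterate_succ_apply']
    set M := (fun M => (aug (Vs.length + 1) Vs Es M).getD M)^[k] [] with hM
    obtain ⟨h3, h4⟩ := aug_spec (Vs.length + 1) Vs Es M hG h1 (Nat.lt_succ_self _)
    cases hc : aug (Vs.length + 1) Vs Es M with
    | none => exact ⟨h1, Or.inl (h3 hc)⟩
    | some M' =>
      obtain ⟨h5, h6⟩ := h4 M' hc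
      refine ⟨h5, ?_⟩
      simp only [Option.getD_some]
      rcases h2 with h2 | h2
      · have := h2.le hG h5
        omega
      · exact Or.inr (by omega)

/-- The algorithm finds a maximum matching. -/
theorem maxMatch_spec {Vs : List ℕ} {Es : List (ℕ × ℕ)} (hG : IsG Vs Es) :
    IsMat Es (maxMatch Vs Es) ∧ Cert Vs Es (maxMatch Vs Es).length := by
  obtain ⟨h1, h2⟩ := maxMatch_aux hG (Vs.length + 1)
  refine ⟨h1, ?_⟩
  rcases h2 with h2 | h2
  · exact h2
  · exfalso
    have h3 : (ends (maxMatch Vs Es)).length ≤ Vs.length := by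
      have h4 : (ends (maxMatch Vs Es)).Nodup := h1.nd
      rw [← List.toFinset_card_of_nodup h4, ← List.toFinset_card_of_nodup hG.nd]
      apply Finset.card_le_card
      intro x hx
      rw [List.mem_toFinset] at hx ⊢
      exact IsMat.ends_sub hG h1 hx
    rw [length_ends] at h3
    have h5 : Vs.length + 1 ≤ (maxMatch Vs Es).length := h2
    omega

theorem maxMatch_max {Vs : List ℕ} {Es : List (ℕ × ℕ)} (hG : IsG Vs Es) {M : List (ℕ × ℕ)}
    (hM : IsMat Es M) : M.length ≤ (maxMatch Vs Es).length :=
  (maxMatch_spec hG).2.le hG hM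

end Pool.Agent.H.MP_ebc13b_lc.h61
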