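import Pool.Agent.H.MP_ebc13b_lc.h61.Free

/-!
# Colouring (claw, 4K₁, co-diamond, C₄ + K₁)-free graphs

Colouring restricted to (claw, 4K₁, co-diamond, C₄ + K₁)-free graphs is solvable in polynomial
time.
-/

namespace Pool.Agent.H.MP_ebc13b_lc.h61.C4PlusK1FreeOld

open Pool.Agent.H.MP_5be563_lc.PT Pool.Agent.H.MP_ebc13b_lc.h61

/-- The code of an instance determines the instance. -/
theorem encode_injective : Function.Injective Inst.encode := by
  classical
  intro x y h
  have hn : x.n = y.n := by rw [← pn_encode, ← pn_encode, h]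
  obtain ⟨n, G, k⟩ := x
  obtain ⟨n', G', k'⟩ := y
  simp only at hn
  subst hn
  have hG : G = G' := by
    ext i j
    have h1 := ent_encode ⟨n, G, k⟩ i.2 j.2
    have h2 := ent_encode ⟨n, G', k'⟩ i.2 j.2
    rw [h] at h1
    have h3 : (Inst.A ⟨n, G, k⟩ i.1 j.1) ↔ (Inst.A ⟨n, G', k'⟩ i.1 j.1) := h1.symm.trans h2
    constructor
    · intro h4
      obtain ⟨_, _, h5⟩ := h3.1 ⟨i.2, j.2, h4⟩
      exact h5
    · intro h4
      obtain ⟨_, _, h5⟩ := h3.2 ⟨i.2, j.2, h4⟩
      exact h5
  subst hG
  have h1 := encode_eq ⟨n, G, k⟩
  have h2 := encode_eq ⟨n, G, k'⟩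
  rw [h, h2] at h1
  have h3 := List.append_cancel_left h1
  simp only [List.cons.injEq, true_and] at h3
  have h4 := List.append_cancel_left h3
  have h5 : k = k' := by
    have := congrArg bval h4
    rw [bval_bits, bval_bits] at this
    exact this.symm
  rw [h5]

/-- **Colouring is in P on (claw, 4K₁, co-diamond, C₄ + K₁)-free graphs.**

There is a function `f` on instances `(G, k)` that is computed in polynomial time (in Mathlib's
model of Turing machines with stacks, from the code of the instance as a bit string), such that for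
every instance whose graph has none of the four graphs as an induced subgraph, `f (G, k)` is `true`
exactly when `G` is `k`-colourable. -/
theorem result :
    ∃ f : Inst → Bool,
      Nonempty (Turing.TM2ComputableInPolyTime Inst.encode Computability.encodeBool f) ∧
      ∀ x : Inst,
        ¬ (completeBipartiteGraph (Fin 1) (Fin 3)).IsIndContained x.G →
        ¬ (⊥ : SimpleGraph (Fin 4)).IsIndContained x.G →
        ¬ coDiamond.IsIndContained x.G →
        ¬ c4PlusK1.IsIndContained x.G →
        (f x = true ↔ x.G.Colorable x.k) := by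
  have hP : Poly (fun s : List Bool => dec s) := by fun_prop
  obtain ⟨M⟩ := Poly.tm2_raw_bool hP
  refine ⟨fun x => dec x.encode, ⟨?_⟩, ?_⟩
  · exact
      { tm := M.tm
        inputAlphabet := M.inputAlphabet
        outputAlphabet := M.outputAlphabet
        time := M.time
        outputsFun := fun x => M.outputsFun x.encode }
  · intro x h1 h2 h3 h4
    have hPr := prismatic_of x h1 h2 h3
    exact dec_iff x hPr (clean_of x hPr h4)

end Pool.Agent.H.MP_ebc13b_lc.h61.C4PlusK1FreeOld
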