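import Mathlib

/-!
Rounding of prefix sums.
-/

namespace Pool.Agent.H.MP_ebc13b_lc.h61

/-- a threshold far from all the given numbers modulo one -/
theorem exists_phi (m : ℕ) (P : ℕ → ℚ) : ∃ φ : ℚ, ∀ j ≤ m, ∀ k : ℤ,
    P j ≤ φ + k - 1 / (2 * (m + 2)) ∨ φ + k + 1 / (2 * (m + 2)) ≤ P j := by
  have hN : (0 : ℚ) < m + 2 := by positivity
  have hNz : (0 : ℤ) < m + 2 := by positivity
  -- an arc without points
  obtain ⟨i, hi, hij⟩ : ∃ i : ℤ, i ∈ Finset.Ico (0 : ℤ) (m + 2) ∧
      ∀ j ≤ m, ⌊(m + 2) * P j⌋ % ((m : ℤ) + 2) ≠ i := by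
    by_contra hcon
    push Not at hcon
    have h1 : Finset.Ico (0 : ℤ) (m + 2) ⊆
        (Finset.range (m + 1)).image fun j => ⌊(m + 2) * P j⌋ % ((m : ℤ) + 2) := by
      intro i hi
      obtain ⟨j, hj, hji⟩ := hcon i hi
      exact Finset.mem_image.2 ⟨j, Finset.mem_range.2 (by omega), hji⟩
    have h2 := (Finset.card_le_card h1).trans Finset.card_image_le
    rw [Int.card_Ico, Finset.card_range] at h2
    omega
  refine ⟨(i + 1 / 2) / (m + 2), fun j hj k => ?_⟩
  by_contra hcon
  push Not at hcon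
  obtain ⟨h1, h2⟩ := hcon
  apply hij j hj
  have e1 : ((i : ℚ) + 1 / 2) / (m + 2) + k - 1 / (2 * (m + 2)) = (i + k * (m + 2)) / (m + 2) := by
    field_simp
    ring
  have e2 : ((i : ℚ) + 1 / 2) / (m + 2) + k + 1 / (2 * (m + 2)) =
      (i + k * (m + 2) + 1) / (m + 2) := by
    field_simp
    ring
  rw [e1, div_lt_iff₀ hN] at h1
  rw [e2, lt_div_iff₀ hN] at h2
  have h3 : ⌊(m + 2) * P j⌋ = i + k * (m + 2) := by
    rw [Int.floor_eq_iff]
    push_cast
    constructor <;> linarith
  rw [h3, Int.add_mul_emod_self_right]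
  rw [Finset.mem_Ico] at hi
  exact Int.emod_eq_of_lt hi.1 hi.2

/-- Rounding: `F` is an integral version of the prefix sums. -/
theorem rounding (m : ℕ) (x : ℕ → ℚ) (b : ℕ) (δ : ℚ) (h1 : ∀ j < m, x j ≤ 1)
    (h0 : ∀ j < m, -δ ≤ x j) (hsum : ∑ j ∈ Finset.range m, x j = b)
    (hδ : δ ≤ 1 / (2 * (m + 2))) (hδ0 : 0 ≤ δ) :
    ∃ (U : Finset ℕ) (F : ℕ → ℤ), U ⊆ Finset.range m ∧ F 0 = 0 ∧ F m = b ∧
      (∀ s t, s ≤ t → t ≤ m → ((U.filter fun j => s ≤ j ∧ j < t).card : ℤ) = F t - F s) ∧
      ∀ s t, s ≤ m → t ≤ m → ∀ r : ℤ,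
        ∑ j ∈ Finset.range t, x j - ∑ j ∈ Finset.range s, x j ≤ r + δ → F t - F s ≤ r := by
  set P : ℕ → ℚ := fun t => ∑ j ∈ Finset.range t, x j with hP
  obtain ⟨φ, hφ⟩ := exists_phi m P
  have hpos : (0 : ℚ) < 1 / (2 * (m + 2)) := by positivity
  have hPs : ∀ j, P (j + 1) = P j + x j := fun j => Finset.sum_range_succ _ _
  set G : ℕ → ℤ := fun t => ⌊P t - φ⌋ with hG
  have key : ∀ s t, s ≤ m → t ≤ m → ∀ r : ℤ, P t - P s ≤ r + δ → G t - G s ≤ r := by
    intro s t hs ht r h
    have h2 : P s - φ < G s + 1 := Int.lt_floor_add_one _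
    have h3 : P s ≤ φ + ((G s + 1 : ℤ) : ℚ) - 1 / (2 * (m + 2)) := by
      rcases hφ s hs (G s + 1) with h4 | h4
      · exact h4
      · push_cast at h4; linarith
    have h5 : P t - φ < G s + r + 1 := by
      push_cast at h3
      rcases hφ t ht (G s + r + 1) with h6 | h6
      · push_cast at h6; linarith
      · push_cast at h6; linarith
    have h6 : G t < G s + r + 1 := by
      have : ((G t : ℤ) : ℚ) < ((G s + r + 1 : ℤ) : ℚ) := by
        push_cast
        exact (Int.floor_le _).trans_lt h5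
      exact_mod_cast this
    omega
  have hstep : ∀ j < m, G (j + 1) = G j ∨ G (j + 1) = G j + 1 := by
    intro j hj
    have h2 := key j (j + 1) hj.le hj 1 (by rw [hPs]; push_cast; linarith [h1 j hj])
    have h3 := key (j + 1) j hj hj.le 0 (by rw [hPs]; push_cast; linarith [h0 j hj])
    omega
  have hm : G m - G 0 = b := by
    have e : P m - P 0 = b := by simp [hP, hsum]
    have h2 := key 0 m (Nat.zero_le _) le_rfl b (by rw [e]; push_cast; linarith)
    have h3 := key m 0 le_rfl (Nat.zero_le _) (-b) (by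
      have : P 0 - P m = -b := by linarith
      rw [this]; push_cast; linarith)
    omega
  refine ⟨(Finset.range m).filter fun j => G (j + 1) = G j + 1, fun t => G t - G 0,
    Finset.filter_subset _ _, by simp, hm, ?_, ?_⟩
  · intro s t hst htm
    induction t, hst using Nat.le_induction with
    | base =>
      have : (((Finset.range m).filter fun j => G (j + 1) = G j + 1).filter
          fun j => s ≤ j ∧ j < s) = ∅ := by
        apply Finset.filter_eq_empty_iff.2
        intro j _
        omega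
      rw [this]
      simp
    | succ t hst ih =>
      have ih' := ih (by omega)
      have e : (((Finset.range m).filter fun j => G (j + 1) = G j + 1).filter
          fun j => s ≤ j ∧ j < t + 1) =
          (((Finset.range m).filter fun j => G (j + 1) = G j + 1).filter
          fun j => s ≤ j ∧ j < t) ∪ (if G (t + 1) = G t + 1 then {t} else ∅) := by
        ext j
        by_cases hc : G (t + 1) = G t + 1
        · rw [if_pos hc]
          simp only [Finset.mem_filter, Finset.mem_range, Finset.mem_union, Finset.mem_singleton]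
          constructor
          · rintro ⟨⟨h2, h3⟩, h4, h5⟩
            rcases Nat.lt_succ_iff_lt_or_eq.1 h5 with h6 | h6
            · exact Or.inl ⟨⟨h2, h3⟩, h4, h6⟩
            · exact Or.inr h6
          · rintro (⟨⟨h2, h3⟩, h4, h5⟩ | rfl)
            · exact ⟨⟨h2, h3⟩, h4, by omega⟩
            · exact ⟨⟨by omega, hc⟩, by omega, by omega⟩
        · rw [if_neg hc]
          simp only [Finset.mem_filter, Finset.mem_range, Finset.mem_union, Finset.notMem_empty,
            or_false]
          constructor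
          · rintro ⟨⟨h2, h3⟩, h4, h5⟩
            rcases Nat.lt_succ_iff_lt_or_eq.1 h5 with h6 | h6
            · exact ⟨⟨h2, h3⟩, h4, h6⟩
            · rw [h6] at h3
              exact absurd h3 hc
          · rintro ⟨⟨h2, h3⟩, h4, h5⟩
            exact ⟨⟨h2, h3⟩, h4, by omega⟩
      rw [e, Finset.card_union_of_disjoint]
      · push_cast
        rw [ih']
        rcases hstep t (by omega) with h2 | h2
        · rw [if_neg (by omega), h2]; simp
        · rw [if_pos h2, h2]; simp; ring
      · rw [Finset.disjoint_left]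
        intro j hj hj'
        split_ifs at hj'
        · rw [Finset.mem_singleton] at hj'
          rw [Finset.mem_filter] at hj
          omega
        · simp at hj'
  · intro s t hs ht r h
    have := key s t hs ht r h
    change G t - G 0 - (G s - G 0) ≤ r
    omega

end Pool.Agent.H.MP_ebc13b_lc.h61
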