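import Pool.Agent.H.MP_ebc13b_lc.h61.PM
import Pool.Agent.H.MP_ebc13b_lc.h61.Round

/-!
Rounding of approximate fractional solutions in prismatic graphs with disjoint triangles.
-/

namespace Pool.Agent.H.MP_ebc13b_lc.h61

/-- the vertices of the triangles with indices in `U` -/
def tset (t : ℕ → Fin 3 → ℕ) (U : Finset ℕ) : Finset ℕ :=
  (U ×ˢ Finset.univ).image fun p => t p.1 p.2

theorem mem_tset {t : ℕ → Fin 3 → ℕ} {U : Finset ℕ} {v : ℕ} :
    v ∈ tset t U ↔ ∃ j ∈ U, ∃ k, v = t j k := by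
  unfold tset
  simp only [Finset.mem_image, Finset.mem_product, Finset.mem_univ, and_true, Prod.exists]
  constructor
  · rintro ⟨a, b, h, rfl⟩; exact ⟨a, h, b, rfl⟩
  · rintro ⟨a, h, b, rfl⟩; exact ⟨a, b, h, rfl⟩

section
variable {X : Finset ℕ} {E : ℕ → ℕ → Prop} {m : ℕ} {t : ℕ → Fin 3 → ℕ} {cls : ℕ → Fin 3}
  {c : ℕ → ℕ}

theorem Lin.tinj (hL : Lin X E m t cls c) {j l : ℕ} {i k : Fin 3} (hj : j < m) (hl : l < m)
    (h : t j i = t l k) : j = l ∧ i = k := by
  have hik : i = k := by rw [← hL.clst j hj i, ← hL.clst l hl k, h]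
  subst hik
  exact ⟨hL.inj j hj l hl i h, rfl⟩

theorem Lin.tcore (hG : Gr X E) (hL : Lin X E m t cls c) {j : ℕ} (hj : j < m) (i : Fin 3) :
    Core E (t j i) := ⟨_, _, tri_cyc hG (hL.tri j hj) i⟩

theorem Core.mem (hG : Gr X E) {v : ℕ} (h : Core E v) : v ∈ X := by
  obtain ⟨b, d, h⟩ := h
  exact hG.mem _ _ h.1

theorem Lin.tX (hG : Gr X E) (hL : Lin X E m t cls c) {j : ℕ} (hj : j < m) (i : Fin 3) :
    t j i ∈ X := (hL.tcore hG hj i).mem hG

theorem sum_tset (hL : Lin X E m t cls c) {U : Finset ℕ} (hU : U ⊆ Finset.range m)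
    (f : ℕ → ℚ) : ∑ v ∈ tset t U, f v = ∑ k, ∑ j ∈ U, f (t j k) := by
  unfold tset
  rw [Finset.sum_image, Finset.sum_product_right]
  rintro ⟨j, i⟩ hp ⟨l, k⟩ hq h
  simp only [Finset.coe_product, Set.mem_prod, Finset.mem_coe] at hp hq
  obtain ⟨h1, h2⟩ := hL.tinj (Finset.mem_range.1 (hU hp.1)) (Finset.mem_range.1 (hU hq.1)) h
  exact Prod.ext h1 h2

theorem card_tset (hL : Lin X E m t cls c) {U : Finset ℕ} (hU : U ⊆ Finset.range m) :
    (tset t U).card = 3 * U.card := by
  unfold tset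
  rw [Finset.card_image_of_injOn, Finset.card_product]
  · simp; ring
  · rintro ⟨j, i⟩ hp ⟨l, k⟩ hq h
    simp only [Finset.coe_product, Set.mem_prod, Finset.mem_coe] at hp hq
    obtain ⟨h1, h2⟩ := hL.tinj (Finset.mem_range.1 (hU hp.1)) (Finset.mem_range.1 (hU hq.1)) h
    exact Prod.ext h1 h2

theorem core_iff (hG : Gr X E) (hL : Lin X E m t cls c) {v : ℕ} :
    Core E v ↔ v ∈ tset t (Finset.range m) := by
  rw [mem_tset]
  constructor
  · intro h
    obtain ⟨j, hj, h1⟩ := hL.all v h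
    exact ⟨j, Finset.mem_range.2 hj, _, h1.symm⟩
  · rintro ⟨j, hj, k, rfl⟩
    exact hL.tcore hG (Finset.mem_range.1 hj) k

theorem sum3 {Y : Type*} [AddCommMonoid Y] (i : Fin 3) (f : Fin 3 → Y) :
    ∑ k, f k = f i + f (i + 1) + f (i + 2) := by
  rw [Fin.sum_univ_three]
  fin_cases i
  · rfl
  · change f 0 + f 1 + f 2 = f 1 + f 2 + f 0
    abel
  · change f 0 + f 1 + f 2 = f 2 + f 0 + f 1
    abel

/-- approximate fractional solutions -/
structure FS (X : Finset ℕ) (E : ℕ → ℕ → Prop) (m : ℕ) (t : ℕ → Fin 3 → ℕ) (b h : ℕ) (ε : ℚ)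
    (x y : ℕ → ℚ) : Prop where
  x1 : ∀ j < m, x j ≤ 1
  x0 : ∀ j < m, -ε ≤ x j
  sum : ∑ j ∈ Finset.range m, x j = b
  yc : ∀ j < m, ∀ i, |y (t j i) - x j| ≤ ε
  yr : ∀ v ∈ X, ¬ Core E v → |y v - 1| ≤ ε
  f1 : ∀ D ⊆ X, Stb E D → ∑ v ∈ D, y v ≤ h
  f2 : ∀ D ⊆ X, Stb E D → ∑ v ∈ D, y v ≤ ∑ u ∈ nbr E X D, y u

/-- sums over a part of the ordinary vertices and of the triangles -/
theorem sum_part {ε : ℚ} {b h : ℕ} {x y : ℕ → ℚ}
    (hF : FS X E m t b h ε x y) {A : Finset ℕ} (hAX : A ⊆ X) (hA : ∀ v ∈ A, ¬ Core E v)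
    {S : Fin 3 → Finset ℕ} (hS : ∀ i, S i ⊆ Finset.range m) :
    |∑ v ∈ A, y v - A.card| ≤ ε * A.card ∧
    |∑ i, ∑ j ∈ S i, y (t j i) - ∑ i, ∑ j ∈ S i, x j| ≤ ε * ∑ i, ((S i).card : ℚ) := by
  constructor
  · have e : ∑ v ∈ A, y v - (A.card : ℚ) = ∑ v ∈ A, (y v - 1) := by
      rw [Finset.sum_sub_distrib, Finset.sum_const, nsmul_eq_mul, mul_one]
    rw [e]
    refine (Finset.abs_sum_le_sum_abs _ _).trans ?_
    have : ∑ v ∈ A, |y v - 1| ≤ ∑ v ∈ A, ε :=
      Finset.sum_le_sum fun v hv => hF.yr v (hAX hv) (hA v hv)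
    rw [Finset.sum_const, nsmul_eq_mul] at this
    linarith
  · rw [← Finset.sum_sub_distrib, Finset.mul_sum]
    refine (Finset.abs_sum_le_sum_abs _ _).trans (Finset.sum_le_sum fun i _ => ?_)
    rw [← Finset.sum_sub_distrib]
    refine (Finset.abs_sum_le_sum_abs _ _).trans ?_
    have : ∑ j ∈ S i, |y (t j i) - x j| ≤ ∑ j ∈ S i, ε :=
      Finset.sum_le_sum fun j hj => hF.yc j (Finset.mem_range.1 (hS i hj)) i
    rw [Finset.sum_const, nsmul_eq_mul] at this
    linarith

/-- a part of the vertices of the triangles -/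
def part (t : ℕ → Fin 3 → ℕ) (S : Fin 3 → Finset ℕ) : Finset ℕ :=
  Finset.univ.biUnion fun i => (S i).image fun j => t j i

theorem mem_part {S : Fin 3 → Finset ℕ} {v : ℕ} :
    v ∈ part t S ↔ ∃ i, ∃ j ∈ S i, v = t j i := by
  unfold part
  simp only [Finset.mem_biUnion, Finset.mem_univ, true_and, Finset.mem_image]
  constructor
  · rintro ⟨i, j, hj, rfl⟩; exact ⟨i, j, hj, rfl⟩
  · rintro ⟨i, j, hj, rfl⟩; exact ⟨i, j, hj, rfl⟩

theorem mem_part' (hL : Lin X E m t cls c) {S : Fin 3 → Finset ℕ}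
    (hS : ∀ i, S i ⊆ Finset.range m) {j : ℕ} (hj : j < m) {i : Fin 3} :
    t j i ∈ part t S ↔ j ∈ S i := by
  rw [mem_part]
  constructor
  · rintro ⟨k, l, hl, h⟩
    obtain ⟨rfl, rfl⟩ := hL.tinj hj (Finset.mem_range.1 (hS k hl)) h
    exact hl
  · intro h
    exact ⟨i, j, h, rfl⟩

theorem sum_part' (hL : Lin X E m t cls c) {S : Fin 3 → Finset ℕ}
    (hS : ∀ i, S i ⊆ Finset.range m) (f : ℕ → ℚ) :
    ∑ v ∈ part t S, f v = ∑ i, ∑ j ∈ S i, f (t j i) := by
  unfold part
  rw [Finset.sum_biUnion]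
  · apply Finset.sum_congr rfl
    intro i _
    rw [Finset.sum_image]
    intro j hj l hl h
    exact (hL.tinj (Finset.mem_range.1 (hS i hj)) (Finset.mem_range.1 (hS i hl)) h).1
  · intro i _ k _ hik
    rw [Function.onFun, Finset.disjoint_left]
    intro v hv hv'
    rw [Finset.mem_image] at hv hv'
    obtain ⟨j, hj, rfl⟩ := hv
    obtain ⟨l, hl, h⟩ := hv'
    exact hik (hL.tinj (Finset.mem_range.1 (hS i hj)) (Finset.mem_range.1 (hS k hl)) h.symm).2

theorem card_part (hL : Lin X E m t cls c) {S : Fin 3 → Finset ℕ}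
    (hS : ∀ i, S i ⊆ Finset.range m) : (part t S).card = ∑ i, (S i).card := by
  have h := sum_part' hL hS (fun _ => 1)
  simp only [Finset.sum_const, nsmul_eq_mul, mul_one] at h
  exact_mod_cast h

/-- the vertices of triangles in a set -/
theorem eq_union_part (hG : Gr X E) (hL : Lin X E m t cls c) (D : Finset ℕ) :
    ∃ (A : Finset ℕ) (S : Fin 3 → Finset ℕ), (∀ i, S i ⊆ Finset.range m) ∧
      (∀ v, v ∈ A ↔ v ∈ D ∧ ¬ Core E v) ∧ (∀ i j, j ∈ S i ↔ j < m ∧ t j i ∈ D) ∧
      D = A ∪ part t S ∧ Disjoint A (part t S) := by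
  classical
  have hS : ∀ i : Fin 3, ((Finset.range m).filter fun j => t j i ∈ D) ⊆ Finset.range m :=
    fun i => Finset.filter_subset _ _
  have hD : ∀ v, v ∈ part t (fun i => (Finset.range m).filter fun j => t j i ∈ D) ↔
      v ∈ D ∧ Core E v := by
    intro v
    rw [mem_part]
    constructor
    · rintro ⟨i, j, hj, rfl⟩
      rw [Finset.mem_filter, Finset.mem_range] at hj
      exact ⟨hj.2, hL.tcore hG hj.1 i⟩
    · rintro ⟨h1, h2⟩
      obtain ⟨j, hj, h3⟩ := hL.all v h2
      exact ⟨_, j, Finset.mem_filter.2 ⟨Finset.mem_range.2 hj, by rw [h3]; exact h1⟩, h3.symm⟩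
  refine ⟨D.filter fun v => ¬ Core E v, fun i => (Finset.range m).filter fun j => t j i ∈ D,
    hS, ?_, ?_, ?_, ?_⟩
  · intro v; rw [Finset.mem_filter]
  · intro i j; rw [Finset.mem_filter, Finset.mem_range]
  · ext v
    rw [Finset.mem_union, hD, Finset.mem_filter]
    tauto
  · rw [Finset.disjoint_left]
    intro v hv hv'
    exact (Finset.mem_filter.1 hv).2 ((hD v).1 hv').2

/-- The bound for stable sets that contain vertices of triangles. -/
theorem alpha (hG : Gr X E) (hL : Lin X E m t cls c) {ε δ : ℚ} {b h : ℕ} {x y : ℕ → ℚ}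
    (hF : FS X E m t b h ε x y) (hε : 0 ≤ ε) (hεδ : ε * X.card ≤ δ) {U : Finset ℕ}
    {F : ℕ → ℤ} (hU : U ⊆ Finset.range m) (hF0 : F 0 = 0) (hFm : F m = b)
    (hcount : ∀ s t, s ≤ t → t ≤ m → ((U.filter fun j => s ≤ j ∧ j < t).card : ℤ) = F t - F s)
    (hround : ∀ s t, s ≤ m → t ≤ m → ∀ r : ℤ,
        ∑ j ∈ Finset.range t, x j - ∑ j ∈ Finset.range s, x j ≤ r + δ → F t - F s ≤ r)
    {D : Finset ℕ} (hD : ∀ v ∈ D, v ∈ X ∧ (Core E v → v ∈ tset t U)) (hst : Stb E D)
    (hcore : ∃ v ∈ D, Core E v) : D.card ≤ h := by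
  classical
  obtain ⟨A, S, hS, hA, hSj, hDe, hdis⟩ := eq_union_part hG hL D
  have hSU : ∀ i, S i ⊆ U := by
    intro i j hj
    obtain ⟨h1, h2⟩ := (hSj i j).1 hj
    obtain ⟨l, hl, k, h3⟩ := mem_tset.1 ((hD _ h2).2 (hL.tcore hG h1 i))
    rw [(hL.tinj h1 (Finset.mem_range.1 (hU hl)) h3).1]
    exact hl
  have hAX : A ⊆ X := fun v hv => (hD v ((hA v).1 hv).1).1
  have hAc : ∀ v ∈ A, ¬ Core E v := fun v hv => ((hA v).1 hv).2
  have hcard : D.card = A.card + ∑ i, (S i).card := by
    rw [hDe, Finset.card_union_of_disjoint hdis, card_part hL hS]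
  -- general estimate for a larger family of triangle vertices
  have key : ∀ S' : Fin 3 → Finset ℕ, (∀ i, S' i ⊆ Finset.range m) → Stb E (A ∪ part t S') →
      ∑ i, ∑ j ∈ S' i, x j ≤ (h : ℚ) - A.card + δ := by
    intro S' hS' hst'
    have hdis' : Disjoint A (part t S') := by
      rw [Finset.disjoint_left]
      intro v hv hv'
      obtain ⟨i, j, hj, rfl⟩ := mem_part.1 hv'
      exact hAc _ hv (hL.tcore hG (Finset.mem_range.1 (hS' i hj)) i)
    have hsub : A ∪ part t S' ⊆ X := by
      intro v hv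
      rcases Finset.mem_union.1 hv with hv | hv
      · exact hAX hv
      · obtain ⟨i, j, hj, rfl⟩ := mem_part.1 hv
        exact hL.tX hG (Finset.mem_range.1 (hS' i hj)) i
    have h1 := hF.f1 _ hsub hst'
    rw [Finset.sum_union hdis', sum_part' hL hS'] at h1
    obtain ⟨h2, h3⟩ := sum_part hF hAX hAc hS'
    have h4 : A.card + ∑ i, (S' i).card ≤ X.card := by
      rw [← card_part hL hS', ← Finset.card_union_of_disjoint hdis']
      exact Finset.card_le_card hsub
    have h5 : ε * (A.card + ∑ i, ((S' i).card : ℚ)) ≤ ε * X.card := by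
      apply mul_le_mul_of_nonneg_left _ hε
      exact_mod_cast h4
    rw [abs_le] at h2 h3
    rw [mul_add] at h5
    linarith [h2.1, h3.1]
  -- adjacency between the classes
  have hadj : ∀ i, ∀ j ∈ S i, ∀ l ∈ S (i + 1), l < j := by
    intro i j hj l hl
    by_contra hcon
    have h1 := (hSj i j).1 hj
    have h2 := (hSj _ l).1 hl
    exact hst _ h1.2 _ h2.2 ((hL.up j h1.1 l h2.1 i).2 (not_lt.1 hcon))
  -- ordinary vertices and their cuts
  have hcut1 : ∀ v ∈ A, ∀ j ∈ S (cls v + 1), j < c v := by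
    intro v hv j hj
    have h1 := (hSj _ j).1 hj
    have h2 := hL.r1 v (hAX hv) (hAc v hv) j h1.1
    by_contra hcon
    exact hst _ ((hA v).1 hv).1 _ h1.2 (h2.2 (not_lt.1 hcon))
  have hcut2 : ∀ v ∈ A, ∀ j ∈ S (cls v + 2), c v ≤ j := by
    intro v hv j hj
    have h1 := (hSj _ j).1 hj
    have h2 := hL.r2 v (hAX hv) (hAc v hv) j h1.1
    by_contra hcon
    exact hst _ ((hA v).1 hv).1 _ h1.2 (h2.2 (not_le.1 hcon))
  -- stability of an enlarged set
  have hstab : ∀ S' : Fin 3 → Finset ℕ, (∀ i, S' i ⊆ Finset.range m) →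
      (∀ i, ∀ j ∈ S' i, ∀ l ∈ S' (i + 1), l < j) →
      (∀ v ∈ A, ∀ j ∈ S' (cls v + 1), j < c v) →
      (∀ v ∈ A, ∀ j ∈ S' (cls v + 2), c v ≤ j) → Stb E (A ∪ part t S') := by
    intro S' hS' g1 g2 g3
    have hcc : ∀ i k, ∀ j ∈ S' i, ∀ l ∈ S' k, ¬ E (t j i) (t l k) := by
      intro i k j hj l hl he
      have hjm := Finset.mem_range.1 (hS' i hj)
      have hlm := Finset.mem_range.1 (hS' k hl)
      rcases f3 i k with rfl | rfl | rfl
      · have := hL.st _ _ he
        rw [hL.clst j hjm, hL.clst l hlm] at this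
        exact this rfl
      · have h1 := (hL.up j hjm l hlm i).1 he
        have h2 := g1 i j hj l hl
        omega
      · have h1 := (hL.up l hlm j hjm (i + 2)).1 (by rw [f3c]; exact hG.sym _ _ he)
        have h2 := g1 (i + 2) l hl j (by rw [f3c]; exact hj)
        omega
    have hac : ∀ v ∈ A, ∀ i, ∀ j ∈ S' i, ¬ E v (t j i) := by
      intro v hv i j hj he
      have hjm := Finset.mem_range.1 (hS' i hj)
      rcases f3 (cls v) i with rfl | rfl | rfl
      · exact hL.st _ _ he (hL.clst j hjm _).symm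
      · have h1 := (hL.r1 v (hAX hv) (hAc v hv) j hjm).1 he
        have h2 := g2 v hv j hj
        omega
      · have h1 := (hL.r2 v (hAX hv) (hAc v hv) j hjm).1 he
        have h2 := g3 v hv j hj
        omega
    intro u hu w hw he
    rcases Finset.mem_union.1 hu with hu | hu <;> rcases Finset.mem_union.1 hw with hw | hw
    · exact hst u ((hA u).1 hu).1 w ((hA w).1 hw).1 he
    · obtain ⟨i, j, hj, rfl⟩ := mem_part.1 hw
      exact hac u hu i j hj he
    · obtain ⟨i, j, hj, rfl⟩ := mem_part.1 hu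
      exact hac w hw i j hj (hG.sym _ _ he)
    · obtain ⟨i, j, hj, rfl⟩ := mem_part.1 hu
      obtain ⟨k, l, hl, rfl⟩ := mem_part.1 hw
      exact hcc i k j hj l hl he
  have hsum3 : ∀ (i : Fin 3) (f : Fin 3 → ℕ), ∑ k, f k = f i + f (i + 1) + f (i + 2) := sum3
  have hsum3q : ∀ (i : Fin 3) (f : Fin 3 → ℚ), ∑ k, f k = f i + f (i + 1) + f (i + 2) := sum3
  -- the two cases
  by_cases htwo : ∃ i, (S i).Nonempty ∧ (S (i + 1)).Nonempty
  · obtain ⟨i, hi, hi1⟩ := htwo
    have hi2 : S (i + 2) = ∅ := by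
      by_contra hne
      obtain ⟨l, hl⟩ := Finset.nonempty_iff_ne_empty.2 hne
      obtain ⟨j, hj⟩ := hi
      obtain ⟨k, hk⟩ := hi1
      have h1 := hadj i j hj k hk
      have h2 := hadj (i + 1) k hk l (by rw [f3a]; exact hl)
      have h3 := hadj (i + 2) l hl j (by rw [f3c]; exact hj)
      omega
    set p := (S i).min' hi with hp
    set q := (S (i + 1)).max' hi1 with hq
    have hpS : p ∈ S i := Finset.min'_mem _ _
    have hqS : q ∈ S (i + 1) := Finset.max'_mem _ _
    have hpm : p < m := Finset.mem_range.1 (hS _ hpS)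
    have hqp : q < p := hadj i p hpS q hqS
    set S' : Fin 3 → Finset ℕ := fun k => if k = i then Finset.Ico p m else
      if k = i + 1 then Finset.Ico 0 (q + 1) else ∅ with hS'def
    have e0 : S' i = Finset.Ico p m := if_pos rfl
    have e1 : S' (i + 1) = Finset.Ico 0 (q + 1) := by
      rw [hS'def]; simp only [if_neg (f3e i), if_true]
    have e2 : S' (i + 2) = ∅ := by
      rw [hS'def]; simp only [if_neg (f3f i), if_neg (f3g i).symm]
    have hS'm : ∀ k, S' k ⊆ Finset.range m := by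
      intro k
      rcases f3 i k with rfl | rfl | rfl
      · rw [e0]; intro j hj
        exact Finset.mem_range.2 (Finset.mem_Ico.1 hj).2
      · rw [e1]; intro j hj
        have := (Finset.mem_Ico.1 hj).2
        exact Finset.mem_range.2 (by omega)
      · rw [e2]; simp
    have hst' : Stb E (A ∪ part t S') := by
      apply hstab S' hS'm
      · intro k j hj l hl
        rcases f3 i k with rfl | rfl | rfl
        · rw [e0] at hj
          rw [e1] at hl
          have h1 := Finset.mem_Ico.1 hj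
          have h2 := Finset.mem_Ico.1 hl
          omega
        · rw [f3a, e2] at hl
          simp at hl
        · rw [e2] at hj
          simp at hj
      · intro v hv j hj
        rcases f3 i (cls v) with hc' | hc' | hc'
        · rw [hc', e1] at hj
          have h1 := hcut1 v hv q (by rw [hc']; exact hqS)
          have h2 := Finset.mem_Ico.1 hj
          omega
        · rw [hc', f3a, e2] at hj
          simp at hj
        · exfalso
          have h1 := hcut1 v hv p (by rw [hc', f3c]; exact hpS)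
          have h2 := hcut2 v hv q (by rw [hc', f3d]; exact hqS)
          omega
      · intro v hv j hj
        rcases f3 i (cls v) with hc' | hc' | hc'
        · rw [hc', e2] at hj
          simp at hj
        · rw [hc', f3b, e0] at hj
          have h1 := hcut2 v hv p (by rw [hc', f3b]; exact hpS)
          have h2 := Finset.mem_Ico.1 hj
          omega
        · exfalso
          have h1 := hcut1 v hv p (by rw [hc', f3c]; exact hpS)
          have h2 := hcut2 v hv q (by rw [hc', f3d]; exact hqS)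
          omega
    have h1 := key S' hS'm hst'
    rw [hsum3q i, e0, e1, e2, Finset.sum_empty, add_zero] at h1
    have h2 : ∑ j ∈ Finset.Ico p m, x j = ∑ j ∈ Finset.range m, x j - ∑ j ∈ Finset.range p, x j :=
      Finset.sum_Ico_eq_sub _ hpm.le
    have h3 : ∑ j ∈ Finset.Ico 0 (q + 1), x j = ∑ j ∈ Finset.range (q + 1), x j := by
      rw [Finset.range_eq_Ico]
    rw [h2, h3, hF.sum] at h1
    have h4 := hround p (q + 1) hpm.le (by omega) ((h : ℤ) - A.card - b) (by
      push_cast
      linarith)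
    have h5 := hcount p m hpm.le le_rfl
    have h6 := hcount 0 (q + 1) (Nat.zero_le _) (by omega)
    have h7 : (S i).card ≤ (U.filter fun j => p ≤ j ∧ j < m).card := by
      apply Finset.card_le_card
      intro j hj
      exact Finset.mem_filter.2 ⟨hSU i hj, Finset.min'_le _ _ hj, Finset.mem_range.1 (hS i hj)⟩
    have h8 : (S (i + 1)).card ≤ (U.filter fun j => 0 ≤ j ∧ j < q + 1).card := by
      apply Finset.card_le_card
      intro j hj
      refine Finset.mem_filter.2 ⟨hSU _ hj, Nat.zero_le _, ?_⟩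
      have := Finset.le_max' _ _ hj
      omega
    have h9 : ∑ k, (S k).card = (S i).card + (S (i + 1)).card := by
      rw [hsum3 i, hi2]; simp
    omega
  · push Not at htwo
    obtain ⟨v, hvD, hvc⟩ := hcore
    obtain ⟨j0, hj0, hv⟩ := hL.all v hvc
    set i := cls v with hi
    have hSi : (S i).Nonempty := ⟨j0, (hSj i j0).2 ⟨hj0, by rw [hv]; exact hvD⟩⟩
    have hSi1 : S (i + 1) = ∅ := htwo i hSi
    have hSi2 : S (i + 2) = ∅ := by
      by_contra hne
      have h1 := htwo (i + 2) (Finset.nonempty_iff_ne_empty.2 hne)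
      rw [f3c] at h1
      exact hSi.ne_empty h1
    set p := (S i).min' hSi with hp
    set q := (S i).max' hSi with hq
    have hpS : p ∈ S i := Finset.min'_mem _ _
    have hqS : q ∈ S i := Finset.max'_mem _ _
    have hqm : q < m := Finset.mem_range.1 (hS _ hqS)
    have hpq : p ≤ q := Finset.min'_le _ _ hqS
    set S' : Fin 3 → Finset ℕ := fun k => if k = i then Finset.Ico p (q + 1) else ∅ with hS'def
    have e0 : S' i = Finset.Ico p (q + 1) := if_pos rfl
    have e1 : S' (i + 1) = ∅ := if_neg (f3e i)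
    have e2 : S' (i + 2) = ∅ := if_neg (f3f i)
    have hS'm : ∀ k, S' k ⊆ Finset.range m := by
      intro k
      rcases f3 i k with rfl | rfl | rfl
      · rw [e0]; intro j hj
        have := (Finset.mem_Ico.1 hj).2
        exact Finset.mem_range.2 (by omega)
      · rw [e1]; simp
      · rw [e2]; simp
    have hst' : Stb E (A ∪ part t S') := by
      apply hstab S' hS'm
      · intro k j hj l hl
        rcases f3 i k with rfl | rfl | rfl
        · rw [e1] at hl
          simp at hl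
        · rw [e1] at hj
          simp at hj
        · rw [e2] at hj
          simp at hj
      · intro w hw j hj
        rcases f3 i (cls w) with hc' | hc' | hc'
        · rw [hc', e1] at hj
          simp at hj
        · rw [hc', f3a, e2] at hj
          simp at hj
        · rw [hc', f3c, e0] at hj
          have h1 := hcut1 w hw q (by rw [hc', f3c]; exact hqS)
          have h2 := Finset.mem_Ico.1 hj
          omega
      · intro w hw j hj
        rcases f3 i (cls w) with hc' | hc' | hc'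
        · rw [hc', e2] at hj
          simp at hj
        · rw [hc', f3b, e0] at hj
          have h1 := hcut2 w hw p (by rw [hc', f3b]; exact hpS)
          have h2 := Finset.mem_Ico.1 hj
          omega
        · rw [hc', f3d, e1] at hj
          simp at hj
    have h1 := key S' hS'm hst'
    rw [hsum3q i, e0, e1, e2, Finset.sum_empty, add_zero, add_zero] at h1
    have h2 : ∑ j ∈ Finset.Ico p (q + 1), x j =
        ∑ j ∈ Finset.range (q + 1), x j - ∑ j ∈ Finset.range p, x j :=
      Finset.sum_Ico_eq_sub _ (by omega)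
    rw [h2] at h1
    have h4 := hround p (q + 1) (by omega) (by omega) ((h : ℤ) - A.card) (by
      push_cast
      linarith)
    have h5 := hcount p (q + 1) (by omega) (by omega)
    have h7 : (S i).card ≤ (U.filter fun j => p ≤ j ∧ j < q + 1).card := by
      apply Finset.card_le_card
      intro j hj
      refine Finset.mem_filter.2 ⟨hSU i hj, Finset.min'_le _ _ hj, ?_⟩
      have := Finset.le_max' _ _ hj
      omega
    have h9 : ∑ k, (S k).card = (S i).card := by
      rw [hsum3 i, hSi1, hSi2]; simp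
    omega

end

end Pool.Agent.H.MP_ebc13b_lc.h61
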