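import Pool.Agent.H.MP_ebc13b_lc.h61.Clean

/-!
Rounding: the condition for stable sets of ordinary vertices; the rounding theorem.
-/

namespace Pool.Agent.H.MP_ebc13b_lc.h61

section
variable {X : Finset ℕ} {E : ℕ → ℕ → Prop} {m : ℕ} {t : ℕ → Fin 3 → ℕ} {cls : ℕ → Fin 3}
  {c : ℕ → ℕ}

/-- elements of a class -/
def Dk (cls : ℕ → Fin 3) (D : Finset ℕ) (i : Fin 3) : Finset ℕ := D.filter fun v => cls v = i

theorem mem_Dk {D : Finset ℕ} {i : Fin 3} {v : ℕ} : v ∈ Dk cls D i ↔ v ∈ D ∧ cls v = i := by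
  unfold Dk
  rw [Finset.mem_filter]

/-- largest cut -/
def hiC (cls : ℕ → Fin 3) (c : ℕ → ℕ) (D : Finset ℕ) (i : Fin 3) : ℕ := (Dk cls D i).sup c

/-- smallest cut -/
def loC (m : ℕ) (cls : ℕ → Fin 3) (c : ℕ → ℕ) (D : Finset ℕ) (i : Fin 3) : ℕ :=
  m - (Dk cls D i).sup fun v => m - c v

theorem le_hiC {D : Finset ℕ} {i : Fin 3} {v : ℕ} (h : v ∈ Dk cls D i) : c v ≤ hiC cls c D i :=
  Finset.le_sup (f := c) h

theorem lt_hiC {D : Finset ℕ} {i : Fin 3} {j : ℕ} (h : j < hiC cls c D i) :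
    ∃ v ∈ Dk cls D i, j < c v := by
  unfold hiC at h
  rwa [Finset.lt_sup_iff] at h

theorem loC_le (hc : ∀ v, c v ≤ m) {D : Finset ℕ} {i : Fin 3} {v : ℕ} (h : v ∈ Dk cls D i) :
    loC m cls c D i ≤ c v := by
  have h1 : m - c v ≤ (Dk cls D i).sup fun v => m - c v :=
    Finset.le_sup (f := fun v => m - c v) h
  have h2 := hc v
  unfold loC
  omega

theorem of_loC_le {D : Finset ℕ} {i : Fin 3} {j : ℕ} (hj : j < m)
    (h : loC m cls c D i ≤ j) : ∃ v ∈ Dk cls D i, c v ≤ j := by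
  unfold loC at h
  have h1 : m - j - 1 < (Dk cls D i).sup fun v => m - c v := by omega
  rw [Finset.lt_sup_iff] at h1
  obtain ⟨v, hv, h2⟩ := h1
  exact ⟨v, hv, by omega⟩

theorem hiC_le (hc : ∀ v, c v ≤ m) {D : Finset ℕ} {i : Fin 3} : hiC cls c D i ≤ m :=
  Finset.sup_le fun v _ => hc v

theorem loC_le' {D : Finset ℕ} {i : Fin 3} : loC m cls c D i ≤ m := Nat.sub_le _ _

theorem hi_empty {D : Finset ℕ} {i : Fin 3} (h : Dk cls D i = ∅) : hiC cls c D i = 0 := by
  unfold hiC; rw [h]; rfl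

theorem lo_empty {D : Finset ℕ} {i : Fin 3} (h : Dk cls D i = ∅) : loC m cls c D i = m := by
  unfold loC; rw [h]; simp

/-- neighbours of `D` in the triangles -/
theorem nb_core (hL : Lin X E m t cls c) {D : Finset ℕ} (hD : D ⊆ X)
    (hDc : ∀ v ∈ D, ¬ Core E v) {j : ℕ} (hj : j < m) (k : Fin 3) :
    (∃ v ∈ D, E v (t j k)) ↔ j < hiC cls c D (k + 1) ∨ loC m cls c D (k + 2) ≤ j := by
  constructor
  · rintro ⟨v, hv, he⟩
    have h1 := hL.st _ _ he
    rw [hL.clst j hj] at h1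
    rcases f3 k (cls v) with h2 | h2 | h2
    · exact absurd h2 h1
    · left
      have h3 : t j k = t j (cls v + 2) := by rw [h2, f3b]
      rw [h3] at he
      have h4 := (hL.r2 v (hD hv) (hDc v hv) j hj).1 he
      exact h4.trans_le (le_hiC (mem_Dk.2 ⟨hv, h2⟩))
    · right
      have h3 : t j k = t j (cls v + 1) := by rw [h2, f3c]
      rw [h3] at he
      have h4 := (hL.r1 v (hD hv) (hDc v hv) j hj).1 he
      exact (loC_le hL.le (mem_Dk.2 ⟨hv, h2⟩)).trans h4
  · rintro (h | h)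
    · obtain ⟨v, hv, h1⟩ := lt_hiC h
      rw [mem_Dk] at hv
      refine ⟨v, hv.1, ?_⟩
      have h3 : t j k = t j (cls v + 2) := by rw [hv.2, f3b]
      rw [h3]
      exact (hL.r2 v (hD hv.1) (hDc v hv.1) j hj).2 h1
    · obtain ⟨v, hv, h1⟩ := of_loC_le hj h
      rw [mem_Dk] at hv
      refine ⟨v, hv.1, ?_⟩
      have h3 : t j k = t j (cls v + 1) := by rw [hv.2, f3c]
      rw [h3]
      exact (hL.r1 v (hD hv.1) (hDc v hv.1) j hj).2 h1

/-- separated classes have no common neighbours -/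
theorem sep (hG : Gr X E) (hL : Lin X E m t cls c) {D : Finset ℕ} (hD : D ⊆ X)
    (hDc : ∀ v ∈ D, ¬ Core E v) {i : Fin 3} (h : hiC cls c D i < loC m cls c D (i + 1))
    {v v' w : ℕ} (hv : v ∈ Dk cls D i) (hv' : v' ∈ Dk cls D (i + 1)) (h1 : E v w)
    (h2 : E v' w) : False := by
  have h3 := le_hiC (c := c) hv
  have h4 := loC_le hL.le hv'
  rw [mem_Dk] at hv hv'
  have h5 := hL.st _ _ h1
  have h6 := hL.st _ _ h2
  rw [hv.2] at h5
  rw [hv'.2] at h6
  have h7 : cls w = i + 2 := by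
    rcases f3 i (cls w) with h7 | h7 | h7
    · exact absurd h7.symm h5
    · exact absurd h7.symm h6
    · exact h7
  by_cases hw : Core E w
  · obtain ⟨j, hj, hjw⟩ := hL.all w hw
    have h8 := hL.r2 v (hD hv.1) (hDc v hv.1) j hj
    have h9 := hL.r1 v' (hD hv'.1) (hDc v' hv'.1) j hj
    rw [hv.2] at h8
    rw [hv'.2, f3a] at h9
    rw [h7] at hjw
    rw [hjw] at h8 h9
    have h10 := h8.1 h1
    have h11 := h9.1 h2
    omega
  · have h8 := hL.mono w v hw (hDc v hv.1) (hG.sym _ _ h1) (by rw [hv.2, h7, f3c])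
    have h9 := hL.mono v' w (hDc v' hv'.1) hw h2 (by rw [hv'.2, h7, f3a])
    omega

/-- value of a gap -/
def gval (hi lo : Fin 3 → ℕ) (Φ : ℕ → ℚ) (i : Fin 3) : ℚ :=
  if hi i ≤ lo (i + 1) then Φ (lo (i + 1)) - Φ (hi i) else 0

/-- The sum of the gaps is a single difference. -/
theorem gap_rep {hi lo : Fin 3 → ℕ} {m : ℕ} (hhi : ∀ i, hi i ≤ m) (hlo : ∀ i, lo i ≤ m)
    (h : (∃ i, lo (i + 1) ≤ hi i ∧ hi (i + 2) = 0 ∧ lo (i + 2) = m) ∨
      (∃ i, hi (i + 1) = 0 ∧ lo (i + 1) = m ∧ hi (i + 2) = 0 ∧ lo (i + 2) = m) ∨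
      (∃ i, lo (i + 1 + 1) ≤ hi (i + 1) ∧ lo (i + 2 + 1) ≤ hi (i + 2))) :
    ∃ (s r a : ℕ), s ≤ m ∧ r ≤ m ∧ ∀ Φ : ℕ → ℚ, Φ 0 = 0 →
      ∑ i, gval hi lo Φ i = a * Φ m + Φ s - Φ r := by
  have hz : ∀ (Φ : ℕ → ℚ) (i : Fin 3), lo (i + 1) ≤ hi i → gval hi lo Φ i = 0 := by
    intro Φ i h
    unfold gval
    split_ifs with h1
    · rw [le_antisymm h h1, sub_self]
    · rfl
  rcases h with ⟨i, h1, h2, h3⟩ | ⟨i, h1, h2, h3, h4⟩ | ⟨i, h1, h2⟩
  · refine ⟨lo i, hi (i + 1), 1, hlo i, hhi _, fun Φ h0 => ?_⟩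
    rw [sum3 i, hz Φ i h1]
    unfold gval
    rw [f3a, f3c, h2, h3, if_pos (hhi _), if_pos (Nat.zero_le _), h0]
    push_cast
    ring
  · refine ⟨lo i, hi i, 2, hlo i, hhi _, fun Φ h0 => ?_⟩
    rw [sum3 i]
    unfold gval
    rw [f3a, f3c, h2, h3, h4, h1, if_pos (hhi _), if_pos (Nat.zero_le _), if_pos (Nat.zero_le _), h0]
    push_cast
    ring
  · by_cases h3 : hi i ≤ lo (i + 1)
    · refine ⟨lo (i + 1), hi i, 0, hlo _, hhi _, fun Φ h0 => ?_⟩
      rw [sum3 i, hz Φ (i + 1) h1, hz Φ (i + 2) h2]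
      unfold gval
      rw [if_pos h3]
      push_cast
      ring
    · refine ⟨0, 0, 0, Nat.zero_le _, Nat.zero_le _, fun Φ h0 => ?_⟩
      rw [sum3 i, hz Φ (i + 1) h1, hz Φ (i + 2) h2]
      unfold gval
      rw [if_neg h3]
      push_cast
      ring

/-- The bound for stable sets of ordinary vertices. -/
theorem beta (hG : Gr X E) (hL : Lin X E m t cls c) {ε δ : ℚ} {b h : ℕ} {x y : ℕ → ℚ}
    (hF : FS X E m t b h ε x y) (hε : 0 ≤ ε) (hεδ : ε * X.card ≤ δ) {U : Finset ℕ}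
    {F : ℕ → ℤ} (hU : U ⊆ Finset.range m) (hF0 : F 0 = 0) (hFm : F m = b)
    (hcount : ∀ s t, s ≤ t → t ≤ m → ((U.filter fun j => s ≤ j ∧ j < t).card : ℤ) = F t - F s)
    (hround : ∀ s t, s ≤ m → t ≤ m → ∀ r : ℤ,
        ∑ j ∈ Finset.range t, x j - ∑ j ∈ Finset.range s, x j ≤ r + δ → F t - F s ≤ r)
    {W : Finset ℕ} (hW1 : ∀ v ∈ X, ¬ Core E v → v ∈ W) (hW2 : tset t U ⊆ W) :
    ∀ (n : ℕ) (D : Finset ℕ), D.card = n → D ⊆ X → (∀ v ∈ D, ¬ Core E v) → Stb E D →
      D.card ≤ (nbr E W D).card := by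
  classical
  intro n
  induction n using Nat.strong_induction_on with
  | _ n ih =>
  intro D hn hDX hDc hst
  -- splitting
  have hsplit : ∀ D' ⊆ D, D'.Nonempty → (D \ D').Nonempty →
      (∀ v ∈ D', ∀ v' ∈ D \ D', ∀ w, E v w → E v' w → False) →
      D.card ≤ (nbr E W D).card := by
    intro D' hD' hne1 hne2 hsep
    have hc1 := Finset.card_sdiff_add_card_eq_card hD'
    have hp1 := Finset.card_pos.2 hne1
    have hp2 := Finset.card_pos.2 hne2
    have h1 := ih D'.card (by omega) D' rfl (hD'.trans hDX) (fun v hv => hDc v (hD' hv))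
      (fun u hu v hv => hst u (hD' hu) v (hD' hv))
    have hs : D \ D' ⊆ D := Finset.sdiff_subset
    have h2 := ih (D \ D').card (by omega) (D \ D') rfl (hs.trans hDX)
      (fun v hv => hDc v (hs hv)) (fun u hu v hv => hst u (hs hu) v (hs hv))
    have h3 : Disjoint (nbr E W D') (nbr E W (D \ D')) := by
      rw [Finset.disjoint_left]
      intro w hw hw'
      obtain ⟨_, v, hv, hvw⟩ := mem_nbr.1 hw
      obtain ⟨_, v', hv', hvw'⟩ := mem_nbr.1 hw'
      exact hsep v hv v' hv' w hvw hvw'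
    have h4 : nbr E W D' ∪ nbr E W (D \ D') ⊆ nbr E W D := by
      intro w hw
      rcases Finset.mem_union.1 hw with hw | hw
      · obtain ⟨h5, v, hv, hvw⟩ := mem_nbr.1 hw
        exact mem_nbr.2 ⟨h5, v, hD' hv, hvw⟩
      · obtain ⟨h5, v, hv, hvw⟩ := mem_nbr.1 hw
        exact mem_nbr.2 ⟨h5, v, hs hv, hvw⟩
    have h5 := Finset.card_le_card h4
    rw [Finset.card_union_of_disjoint h3] at h5
    omega
  -- the main estimate
  set R := X.filter fun v => ¬ Core E v with hR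
  set S : Fin 3 → Finset ℕ := fun k => (Finset.range m).filter fun j => ∃ v ∈ D, E v (t j k) with hS
  have hSm : ∀ i, S i ⊆ Finset.range m := fun i => Finset.filter_subset _ _
  set hi := hiC cls c D with hhi
  set lo := loC m cls c D with hlo
  have hhim : ∀ i, hi i ≤ m := fun i => hiC_le hL.le
  have hlom : ∀ i, lo i ≤ m := fun i => loC_le'
  have hSg : ∀ k, S k = Finset.range m \ Finset.Ico (hi (k + 1)) (lo (k + 2)) := by
    intro k
    ext j
    rw [Finset.mem_filter, Finset.mem_sdiff, Finset.mem_range, Finset.mem_Ico]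
    constructor
    · rintro ⟨h1, h2⟩
      refine ⟨h1, ?_⟩
      rintro ⟨h3, h4⟩
      rcases (nb_core hL hDX hDc h1 k).1 h2 with h5 | h5
      · exact absurd h3 (not_le.2 h5)
      · exact absurd h4 (not_lt.2 h5)
    · rintro ⟨h1, h2⟩
      refine ⟨h1, (nb_core hL hDX hDc h1 k).2 ?_⟩
      have e : ¬ (hiC cls c D (k + 1) ≤ j ∧ j < loC m cls c D (k + 2)) := h2
      omega
  have hIco : ∀ i, Finset.Ico (hi i) (lo (i + 1)) ⊆ Finset.range m := by
    intro i j hj
    have h1 := (Finset.mem_Ico.1 hj).2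
    have h2 := hlom (i + 1)
    exact Finset.mem_range.2 (by omega)
  have hNX : nbr E X D = nbr E R D ∪ part t S := by
    ext w
    rw [Finset.mem_union, mem_nbr, mem_nbr, mem_part]
    constructor
    · rintro ⟨hw, v, hv, hvw⟩
      by_cases hwc : Core E w
      · right
        obtain ⟨j, hj, hjw⟩ := hL.all w hwc
        exact ⟨_, j, Finset.mem_filter.2 ⟨Finset.mem_range.2 hj, v, hv, by rw [hjw]; exact hvw⟩,
          hjw.symm⟩
      · left
        exact ⟨Finset.mem_filter.2 ⟨hw, hwc⟩, v, hv, hvw⟩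
    · rintro (⟨hw, h1⟩ | ⟨i, j, hj, rfl⟩)
      · exact ⟨(Finset.mem_filter.1 hw).1, h1⟩
      · rw [Finset.mem_filter, Finset.mem_range] at hj
        exact ⟨hL.tX hG hj.1 i, hj.2⟩
  have hNd : Disjoint (nbr E R D) (part t S) := by
    rw [Finset.disjoint_left]
    intro w hw hw'
    obtain ⟨h1, _⟩ := mem_nbr.1 hw
    obtain ⟨i, j, hj, rfl⟩ := mem_part.1 hw'
    exact (Finset.mem_filter.1 h1).2 (hL.tcore hG (Finset.mem_range.1 (hSm i hj)) i)
  have hDN : Disjoint D (nbr E X D) := by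
    rw [Finset.disjoint_left]
    intro w hw hw'
    obtain ⟨_, v, hv, hvw⟩ := mem_nbr.1 hw'
    exact hst v hv w hw hvw
  have hcards : D.card + (nbr E R D).card + ∑ i, (S i).card ≤ X.card := by
    have h1 : D ∪ nbr E X D ⊆ X := by
      intro w hw
      rcases Finset.mem_union.1 hw with hw | hw
      · exact hDX hw
      · exact (mem_nbr.1 hw).1
    have h2 := Finset.card_le_card h1
    rw [Finset.card_union_of_disjoint hDN, hNX, Finset.card_union_of_disjoint hNd,
      card_part hL hSm] at h2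
    omega
  have hsumS : ∀ k, ∑ j ∈ S k, x j = b - ∑ j ∈ Finset.Ico (hi (k + 1)) (lo (k + 1 + 1)), x j := by
    intro k
    rw [hSg k, f3a]
    have := Finset.sum_sdiff (f := x) (hIco (k + 1))
    rw [hF.sum, f3a] at this
    linarith
  have hgx : ∀ i, ∑ j ∈ Finset.Ico (hi i) (lo (i + 1)), x j =
      gval hi lo (fun t => ∑ j ∈ Finset.range t, x j) i := by
    intro i
    unfold gval
    split_ifs with h1
    · exact Finset.sum_Ico_eq_sub _ h1
    · rw [Finset.Ico_eq_empty (by omega), Finset.sum_empty]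
  have hmain : ∑ i, gval hi lo (fun t => ∑ j ∈ Finset.range t, x j) i ≤
      3 * b + (nbr E R D).card - D.card + δ := by
    have h1 := hF.f2 D hDX hst
    rw [hNX, Finset.sum_union hNd, sum_part' hL hSm] at h1
    obtain ⟨h2, h3⟩ := sum_part hF (A := nbr E R D) (S := S) (by
      intro w hw
      exact (Finset.mem_filter.1 (mem_nbr.1 hw).1).1) (by
      intro w hw
      exact (Finset.mem_filter.1 (mem_nbr.1 hw).1).2) hSm
    obtain ⟨h4, _⟩ := sum_part hF (A := D) (S := S) hDX hDc hSm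
    rw [abs_le] at h2 h3 h4
    have h5 : ∑ i, ∑ j ∈ S i, x j =
        3 * b - ∑ i, gval hi lo (fun t => ∑ j ∈ Finset.range t, x j) i := by
      have h6 : ∀ k ∈ (Finset.univ : Finset (Fin 3)), ∑ j ∈ S k, x j =
          b - gval hi lo (fun t => ∑ j ∈ Finset.range t, x j) (k + 1) := by
        intro k _
        rw [hsumS k, hgx]
      rw [Finset.sum_congr rfl h6, Finset.sum_sub_distrib, sum3 0
        (fun k => gval hi lo (fun t => ∑ j ∈ Finset.range t, x j) (k + 1)),
        sum3 0 (fun k => gval hi lo (fun t => ∑ j ∈ Finset.range t, x j) k)]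
      simp only [Finset.sum_const, Finset.card_univ, Fintype.card_fin, nsmul_eq_mul]
      rw [f3a, f3c]
      push_cast
      ring
    have h7 : ε * ((D.card : ℚ) + (nbr E R D).card + ∑ i, ((S i).card : ℚ)) ≤ δ := by
      refine le_trans (mul_le_mul_of_nonneg_left ?_ hε) hεδ
      exact_mod_cast hcards
    rw [mul_add, mul_add] at h7
    linarith [h2.2, h3.2, h4.1]
  -- the target
  have hnW : (nbr E R D).card + ∑ k, ((S k) ∩ U).card ≤ (nbr E W D).card := by
    have hSU : ∀ k, S k ∩ U ⊆ Finset.range m := fun k =>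
      Finset.inter_subset_left.trans (hSm k)
    have hd : Disjoint (nbr E R D) (part t fun k => S k ∩ U) := by
      rw [Finset.disjoint_left]
      intro w hw hw'
      obtain ⟨h1, _⟩ := mem_nbr.1 hw
      obtain ⟨i, j, hj, rfl⟩ := mem_part.1 hw'
      exact (Finset.mem_filter.1 h1).2 (hL.tcore hG (Finset.mem_range.1 (hSU i hj)) i)
    rw [← card_part hL hSU, ← Finset.card_union_of_disjoint hd]
    apply Finset.card_le_card
    intro w hw
    rcases Finset.mem_union.1 hw with hw | hw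
    · obtain ⟨h1, h2⟩ := mem_nbr.1 hw
      rw [Finset.mem_filter] at h1
      exact mem_nbr.2 ⟨hW1 w h1.1 h1.2, h2⟩
    · obtain ⟨i, j, hj, rfl⟩ := mem_part.1 hw
      rw [Finset.mem_inter, Finset.mem_filter] at hj
      exact mem_nbr.2 ⟨hW2 (mem_tset.2 ⟨j, hj.2, i, rfl⟩), hj.1.2⟩
  have hUcard : (U.card : ℤ) = b := by
    have h1 := hcount 0 m (Nat.zero_le _) le_rfl
    rw [hF0, hFm, sub_zero] at h1
    rw [← h1]
    congr 2
    ext j
    rw [Finset.mem_filter]
    exact ⟨fun h => ⟨h, Nat.zero_le _, Finset.mem_range.1 (hU h)⟩, fun h => h.1⟩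
  have hSU : ∀ k, (((S k ∩ U).card : ℤ) : ℚ) = b - gval hi lo (fun t => ((F t : ℤ) : ℚ)) (k + 1) := by
    intro k
    have h1 : S k ∩ U = U \ (U.filter fun j => hi (k + 1) ≤ j ∧ j < lo (k + 1 + 1)) := by
      ext j
      rw [hSg k, f3a]
      simp only [Finset.mem_inter, Finset.mem_sdiff, Finset.mem_range, Finset.mem_Ico,
        Finset.mem_filter]
      constructor
      · rintro ⟨⟨h1, h2⟩, h3⟩
        exact ⟨h3, fun h4 => h2 h4.2⟩
      · rintro ⟨h1, h2⟩
        exact ⟨⟨Finset.mem_range.1 (hU h1), fun h4 => h2 ⟨h1, h4⟩⟩, h1⟩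
    have h2 := Finset.card_sdiff_add_card_eq_card
      (Finset.filter_subset (fun j => hi (k + 1) ≤ j ∧ j < lo (k + 1 + 1)) U)
    have h3 : (((U.filter fun j => hi (k + 1) ≤ j ∧ j < lo (k + 1 + 1)).card : ℤ) : ℚ) =
        gval hi lo (fun t => ((F t : ℤ) : ℚ)) (k + 1) := by
      unfold gval
      split_ifs with h4
      · rw [hcount _ _ h4 (hlom _)]
        push_cast
        ring
      · have : (U.filter fun j => hi (k + 1) ≤ j ∧ j < lo (k + 1 + 1)) = ∅ := by
          apply Finset.filter_eq_empty_iff.2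
          intro j _
          omega
        rw [this]
        simp
    rw [← h3, h1]
    have h4 : ((U \ (U.filter fun j => hi (k + 1) ≤ j ∧ j < lo (k + 1 + 1))).card : ℤ) =
        b - (U.filter fun j => hi (k + 1) ≤ j ∧ j < lo (k + 1 + 1)).card := by
      rw [← hUcard]
      omega
    rw [h4]
    push_cast
    ring
  have hfinal : (∃ i, lo (i + 1) ≤ hi i ∧ hi (i + 2) = 0 ∧ lo (i + 2) = m) ∨
      (∃ i, hi (i + 1) = 0 ∧ lo (i + 1) = m ∧ hi (i + 2) = 0 ∧ lo (i + 2) = m) ∨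
      (∃ i, lo (i + 1 + 1) ≤ hi (i + 1) ∧ lo (i + 2 + 1) ≤ hi (i + 2)) →
      D.card ≤ (nbr E W D).card := by
    intro hcase
    obtain ⟨s, r, a, hs, hr, hrep⟩ := gap_rep hhim hlom hcase
    have h1 := hrep (fun t => ∑ j ∈ Finset.range t, x j) (by simp)
    have h2 := hrep (fun t => ((F t : ℤ) : ℚ)) (by simp [hF0])
    rw [h1] at hmain
    simp only [hF.sum] at hmain
    have h3 := hround r s hr hs (3 * b + (nbr E R D).card - D.card - a * b) (by
      push_cast
      linarith)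
    have h4 : ∑ k, (((S k ∩ U).card : ℤ) : ℚ) = 3 * b - (a * b + F s - F r) := by
      have h5 : ∀ k ∈ (Finset.univ : Finset (Fin 3)), (((S k ∩ U).card : ℤ) : ℚ) =
          b - gval hi lo (fun t => ((F t : ℤ) : ℚ)) (k + 1) := fun k _ => hSU k
      rw [Finset.sum_congr rfl h5, Finset.sum_sub_distrib, sum3 0
        (fun k => gval hi lo (fun t => ((F t : ℤ) : ℚ)) (k + 1)), f3a, f3c]
      rw [sum3 0] at h2
      simp only [Finset.sum_const, Finset.card_univ, Fintype.card_fin, nsmul_eq_mul, hFm] at h2 ⊢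
      push_cast at h2 ⊢
      linarith
    have h5 : ((∑ k, (S k ∩ U).card : ℕ) : ℤ) = 3 * b - (a * b + F s - F r) := by
      have : (((∑ k, (S k ∩ U).card : ℕ) : ℤ) : ℚ) = ((3 * b - (a * b + F s - F r) : ℤ) : ℚ) := by
        push_cast at h4 ⊢
        exact h4
      exact_mod_cast this
    have h6 : ((nbr E R D).card : ℤ) + ((∑ k, (S k ∩ U).card : ℕ) : ℤ) ≤ (nbr E W D).card := by
      exact_mod_cast hnW
    have h7 : (D.card : ℤ) ≤ (nbr E W D).card := by linarith
    exact_mod_cast h7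
  -- case analysis
  have hDk : ∀ i, Dk cls D i ⊆ D := fun i => Finset.filter_subset _ _
  have hsepk : ∀ i, hi i < lo (i + 1) → ∀ v ∈ Dk cls D i, ∀ v' ∈ Dk cls D (i + 1), ∀ w,
      E v w → E v' w → False :=
    fun i h v hv v' hv' w h1 h2 => sep hG hL hDX hDc h hv hv' h1 h2
  by_cases hD0 : D = ∅
  · rw [hD0]; simp
  obtain ⟨v0, hv0⟩ := Finset.nonempty_iff_ne_empty.2 hD0
  by_cases hall : ∀ i, (Dk cls D i).Nonempty
  · -- three classes
    by_cases h3 : ∃ k, hi k < lo (k + 1) ∧ hi (k + 1) < lo (k + 1 + 1)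
    · obtain ⟨k, h4, h5⟩ := h3
      refine hsplit (Dk cls D (k + 1)) (hDk _) (hall _) ?_ ?_
      · obtain ⟨v, hv⟩ := hall k
        refine ⟨v, Finset.mem_sdiff.2 ⟨hDk _ hv, fun hv' => ?_⟩⟩
        rw [mem_Dk] at hv hv'
        exact f3e k (hv'.2.symm.trans hv.2)
      · intro v hv v' hv' w h6 h7
        rw [Finset.mem_sdiff] at hv'
        have h8 : cls v' ≠ k + 1 := fun h => hv'.2 (mem_Dk.2 ⟨hv'.1, h⟩)
        rcases f3 k (cls v') with h9 | h9 | h9
        · exact hsepk k h4 v' (mem_Dk.2 ⟨hv'.1, h9⟩) v hv w h7 h6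
        · exact h8 h9
        · exact hsepk (k + 1) h5 v hv v' (mem_Dk.2 ⟨hv'.1, by rw [f3a]; exact h9⟩) w h6 h7
    · push Not at h3
      apply hfinal
      right; right
      by_cases h4 : hi 0 < lo (0 + 1)
      · have h5 := h3 0 h4
        refine ⟨0, h5, ?_⟩
        by_contra h6
        have h7 := h3 (0 + 2) (not_le.1 h6)
        rw [f3c] at h7
        omega
      · by_cases h5 : hi 1 < lo (1 + 1)
        · exact ⟨1, h3 1 h5, by
            have e : (1 : Fin 3) + 2 = 0 := rfl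
            rw [e]; exact not_lt.1 h4⟩
        · exact ⟨2, by
            have e : (2 : Fin 3) + 1 = 0 := rfl
            rw [e]; exact not_lt.1 h4, by
            have e : (2 : Fin 3) + 2 = 1 := rfl
            rw [e]; exact not_lt.1 h5⟩
  · push Not at hall
    obtain ⟨e, he⟩ := hall
    -- classes e+1, e+2
    by_cases h1 : (Dk cls D (e + 1)).Nonempty
    · by_cases h2 : (Dk cls D (e + 2)).Nonempty
      · -- two classes
        by_cases h3 : hi (e + 1) < lo (e + 1 + 1)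
        · refine hsplit (Dk cls D (e + 1)) (hDk _) h1 ?_ ?_
          · obtain ⟨v, hv⟩ := h2
            refine ⟨v, Finset.mem_sdiff.2 ⟨hDk _ hv, fun hv' => ?_⟩⟩
            rw [mem_Dk] at hv hv'
            exact f3g e (hv'.2.symm.trans hv.2)
          · intro v hv v' hv' w h6 h7
            rw [Finset.mem_sdiff] at hv'
            have h8 : cls v' ≠ e + 1 := fun h => hv'.2 (mem_Dk.2 ⟨hv'.1, h⟩)
            rcases f3 e (cls v') with h9 | h9 | h9
            · have : v' ∈ Dk cls D e := mem_Dk.2 ⟨hv'.1, h9⟩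
              rw [he] at this
              simp at this
            · exact h8 h9
            · exact hsepk (e + 1) h3 v hv v' (mem_Dk.2 ⟨hv'.1, by rw [f3a]; exact h9⟩) w h6 h7
        · apply hfinal
          left
          refine ⟨e + 1, not_lt.1 h3, ?_, ?_⟩
          · rw [f3b]; exact hi_empty he
          · rw [f3b]; exact lo_empty he
      · rw [Finset.not_nonempty_iff_eq_empty] at h2
        apply hfinal
        right; left
        refine ⟨e + 1, ?_, ?_, ?_, ?_⟩
        · rw [f3a]; exact hi_empty h2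
        · rw [f3a]; exact lo_empty h2
        · rw [f3b]; exact hi_empty he
        · rw [f3b]; exact lo_empty he
    · rw [Finset.not_nonempty_iff_eq_empty] at h1
      apply hfinal
      right; left
      refine ⟨e + 2, ?_, ?_, ?_, ?_⟩
      · rw [f3c]; exact hi_empty he
      · rw [f3c]; exact lo_empty he
      · rw [f3d]; exact hi_empty h1
      · rw [f3d]; exact lo_empty h1

/-- **The rounding theorem.** -/
theorem clean_round (hG : Gr X E) (hP : Prismatic X E) (hC : Clean E)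
    (hL : Lin X E m t cls c) {ε : ℚ} {b h : ℕ} {x y : ℕ → ℚ}
    (hF : FS X E m t b h ε x y) (hε : 0 ≤ ε) (hεδ : ε * X.card ≤ 1 / (2 * (m + 2)))
    (hX : X.Nonempty) {R : Finset ℕ} (hR : ∀ v, v ∈ R ↔ v ∈ X ∧ ¬ Core E v)
    (hcard : R.card + 3 * b = 2 * h)
    (hρ : ∃ M, Mch E R M ∧ R.card ≤ 2 * M.length + 3 * b) :
    ∃ U ⊆ Finset.range m, U.card = b ∧ ∃ M, Mch E (R ∪ tset t U) M ∧ M.length = h := by
  classical
  set δ : ℚ := 1 / (2 * (m + 2)) with hδ
  have hδ0 : 0 ≤ δ := by positivity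
  have hXc : (1 : ℚ) ≤ X.card := by
    have := Finset.card_pos.2 hX
    exact_mod_cast this
  obtain ⟨U, F, hU, hF0, hFm, hcount, hround⟩ := rounding m x b δ hF.x1 (by
    intro j hj
    have := hF.x0 j hj
    nlinarith) hF.sum le_rfl hδ0
  have hUcard : U.card = b := by
    have h1 := hcount 0 m (Nat.zero_le _) le_rfl
    rw [hF0, hFm, sub_zero] at h1
    have h2 : (U.filter fun j => 0 ≤ j ∧ j < m) = U := by
      ext j
      rw [Finset.mem_filter]
      exact ⟨fun h => h.1, fun h => ⟨h, Nat.zero_le _, Finset.mem_range.1 (hU h)⟩⟩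
    rw [h2] at h1
    exact_mod_cast h1
  refine ⟨U, hU, hUcard, ?_⟩
  set W := R ∪ tset t U with hW
  have hRX : R ⊆ X := fun v hv => ((hR v).1 hv).1
  have htU : ∀ v ∈ tset t U, v ∈ X ∧ Core E v := by
    intro v hv
    obtain ⟨j, hj, k, rfl⟩ := mem_tset.1 hv
    have hjm := Finset.mem_range.1 (hU hj)
    exact ⟨hL.tX hG hjm k, hL.tcore hG hjm k⟩
  have hWX : W ⊆ X := by
    intro v hv
    rcases Finset.mem_union.1 hv with hv | hv
    · exact hRX hv
    · exact (htU v hv).1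
  have hdis : Disjoint R (tset t U) := by
    rw [Finset.disjoint_left]
    intro v hv hv'
    exact ((hR v).1 hv).2 (htU v hv').2
  have hWcard : W.card = 2 * h := by
    rw [hW, Finset.card_union_of_disjoint hdis, card_tset hL hU, hUcard, hcard]
  obtain ⟨M, hM, hMl⟩ := pm_criterion hG hP hC (W := W) hWX (by
      intro v hv hvc
      rcases Finset.mem_union.1 hv with hv | hv
      · exact absurd hvc ((hR v).1 hv).2
      · obtain ⟨j, hj, k, rfl⟩ := mem_tset.1 hv
        have hjm := Finset.mem_range.1 (hU hj)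
        exact ⟨_, Finset.mem_union_right _ (mem_tset.2 ⟨j, hj, k + 1, rfl⟩), _,
          Finset.mem_union_right _ (mem_tset.2 ⟨j, hj, k + 2, rfl⟩),
          tri_cyc hG (hL.tri j hjm) k⟩)
    (by rw [hWcard]; exact even_two_mul h) (R := R) (K := tset t U) (by
      intro v
      rw [hR]
      constructor
      · rintro ⟨h1, h2⟩
        exact ⟨Finset.mem_union_left _ ((hR v).2 ⟨h1, h2⟩), h2⟩
      · rintro ⟨h1, h2⟩
        exact ⟨hWX h1, h2⟩) (by
      intro v
      constructor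
      · intro h1
        exact ⟨Finset.mem_union_right _ h1, (htU v h1).2⟩
      · rintro ⟨h1, h2⟩
        rcases Finset.mem_union.1 h1 with h1 | h1
        · exact absurd h2 ((hR v).1 h1).2
        · exact h1)
    (by
      obtain ⟨M, hM, h1⟩ := hρ
      exact ⟨M, hM, by rw [card_tset hL hU, hUcard]; exact h1⟩)
    (by
      intro D hD hst hcore
      have := alpha hG hL hF hε hεδ hU hF0 hFm hcount hround (D := D) (by
        intro v hv
        refine ⟨hWX (hD hv), fun hvc => ?_⟩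
        rcases Finset.mem_union.1 (hD hv) with h1 | h1
        · exact absurd hvc ((hR v).1 h1).2
        · exact h1) hst hcore
      rw [hWcard]
      omega)
    (by
      intro D hD hst
      exact beta hG hL hF hε hεδ hU hF0 hFm hcount hround
        (fun v hv hvc => Finset.mem_union_left _ ((hR v).2 ⟨hv, hvc⟩))
        Finset.subset_union_right _ D rfl (hD.trans hRX)
        (fun v hv => ((hR v).1 (hD hv)).2) hst)
  exact ⟨M, hM, by omega⟩

end

end Pool.Agent.H.MP_ebc13b_lc.h61
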