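import Pool.Agent.H.MP_ebc13b_lc.h61.LPc

/-!
Coverings by cliques: from colourings of the complement to matchings or fractional solutions, and
back.
-/

namespace Pool.Agent.H.MP_ebc13b_lc.h61

/-- partitions into `k` cliques -/
def ColK (X : Finset ℕ) (E : ℕ → ℕ → Prop) (k : ℕ) : Prop :=
  ∃ f : ℕ → ℕ, (∀ v ∈ X, f v < k) ∧ ∀ u ∈ X, ∀ v ∈ X, u ≠ v → f u = f v → E u v

section
variable {X : Finset ℕ} {E : ℕ → ℕ → Prop}

/-- a covering by at most `k` cliques gives a partition -/
theorem colK_of_cover (Q : List (Finset ℕ)) (hQ : ∀ q ∈ Q, ∀ u ∈ q, ∀ v ∈ q, u ≠ v → E u v)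
    (hcov : ∀ v ∈ X, ∃ q ∈ Q, v ∈ q) {k : ℕ} (hk : Q.length ≤ k) : ColK X E k := by
  refine ⟨fun v => Q.findIdx fun q => decide (v ∈ q), ?_, ?_⟩
  · intro v hv
    obtain ⟨q, hq, hvq⟩ := hcov v hv
    exact (List.findIdx_lt_length_of_exists ⟨q, hq, by simpa using hvq⟩).trans_le hk
  · intro u hu v hv huv h
    obtain ⟨q, hq, huq⟩ := hcov u hu
    obtain ⟨q', hq', hvq'⟩ := hcov v hv
    have h1 : Q.findIdx (fun q => decide (u ∈ q)) < Q.length :=
      List.findIdx_lt_length_of_exists ⟨q, hq, by simpa using huq⟩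
    have h2 : Q.findIdx (fun q => decide (v ∈ q)) < Q.length :=
      List.findIdx_lt_length_of_exists ⟨q', hq', by simpa using hvq'⟩
    have h3 := List.findIdx_getElem (p := fun q => decide (u ∈ q)) (w := h1)
    have h4 := List.findIdx_getElem (p := fun q => decide (v ∈ q)) (w := h2)
    simp only [decide_eq_true_eq] at h3 h4
    simp only at h
    refine hQ _ (List.getElem_mem h1) u h3 v ?_ huv
    simpa only [h] using h4

/-- the colour classes -/
def fib (X : Finset ℕ) (f : ℕ → ℕ) (s : ℕ) : Finset ℕ := X.filter fun v => f v = s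

theorem mem_fib {f : ℕ → ℕ} {s v : ℕ} : v ∈ fib X f s ↔ v ∈ X ∧ f v = s := by
  unfold fib; rw [Finset.mem_filter]

/-- colour classes have at most three elements -/
theorem fib_le (hP : Prismatic X E) {f : ℕ → ℕ}
    (hf : ∀ u ∈ X, ∀ v ∈ X, u ≠ v → f u = f v → E u v) (s : ℕ) : (fib X f s).card ≤ 3 := by
  by_contra hcon
  obtain ⟨T, hT, hT4⟩ := Finset.exists_subset_card_eq (show 4 ≤ (fib X f s).card by omega)
  have hadj : ∀ u ∈ T, ∀ v ∈ T, u ≠ v → E u v := by
    intro u hu v hv huv
    have h1 := mem_fib.1 (hT hu)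
    have h2 := mem_fib.1 (hT hv)
    exact hf u h1.1 v h2.1 huv (h1.2.trans h2.2.symm)
  obtain ⟨a, T3, haT, rfl, hT3⟩ := Finset.card_eq_succ.1 hT4
  obtain ⟨x, y, z, hxy, hxz, hyz, rfl⟩ := Finset.card_eq_three.1 hT3
  simp only [Finset.mem_insert, Finset.mem_singleton, not_or] at haT
  have haX : a ∈ X := (mem_fib.1 (hT (Finset.mem_insert_self _ _))).1
  have h1 := hP x y z a ⟨hadj x (by simp) y (by simp) hxy, hadj y (by simp) z (by simp) hyz,
    hadj x (by simp) z (by simp) hxz⟩ haX haT.1 haT.2.1 haT.2.2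
  have h2 := hadj a (by simp) x (by simp) haT.1
  have h3 := hadj a (by simp) y (by simp) haT.2.1
  have h4 := hadj a (by simp) z (by simp) haT.2.2
  tauto

/-- matchings from colour classes -/
theorem mch_of_fib {W : Finset ℕ} {f : ℕ → ℕ} (S : Finset ℕ) (p : ℕ → ℕ × ℕ)
    (h : ∀ s ∈ S, E (p s).1 (p s).2 ∧ (p s).1 ∈ W ∧ (p s).2 ∈ W ∧ (p s).1 ≠ (p s).2 ∧
      f (p s).1 = s ∧ f (p s).2 = s) : Mch E W (S.toList.map p) ∧ (S.toList.map p).length = S.card := by
  refine ⟨⟨?_, ?_⟩, by simp⟩
  · intro q hq
    obtain ⟨s, hs, rfl⟩ := List.mem_map.1 hq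
    obtain ⟨h1, h2, h3, _⟩ := h s (Finset.mem_toList.1 hs)
    exact ⟨h1, h2, h3⟩
  · unfold ends
    rw [List.flatMap_map, List.nodup_flatMap]
    constructor
    · intro s hs
      have := (h s (Finset.mem_toList.1 hs)).2.2.2.1
      simpa using this
    · have h1 : S.toList.Nodup := S.nodup_toList
      refine List.Pairwise.imp_of_mem ?_ h1
      intro a b ha hb hab
      have h2 := h a (Finset.mem_toList.1 ha)
      have h3 := h b (Finset.mem_toList.1 hb)
      intro x hx hx'
      simp only [List.mem_cons, List.not_mem_nil, or_false] at hx hx'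
      apply hab
      rcases hx with rfl | rfl
      · rw [← h2.2.2.2.2.1]
        rcases hx' with h4 | h4
        · rw [h4]; exact h3.2.2.2.2.1
        · rw [h4]; exact h3.2.2.2.2.2
      · rw [← h2.2.2.2.2.2]
        rcases hx' with h4 | h4
        · rw [h4]; exact h3.2.2.2.2.1
        · rw [h4]; exact h3.2.2.2.2.2

/-- from a matching to a colouring -/
theorem colK_of_mch (hG : Gr X E) {M : List (ℕ × ℕ)} (hM : Mch E X M) {k : ℕ}
    (hk : X.card ≤ k + M.length) : ColK X E k := by
  classical
  refine colK_of_cover ((M.map fun p => ({p.1, p.2} : Finset ℕ)) ++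
    ((X \ (ends M).toFinset).toList.map fun v => ({v} : Finset ℕ))) ?_ ?_ ?_
  · intro q hq u hu v hv huv
    rcases List.mem_append.1 hq with hq | hq
    · obtain ⟨p, hp, rfl⟩ := List.mem_map.1 hq
      have h1 := (hM.1 p hp).1
      rw [Finset.mem_insert, Finset.mem_singleton] at hu hv
      rcases hu with rfl | rfl <;> rcases hv with rfl | rfl
      · exact absurd rfl huv
      · exact h1
      · exact hG.sym _ _ h1
      · exact absurd rfl huv
    · obtain ⟨w, _, rfl⟩ := List.mem_map.1 hq
      rw [Finset.mem_singleton] at hu hv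
      exact absurd (hu.trans hv.symm) huv
  · intro v hv
    by_cases h : v ∈ ends M
    · obtain ⟨p, hp, h1⟩ := mem_ends.1 h
      exact ⟨_, List.mem_append_left _ (List.mem_map.2 ⟨p, hp, rfl⟩), by
        rw [Finset.mem_insert, Finset.mem_singleton]; exact h1⟩
    · refine ⟨{v}, List.mem_append_right _ (List.mem_map.2 ⟨v, ?_, rfl⟩),
        Finset.mem_singleton_self _⟩
      rw [Finset.mem_toList, Finset.mem_sdiff, List.mem_toFinset]
      exact ⟨hv, h⟩
  · have h1 : (ends M).toFinset ⊆ X := by
      intro v hv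
      rw [List.mem_toFinset] at hv
      obtain ⟨p, hp, h1⟩ := mem_ends.1 hv
      rcases h1 with rfl | rfl
      · exact (hM.1 p hp).2.1
      · exact (hM.1 p hp).2.2
    have h2 := Finset.card_sdiff_add_card_eq_card h1
    rw [List.toFinset_card_of_nodup hM.2, length_ends] at h2
    simp only [List.length_append, List.length_map, Finset.length_toList]
    omega

/-- From a colouring: either a large matching or a partition into triangles and edges. -/
theorem colK_cases (hG : Gr X E) (hP : Prismatic X E) {k : ℕ} (hk : ColK X E k) :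
    (∃ M, Mch E X M ∧ X.card ≤ k + M.length) ∨
    ∃ f : ℕ → ℕ, (∀ v ∈ X, f v < k) ∧ (∀ u ∈ X, ∀ v ∈ X, u ≠ v → f u = f v → E u v) ∧
      ∀ s, (fib X f s).card = 0 ∨ (fib X f s).card = 2 ∨ (fib X f s).card = 3 := by
  classical
  -- choose a colouring with as few triangles as possible
  have hex : ∃ N : ℕ, ∃ f : ℕ → ℕ, (∀ v ∈ X, f v < k) ∧
      (∀ u ∈ X, ∀ v ∈ X, u ≠ v → f u = f v → E u v) ∧
      ((Finset.range k).filter fun s => (fib X f s).card = 3).card = N := by
    obtain ⟨f, h1, h2⟩ := hk
    exact ⟨_, f, h1, h2, rfl⟩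
  obtain ⟨f, hf1, hf2, hf3⟩ := Nat.find_spec hex
  have hmin := fun N (h : N < Nat.find hex) => Nat.find_min hex h
  have hout : ∀ s, ¬ s < k → fib X f s = ∅ := by
    intro s hs
    apply Finset.filter_eq_empty_iff.2
    rintro v hv rfl
    exact hs (hf1 v hv)
  by_cases h0 : ((Finset.range k).filter fun s => (fib X f s).card = 3) = ∅
  · left
    -- all classes have at most two elements
    have h2 : ∀ s, (fib X f s).card ≤ 2 := by
      intro s
      by_cases hs : s < k
      · have h3 := Finset.filter_eq_empty_iff.1 h0 (Finset.mem_range.2 hs)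
        have h4 := fib_le hP hf2 s
        omega
      · rw [hout s hs]; simp
    have hpair : ∀ s, ∃ p : ℕ × ℕ, (fib X f s).card = 2 → (p.1 ≠ p.2 ∧ fib X f s = {p.1, p.2}) := by
      intro s
      by_cases h : (fib X f s).card = 2
      · obtain ⟨x, y, hxy, he⟩ := Finset.card_eq_two.1 h
        exact ⟨(x, y), fun _ => ⟨hxy, he⟩⟩
      · exact ⟨(0, 0), fun h' => absurd h' h⟩
    choose p hp using hpair
    set S := (Finset.range k).filter fun s => (fib X f s).card = 2 with hS
    obtain ⟨h3, h4⟩ := mch_of_fib (E := E) (W := X) (f := f) S p (by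
      intro s hs
      obtain ⟨h5, h6⟩ := hp s (Finset.mem_filter.1 hs).2
      have h7 : (p s).1 ∈ fib X f s := by rw [h6]; simp
      have h8 : (p s).2 ∈ fib X f s := by rw [h6]; simp
      rw [mem_fib] at h7 h8
      exact ⟨hf2 _ h7.1 _ h8.1 h5 (h7.2.trans h8.2.symm), h7.1, h8.1, h5, h7.2, h8.2⟩)
    refine ⟨_, h3, ?_⟩
    rw [h4]
    have h5 : X.card = ∑ s ∈ Finset.range k, (fib X f s).card :=
      Finset.card_eq_sum_card_fiberwise fun v hv => Finset.mem_coe.2 (Finset.mem_range.2 (hf1 v hv))
    rw [h5, hS, Finset.card_filter]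
    have h6 : ∑ s ∈ Finset.range k, (fib X f s).card ≤
        ∑ s ∈ Finset.range k, (1 + if (fib X f s).card = 2 then 1 else 0) := by
      apply Finset.sum_le_sum
      intro s _
      have := h2 s
      split_ifs <;> omega
    rw [Finset.sum_add_distrib] at h6
    simpa using h6
  · right
    refine ⟨f, hf1, hf2, ?_⟩
    by_contra hcon
    push Not at hcon
    obtain ⟨s, hs0, hs2, hs3⟩ := hcon
    have hs1 : (fib X f s).card = 1 := by
      have := fib_le hP hf2 s
      omega
    have hsk : s < k := by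
      by_contra h
      rw [hout s h] at hs1
      simp at hs1
    obtain ⟨r, hr⟩ := Finset.nonempty_iff_ne_empty.2 h0
    rw [Finset.mem_filter, Finset.mem_range] at hr
    obtain ⟨hrk, hr3⟩ := hr
    obtain ⟨x, y, z, hxy, hxz, hyz, hT⟩ := Finset.card_eq_three.1 hr3
    obtain ⟨u, hu⟩ := Finset.card_eq_one.1 hs1
    have hxr : x ∈ fib X f r := by rw [hT]; simp
    have hyr : y ∈ fib X f r := by rw [hT]; simp
    have hzr : z ∈ fib X f r := by rw [hT]; simp
    have hus : u ∈ fib X f s := by rw [hu]; simp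
    have hrs : r ≠ s := by
      rintro rfl
      omega
    have hur : u ∉ fib X f r := by
      intro h
      exact hrs ((mem_fib.1 h).2.symm.trans (mem_fib.1 hus).2)
    have hX : ∀ v, v ∈ fib X f r → v ∈ X := fun v hv => (mem_fib.1 hv).1
    have hTri : Tri E x y z :=
      ⟨hf2 _ (hX _ hxr) _ (hX _ hyr) hxy ((mem_fib.1 hxr).2.trans (mem_fib.1 hyr).2.symm),
        hf2 _ (hX _ hyr) _ (hX _ hzr) hyz ((mem_fib.1 hyr).2.trans (mem_fib.1 hzr).2.symm),
        hf2 _ (hX _ hxr) _ (hX _ hzr) hxz ((mem_fib.1 hxr).2.trans (mem_fib.1 hzr).2.symm)⟩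
    have huX := (mem_fib.1 hus).1
    -- a vertex of the triangle adjacent to `u`
    obtain ⟨w, hw, huw⟩ : ∃ w ∈ fib X f r, E u w := by
      have h1 := hP x y z u hTri huX (fun h => hur (h ▸ hxr)) (fun h => hur (h ▸ hyr))
        (fun h => hur (h ▸ hzr))
      rcases h1 with h1 | h1 | h1
      · exact ⟨x, hxr, h1.1⟩
      · exact ⟨y, hyr, h1.2.1⟩
      · exact ⟨z, hzr, h1.2.2⟩
    have hwX := hX w hw
    have hwr := (mem_fib.1 hw).2
    -- recolour `w`
    set g : ℕ → ℕ := fun v => if v = w then s else f v with hg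
    have hgw : g w = s := if_pos rfl
    have hgn : ∀ v, v ≠ w → g v = f v := fun v hv => if_neg hv
    have hg1 : ∀ v ∈ X, g v < k := by
      intro v hv
      by_cases h : v = w
      · rw [h, hgw]; exact hsk
      · rw [hgn v h]; exact hf1 v hv
    have hfs : ∀ v ∈ X, f v = s → v = u := by
      intro v hv h
      have : v ∈ fib X f s := mem_fib.2 ⟨hv, h⟩
      rw [hu] at this
      exact Finset.mem_singleton.1 this
    have hg2 : ∀ a ∈ X, ∀ b ∈ X, a ≠ b → g a = g b → E a b := by
      intro a ha b hb hab h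
      by_cases h1 : a = w
      · subst h1
        rw [hgw, hgn b hab.symm] at h
        rw [hfs b hb h.symm]
        exact hG.sym _ _ huw
      · by_cases h2 : b = w
        · subst h2
          rw [hgw, hgn a h1] at h
          rw [hfs a ha h]
          exact huw
        · rw [hgn a h1, hgn b h2] at h
          exact hf2 a ha b hb hab h
    have hlt : ((Finset.range k).filter fun s => (fib X g s).card = 3).card <
        ((Finset.range k).filter fun s => (fib X f s).card = 3).card := by
      apply Finset.card_lt_card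
      rw [Finset.ssubset_iff_of_subset]
      · refine ⟨r, Finset.mem_filter.2 ⟨Finset.mem_range.2 hrk, hr3⟩, ?_⟩
        rw [Finset.mem_filter]
        rintro ⟨_, h⟩
        have h1 : fib X g r ⊆ (fib X f r).erase w := by
          intro v hv
          rw [mem_fib] at hv
          have hvw : v ≠ w := by
            rintro rfl
            rw [hgw] at hv
            exact hrs hv.2.symm
          rw [hgn v hvw] at hv
          exact Finset.mem_erase.2 ⟨hvw, mem_fib.2 hv⟩
        have h2 := Finset.card_le_card h1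
        rw [Finset.card_erase_of_mem hw] at h2
        omega
      · intro q hq
        rw [Finset.mem_filter] at hq ⊢
        refine ⟨hq.1, ?_⟩
        by_cases hqs : q = s
        · exfalso
          subst hqs
          have h1 : fib X g q ⊆ {u, w} := by
            intro v hv
            rw [mem_fib] at hv
            by_cases hvw : v = w
            · simp [hvw]
            · rw [hgn v hvw] at hv
              simp [hfs v hv.1 hv.2]
          have h2 := (Finset.card_le_card h1).trans Finset.card_le_two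
          omega
        · have h1 : fib X g q ⊆ fib X f q := by
            intro v hv
            rw [mem_fib] at hv ⊢
            have hvw : v ≠ w := by
              rintro rfl
              rw [hgw] at hv
              exact hqs hv.2.symm
            rwa [hgn v hvw] at hv
          have h2 := Finset.card_le_card h1
          have h3 := fib_le hP hf2 q
          omega
    rw [hf3] at hlt
    exact hmin _ hlt ⟨g, hg1, hg2, rfl⟩

end

end Pool.Agent.H.MP_ebc13b_lc.h61
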