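import Pool.Agent.H.MP_ebc13b_lc.h61.Forest

/-!
Pairs along paths and cycles, contraction of an odd cycle and expansion of matchings.
-/

namespace Pool.Agent.H.MP_ebc13b_lc.h61

open Pool.Agent.H.MP_5be563_lc.PT (memb memb_iff)

/-- consecutive pairs of a list -/
def pairUp : List ℕ → List (ℕ × ℕ)
  | a :: b :: t => (a, b) :: pairUp t
  | _ => []

theorem ends_pairUp : ∀ (n : ℕ) (l : List ℕ), l.length = 2 * n → ends (pairUp l) = l ∧
    (pairUp l).length = n
  | 0, l, h => by
    have : l = [] := List.length_eq_zero_iff.1 (by omega)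
    subst this; exact ⟨rfl, rfl⟩
  | n + 1, [], h => by simp at h
  | n + 1, [a], h => by simp at h; omega
  | n + 1, a :: b :: t, h => by
    obtain ⟨h1, h2⟩ := ends_pairUp n t (by simp at h; omega)
    simp only [pairUp, ends_cons, h1, List.length_cons, h2, and_self]

theorem pairUp_sub {Es : List (ℕ × ℕ)} : ∀ (l : List ℕ),
    l.IsChain (fun a b => (a, b) ∈ Es) → ∀ p ∈ pairUp l, p ∈ Es
  | [], _, p, hp => by simp [pairUp] at hp
  | [a], _, p, hp => by simp [pairUp] at hp
  | a :: b :: t, h, p, hp => by
    simp only [pairUp, List.mem_cons] at hp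
    rw [List.isChain_cons_cons] at h
    rcases hp with rfl | hp
    · exact h.1
    · refine pairUp_sub t ?_ p hp
      exact h.2.tail

theorem mem_pairUp {l : List ℕ} {p : ℕ × ℕ} (hp : p ∈ pairUp l) : p.1 ∈ l ∧ p.2 ∈ l := by
  induction l using pairUp.induct with
  | case1 a b t ih =>
    simp only [pairUp, List.mem_cons] at hp
    rcases hp with rfl | hp
    · simp
    · have := ih hp
      simp [this]
  | case2 l hl =>
    cases l with
    | nil => simp [pairUp] at hp
    | cons a l =>
      cases l with
      | nil => simp [pairUp] at hp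
      | cons b l => exact absurd rfl (hl a b l)

/-- contraction map of the odd cycle `z :: rest` onto `z` -/
def con (z : ℕ) (rest : List ℕ) (x : ℕ) : ℕ := if memb x rest then z else x

theorem con_of_mem {z x : ℕ} {rest : List ℕ} (h : x ∈ rest) : con z rest x = z := by
  simp [con, memb_iff.2 h]

theorem con_of_not_mem {z x : ℕ} {rest : List ℕ} (h : x ∉ rest) : con z rest x = x := by
  simp [con, memb_false.2 h]

/-- vertices after contraction -/
def cV (rest Vs : List ℕ) : List ℕ := Vs.filter fun x => !(memb x rest)

/-- edges after contraction -/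
def cE (z : ℕ) (rest : List ℕ) (Es : List (ℕ × ℕ)) : List (ℕ × ℕ) :=
  (Es.map fun p => (con z rest p.1, con z rest p.2)).filter fun p => !(decide (p.1 = p.2))

theorem mem_cV {rest Vs : List ℕ} {x : ℕ} : x ∈ cV rest Vs ↔ x ∈ Vs ∧ x ∉ rest := by
  unfold cV
  simp only [List.mem_filter, Bool.not_eq_true', memb_false]

theorem mem_cE {z : ℕ} {rest : List ℕ} {Es : List (ℕ × ℕ)} {x y : ℕ} :
    (x, y) ∈ cE z rest Es ↔ x ≠ y ∧ ∃ a b, (a, b) ∈ Es ∧ con z rest a = x ∧ con z rest b = y := by
  unfold cE
  simp only [List.mem_filter, List.mem_map, Prod.mk.injEq, Prod.exists, Bool.not_eq_true',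
    decide_eq_false_iff_not]
  tauto

/-- an odd cycle `z :: rest` -/
structure OddCycle (Vs : List ℕ) (Es : List (ℕ × ℕ)) (z : ℕ) (rest : List ℕ) : Prop where
  nd : (z :: rest).Nodup
  chain : (z :: rest ++ [z]).IsChain (fun a b => (a, b) ∈ Es)
  even : Even rest.length
  mem : z ∈ Vs

theorem OddCycle.sub {Vs : List ℕ} {Es : List (ℕ × ℕ)} {z : ℕ} {rest : List ℕ} (hG : IsG Vs Es)
    (h : OddCycle Vs Es z rest) : ∀ x ∈ z :: rest, x ∈ Vs := by
  have key : ∀ (l : List ℕ) (a : ℕ), a ∈ Vs → (a :: l).IsChain (fun a b => (a, b) ∈ Es) →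
      ∀ x ∈ a :: l, x ∈ Vs := by
    intro l
    induction l with
    | nil => intro a ha _ x hx; rw [List.mem_singleton] at hx; exact hx ▸ ha
    | cons b l ih =>
      intro a ha hc x hx
      rw [List.isChain_cons_cons] at hc
      rcases List.mem_cons.1 hx with rfl | hx
      · exact ha
      · exact ih b (hG.mem' hc.1) hc.2 x hx
  intro x hx
  have h2 : (z :: (rest ++ [z])).IsChain (fun a b => (a, b) ∈ Es) := h.chain
  exact key (rest ++ [z]) z h.mem h2 x (by
    rcases List.mem_cons.1 hx with rfl | hx
    · simp
    · simp [hx])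

theorem isG_contract {Vs : List ℕ} {Es : List (ℕ × ℕ)} {z : ℕ} {rest : List ℕ} (hG : IsG Vs Es)
    (h : OddCycle Vs Es z rest) : IsG (cV rest Vs) (cE z rest Es) := by
  have hz : z ∉ rest := (List.nodup_cons.1 h.nd).1
  refine ⟨?_, ?_, ?_, ?_⟩
  · intro x y hxy
    rw [mem_cE] at hxy ⊢
    obtain ⟨h1, a, b, h2, h3, h4⟩ := hxy
    exact ⟨h1.symm, b, a, hG.sym _ _ h2, h4, h3⟩
  · intro x hx
    rw [mem_cE] at hx
    exact hx.1 rfl
  · intro x y hxy
    rw [mem_cE] at hxy
    obtain ⟨h1, a, b, h2, h3, h4⟩ := hxy
    rw [mem_cV, ← h3]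
    by_cases ha : a ∈ rest
    · rw [con_of_mem ha]
      exact ⟨h.mem, hz⟩
    · rw [con_of_not_mem ha]
      exact ⟨hG.mem _ _ h2, ha⟩
  · exact hG.nd.filter _

/-- A certificate for the contracted graph gives a certificate for the graph, if `z` is exposed. -/
theorem cert_contract {Vs : List ℕ} {Es M' : List (ℕ × ℕ)} {z : ℕ} {rest : List ℕ}
    (hG : IsG Vs Es) (h : OddCycle Vs Es z rest) (hM' : IsMat (cE z rest Es) M')
    (hz : z ∉ ends M') (hC : Cert (cV rest Vs) (cE z rest Es) M'.length) :
    Cert Vs Es (M'.length + rest.length / 2) := by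
  classical
  have hzr : z ∉ rest := (List.nodup_cons.1 h.nd).1
  have hndr : rest.Nodup := (List.nodup_cons.1 h.nd).2
  have hG' := isG_contract hG h
  obtain ⟨A, c, hA, hc, hk⟩ := hC
  have hb := cert_bound hG' hM' hA hc
  have hzA : z ∉ A := by
    intro hzA
    have : 0 < (A.filter fun x => x ∉ ends M').card :=
      Finset.card_pos.2 ⟨z, Finset.mem_filter.2 ⟨hzA, hz⟩⟩
    omega
  have hAV : A ⊆ Vs.toFinset := by
    intro x hx
    have := hA hx
    rw [List.mem_toFinset, mem_cV] at this
    rw [List.mem_toFinset]
    exact this.1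
  have hAr : ∀ x ∈ rest, x ∉ A := by
    intro x hx hxA
    have := hA hxA
    rw [List.mem_toFinset, mem_cV] at this
    exact this.2 hx
  refine ⟨A, fun x => c (con z rest x), hAV, ?_, ?_⟩
  · intro x y hxy hx hy
    by_cases he : con z rest x = con z rest y
    · simp only [he]
    · apply hc
      · rw [mem_cE]
        exact ⟨he, x, y, hxy, rfl, rfl⟩
      · by_cases hxr : x ∈ rest
        · rw [con_of_mem hxr]; exact hzA
        · rw [con_of_not_mem hxr]; exact hx
      · by_cases hyr : y ∈ rest
        · rw [con_of_mem hyr]; exact hzA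
        · rw [con_of_not_mem hyr]; exact hy
  · have hVlen : Vs.length = (cV rest Vs).length + rest.length := by
      rw [← List.toFinset_card_of_nodup hG.nd, ← List.toFinset_card_of_nodup hG'.nd,
        ← List.toFinset_card_of_nodup hndr]
      have hsub : rest.toFinset ⊆ Vs.toFinset := by
        intro x hx
        rw [List.mem_toFinset] at hx ⊢
        exact h.sub hG x (List.mem_cons_of_mem _ hx)
      rw [← Finset.card_sdiff_add_card_eq_card hsub]
      congr 2
      ext x
      simp only [Finset.mem_sdiff, List.mem_toFinset, mem_cV]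
    have hodd : (oddc (Vs.toFinset \ A) fun x => c (con z rest x)) =
        oddc ((cV rest Vs).toFinset \ A) c := by
      have hzV : z ∈ (cV rest Vs).toFinset \ A := by
        rw [Finset.mem_sdiff, List.mem_toFinset, mem_cV]
        exact ⟨⟨h.mem, hzr⟩, hzA⟩
      have hsplit : Vs.toFinset \ A = ((cV rest Vs).toFinset \ A) ∪ rest.toFinset := by
        ext x
        simp only [Finset.mem_sdiff, List.mem_toFinset, mem_cV, Finset.mem_union]
        constructor
        · rintro ⟨h1, h2⟩
          by_cases hx : x ∈ rest
          · exact Or.inr hx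
          · exact Or.inl ⟨⟨h1, hx⟩, h2⟩
        · rintro (⟨⟨h1, h2⟩, h3⟩ | h1)
          · exact ⟨h1, h3⟩
          · exact ⟨h.sub hG x (List.mem_cons_of_mem _ h1), hAr x h1⟩
      have hdis : Disjoint ((cV rest Vs).toFinset \ A) rest.toFinset := by
        rw [Finset.disjoint_left]
        intro x hx hx'
        rw [Finset.mem_sdiff, List.mem_toFinset, mem_cV] at hx
        rw [List.mem_toFinset] at hx'
        exact hx.1.2 hx'
      have hcard : ∀ r, ((Vs.toFinset \ A).filter fun x => c (con z rest x) = r).card =
          (((cV rest Vs).toFinset \ A).filter fun x => c x = r).card +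
            (if c z = r then rest.length else 0) := by
        intro r
        rw [hsplit, Finset.filter_union, Finset.card_union_of_disjoint
          (Finset.disjoint_filter_filter hdis)]
        congr 1
        · congr 1
          apply Finset.filter_congr
          intro x hx
          rw [Finset.mem_sdiff, List.mem_toFinset, mem_cV] at hx
          rw [con_of_not_mem hx.1.2]
        · have : (rest.toFinset.filter fun x => c (con z rest x) = r) =
              if c z = r then rest.toFinset else ∅ := by
            ext x
            rw [Finset.mem_filter, List.mem_toFinset]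
            constructor
            · rintro ⟨h1, h2⟩
              rw [con_of_mem h1] at h2
              rw [if_pos h2, List.mem_toFinset]
              exact h1
            · intro hx
              split_ifs at hx with h1
              · rw [List.mem_toFinset] at hx
                exact ⟨hx, by rw [con_of_mem hx]; exact h1⟩
              · simp at hx
          rw [this]
          split_ifs
          · exact List.toFinset_card_of_nodup hndr
          · simp
      have himg : (Vs.toFinset \ A).image (fun x => c (con z rest x)) =
          ((cV rest Vs).toFinset \ A).image c := by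
        rw [hsplit, Finset.image_union]
        have e1 : ((cV rest Vs).toFinset \ A).image (fun x => c (con z rest x)) =
            ((cV rest Vs).toFinset \ A).image c := by
          apply Finset.image_congr
          intro x hx
          have hx' := Finset.mem_coe.1 hx
          rw [Finset.mem_sdiff, List.mem_toFinset, mem_cV] at hx'
          simp only
          rw [con_of_not_mem hx'.1.2]
        rw [e1]
        apply Finset.union_eq_left.2
        intro r hr
        rw [Finset.mem_image] at hr
        obtain ⟨x, hx, rfl⟩ := hr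
        rw [List.mem_toFinset] at hx
        rw [con_of_mem hx]
        exact Finset.mem_image_of_mem _ hzV
      unfold oddc
      rw [himg]
      apply Finset.filter_congr
      intro r _
      rw [hcard r, Nat.odd_add]
      split_ifs
      · simp [h.even]
      · simp
    rw [hodd]
    have := h.even
    rw [even_iff_two_dvd] at this
    omega

end Pool.Agent.H.MP_ebc13b_lc.h61
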