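import Pool.Agent.H.MP_ebc13b_lc.h61.Contract

/-!
Rotation of a cycle, expansion of a matching of the contracted graph, exchange along lists.
-/

namespace Pool.Agent.H.MP_ebc13b_lc.h61

open Pool.Agent.H.MP_5be563_lc.PT (memb memb_iff)

/-- one rotation step, unless the head is `v` -/
def rotStep (v : ℕ) (l : List ℕ) : List ℕ := if l.headD 0 = v then l else l.tail ++ l.take 1

/-- rotate `l` until the head is `v` -/
def rotTo (v : ℕ) (l : List ℕ) : List ℕ := (rotStep v)^[l.length] l

theorem rotStep_fix (v : ℕ) (t : List ℕ) (k : ℕ) : (rotStep v)^[k] (v :: t) = v :: t := by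
  induction k with
  | zero => rfl
  | succ k ih => rw [Function.iterate_succ_apply, show rotStep v (v :: t) = v :: t by simp [rotStep]]; exact ih

theorem rotStep_iter (v : ℕ) : ∀ (l₁ l₂ : List ℕ), v ∉ l₁ →
    (rotStep v)^[l₁.length] (l₁ ++ v :: l₂) = v :: (l₂ ++ l₁)
  | [], l₂, _ => by simp
  | a :: l₁, l₂, h => by
    simp only [List.mem_cons, not_or] at h
    have h1 : rotStep v (a :: l₁ ++ v :: l₂) = l₁ ++ v :: (l₂ ++ [a]) := by
      unfold rotStep
      rw [if_neg (by simpa using fun hc => h.1 hc.symm)]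
      simp
    rw [List.length_cons, Function.iterate_succ_apply, h1, rotStep_iter v l₁ _ h.2]
    simp

theorem rotTo_eq {v : ℕ} {l₁ l₂ : List ℕ} (h : v ∉ l₁) :
    rotTo v (l₁ ++ v :: l₂) = v :: (l₂ ++ l₁) := by
  unfold rotTo
  have : (l₁ ++ v :: l₂).length = (l₂.length + 1) + l₁.length := by simp; omega
  rw [this, Function.iterate_add_apply, rotStep_iter v l₁ l₂ h, rotStep_fix]

/-- test for an edge -/
def hasE (Es : List (ℕ × ℕ)) (a b : ℕ) : Bool := Es.any fun e => decide (e.1 = a) && decide (e.2 = b)

theorem hasE_iff {Es : List (ℕ × ℕ)} {a b : ℕ} : hasE Es a b = true ↔ (a, b) ∈ Es := by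
  unfold hasE
  simp only [List.any_eq_true, Bool.and_eq_true, decide_eq_true_eq, Prod.exists]
  constructor
  · rintro ⟨x, y, h, rfl, rfl⟩; exact h
  · intro h; exact ⟨a, b, h, rfl, rfl⟩

/-- the pairs of `M` that avoid `z` -/
def avoid (z : ℕ) (M : List (ℕ × ℕ)) : List (ℕ × ℕ) :=
  M.filter fun p => !(decide (p.1 = z) || decide (p.2 = z))

/-- the vertex of the cycle that takes over the edge at `z` -/
def port (Es : List (ℕ × ℕ)) (c : List ℕ) (M : List (ℕ × ℕ)) : ℕ :=
  (c.filter fun v => hasE Es v (mate M (c.headD 0))).headD 0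

/-- expansion of a matching of the contracted graph; `c` is the odd cycle and its head is the
vertex onto which it was contracted -/
def expand (Es : List (ℕ × ℕ)) (c : List ℕ) (M : List (ℕ × ℕ)) : List (ℕ × ℕ) :=
  if memb (c.headD 0) (ends M) then
    avoid (c.headD 0) M ++ ((port Es c M, mate M (c.headD 0)) :: pairUp (rotTo (port Es c M) c).tail)
  else M ++ pairUp c.tail

theorem length_filter_single {z : ℕ} : ∀ (M : List (ℕ × ℕ)), (ends M).Nodup → z ∈ ends M →
    (avoid z M).length + 1 = M.length
  | [], _, h => by simp at h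
  | r :: M, hM, hz => by
    simp only [ends_cons, List.nodup_cons, List.mem_cons, not_or] at hM
    obtain ⟨⟨h1, h2⟩, h3, h4⟩ := hM
    by_cases hr : z = r.1 ∨ z = r.2
    · have hzM : z ∉ ends M := by rcases hr with rfl | rfl <;> assumption
      have h5 : avoid z M = M := by
        unfold avoid
        rw [List.filter_eq_self]
        intro p hp
        have : ¬ (p.1 = z ∨ p.2 = z) := fun hc => hzM (mem_ends.2 ⟨p, hp, hc.imp Eq.symm Eq.symm⟩)
        simpa using this
      have h6 : avoid z (r :: M) = avoid z M := by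
        unfold avoid
        rw [List.filter_cons_of_neg]
        have : r.1 = z ∨ r.2 = z := hr.imp Eq.symm Eq.symm
        simp only [Bool.not_eq_true', Bool.or_eq_false_iff, decide_eq_false_iff_not]
        tauto
      rw [h6, h5, List.length_cons]
    · have hzM : z ∈ ends M := by
        simp only [ends_cons, List.mem_cons] at hz
        rcases hz with h | h | h
        · exact absurd (Or.inl h) hr
        · exact absurd (Or.inr h) hr
        · exact h
      have h5 := length_filter_single M h4 hzM
      have h6 : avoid z (r :: M) = r :: avoid z M := by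
        unfold avoid
        rw [List.filter_cons_of_pos]
        push Not at hr
        simpa using ⟨fun h => hr.1 h.symm, fun h => hr.2 h.symm⟩
      rw [h6, List.length_cons, h5, List.length_cons]

theorem nodup_ends_sublist {M N : List (ℕ × ℕ)} (h : N.Sublist M) : (ends N).Sublist (ends M) := by
  unfold ends
  exact h.flatMap _

theorem cE_of_ne {z : ℕ} {rest : List ℕ} {Es : List (ℕ × ℕ)} {x y : ℕ}
    (h : (x, y) ∈ cE z rest Es) (hx : x ≠ z) (hy : y ≠ z) : (x, y) ∈ Es := by
  rw [mem_cE] at h
  obtain ⟨_, a, b, h1, h2, h3⟩ := h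
  have ha : a ∉ rest := fun hc => hx (by rw [← h2, con_of_mem hc])
  have hb : b ∉ rest := fun hc => hy (by rw [← h3, con_of_mem hc])
  rw [con_of_not_mem ha] at h2
  rw [con_of_not_mem hb] at h3
  rw [← h2, ← h3]
  exact h1

theorem expand_spec {Vs : List ℕ} {Es M : List (ℕ × ℕ)} {z : ℕ} {rest : List ℕ}
    (hG : IsG Vs Es) (h : OddCycle Vs Es z rest) (hM : IsMat (cE z rest Es) M) :
    IsMat Es (expand Es (z :: rest) M) ∧
      (expand Es (z :: rest) M).length = M.length + rest.length / 2 := by
  have hG' := isG_contract hG h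
  have hzr : z ∉ rest := (List.nodup_cons.1 h.nd).1
  have hndr : rest.Nodup := (List.nodup_cons.1 h.nd).2
  have hends : ∀ x ∈ ends M, x ∈ Vs ∧ x ∉ rest := fun x hx => mem_cV.1 (hM.ends_sub hG' hx)
  obtain ⟨k, hk⟩ := h.even
  have hk2 : rest.length = 2 * k := by omega
  by_cases hz : z ∈ ends M
  · set y := mate M z with hy
    have hzy : (z, y) ∈ cE z rest Es := hM.mate_edge hG' hz
    have hyM : y ∈ ends M := mate_mem hz
    have hyz : y ≠ z := mate_ne hM.nd hz
    have hyr : y ∉ rest := (hends y hyM).2
    obtain ⟨_, a, b, h1, h2, h3⟩ := mem_cE.1 hzy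
    have hb : b ∉ rest := fun hc => hyz (by rw [← h3, con_of_mem hc])
    rw [con_of_not_mem hb] at h3
    rw [h3] at h1
    have hac : a ∈ z :: rest := by
      by_cases ha : a ∈ rest
      · exact List.mem_cons_of_mem _ ha
      · rw [con_of_not_mem ha] at h2
        rw [h2]; exact List.mem_cons_self
    have hport : port Es (z :: rest) M ∈ z :: rest ∧ (port Es (z :: rest) M, y) ∈ Es := by
      unfold port
      simp only [List.headD_cons, ← hy]
      have hmem : a ∈ (z :: rest).filter fun v => hasE Es v y :=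
        List.mem_filter.2 ⟨hac, hasE_iff.2 h1⟩
      obtain ⟨v, L, hv⟩ := List.exists_cons_of_ne_nil (List.ne_nil_of_mem hmem)
      rw [hv, List.headD_cons]
      have : v ∈ (z :: rest).filter fun v => hasE Es v y := by rw [hv]; exact List.mem_cons_self
      rw [List.mem_filter] at this
      exact ⟨this.1, hasE_iff.1 this.2⟩
    set v := port Es (z :: rest) M with hv
    obtain ⟨l₁, l₂, hl, hv1⟩ : ∃ l₁ l₂, z :: rest = l₁ ++ v :: l₂ ∧ v ∉ l₁ := by
      obtain ⟨l₁, l₂, h4⟩ := List.append_of_mem hport.1
      refine ⟨l₁, l₂, h4, ?_⟩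
      have := h.nd
      rw [h4, List.nodup_append] at this
      intro hc
      exact this.2.2 v hc v List.mem_cons_self rfl
    have hrot : (rotTo v (z :: rest)).tail = l₂ ++ l₁ := by
      rw [hl, rotTo_eq hv1]; rfl
    have hexp : expand Es (z :: rest) M = avoid z M ++ ((v, y) :: pairUp (l₂ ++ l₁)) := by
      unfold expand
      simp only [List.headD_cons, memb_iff.2 hz, if_true, ← hy, ← hv, hrot]
    have hlen : (l₂ ++ l₁).length = 2 * k := by
      have := congrArg List.length hl
      simp only [List.length_cons, List.length_append] at this ⊢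
      omega
    have hnd2 : (v :: (l₂ ++ l₁)).Nodup := by
      have h4 := h.nd
      rw [hl] at h4
      refine (List.Perm.nodup_iff ?_).1 h4
      exact (List.perm_middle).trans ((List.perm_cons v).2 List.perm_append_comm)
    have hmem2 : ∀ x, x ∈ v :: (l₂ ++ l₁) ↔ x ∈ z :: rest := by
      intro x
      rw [hl]
      simp only [List.mem_cons, List.mem_append]
      tauto
    have hchain : (v :: (l₂ ++ l₁)).IsChain (fun a b => (a, b) ∈ Es) := by
      have h4 := h.chain
      cases l₁ with
      | nil =>
        simp only [List.nil_append, List.append_nil] at hl ⊢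
        have h5 : z = v := by rw [List.cons.injEq] at hl; exact hl.1
        have h6 : rest = l₂ := by rw [List.cons.injEq] at hl; exact hl.2
        rw [← h5, ← h6]
        exact h4.left_of_append
      | cons c l₁ =>
        have h5 : z = c := by
          rw [List.cons_append, List.cons.injEq] at hl; exact hl.1
        have h6 : z :: rest ++ [z] = (c :: l₁) ++ (v :: (l₂ ++ [z])) := by rw [hl]; simp
        rw [h6] at h4
        have h7 : (v :: (l₂ ++ [z])).IsChain (fun a b => (a, b) ∈ Es) := h4.right_of_append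
        have h8 : (c :: l₁).IsChain (fun a b => (a, b) ∈ Es) := h4.left_of_append
        rw [← h5] at h8 ⊢
        have h9 : (v :: l₂) ++ z :: l₁ = v :: (l₂ ++ z :: l₁) := rfl
        rw [← h9, List.isChain_split]
        exact ⟨h7, h8⟩
    obtain ⟨he1, he2⟩ := ends_pairUp k _ hlen
    have havoid : ∀ x ∈ ends (avoid z M), x ∈ ends M ∧ x ≠ z ∧ x ≠ y := by
      intro x hx
      obtain ⟨p, hp, hxp⟩ := mem_ends.1 hx
      unfold avoid at hp
      rw [List.mem_filter] at hp
      obtain ⟨hpM, hpz⟩ := hp
      have hpz' : p.1 ≠ z ∧ p.2 ≠ z := by simpa using hpz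
      refine ⟨mem_ends.2 ⟨p, hpM, hxp⟩, ?_, ?_⟩
      · rcases hxp with rfl | rfl
        · exact hpz'.1
        · exact hpz'.2
      · rintro rfl
        have h10 : mate M y = z := by rw [hy, mate_mate hM.nd]
        rcases hxp with h11 | h11
        · have h12 : mate M y = p.2 := by rw [h11]; exact mate_left hM.nd hpM
          exact hpz'.2 (h12.symm.trans h10)
        · have h12 : mate M y = p.1 := by rw [h11]; exact mate_right hM.nd hpM
          exact hpz'.1 (h12.symm.trans h10)
    rw [hexp]
    refine ⟨⟨?_, ?_⟩, ?_⟩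
    · intro p hp
      rcases List.mem_append.1 hp with hp | hp
      · have hpe : p.1 ∈ ends (avoid z M) := mem_ends.2 ⟨p, hp, Or.inl rfl⟩
        have hpe2 : p.2 ∈ ends (avoid z M) := mem_ends.2 ⟨p, hp, Or.inr rfl⟩
        have hpM : p ∈ M := (List.mem_filter.1 hp).1
        exact cE_of_ne (hM.sub p hpM) (havoid _ hpe).2.1 (havoid _ hpe2).2.1
      · rcases List.mem_cons.1 hp with rfl | hp
        · exact hport.2
        · exact pairUp_sub _ hchain.tail p hp
    · rw [ends_append, ends_cons, he1]
      have hns : (ends (avoid z M)).Nodup := hM.nd.sublist (nodup_ends_sublist List.filter_sublist)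
      rw [List.nodup_append]
      refine ⟨hns, ?_, ?_⟩
      · have hyc : y ∉ v :: (l₂ ++ l₁) := by
          rw [hmem2, List.mem_cons]
          push Not
          exact ⟨hyz, hyr⟩
        simp only [List.mem_cons, not_or] at hyc
        simp only [List.nodup_cons, List.mem_cons, not_or] at hnd2 ⊢
        exact ⟨⟨fun hc => hyc.1 hc.symm, hnd2.1⟩, hyc.2, hnd2.2⟩
      · intro x hx w hw hxw
        subst hxw
        obtain ⟨h5, h6, h7⟩ := havoid x hx
        simp only [List.mem_cons] at hw
        have hxc : x ∉ v :: (l₂ ++ l₁) := by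
          rw [hmem2, List.mem_cons]
          push Not
          exact ⟨h6, (hends x h5).2⟩
        rcases hw with hw | hw | hw
        · exact hxc (by rw [hw]; exact List.mem_cons_self)
        · exact h7 hw
        · exact hxc (List.mem_cons_of_mem _ hw)
    · have h5 := length_filter_single M hM.nd hz
      simp only [List.length_append, List.length_cons, he2]
      omega
  · have hexp : expand Es (z :: rest) M = M ++ pairUp rest := by
      unfold expand
      simp [memb_false.2 hz]
    obtain ⟨he1, he2⟩ := ends_pairUp k _ hk2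
    have hchain : rest.IsChain (fun a b => (a, b) ∈ Es) := by
      have h4 : ((z :: rest) ++ [z]).IsChain (fun a b => (a, b) ∈ Es) := h.chain
      exact h4.left_of_append.tail
    rw [hexp]
    refine ⟨⟨?_, ?_⟩, ?_⟩
    · intro p hp
      rcases List.mem_append.1 hp with hp | hp
      · have h1 : p.1 ≠ z := fun hc => hz (mem_ends.2 ⟨p, hp, Or.inl hc.symm⟩)
        have h2 : p.2 ≠ z := fun hc => hz (mem_ends.2 ⟨p, hp, Or.inr hc.symm⟩)
        exact cE_of_ne (hM.sub p hp) h1 h2
      · exact pairUp_sub _ hchain p hp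
    · rw [ends_append, he1, List.nodup_append]
      refine ⟨hM.nd, hndr, ?_⟩
      intro x hx w hw hxw
      subst hxw
      exact (hends x hx).2 hw
    · rw [List.length_append, he2]
      omega

/-- Exchange: remove the pairs meeting `Q`, add the consecutive pairs of `P`. -/
theorem replace {Es3 M : List (ℕ × ℕ)} {Q P : List ℕ} (hnd : (ends M).Nodup) (hQ : Q.Nodup)
    (hP : P.Nodup) (hPQ : ∀ x ∈ P, x ∈ Q) (hcl : ∀ x ∈ Q, mate M x ∈ Q)
    (hsub : ∀ p ∈ M, p.1 ∉ Q → p.2 ∉ Q → p ∈ Es3)
    (hch : P.IsChain (fun a b => (a, b) ∈ Es3)) (n : ℕ) (hn : P.length = 2 * n) :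
    IsMat Es3 ((M.filter fun p => !(memb p.1 Q)) ++ pairUp P) ∧
      (∀ x, x ∈ ends ((M.filter fun p => !(memb p.1 Q)) ++ pairUp P) ↔
        (x ∈ ends M ∧ x ∉ Q) ∨ x ∈ P) ∧
      2 * ((M.filter fun p => !(memb p.1 Q)) ++ pairUp P).length +
        (Q.filter fun x => memb x (ends M)).length = 2 * M.length + P.length := by
  obtain ⟨he1, he2⟩ := ends_pairUp n P hn
  have hboth : ∀ p ∈ M, (p.1 ∉ Q ↔ p.2 ∉ Q) := by
    intro p hp
    have h1 : mate M p.1 = p.2 := mate_left hnd hp
    have h2 : mate M p.2 = p.1 := mate_right hnd hp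
    constructor
    · intro h3 h4
      have := hcl _ h4
      rw [h2] at this
      exact h3 this
    · intro h3 h4
      have := hcl _ h4
      rw [h1] at this
      exact h3 this
  set N := M.filter fun p => !(memb p.1 Q) with hN
  have hNmem : ∀ p, p ∈ N ↔ p ∈ M ∧ p.1 ∉ Q := by
    intro p
    rw [hN, List.mem_filter, Bool.not_eq_true', memb_false]
  have hNe : ∀ x, x ∈ ends N ↔ x ∈ ends M ∧ x ∉ Q := by
    intro x
    rw [mem_ends, mem_ends]
    constructor
    · rintro ⟨p, hp, hx⟩
      obtain ⟨h1, h2⟩ := (hNmem p).1 hp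
      refine ⟨⟨p, h1, hx⟩, ?_⟩
      rcases hx with rfl | rfl
      · exact h2
      · exact (hboth p h1).1 h2
    · rintro ⟨⟨p, hp, hx⟩, h2⟩
      refine ⟨p, (hNmem p).2 ⟨hp, ?_⟩, hx⟩
      rcases hx with rfl | rfl
      · exact h2
      · exact (hboth p hp).2 h2
  have hNnd : (ends N).Nodup := hnd.sublist (nodup_ends_sublist List.filter_sublist)
  have hends : ∀ x, x ∈ ends (N ++ pairUp P) ↔ (x ∈ ends M ∧ x ∉ Q) ∨ x ∈ P := by
    intro x
    rw [ends_append, he1, List.mem_append, hNe]
  refine ⟨⟨?_, ?_⟩, hends, ?_⟩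
  · intro p hp
    rcases List.mem_append.1 hp with hp | hp
    · obtain ⟨h1, h2⟩ := (hNmem p).1 hp
      exact hsub p h1 h2 ((hboth p h1).1 h2)
    · exact pairUp_sub _ hch p hp
  · rw [ends_append, he1, List.nodup_append]
    refine ⟨hNnd, hP, ?_⟩
    intro x hx w hw hxw
    subst hxw
    exact ((hNe x).1 hx).2 (hPQ x hw)
  · have h1 : (ends N).length + (Q.filter fun x => memb x (ends M)).length = (ends M).length := by
      rw [← List.toFinset_card_of_nodup hNnd, ← List.toFinset_card_of_nodup (hQ.filter _),
        ← List.toFinset_card_of_nodup hnd, ← Finset.card_union_of_disjoint]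
      · congr 1
        ext x
        simp only [Finset.mem_union, List.mem_toFinset, hNe, List.mem_filter, memb_iff]
        by_cases hx : x ∈ Q
        · simp [hx]
        · simp [hx]
      · rw [Finset.disjoint_left]
        intro x hx hx'
        rw [List.mem_toFinset, hNe] at hx
        rw [List.mem_toFinset, List.mem_filter] at hx'
        exact hx.2 hx'.1
    rw [length_ends, length_ends] at h1
    rw [List.length_append, he2]
    omega

end Pool.Agent.H.MP_ebc13b_lc.h61
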