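import Pool.Agent.H.MP_ebc13b_lc.h61.Mat
import Pool.Agent.H.MP_5be563_lc.PT.Arith

/-!
The alternating forest.
-/

namespace Pool.Agent.H.MP_ebc13b_lc.h61

open Pool.Agent.H.MP_5be563_lc.PT (memb memb_iff)

theorem memb_false {x : ℕ} {l : List ℕ} : memb x l = false ↔ x ∉ l := by
  rw [← memb_iff, Bool.not_eq_true]

/-- heads of the paths of the forest -/
def evens (E : List (List ℕ)) : List ℕ := E.map fun p => p.headD 0

/-- second vertices of the paths of the forest -/
def odds (E : List (List ℕ)) : List ℕ := E.flatMap fun p => (p.drop 1).take 1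

/-- possible extensions of the forest -/
def cands (Es : List (ℕ × ℕ)) (E : List (List ℕ)) : List (List ℕ × ℕ) :=
  E.flatMap fun p => (Es.filter fun e => decide (e.1 = p.headD 0) &&
    (!(memb e.2 (evens E)) && !(memb e.2 (odds E)))).map fun e => (p, e.2)

theorem mem_cands {Es : List (ℕ × ℕ)} {E : List (List ℕ)} {p : List ℕ} {y : ℕ} :
    (p, y) ∈ cands Es E ↔ p ∈ E ∧ (p.headD 0, y) ∈ Es ∧ y ∉ evens E ∧ y ∉ odds E := by
  unfold cands
  simp only [List.mem_flatMap, List.mem_map, List.mem_filter, Bool.and_eq_true,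
    decide_eq_true_eq, Bool.not_eq_true', memb_false, Prod.mk.injEq, Prod.exists]
  constructor
  · rintro ⟨q, hq, a, b, ⟨h1, h2, h3, h4⟩, rfl, rfl⟩
    rw [h2] at h1
    exact ⟨hq, h1, h3, h4⟩
  · rintro ⟨h1, h2, h3, h4⟩
    exact ⟨p, h1, _, y, ⟨h2, rfl, h3, h4⟩, rfl, rfl⟩

/-- one extension of the forest, if possible -/
def ext (Es M : List (ℕ × ℕ)) (E : List (List ℕ)) : List (List ℕ) :=
  match (cands Es E).head? with
  | none => E
  | some c => (mate M c.2 :: c.2 :: c.1) :: E

/-- the trivial forest -/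
def start (Vs : List ℕ) (M : List (ℕ × ℕ)) : List (List ℕ) :=
  (Vs.filter fun x => !(memb x (ends M))).map fun x => [x]

/-- the list of blocks `mate y, y` -/
def blk (M : List (ℕ × ℕ)) (ys : List ℕ) : List ℕ := ys.flatMap fun y => [mate M y, y]

@[simp] theorem blk_nil (M : List (ℕ × ℕ)) : blk M [] = [] := rfl
@[simp] theorem blk_cons (M : List (ℕ × ℕ)) (y : ℕ) (ys : List ℕ) :
    blk M (y :: ys) = mate M y :: y :: blk M ys := rfl

theorem length_blk (M : List (ℕ × ℕ)) (ys : List ℕ) : (blk M ys).length = 2 * ys.length := by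
  induction ys with
  | nil => rfl
  | cons y ys ih => simp [ih]; ring

theorem mem_blk {M : List (ℕ × ℕ)} {ys : List ℕ} {x : ℕ} :
    x ∈ blk M ys ↔ ∃ y ∈ ys, x = mate M y ∨ x = y := by
  simp [blk]

theorem mate_mem_blk {M : List (ℕ × ℕ)} (hM : (ends M).Nodup) {ys : List ℕ} {x : ℕ}
    (h : x ∈ blk M ys) : mate M x ∈ blk M ys := by
  rw [mem_blk] at h ⊢
  obtain ⟨y, hy, rfl | rfl⟩ := h
  · exact ⟨y, hy, Or.inr (mate_mate hM y)⟩
  · exact ⟨x, hy, Or.inl rfl⟩

/-- invariants of the forest -/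
structure Inv (Vs : List ℕ) (Es M : List (ℕ × ℕ)) (E : List (List ℕ)) : Prop where
  root : ∀ x ∈ Vs, x ∉ ends M → [x] ∈ E
  shape : ∀ p ∈ E, (∃ r, p = [r] ∧ r ∈ Vs ∧ r ∉ ends M) ∨
    ∃ y p', p = mate M y :: y :: p' ∧ p' ∈ E ∧ (p'.headD 0, y) ∈ Es ∧ y ∈ ends M ∧
      y ∉ p' ∧ mate M y ∉ p'
  cover : ∀ p ∈ E, ∀ v ∈ p, v ∈ evens E ∨ v ∈ odds E
  nd : (evens E).Nodup
  ndo : (odds E).Nodup
  disj : ∀ v ∈ evens E, v ∉ odds E
  sub : ∀ v ∈ evens E, v ∈ Vs
  count : (odds E).length + (Vs.filter fun x => !(memb x (ends M))).length = E.length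
  mo : ∀ v ∈ odds E, v ∈ ends M ∧ mate M v ∈ evens E
  me : ∀ v ∈ evens E, v ∈ ends M → mate M v ∈ odds E
  pairs : ∀ p ∈ E, ∀ q ∈ E, p.Disjoint q ∨ ∃ ys zs s, s ∈ E ∧ p = blk M ys ++ s ∧
    q = blk M zs ++ s ∧ (blk M ys).Disjoint q ∧ (blk M zs).Disjoint p

@[simp] theorem evens_cons (p : List ℕ) (E : List (List ℕ)) :
    evens (p :: E) = p.headD 0 :: evens E := rfl

theorem odds_cons (p : List ℕ) (E : List (List ℕ)) :
    odds (p :: E) = (p.drop 1).take 1 ++ odds E := rfl

theorem inv_start {Vs : List ℕ} {Es M : List (ℕ × ℕ)} (hG : IsG Vs Es) :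
    Inv Vs Es M (start Vs M) := by
  have hmem : ∀ p, p ∈ start Vs M ↔ ∃ x, x ∈ Vs ∧ x ∉ ends M ∧ p = [x] := by
    intro p
    unfold start
    simp only [List.mem_map, List.mem_filter, Bool.not_eq_true', memb_false]
    constructor
    · rintro ⟨x, ⟨h1, h2⟩, rfl⟩; exact ⟨x, h1, h2, rfl⟩
    · rintro ⟨x, h1, h2, rfl⟩; exact ⟨x, ⟨h1, h2⟩, rfl⟩
  have hev : evens (start Vs M) = Vs.filter fun x => !(memb x (ends M)) := by
    unfold evens start
    rw [List.map_map]
    conv_rhs => rw [← List.map_id (Vs.filter fun x => !(memb x (ends M)))]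
    rfl
  have hod : odds (start Vs M) = [] := by
    unfold odds start
    rw [List.flatMap_map]
    simp
  have hev' : ∀ v, v ∈ evens (start Vs M) ↔ v ∈ Vs ∧ v ∉ ends M := by
    intro v
    rw [hev]
    simp only [List.mem_filter, Bool.not_eq_true', memb_false]
  refine ⟨?_, ?_, ?_, ?_, ?_, ?_, ?_, ?_, ?_, ?_, ?_⟩
  · intro x hx h; exact (hmem _).2 ⟨x, hx, h, rfl⟩
  · intro p hp
    obtain ⟨x, h1, h2, rfl⟩ := (hmem _).1 hp
    exact Or.inl ⟨x, rfl, h1, h2⟩
  · intro p hp v hv
    obtain ⟨x, h1, h2, rfl⟩ := (hmem _).1 hp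
    rw [List.mem_singleton] at hv
    subst hv
    exact Or.inl ((hev' _).2 ⟨h1, h2⟩)
  · rw [hev]; exact hG.nd.filter _
  · rw [hod]; exact List.nodup_nil
  · rw [hod]; simp
  · intro v hv; exact ((hev' v).1 hv).1
  · rw [hod]; simp [start]
  · rw [hod]; simp
  · intro v hv h; exact absurd h ((hev' v).1 hv).2
  · intro p hp q hq
    obtain ⟨x, h1, h2, rfl⟩ := (hmem _).1 hp
    obtain ⟨y, h3, h4, rfl⟩ := (hmem _).1 hq
    by_cases hxy : x = y
    · subst hxy
      exact Or.inr ⟨[], [], [x], hp, rfl, rfl, by simp [List.Disjoint], by simp [List.Disjoint]⟩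
    · left
      intro a ha hb
      rw [List.mem_singleton] at ha hb
      exact hxy (ha.symm.trans hb)

theorem inv_ext {Vs : List ℕ} {Es M : List (ℕ × ℕ)} {E : List (List ℕ)} (hG : IsG Vs Es)
    (hM : IsMat Es M) (h : Inv Vs Es M E) {p : List ℕ} {y : ℕ} (hp : p ∈ E)
    (hy : (p.headD 0, y) ∈ Es) (hye : y ∉ evens E) (hyo : y ∉ odds E) :
    Inv Vs Es M ((mate M y :: y :: p) :: E) := by
  have hyV : y ∈ Vs := hG.mem' hy
  have hyM : y ∈ ends M := by
    by_contra hc
    apply hye
    have := h.root y hyV hc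
    exact List.mem_map.2 ⟨_, this, rfl⟩
  have hmM : mate M y ∈ ends M := mate_mem hyM
  have hme : mate M y ∉ evens E := by
    intro hc
    have := h.me _ hc hmM
    rw [mate_mate hM.nd] at this
    exact hyo this
  have hmo : mate M y ∉ odds E := by
    intro hc
    have := (h.mo _ hc).2
    rw [mate_mate hM.nd] at this
    exact hye this
  have hne : mate M y ≠ y := mate_ne hM.nd hyM
  have hnp : ∀ q ∈ E, y ∉ q ∧ mate M y ∉ q := by
    intro q hq
    refine ⟨fun hc => ?_, fun hc => ?_⟩
    · rcases h.cover q hq y hc with h1 | h1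
      · exact hye h1
      · exact hyo h1
    · rcases h.cover q hq _ hc with h1 | h1
      · exact hme h1
      · exact hmo h1
  have hev : ∀ v, v ∈ evens ((mate M y :: y :: p) :: E) ↔ v = mate M y ∨ v ∈ evens E := by
    intro v; simp
  have hod : ∀ v, v ∈ odds ((mate M y :: y :: p) :: E) ↔ v = y ∨ v ∈ odds E := by
    intro v; simp [odds_cons]
  refine ⟨?_, ?_, ?_, ?_, ?_, ?_, ?_, ?_, ?_, ?_, ?_⟩
  · intro x hx hxM
    exact List.mem_cons_of_mem _ (h.root x hx hxM)
  · intro q hq
    rcases List.mem_cons.1 hq with rfl | hq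
    · right
      exact ⟨y, p, rfl, List.mem_cons_of_mem _ hp, hy, hyM, (hnp p hp).1, (hnp p hp).2⟩
    · rcases h.shape q hq with h1 | ⟨z, q', h1, h2, h3⟩
      · exact Or.inl h1
      · exact Or.inr ⟨z, q', h1, List.mem_cons_of_mem _ h2, h3⟩
  · intro q hq v hv
    rw [hev, hod]
    rcases List.mem_cons.1 hq with rfl | hq
    · rcases List.mem_cons.1 hv with rfl | hv
      · exact Or.inl (Or.inl rfl)
      · rcases List.mem_cons.1 hv with rfl | hv
        · exact Or.inr (Or.inl rfl)
        · exact (h.cover p hp v hv).imp Or.inr Or.inr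
    · exact (h.cover q hq v hv).imp Or.inr Or.inr
  · simp only [evens_cons, List.headD_cons]
    exact List.nodup_cons.2 ⟨hme, h.nd⟩
  · simp only [odds_cons, List.drop_succ_cons, List.drop_zero, List.take_succ_cons, List.take_zero,
      List.singleton_append]
    exact List.nodup_cons.2 ⟨hyo, h.ndo⟩
  · intro v hv
    rw [hev] at hv
    rw [hod]
    push Not
    rcases hv with rfl | hv
    · exact ⟨hne, hmo⟩
    · exact ⟨fun h1 => hye (h1 ▸ hv), h.disj v hv⟩
  · intro v hv
    rw [hev] at hv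
    rcases hv with rfl | hv
    · exact hM.ends_sub hG hmM
    · exact h.sub v hv
  · have := h.count
    simp only [odds_cons, List.drop_succ_cons, List.drop_zero, List.take_succ_cons, List.take_zero,
      List.singleton_append, List.length_cons] at this ⊢
    omega
  · intro v hv
    rw [hod] at hv
    rw [hev]
    rcases hv with rfl | hv
    · exact ⟨hyM, Or.inl rfl⟩
    · exact ⟨(h.mo v hv).1, Or.inr (h.mo v hv).2⟩
  · intro v hv hvM
    rw [hev] at hv
    rw [hod]
    rcases hv with rfl | hv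
    · exact Or.inl (mate_mate hM.nd y)
    · exact Or.inr (h.me v hv hvM)
  · -- pairs
    have hnew : ∀ q ∈ E, (mate M y :: y :: p).Disjoint q ∨ ∃ ys zs s, s ∈ E ∧
        mate M y :: y :: p = blk M ys ++ s ∧ q = blk M zs ++ s ∧ (blk M ys).Disjoint q ∧
        (blk M zs).Disjoint (mate M y :: y :: p) := by
      intro q hq
      rcases h.pairs p hp q hq with h1 | ⟨ys, zs, s, h1, h2, h3, h4, h5⟩
      · left
        intro a ha hb
        rcases List.mem_cons.1 ha with rfl | ha
        · exact (hnp q hq).2 hb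
        · rcases List.mem_cons.1 ha with rfl | ha
          · exact (hnp q hq).1 hb
          · exact h1 ha hb
      · right
        refine ⟨y :: ys, zs, s, h1, by rw [h2]; rfl, h3, ?_, ?_⟩
        · intro a ha hb
          rw [blk_cons] at ha
          rcases List.mem_cons.1 ha with rfl | ha
          · exact (hnp q hq).2 hb
          · rcases List.mem_cons.1 ha with rfl | ha
            · exact (hnp q hq).1 hb
            · exact h4 ha hb
        · intro a ha hb
          have haq : a ∈ q := by rw [h3]; exact List.mem_append_left _ ha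
          rcases List.mem_cons.1 hb with rfl | hb
          · exact (hnp q hq).2 haq
          · rcases List.mem_cons.1 hb with rfl | hb
            · exact (hnp q hq).1 haq
            · exact h5 ha hb
    intro q hq q' hq'
    rcases List.mem_cons.1 hq with hq1 | hq1 <;> rcases List.mem_cons.1 hq' with hq2 | hq2
    · subst hq1; subst hq2
      exact Or.inr ⟨[], [], _, List.mem_cons_self, rfl, rfl, by simp [List.Disjoint],
        by simp [List.Disjoint]⟩
    · subst hq1
      rcases hnew q' hq2 with h1 | ⟨ys, zs, s, h1, h2⟩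
      · exact Or.inl h1
      · exact Or.inr ⟨ys, zs, s, List.mem_cons_of_mem _ h1, h2⟩
    · subst hq2
      rcases hnew q hq1 with h1 | ⟨ys, zs, s, h1, h2, h3, h4, h5⟩
      · exact Or.inl h1.symm
      · exact Or.inr ⟨zs, ys, s, List.mem_cons_of_mem _ h1, h3, h2, h5, h4⟩
    · rcases h.pairs q hq1 q' hq2 with h1 | ⟨ys, zs, s, h1, h2⟩
      · exact Or.inl h1
      · exact Or.inr ⟨ys, zs, s, List.mem_cons_of_mem _ h1, h2⟩

theorem Inv.ne {Vs : List ℕ} {Es M : List (ℕ × ℕ)} {E : List (List ℕ)} (h : Inv Vs Es M E)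
    {p : List ℕ} (hp : p ∈ E) : p ≠ [] := by
  rcases h.shape p hp with ⟨r, rfl, _⟩ | ⟨y, p', rfl, _⟩ <;> simp

/-- shape of the paths of the forest -/
theorem Inv.form {Vs : List ℕ} {Es M : List (ℕ × ℕ)} {E : List (List ℕ)} (hG : IsG Vs Es)
    (hM : IsMat Es M) (h : Inv Vs Es M E) : ∀ (n : ℕ) (p : List ℕ), p.length = n → p ∈ E →
      p.Nodup ∧ p.IsChain (fun a b => (a, b) ∈ Es) ∧
      ∃ ys r, p = blk M ys ++ [r] ∧ r ∈ Vs ∧ r ∉ ends M ∧ ∀ y ∈ ys, y ∈ ends M := by
  intro n
  induction n using Nat.strong_induction_on with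
  | _ n ih =>
    intro p hpn hp
    rcases h.shape p hp with ⟨r, rfl, h1, h2⟩ | ⟨y, p', rfl, h1, h2, h3, h4, h5⟩
    · exact ⟨by simp, by simp, [], r, rfl, h1, h2, by simp⟩
    · obtain ⟨hnd, hch, ys, r, hr, h6, h7, h8⟩ := ih p'.length (by simp at hpn; omega) p' rfl h1
      have hne := h.ne h1
      obtain ⟨x, t, hxt⟩ := List.exists_cons_of_ne_nil hne
      refine ⟨?_, ?_, y :: ys, r, ?_, h6, h7, ?_⟩
      · simp only [List.nodup_cons, List.mem_cons, not_or]
        exact ⟨⟨mate_ne hM.nd h3, h5⟩, h4, hnd⟩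
      · rw [hxt] at h2 hch ⊢
        simp only [List.isChain_cons_cons]
        refine ⟨?_, hG.sym _ _ h2, ?_⟩
        · have := hM.mate_edge hG h3
          exact hG.sym _ _ this
        · exact hch
      · rw [blk_cons, hr]; rfl
      · intro z hz
        rcases List.mem_cons.1 hz with rfl | hz
        · exact h3
        · exact h8 z hz

/-- the forest after `n` attempts -/
def grow (Vs : List ℕ) (Es M : List (ℕ × ℕ)) (n : ℕ) : List (List ℕ) :=
  (ext Es M)^[n] (start Vs M)

theorem grow_succ (Vs : List ℕ) (Es M : List (ℕ × ℕ)) (n : ℕ) :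
    grow Vs Es M (n + 1) = ext Es M (grow Vs Es M n) := by
  unfold grow
  rw [Function.iterate_succ_apply']

theorem grow_spec {Vs : List ℕ} {Es M : List (ℕ × ℕ)} (hG : IsG Vs Es) (hM : IsMat Es M) (n : ℕ) :
    Inv Vs Es M (grow Vs Es M n) ∧
      (cands Es (grow Vs Es M n) = [] ∨ n ≤ (grow Vs Es M n).length) := by
  induction n with
  | zero => exact ⟨inv_start hG, Or.inr (Nat.zero_le _)⟩
  | succ n ih =>
    obtain ⟨h1, h2⟩ := ih
    rw [grow_succ]
    unfold ext
    cases hc : (cands Es (grow Vs Es M n)).head? with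
    | none =>
      refine ⟨h1, Or.inl ?_⟩
      simpa using hc
    | some c =>
      obtain ⟨p, y⟩ := c
      have hmem : (p, y) ∈ cands Es (grow Vs Es M n) := List.mem_of_mem_head? hc
      obtain ⟨h3, h4, h5, h6⟩ := mem_cands.1 hmem
      refine ⟨inv_ext hG hM h1 h3 h4 h5 h6, Or.inr ?_⟩
      rcases h2 with h2 | h2
      · rw [h2] at hmem; simp at hmem
      · simp only [List.length_cons]; omega

theorem Inv.length_le {Vs : List ℕ} {Es M : List (ℕ × ℕ)} {E : List (List ℕ)}
    (hG : IsG Vs Es) (h : Inv Vs Es M E) : E.length ≤ Vs.length := by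
  have h1 : E.length = (evens E).length := by simp [evens]
  rw [h1]
  have h2 := List.toFinset_card_of_nodup h.nd
  have h3 := List.toFinset_card_of_nodup hG.nd
  rw [← h2, ← h3]
  apply Finset.card_le_card
  intro v hv
  rw [List.mem_toFinset] at hv ⊢
  exact h.sub v hv

/-- the full forest -/
def forest (Vs : List ℕ) (Es M : List (ℕ × ℕ)) : List (List ℕ) := grow Vs Es M (Vs.length + 1)

theorem forest_spec {Vs : List ℕ} {Es M : List (ℕ × ℕ)} (hG : IsG Vs Es) (hM : IsMat Es M) :
    Inv Vs Es M (forest Vs Es M) ∧ ∀ p ∈ forest Vs Es M, ∀ y, (p.headD 0, y) ∈ Es →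
      y ∈ evens (forest Vs Es M) ∨ y ∈ odds (forest Vs Es M) := by
  obtain ⟨h1, h2⟩ := grow_spec hG hM (Vs.length + 1)
  refine ⟨h1, fun p hp y hy => ?_⟩
  have h3 := h1.length_le hG
  have h4 : cands Es (forest Vs Es M) = [] := by
    rcases h2 with h2 | h2
    · exact h2
    · omega
  by_contra hc
  push Not at hc
  have : (p, y) ∈ cands Es (forest Vs Es M) := mem_cands.2 ⟨hp, hy, hc.1, hc.2⟩
  rw [h4] at this
  simp at this

/-- If no edge joins two even vertices then the matching is maximum. -/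
theorem cert_of_forest {Vs : List ℕ} {Es M : List (ℕ × ℕ)} (hG : IsG Vs Es) (hM : IsMat Es M)
    (h : ∀ p ∈ forest Vs Es M, ∀ q ∈ forest Vs Es M, (p.headD 0, q.headD 0) ∉ Es) :
    Cert Vs Es M.length := by
  classical
  obtain ⟨hI, hcl⟩ := forest_spec hG hM
  set E := forest Vs Es M with hE
  have hE1 : ∀ v, v ∈ evens E ↔ ∃ p ∈ E, p.headD 0 = v := by intro v; simp [evens]
  refine ⟨(odds E).toFinset, fun x => if x ∈ evens E then x + 1 else 0, ?_, ?_, ?_⟩
  · intro v hv
    rw [List.mem_toFinset] at hv ⊢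
    exact hM.ends_sub hG (hI.mo v hv).1
  · intro x y hxy hx hy
    rw [List.mem_toFinset] at hx hy
    have hx' : x ∉ evens E := by
      intro hc
      obtain ⟨p, hp, rfl⟩ := (hE1 _).1 hc
      rcases hcl p hp y hxy with h1 | h1
      · obtain ⟨q, hq, rfl⟩ := (hE1 _).1 h1
        exact h p hp q hq hxy
      · exact hy h1
    have hy' : y ∉ evens E := by
      intro hc
      obtain ⟨p, hp, rfl⟩ := (hE1 _).1 hc
      rcases hcl p hp x (hG.sym _ _ hxy) with h1 | h1
      · obtain ⟨q, hq, rfl⟩ := (hE1 _).1 h1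
        exact h q hq p hp hxy
      · exact hx h1
    simp [hx', hy']
  · have hodd : ((evens E).toFinset.image (· + 1)) ⊆ oddc (Vs.toFinset \ (odds E).toFinset)
        (fun x => if x ∈ evens E then x + 1 else 0) := by
      intro r hr
      rw [Finset.mem_image] at hr
      obtain ⟨x, hx, rfl⟩ := hr
      rw [List.mem_toFinset] at hx
      have hxS : x ∈ Vs.toFinset \ (odds E).toFinset := by
        rw [Finset.mem_sdiff, List.mem_toFinset, List.mem_toFinset]
        exact ⟨hI.sub x hx, hI.disj x hx⟩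
      unfold oddc
      rw [Finset.mem_filter, Finset.mem_image]
      refine ⟨⟨x, hxS, by simp [hx]⟩, ?_⟩
      have : ((Vs.toFinset \ (odds E).toFinset).filter
          fun z => (if z ∈ evens E then z + 1 else 0) = x + 1) = {x} := by
        ext z
        rw [Finset.mem_filter, Finset.mem_singleton]
        constructor
        · rintro ⟨_, h2⟩
          split_ifs at h2
          omega
        · rintro rfl
          exact ⟨hxS, by simp [hx]⟩
      rw [this]
      simp
    have h1 := Finset.card_le_card hodd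
    rw [Finset.card_image_of_injective _ (fun a b => by simp), List.toFinset_card_of_nodup hI.nd] at h1
    have h2 : (evens E).length = E.length := by simp [evens]
    have h3 := List.toFinset_card_of_nodup hI.ndo
    have h4 := hI.count
    have h5 : (Vs.filter fun x => !(memb x (ends M))).length + 2 * M.length = Vs.length := by
      rw [← length_ends, ← List.toFinset_card_of_nodup hM.nd,
        ← List.toFinset_card_of_nodup (hG.nd.filter _), ← List.toFinset_card_of_nodup hG.nd]
      have hsub : (ends M).toFinset ⊆ Vs.toFinset := by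
        intro x hx
        rw [List.mem_toFinset] at hx ⊢
        exact hM.ends_sub hG hx
      rw [← Finset.card_sdiff_add_card_eq_card hsub]
      congr 2
      ext x
      simp only [List.mem_toFinset, List.mem_filter, Bool.not_eq_true', memb_false,
        Finset.mem_sdiff]
    rw [h3]
    omega

end Pool.Agent.H.MP_ebc13b_lc.h61
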