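import Mathlib
import Pool.Agent.H.MP_5be563_lc.PT.Arith

/-!
A perceptron-like algorithm for the feasibility of fractional coverings by two families of columns.
-/

namespace Pool.Agent.H.MP_ebc13b_lc.h61

open Pool.Agent.H.MP_5be563_lc.PT

/-- sum of a list -/
def lsum (l : List ℕ) : ℕ := l.foldr (fun a s => a + s) 0

theorem lsum_eq (l : List ℕ) : lsum l = l.sum := by
  induction l with
  | nil => rfl
  | cons a l ih => rw [List.sum_cons, ← ih]; rfl

theorem lsum_le_sz (l : List ℕ) : 2 * lsum l + 1 ≤ sz l := by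
  induction l with
  | nil => simp [lsum]
  | cons a l ih =>
    have e : lsum (a :: l) = a + lsum l := rfl
    rw [e, sz_lcons, sz_nat]
    omega

/-- load of a column -/
def score (L : List ℕ) (c : List ℕ) : ℕ := lsum (c.map fun v => L.getD v 0)

/-- the better of two columns -/
def better (L : List ℕ) (b c : List ℕ) : List ℕ := if score L c < score L b then c else b

/-- a column with the smallest load -/
def best (A : List (List ℕ)) (L : List ℕ) : List ℕ := A.foldl (better L) (A.headD [])

/-- one step: load the best columns -/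
def pstep (n t s : ℕ) (A B : List (List ℕ)) (L : List ℕ) : List ℕ :=
  (List.range n).map fun v => L.getD v 0 + ((if memb v (best A L) then t else 0) +
    (if memb v (best B L) then s else 0))

/-- the loads after `N` steps -/
def loads (n t s : ℕ) (A B : List (List ℕ)) (N : ℕ) : List ℕ := (pstep n t s A B)^[N] []

/-- the test -/
def perc (n t s : ℕ) (A B : List (List ℕ)) (N K : ℕ) : Bool :=
  (decide (t = 0) || !A.isEmpty) && (decide (s = 0) || !B.isEmpty) &&
    (List.range n).all fun v => decide (K * ((loads n t s A B N).getD v 0 - N) ≤ N) &&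
      decide (K * (N - (loads n t s A B N).getD v 0) ≤ N)

/-! ### Correctness -/

theorem foldl_better (L : List ℕ) : ∀ (A : List (List ℕ)) (b : List ℕ),
    (A.foldl (better L) b = b ∨ A.foldl (better L) b ∈ A) ∧
    score L (A.foldl (better L) b) ≤ score L b ∧
    ∀ c ∈ A, score L (A.foldl (better L) b) ≤ score L c
  | [], b => by simp
  | c :: A, b => by
    obtain ⟨h1, h2, h3⟩ := foldl_better L A (better L b c)
    have h4 : score L (better L b c) ≤ score L b ∧ score L (better L b c) ≤ score L c := by
      unfold better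
      split_ifs with h
      · exact ⟨h.le, le_rfl⟩
      · exact ⟨le_rfl, not_lt.1 h⟩
    have h5 : better L b c = b ∨ better L b c = c := by
      unfold better
      split_ifs
      · exact Or.inr rfl
      · exact Or.inl rfl
    rw [List.foldl_cons]
    refine ⟨?_, h2.trans h4.1, ?_⟩
    · rcases h1 with h1 | h1
      · rw [h1]
        rcases h5 with h5 | h5
        · exact Or.inl h5
        · exact Or.inr (by rw [h5]; exact List.mem_cons_self)
      · exact Or.inr (List.mem_cons_of_mem _ h1)
    · intro d hd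
      rcases List.mem_cons.1 hd with rfl | hd
      · exact h2.trans h4.2
      · exact h3 d hd

theorem best_mem {A : List (List ℕ)} (hA : A ≠ []) (L : List ℕ) : best A L ∈ A := by
  obtain ⟨a, A', rfl⟩ := List.exists_cons_of_ne_nil hA
  unfold best
  rcases (foldl_better L (a :: A') a).1 with h | h
  · rw [List.headD_cons, h]; exact List.mem_cons_self
  · exact h

theorem best_le {A : List (List ℕ)} (L : List ℕ) {c : List ℕ} (hc : c ∈ A) :
    score L (best A L) ≤ score L c := (foldl_better L A _).2.2 c hc

/-- load of a vertex -/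
def ld (L : List ℕ) (v : ℕ) : ℚ := (L.getD v 0 : ℕ)

theorem score_eq {n : ℕ} (L c : List ℕ) (hnd : c.Nodup) (hc : ∀ v ∈ c, v < n) :
    (score L c : ℚ) = ∑ v ∈ Finset.range n, if v ∈ c then ld L v else 0 := by
  unfold score
  rw [lsum_eq, Nat.cast_list_sum, List.map_map]
  have h1 : ((c.map (Nat.cast ∘ fun v => L.getD v 0)).sum : ℚ) = ∑ v ∈ c.toFinset, ld L v := by
    rw [List.sum_toFinset _ hnd]
    rfl
  rw [h1, ← Finset.sum_filter]
  apply Finset.sum_congr
  · ext v
    simp only [List.mem_toFinset, Finset.mem_filter, Finset.mem_range]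
    exact ⟨fun h => ⟨hc v h, h⟩, fun h => h.2⟩
  · intros; rfl

theorem getD_pstep {n t s : ℕ} {A B : List (List ℕ)} {L : List ℕ} {v : ℕ} (hv : v < n) :
    ld (pstep n t s A B L) v = ld L v + ((if v ∈ best A L then (t : ℚ) else 0) +
      (if v ∈ best B L then (s : ℚ) else 0)) := by
  unfold ld pstep
  rw [List.getD_eq_getElem?_getD, List.getElem?_map, List.getElem?_range hv]
  simp only [Option.map_some, Option.getD_some, memb_iff]
  push_cast
  split_ifs <;> simp

/-- A family of columns with fractional weights. -/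
structure Frac (n : ℕ) (A : List (List ℕ)) (t : ℕ) (z : List ℕ → ℚ) : Prop where
  nonneg : ∀ c ∈ A, 0 ≤ z c
  sum : ∑ c ∈ A.toFinset, z c = t

/-- cover of a vertex -/
def cov (A : List (List ℕ)) (z : List ℕ → ℚ) (v : ℕ) : ℚ :=
  ∑ c ∈ A.toFinset, if v ∈ c then z c else 0

/-- columns of size `k` in `0..n-1` -/
def Cols (n k : ℕ) (A : List (List ℕ)) : Prop := ∀ c ∈ A, c.Nodup ∧ c.length = k ∧ ∀ v ∈ c, v < n

theorem indicator_sum {n k : ℕ} {c : List ℕ} (h : c.Nodup ∧ c.length = k ∧ ∀ v ∈ c, v < n) (a : ℚ) :
    (∑ v ∈ Finset.range n, if v ∈ c then a else 0) = k * a := by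
  rw [← Finset.sum_filter]
  have : (Finset.range n).filter (fun v => v ∈ c) = c.toFinset := by
    ext v
    simp only [List.mem_toFinset, Finset.mem_filter, Finset.mem_range]
    exact ⟨fun h => h.2, fun h' => ⟨h.2.2 v h', h'⟩⟩
  rw [this, Finset.sum_const, List.toFinset_card_of_nodup h.1, h.2.1, nsmul_eq_mul]

/-- the best column is at least as good as any fractional combination -/
theorem best_frac {n k t : ℕ} {A : List (List ℕ)} {z : List ℕ → ℚ} (hA : Cols n k A)
    (hz : Frac n A t z) (L : List ℕ) (x : ℚ) :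
    ∑ v ∈ Finset.range n, (ld L v - x) * (if v ∈ best A L then (t : ℚ) else 0) ≤
      ∑ v ∈ Finset.range n, (ld L v - x) * cov A z v := by
  -- value of a column
  have hval : ∀ c ∈ A, ∀ w : ℚ, ∑ v ∈ Finset.range n, (ld L v - x) * (if v ∈ c then w else 0) =
      w * (score L c - k * x) := by
    intro c hc w
    have h1 := score_eq L c (hA c hc).1 (hA c hc).2.2
    have h2 := indicator_sum (hA c hc) x
    rw [h1, ← h2, ← Finset.sum_sub_distrib, Finset.mul_sum]
    apply Finset.sum_congr rfl
    intro v _
    split_ifs <;> ring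
  by_cases hAe : A = []
  · have ht : (t : ℚ) = 0 := by
      have := hz.sum
      rw [hAe] at this
      simpa using this.symm
    simp [ht, hAe, cov]
  · rw [hval _ (best_mem hAe L)]
    have h3 : ∑ v ∈ Finset.range n, (ld L v - x) * cov A z v =
        ∑ c ∈ A.toFinset, z c * (score L c - k * x) := by
      unfold cov
      simp only [Finset.mul_sum]
      rw [Finset.sum_comm]
      apply Finset.sum_congr rfl
      intro c hc
      exact hval c (List.mem_toFinset.1 hc) (z c)
    rw [h3, ← hz.sum, Finset.sum_mul]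
    apply Finset.sum_le_sum
    intro c hc
    have hc' := List.mem_toFinset.1 hc
    apply mul_le_mul_of_nonneg_left _ (hz.nonneg c hc')
    have : (score L (best A L) : ℚ) ≤ score L c := by exact_mod_cast best_le L hc'
    linarith

theorem loads_succ (n t s : ℕ) (A B : List (List ℕ)) (N : ℕ) :
    loads n t s A B (N + 1) = pstep n t s A B (loads n t s A B N) := by
  unfold loads
  rw [Function.iterate_succ_apply']

/-- the potential stays small if there is a fractional solution -/
theorem potential {n k l t s : ℕ} {A B : List (List ℕ)} {z y : List ℕ → ℚ} (hA : Cols n k A)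
    (hB : Cols n l B) (hz : Frac n A t z) (hy : Frac n B s y)
    (hcov : ∀ v < n, cov A z v + cov B y v = 1) (N : ℕ) :
    ∑ v ∈ Finset.range n, (ld (loads n t s A B N) v - N) ^ 2 ≤ N * (n * (t + s + 1) ^ 2) := by
  induction N with
  | zero => simp [loads, ld]
  | succ N ih =>
    rw [loads_succ]
    set L := loads n t s A B N with hL
    have h1 : ∀ v ∈ Finset.range n, (ld (pstep n t s A B L) v - ((N + 1 : ℕ) : ℚ)) ^ 2 =
        (ld L v - N) ^ 2 + 2 * ((ld L v - N) * (if v ∈ best A L then (t : ℚ) else 0) +
          (ld L v - N) * (if v ∈ best B L then (s : ℚ) else 0) - (ld L v - N)) +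
          ((if v ∈ best A L then (t : ℚ) else 0) + (if v ∈ best B L then (s : ℚ) else 0) - 1) ^ 2 := by
      intro v hv
      rw [getD_pstep (Finset.mem_range.1 hv)]
      push_cast
      ring
    rw [Finset.sum_congr rfl h1, Finset.sum_add_distrib, Finset.sum_add_distrib,
      ← Finset.mul_sum, Finset.sum_sub_distrib, Finset.sum_add_distrib]
    have h2 := best_frac hA hz L N
    have h3 := best_frac hB hy L N
    have h4 : ∑ v ∈ Finset.range n, (ld L v - N) * cov A z v +
        ∑ v ∈ Finset.range n, (ld L v - N) * cov B y v =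
        ∑ v ∈ Finset.range n, (ld L v - N) := by
      rw [← Finset.sum_add_distrib]
      apply Finset.sum_congr rfl
      intro v hv
      rw [← mul_add, hcov v (Finset.mem_range.1 hv), mul_one]
    have h5 : ∑ v ∈ Finset.range n, ((if v ∈ best A L then (t : ℚ) else 0) +
        (if v ∈ best B L then (s : ℚ) else 0) - 1) ^ 2 ≤ (n : ℚ) * ((t : ℚ) + s + 1) ^ 2 := by
      have : ∑ v ∈ Finset.range n, ((t : ℚ) + s + 1) ^ 2 = (n : ℚ) * ((t : ℚ) + s + 1) ^ 2 := by
        rw [Finset.sum_const, Finset.card_range, nsmul_eq_mul]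
      rw [← this]
      apply Finset.sum_le_sum
      intro v _
      have ht : (0 : ℚ) ≤ t := Nat.cast_nonneg t
      have hs : (0 : ℚ) ≤ s := Nat.cast_nonneg s
      apply sq_le_sq'
      · split_ifs <;> linarith
      · split_ifs <;> linarith
    push_cast
    nlinarith

theorem perc_complete {n k l t s : ℕ} {A B : List (List ℕ)} {z y : List ℕ → ℚ} (hA : Cols n k A)
    (hB : Cols n l B) (hz : Frac n A t z) (hy : Frac n B s y)
    (hcov : ∀ v < n, cov A z v + cov B y v = 1) {N K : ℕ}
    (hN : n * (t + s + 1) ^ 2 * K ^ 2 ≤ N) : perc n t s A B N K = true := by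
  have hP := potential hA hB hz hy hcov N
  unfold perc
  simp only [Bool.and_eq_true, Bool.or_eq_true, decide_eq_true_eq, Bool.not_eq_true',
    List.all_eq_true, List.mem_range]
  refine ⟨⟨?_, ?_⟩, ?_⟩
  · by_cases h : A = []
    · left
      have := hz.sum
      rw [h] at this
      simpa using this.symm
    · right
      simpa using h
  · by_cases h : B = []
    · left
      have := hy.sum
      rw [h] at this
      simpa using this.symm
    · right
      simpa using h
  · intro v hv
    set L := loads n t s A B N with hL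
    have h1 : (ld L v - N) ^ 2 ≤ N * (n * (t + s + 1) ^ 2) := by
      refine le_trans ?_ hP
      exact Finset.single_le_sum (f := fun v => (ld L v - (N : ℚ)) ^ 2)
        (fun _ _ => sq_nonneg _) (Finset.mem_range.2 hv)
    have h2 : (K * (ld L v - N)) ^ 2 ≤ (N : ℚ) ^ 2 := by
      have h3 : ((n * (t + s + 1) ^ 2 * K ^ 2 : ℕ) : ℚ) ≤ N := by exact_mod_cast hN
      push_cast at h3
      have h4 : (0 : ℚ) ≤ N := Nat.cast_nonneg N
      have h5 : (0 : ℚ) ≤ (K : ℚ) ^ 2 := sq_nonneg _
      calc (K * (ld L v - N)) ^ 2 = (K : ℚ) ^ 2 * (ld L v - N) ^ 2 := by ring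
        _ ≤ (K : ℚ) ^ 2 * (N * (n * (t + s + 1) ^ 2)) := mul_le_mul_of_nonneg_left h1 h5
        _ = N * (n * (t + s + 1) ^ 2 * K ^ 2) := by ring
        _ ≤ N * N := mul_le_mul_of_nonneg_left h3 h4
        _ = (N : ℚ) ^ 2 := by ring
    have h3 := abs_le_of_sq_le_sq h2 (Nat.cast_nonneg N)
    obtain ⟨h4, h5⟩ := abs_le.1 h3
    unfold ld at h4 h5
    constructor
    · rcases le_total (L.getD v 0) N with h6 | h6
      · rw [Nat.sub_eq_zero_of_le h6]; simp
      · have : ((K * (L.getD v 0 - N) : ℕ) : ℚ) ≤ N := by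
          push_cast [Nat.cast_sub h6]
          exact h5
        exact_mod_cast this
    · rcases le_total (L.getD v 0) N with h6 | h6
      · have : ((K * (N - L.getD v 0) : ℕ) : ℚ) ≤ N := by
          push_cast [Nat.cast_sub h6]
          linarith
        exact_mod_cast this
      · rw [Nat.sub_eq_zero_of_le h6]; simp

/-- number of times that a column was chosen -/
def cnt (n t s : ℕ) (A B C : List (List ℕ)) (N : ℕ) (c : List ℕ) : ℚ :=
  ∑ i ∈ Finset.range N, if best C (loads n t s A B i) = c then 1 else 0

theorem cnt_sum {n t s : ℕ} {A B C : List (List ℕ)} (hC : C ≠ []) (N : ℕ) :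
    ∑ c ∈ C.toFinset, cnt n t s A B C N c = N := by
  unfold cnt
  rw [Finset.sum_comm]
  have : ∀ i ∈ Finset.range N, (∑ c ∈ C.toFinset,
      if best C (loads n t s A B i) = c then (1 : ℚ) else 0) = 1 := by
    intro i _
    rw [Finset.sum_ite_eq]
    rw [if_pos (List.mem_toFinset.2 (best_mem hC _))]
  rw [Finset.sum_congr rfl this]
  simp

theorem cnt_cov {n t s : ℕ} {A B C : List (List ℕ)} (hC : C ≠ []) (N v : ℕ) :
    cov C (cnt n t s A B C N) v =
      ∑ i ∈ Finset.range N, if v ∈ best C (loads n t s A B i) then 1 else 0 := by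
  unfold cov cnt
  have : ∀ c ∈ C.toFinset, (if v ∈ c then ∑ i ∈ Finset.range N,
      (if best C (loads n t s A B i) = c then (1 : ℚ) else 0) else 0) =
      ∑ i ∈ Finset.range N, if best C (loads n t s A B i) = c then
        (if v ∈ best C (loads n t s A B i) then (1 : ℚ) else 0) else 0 := by
    intro c _
    by_cases hv : v ∈ c
    · rw [if_pos hv]
      apply Finset.sum_congr rfl
      intro i _
      by_cases h : best C (loads n t s A B i) = c
      · rw [if_pos h, if_pos h, h, if_pos hv]
      · rw [if_neg h, if_neg h]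
    · rw [if_neg hv]
      symm
      apply Finset.sum_eq_zero
      intro i _
      by_cases h : best C (loads n t s A B i) = c
      · rw [if_pos h, h, if_neg hv]
      · rw [if_neg h]
  rw [Finset.sum_congr rfl this, Finset.sum_comm]
  apply Finset.sum_congr rfl
  intro i _
  rw [Finset.sum_ite_eq, if_pos (List.mem_toFinset.2 (best_mem hC _))]

theorem ld_loads {n t s : ℕ} {A B : List (List ℕ)} (N : ℕ) {v : ℕ} (hv : v < n) :
    ld (loads n t s A B N) v =
      t * (∑ i ∈ Finset.range N, if v ∈ best A (loads n t s A B i) then 1 else 0) +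
      s * (∑ i ∈ Finset.range N, if v ∈ best B (loads n t s A B i) then 1 else 0) := by
  induction N with
  | zero => simp [loads, ld]
  | succ N ih =>
    rw [loads_succ, getD_pstep hv, ih, Finset.sum_range_succ, Finset.sum_range_succ]
    split_ifs <;> ring

theorem perc_sound {n t s : ℕ} {A B : List (List ℕ)} {N K : ℕ} (hN : 0 < N) (hK : 0 < K)
    (h : perc n t s A B N K = true) : ∃ z y : List ℕ → ℚ, Frac n A t z ∧ Frac n B s y ∧
      ∀ v < n, |cov A z v + cov B y v - 1| ≤ 1 / K := by
  unfold perc at h
  simp only [Bool.and_eq_true, Bool.or_eq_true, decide_eq_true_eq, Bool.not_eq_true',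
    List.all_eq_true, List.mem_range] at h
  obtain ⟨⟨hA, hB⟩, hv⟩ := h
  have hNq : (0 : ℚ) < N := by exact_mod_cast hN
  have hKq : (0 : ℚ) < K := by exact_mod_cast hK
  have key : ∀ (C : List (List ℕ)) (r : ℕ), (r = 0 ∨ C.isEmpty = false) →
      Frac n C r (fun c => r / N * cnt n t s A B C N c) ∧
      ∀ v, cov C (fun c => r / N * cnt n t s A B C N c) v =
        r / N * ∑ i ∈ Finset.range N, if v ∈ best C (loads n t s A B i) then 1 else 0 := by
    intro C r hC
    by_cases hr : r = 0
    · subst hr
      refine ⟨⟨fun c _ => by simp, by simp⟩, fun v => by simp [cov]⟩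
    · have hC' : C ≠ [] := by
        have := hC.resolve_left hr
        intro hc
        rw [hc] at this
        simp at this
      refine ⟨⟨fun c _ => ?_, ?_⟩, fun v => ?_⟩
      · apply mul_nonneg (by positivity)
        unfold cnt
        apply Finset.sum_nonneg
        intro i _
        split_ifs <;> norm_num
      · rw [← Finset.mul_sum, cnt_sum hC']
        field_simp
      · rw [← cnt_cov hC']
        unfold cov
        rw [Finset.mul_sum]
        apply Finset.sum_congr rfl
        intro c _
        split_ifs <;> simp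
  obtain ⟨hz, hcz⟩ := key A t hA
  obtain ⟨hy, hcy⟩ := key B s hB
  refine ⟨_, _, hz, hy, fun v hvn => ?_⟩
  rw [hcz, hcy]
  have h1 := ld_loads (n := n) (t := t) (s := s) (A := A) (B := B) N hvn
  obtain ⟨h2, h3⟩ := hv v hvn
  set L := loads n t s A B N with hL
  have e : (t : ℚ) / N * (∑ i ∈ Finset.range N, if v ∈ best A (loads n t s A B i) then 1 else 0) +
      s / N * (∑ i ∈ Finset.range N, if v ∈ best B (loads n t s A B i) then 1 else 0) - 1 =
      (ld L v - N) / N := by
    rw [h1]
    field_simp
  rw [e, abs_div, abs_of_pos hNq, div_le_div_iff₀ hNq hKq, one_mul]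
  unfold ld
  rcases le_total (L.getD v 0) N with h6 | h6
  · have h7 : ((K * (N - L.getD v 0) : ℕ) : ℚ) ≤ N := by exact_mod_cast h3
    push_cast [Nat.cast_sub h6] at h7
    have h8 : ((L.getD v 0 : ℕ) : ℚ) - N ≤ 0 := by
      have : ((L.getD v 0 : ℕ) : ℚ) ≤ N := by exact_mod_cast h6
      linarith
    rw [abs_of_nonpos h8]
    linarith
  · have h7 : ((K * (L.getD v 0 - N) : ℕ) : ℚ) ≤ N := by exact_mod_cast h2
    push_cast [Nat.cast_sub h6] at h7
    have h8 : 0 ≤ ((L.getD v 0 : ℕ) : ℚ) - N := by
      have : (N : ℚ) ≤ (L.getD v 0 : ℕ) := by exact_mod_cast h6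
      linarith
    rw [abs_of_nonneg h8]
    linarith

/-! ### Running time -/

section
variable {α : Type} [Enc α]

@[fun_prop]
theorem Poly.lsum {l : α → List ℕ} (hl : Poly l) : Poly (fun a => lsum (l a)) := by
  refine Poly.foldr (f := fun p : α × ℕ × ℕ => p.2.2 + p.2.1) (l := l) (s0 := fun _ => 0)
    (B := fun a => sz (l a)) (by fun_prop) hl (by fun_prop) hl.sz_le ?_
  intro a l₁ l₂ h
  have h1 := lsum_le_sz l₂
  have h2 : sz l₂ ≤ sz (l a) := by
    rw [h]; exact sz_sublist_le (List.sublist_append_right _ _)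
  change sz (h61.lsum l₂) ≤ _
  rw [sz_nat]
  omega

@[fun_prop]
theorem Poly.score {L c : α → List ℕ} (hL : Poly L) (hc : Poly c) :
    Poly (fun a => score (L a) (c a)) := by
  unfold h61.score
  fun_prop

@[fun_prop]
theorem Poly.better {L b c : α → List ℕ} (hL : Poly L) (hb : Poly b) (hc : Poly c) :
    Poly (fun a => better (L a) (b a) (c a)) := by
  unfold h61.better
  fun_prop

@[fun_prop]
theorem Poly.best {A : α → List (List ℕ)} {L : α → List ℕ} (hA : Poly A) (hL : Poly L) :
    Poly (fun a => best (A a) (L a)) := by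
  refine Poly.foldl (f := fun p : α × List ℕ × List ℕ => h61.better (L p.1) p.2.1 p.2.2) (l := A)
    (s0 := fun a => (A a).headD []) (B := fun a => sz (A a)) (by fun_prop) hA (by fun_prop)
    hA.sz_le ?_
  intro a l₁ l₂ h
  have h0 : sz ((A a).headD []) ≤ sz (A a) := by
    cases hA' : A a with
    | nil => simp
    | cons x l => simp; omega
  rcases (foldl_better (L a) l₁ ((A a).headD [])).1 with h1 | h1
  · exact (le_of_eq (congrArg sz h1)).trans h0
  · have h2 : l₁.foldl (h61.better (L a)) ((A a).headD []) ∈ A a := by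
      have h3 : ∀ x ∈ l₁, x ∈ A a := fun x hx => by rw [h]; exact List.mem_append_left _ hx
      exact h3 _ h1
    exact (sz_mem_lt h2).le

theorem Poly.pstep {n t s : α → ℕ} {A B : α → List (List ℕ)} {L : α → List ℕ} (hn : Poly n)
    (ht : Poly t) (hs : Poly s) (hA : Poly A) (hB : Poly B) (hL : Poly L) :
    Poly (fun a => pstep (n a) (t a) (s a) (A a) (B a) (L a)) := by
  unfold h61.pstep
  fun_prop

theorem loads_le (n t s : ℕ) (A B : List (List ℕ)) (N : ℕ) :
    (loads n t s A B N).length ≤ n ∧ ∀ x ∈ loads n t s A B N, x ≤ N * (t + s) := by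
  induction N with
  | zero => simp [loads]
  | succ N ih =>
    rw [loads_succ]
    unfold pstep
    refine ⟨by simp, fun x hx => ?_⟩
    rw [List.mem_map] at hx
    obtain ⟨v, _, rfl⟩ := hx
    have h1 : (loads n t s A B N).getD v 0 ≤ N * (t + s) := by
      rw [List.getD_eq_getElem?_getD]
      by_cases hv : v < (loads n t s A B N).length
      · rw [List.getElem?_eq_getElem hv, Option.getD_some]
        exact ih.2 _ (List.getElem_mem hv)
      · rw [List.getElem?_eq_none (not_lt.1 hv)]
        simp
    have h2 : (if memb v (best A (loads n t s A B N)) then t else 0) ≤ t := by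
      split_ifs <;> omega
    have h3 : (if memb v (best B (loads n t s A B N)) then s else 0) ≤ s := by
      split_ifs <;> omega
    have h4 : (N + 1) * (t + s) = N * (t + s) + (t + s) := by ring
    omega

@[fun_prop]
theorem Poly.loads {n t s : α → ℕ} {A B : α → List (List ℕ)} {N : α → ℕ} (hn : Poly n)
    (ht : Poly t) (hs : Poly s) (hA : Poly A) (hB : Poly B) (hN : Poly N) :
    Poly (fun a => loads (n a) (t a) (s a) (A a) (B a) (N a)) := by
  refine Poly.iterate (f := fun a L => h61.pstep (n a) (t a) (s a) (A a) (B a) L)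
    (s := fun _ => []) (n := N)
    (B := fun a => sz (n a) * (2 * (sz (N a) * (sz (t a) + sz (s a))) + 2) + 1)
    (Poly.pstep (by fun_prop) (by fun_prop) (by fun_prop) (by fun_prop) (by fun_prop)
      (by fun_prop)) (by fun_prop) hN
    ((hn.sz_le.mul (((PBdd.const 2).mul (hN.sz_le.mul (ht.sz_le.add hs.sz_le))).add
      (PBdd.const 2))).add (PBdd.const 1)) ?_
  intro a k hk
  obtain ⟨h1, h2⟩ := loads_le (n a) (t a) (s a) (A a) (B a) k
  change sz (h61.loads (n a) (t a) (s a) (A a) (B a) k) ≤ _
  have h3 : k ≤ sz (N a) := by rw [sz_nat]; omega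
  have h4 : t a + s a ≤ sz (t a) + sz (s a) := by rw [sz_nat, sz_nat]; omega
  have h5 : n a ≤ sz (n a) := by rw [sz_nat]; omega
  have h6 : k * (t a + s a) ≤ sz (N a) * (sz (t a) + sz (s a)) := Nat.mul_le_mul h3 h4
  refine (sz_le_of_forall _ (2 * (sz (N a) * (sz (t a) + sz (s a))) + 1) ?_).trans ?_
  · intro x hx
    rw [sz_nat]
    have := h2 x hx
    omega
  · exact Nat.add_le_add_right (Nat.mul_le_mul_right _ (h1.trans h5)) 1

@[fun_prop]
theorem Poly.perc {n t s : α → ℕ} {A B : α → List (List ℕ)} {N K : α → ℕ} (hn : Poly n)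
    (ht : Poly t) (hs : Poly s) (hA : Poly A) (hB : Poly B) (hN : Poly N) (hK : Poly K) :
    Poly (fun a => perc (n a) (t a) (s a) (A a) (B a) (N a) (K a)) := by
  unfold h61.perc
  fun_prop

end

end Pool.Agent.H.MP_ebc13b_lc.h61
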