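import Pool.Agent.H.MP_ebc13b_lc.h61.CleanB
import Pool.Agent.H.MP_ebc13b_lc.h61.Perc

/-!
From the output of the perceptron to approximate fractional solutions.
-/

namespace Pool.Agent.H.MP_ebc13b_lc.h61

/-- the increasing lists of the triangles -/
def triL (n : ℕ) (Es : List (ℕ × ℕ)) : List (List ℕ) :=
  (List.range n).flatMap fun i => (List.range n).flatMap fun j => ((List.range n).filter fun k =>
    (decide (i < j) && decide (j < k)) && (hasE Es i j && (hasE Es j k && hasE Es i k))).map
      fun k => [i, j, k]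

/-- the increasing lists of the edges -/
def edgL (n : ℕ) (Es : List (ℕ × ℕ)) : List (List ℕ) :=
  (List.range n).flatMap fun i => ((List.range n).filter fun j =>
    decide (i < j) && hasE Es i j).map fun j => [i, j]

/-- adjacency -/
def EE (Es : List (ℕ × ℕ)) (a b : ℕ) : Prop := (a, b) ∈ Es

theorem mem_triL {n : ℕ} {Es : List (ℕ × ℕ)} {c : List ℕ} : c ∈ triL n Es ↔
    ∃ i j k, c = [i, j, k] ∧ i < n ∧ j < n ∧ k < n ∧ i < j ∧ j < k ∧ Tri (EE Es) i j k := by
  unfold triL Tri EE
  simp only [List.mem_flatMap, List.mem_range, List.mem_map, List.mem_filter, Bool.and_eq_true,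
    decide_eq_true_eq, hasE_iff]
  constructor
  · rintro ⟨i, hi, j, hj, k, ⟨hk, ⟨h1, h2⟩, h3, h4, h5⟩, rfl⟩
    exact ⟨i, j, k, rfl, hi, hj, hk, h1, h2, h3, h4, h5⟩
  · rintro ⟨i, j, k, rfl, hi, hj, hk, h1, h2, h3, h4, h5⟩
    exact ⟨i, hi, j, hj, k, ⟨hk, ⟨h1, h2⟩, h3, h4, h5⟩, rfl⟩

theorem mem_edgL {n : ℕ} {Es : List (ℕ × ℕ)} {c : List ℕ} : c ∈ edgL n Es ↔
    ∃ i j, c = [i, j] ∧ i < n ∧ j < n ∧ i < j ∧ EE Es i j := by
  unfold edgL EE
  simp only [List.mem_flatMap, List.mem_range, List.mem_map, List.mem_filter, Bool.and_eq_true,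
    decide_eq_true_eq, hasE_iff]
  constructor
  · rintro ⟨i, hi, j, ⟨hj, h1, h2⟩, rfl⟩
    exact ⟨i, j, rfl, hi, hj, h1, h2⟩
  · rintro ⟨i, j, rfl, hi, hj, h1, h2⟩
    exact ⟨i, hi, j, ⟨hj, h1, h2⟩, rfl⟩

theorem cols_triL (n : ℕ) (Es : List (ℕ × ℕ)) : Cols n 3 (triL n Es) := by
  intro c hc
  obtain ⟨i, j, k, rfl, hi, hj, hk, h1, h2, _⟩ := mem_triL.1 hc
  refine ⟨?_, rfl, ?_⟩
  · simp only [List.nodup_cons, List.mem_cons, List.not_mem_nil, or_false, not_or,
      not_false_eq_true, List.nodup_nil, and_true]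
    omega
  · intro v hv
    simp only [List.mem_cons, List.not_mem_nil, or_false] at hv
    omega

theorem cols_edgL (n : ℕ) (Es : List (ℕ × ℕ)) : Cols n 2 (edgL n Es) := by
  intro c hc
  obtain ⟨i, j, rfl, hi, hj, h1, _⟩ := mem_edgL.1 hc
  refine ⟨?_, rfl, ?_⟩
  · simp only [List.nodup_cons, List.mem_cons, List.not_mem_nil, or_false,
      not_false_eq_true, List.nodup_nil, and_true]
    omega
  · intro v hv
    simp only [List.mem_cons, List.not_mem_nil, or_false] at hv
    omega

section
variable {n : ℕ} {Es : List (ℕ × ℕ)}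

/-- sums of covers -/
theorem sum_cov (A : List (List ℕ)) (z : List ℕ → ℚ) (D : Finset ℕ) :
    ∑ v ∈ D, cov A z v = ∑ c ∈ A.toFinset, z c * ((D.filter fun v => v ∈ c).card : ℚ) := by
  unfold cov
  rw [Finset.sum_comm]
  apply Finset.sum_congr rfl
  intro c _
  rw [← Finset.sum_filter, Finset.sum_const, nsmul_eq_mul]
  ring

theorem cov_nonneg {A : List (List ℕ)} {z : List ℕ → ℚ} {s : ℕ} (hz : Frac n A s z) (v : ℕ) :
    0 ≤ cov A z v := by
  unfold cov
  apply Finset.sum_nonneg
  intro c hc
  split_ifs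
  · exact hz.nonneg c (List.mem_toFinset.1 hc)
  · exact le_rfl

theorem cov_f1 (hG : Gr (Finset.range n) (EE Es)) {y : List ℕ → ℚ} {h : ℕ}
    (hy : Frac n (edgL n Es) h y) {D : Finset ℕ} (hst : Stb (EE Es) D) :
    ∑ v ∈ D, cov (edgL n Es) y v ≤ h := by
  rw [sum_cov, ← hy.sum]
  apply Finset.sum_le_sum
  intro c hc
  have hc' := List.mem_toFinset.1 hc
  obtain ⟨i, j, rfl, hi, hj, h1, h2⟩ := mem_edgL.1 hc'
  have h3 : (D.filter fun v => v ∈ [i, j]).card ≤ 1 := by
    rw [Finset.card_le_one]
    intro a ha b hb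
    simp only [Finset.mem_filter, List.mem_cons, List.not_mem_nil, or_false] at ha hb
    obtain ⟨ha1, rfl | rfl⟩ := ha <;> obtain ⟨hb1, rfl | rfl⟩ := hb
    · rfl
    · exact absurd h2 (hst _ ha1 _ hb1)
    · exact absurd (hG.sym _ _ h2) (hst _ ha1 _ hb1)
    · rfl
  have h4 : (((D.filter fun v => v ∈ [i, j]).card : ℕ) : ℚ) ≤ 1 := by exact_mod_cast h3
  have h5 := hy.nonneg _ hc'
  nlinarith

theorem cov_f2 (hG : Gr (Finset.range n) (EE Es)) {y : List ℕ → ℚ} {h : ℕ}
    (hy : Frac n (edgL n Es) h y) {D : Finset ℕ} (hst : Stb (EE Es) D) :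
    ∑ v ∈ D, cov (edgL n Es) y v ≤
      ∑ v ∈ nbr (EE Es) (Finset.range n) D, cov (edgL n Es) y v := by
  classical
  rw [sum_cov, sum_cov]
  apply Finset.sum_le_sum
  intro c hc
  have hc' := List.mem_toFinset.1 hc
  obtain ⟨i, j, rfl, hi, hj, h1, h2⟩ := mem_edgL.1 hc'
  apply mul_le_mul_of_nonneg_left _ (hy.nonneg _ hc')
  have h3 : (D.filter fun v => v ∈ [i, j]).card ≤
      ((nbr (EE Es) (Finset.range n) D).filter fun v => v ∈ [i, j]).card := by
    by_cases hiD : i ∈ D
    · have hjN : j ∈ nbr (EE Es) (Finset.range n) D :=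
        mem_nbr.2 ⟨Finset.mem_range.2 hj, i, hiD, h2⟩
      have hjD : j ∉ D := fun h => hst _ hiD _ h h2
      have e : (D.filter fun v => v ∈ [i, j]) ⊆ {i} := by
        intro v hv
        simp only [Finset.mem_filter, List.mem_cons, List.not_mem_nil, or_false] at hv
        rcases hv with ⟨hv1, rfl | rfl⟩
        · exact Finset.mem_singleton_self _
        · exact absurd hv1 hjD
      have h4 := Finset.card_le_card e
      rw [Finset.card_singleton] at h4
      have h5 : 0 < ((nbr (EE Es) (Finset.range n) D).filter fun v => v ∈ [i, j]).card :=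
        Finset.card_pos.2 ⟨j, Finset.mem_filter.2 ⟨hjN, by simp⟩⟩
      omega
    · by_cases hjD : j ∈ D
      · have hiN : i ∈ nbr (EE Es) (Finset.range n) D :=
          mem_nbr.2 ⟨Finset.mem_range.2 hi, j, hjD, hG.sym _ _ h2⟩
        have e : (D.filter fun v => v ∈ [i, j]) ⊆ {j} := by
          intro v hv
          simp only [Finset.mem_filter, List.mem_cons, List.not_mem_nil, or_false] at hv
          rcases hv with ⟨hv1, rfl | rfl⟩
          · exact absurd hv1 hiD
          · exact Finset.mem_singleton_self _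
        have h4 := Finset.card_le_card e
        rw [Finset.card_singleton] at h4
        have h5 : 0 < ((nbr (EE Es) (Finset.range n) D).filter fun v => v ∈ [i, j]).card :=
          Finset.card_pos.2 ⟨i, Finset.mem_filter.2 ⟨hiN, by simp⟩⟩
        omega
      · have e : (D.filter fun v => v ∈ [i, j]) = ∅ := by
          apply Finset.filter_eq_empty_iff.2
          intro v hv hv'
          simp only [List.mem_cons, List.not_mem_nil, or_false] at hv'
          rcases hv' with rfl | rfl
          · exact hiD hv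
          · exact hjD hv
        rw [e]
        simp
  exact_mod_cast h3

variable {m : ℕ} {t : ℕ → Fin 3 → ℕ} {cls : ℕ → Fin 3} {c : ℕ → ℕ}

/-- every triangle is one of the triangles of the linear structure -/
theorem tri_index (hG : Gr (Finset.range n) (EE Es)) (hC : Clean (EE Es))
    (hL : Lin (Finset.range n) (EE Es) m t cls c) {a b d : ℕ} (h : Tri (EE Es) a b d) :
    ∃ j < m, ∀ k, t j k = a ∨ t j k = b ∨ t j k = d := by
  obtain ⟨j, hj, hja⟩ := hL.all a ⟨b, d, h⟩
  refine ⟨j, hj, fun k => ?_⟩
  have h1 := tri_cyc hG (hL.tri j hj) (cls a)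
  rw [hja] at h1
  have h2 := hC.both hG h h1
  rcases f3 (cls a) k with rfl | rfl | rfl
  · exact Or.inl hja
  · rcases h2 with h2 | h2
    · exact Or.inr (Or.inl h2.1)
    · exact Or.inr (Or.inr h2.1)
  · rcases h2 with h2 | h2
    · exact Or.inr (Or.inr h2.2)
    · exact Or.inr (Or.inl h2.2)

/-- a column of the triangles contains all or none of the vertices of a triangle -/
theorem col_all (hG : Gr (Finset.range n) (EE Es)) (hC : Clean (EE Es))
    (hL : Lin (Finset.range n) (EE Es) m t cls c) {l : List ℕ} (hl : l ∈ triL n Es) {j : ℕ}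
    (hj : j < m) (i k : Fin 3) (h : t j i ∈ l) : t j k ∈ l := by
  obtain ⟨x, y, z, rfl, hx, hy, hz, h1, h2, h3⟩ := mem_triL.1 hl
  obtain ⟨l', hl', hall⟩ := tri_index hG hC hL h3
  have h4 : l' = j := by
    -- `t j i` is one of x, y, z; all of them are of the form `t l' k`
    have h5 : ∃ k, t l' k = t j i := by
      have hinj : ∀ a b : Fin 3, t l' a = t l' b → a = b := fun a b hab =>
        (hL.tinj hl' hl' hab).2
      have hcard : Finset.univ.image (fun k => t l' k) = ({x, y, z} : Finset ℕ) := by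
        apply Finset.eq_of_subset_of_card_le
        · intro v hv
          obtain ⟨k, _, rfl⟩ := Finset.mem_image.1 hv
          simp only [Finset.mem_insert, Finset.mem_singleton]
          exact hall k
        · rw [Finset.card_image_of_injective _ hinj]
          exact Finset.card_le_three
      have h6 : t j i ∈ ({x, y, z} : Finset ℕ) := by simpa using h
      rw [← hcard] at h6
      obtain ⟨k, _, hk⟩ := Finset.mem_image.1 h6
      exact ⟨k, hk⟩
    obtain ⟨k, hk⟩ := h5
    exact (hL.tinj hl' hj hk).1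
  subst h4
  simpa using hall k

theorem fs_of_frac (hG : Gr (Finset.range n) (EE Es)) (hC : Clean (EE Es))
    (hL : Lin (Finset.range n) (EE Es) m t cls c) {τ h b : ℕ} {z y : List ℕ → ℚ} {ε : ℚ}
    (hz : Frac n (triL n Es) τ z) (hy : Frac n (edgL n Es) h y)
    (hcov : ∀ v < n, |cov (triL n Es) z v + cov (edgL n Es) y v - 1| ≤ ε) (hb : τ + b = m) :
    FS (Finset.range n) (EE Es) m t b h ε (fun j => 1 - cov (triL n Es) z (t j 0))
      (fun v => cov (edgL n Es) y v) := by
  have hsame : ∀ j < m, ∀ i, cov (triL n Es) z (t j i) = cov (triL n Es) z (t j 0) := by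
    intro j hj i
    unfold cov
    apply Finset.sum_congr rfl
    intro l hl
    have hl' := List.mem_toFinset.1 hl
    by_cases h1 : t j i ∈ l
    · rw [if_pos h1, if_pos (col_all hG hC hL hl' hj i 0 h1)]
    · rw [if_neg h1, if_neg fun h2 => h1 (col_all hG hC hL hl' hj 0 i h2)]
  have hX : ∀ j < m, ∀ i, t j i < n := fun j hj i => Finset.mem_range.1 (hL.tX hG hj i)
  refine ⟨?_, ?_, ?_, ?_, ?_, ?_, ?_⟩
  · intro j _
    have := cov_nonneg hz (t j 0)
    linarith
  · intro j hj
    have h1 := abs_le.1 (hcov _ (hX j hj 0))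
    have h2 := cov_nonneg hy (t j 0)
    linarith [h1.2]
  · rw [Finset.sum_sub_distrib]
    have h1 : ∑ j ∈ Finset.range m, cov (triL n Es) z (t j 0) = τ := by
      have e : ∑ j ∈ Finset.range m, cov (triL n Es) z (t j 0) =
          ∑ v ∈ (Finset.range m).image (fun j => t j 0), cov (triL n Es) z v := by
        rw [Finset.sum_image]
        intro j hj l hl h
        exact (hL.tinj (Finset.mem_range.1 hj) (Finset.mem_range.1 hl) h).1
      rw [e, sum_cov, ← hz.sum]
      apply Finset.sum_congr rfl
      intro l hl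
      have hl' := List.mem_toFinset.1 hl
      have : (((Finset.range m).image fun j => t j 0).filter fun v => v ∈ l).card = 1 := by
        obtain ⟨x, y, z, rfl, hx, hy, hz, h1, h2, h3⟩ := mem_triL.1 hl'
        obtain ⟨j, hj, hall⟩ := tri_index hG hC hL h3
        rw [Finset.card_eq_one]
        refine ⟨t j 0, ?_⟩
        ext v
        rw [Finset.mem_filter, Finset.mem_image, Finset.mem_singleton]
        constructor
        · rintro ⟨⟨l, hl, rfl⟩, hv⟩
          have hlm := Finset.mem_range.1 hl
          have h4 := fun k => col_all hG hC hL hl' hlm 0 k hv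
          -- both triangles lie in the list
          have h5 : Finset.univ.image (fun k => t l k) = ({x, y, z} : Finset ℕ) := by
            apply Finset.eq_of_subset_of_card_le
            · intro v hv
              obtain ⟨k, _, rfl⟩ := Finset.mem_image.1 hv
              simpa using h4 k
            · rw [Finset.card_image_of_injective _ fun a b hab => (hL.tinj hlm hlm hab).2]
              exact Finset.card_le_three
          have h6 : t j 0 ∈ Finset.univ.image (fun k => t l k) := by
            rw [h5]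
            simpa using hall 0
          obtain ⟨k, _, hk⟩ := Finset.mem_image.1 h6
          rw [(hL.tinj hlm hj hk).1]
        · rintro rfl
          exact ⟨⟨j, Finset.mem_range.2 hj, rfl⟩, by simpa using hall 0⟩
      rw [this]
      simp
    rw [h1, Finset.sum_const, Finset.card_range, nsmul_eq_mul, mul_one, ← hb]
    push_cast
    ring
  · intro j hj i
    have h1 := hcov _ (hX j hj i)
    have e : cov (edgL n Es) y (t j i) - (1 - cov (triL n Es) z (t j 0)) =
        cov (triL n Es) z (t j i) + cov (edgL n Es) y (t j i) - 1 := by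
      rw [hsame j hj i]; ring
    rw [e]
    exact h1
  · intro v hv hvc
    have h1 := hcov v (Finset.mem_range.1 hv)
    have h2 : cov (triL n Es) z v = 0 := by
      unfold cov
      apply Finset.sum_eq_zero
      intro l hl
      rw [if_neg]
      intro hvl
      obtain ⟨x, y, z, rfl, hx, hy, hz, h3, h4, h5⟩ := mem_triL.1 (List.mem_toFinset.1 hl)
      apply hvc
      simp only [List.mem_cons, List.not_mem_nil, or_false] at hvl
      rcases hvl with rfl | rfl | rfl
      · exact ⟨_, _, h5⟩
      · exact ⟨_, _, h5.rot hG⟩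
      · exact ⟨_, _, (h5.rot hG).rot hG⟩
    rw [h2, zero_add] at h1
    exact h1
  · intro D _ hst
    exact cov_f1 hG hy hst
  · intro D _ hst
    exact cov_f2 hG hy hst

end

end Pool.Agent.H.MP_ebc13b_lc.h61
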