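import Mathlib

/-!
Prismatic graphs with pairwise disjoint triangles: the linear structure.
-/

namespace Pool.Agent.H.MP_ebc13b_lc.h61

/-- A graph on the finite set `X`. -/
structure Gr (X : Finset ℕ) (E : ℕ → ℕ → Prop) : Prop where
  sym : ∀ a b, E a b → E b a
  irr : ∀ a, ¬ E a a
  mem : ∀ a b, E a b → a ∈ X

/-- triangles -/
def Tri (E : ℕ → ℕ → Prop) (a b c : ℕ) : Prop := E a b ∧ E b c ∧ E a c

/-- Prismatic: every vertex outside a triangle has exactly one neighbour in the triangle. -/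
def Prismatic (X : Finset ℕ) (E : ℕ → ℕ → Prop) : Prop :=
  ∀ a b c v, Tri E a b c → v ∈ X → v ≠ a → v ≠ b → v ≠ c →
    (E v a ∧ ¬ E v b ∧ ¬ E v c) ∨ (¬ E v a ∧ E v b ∧ ¬ E v c) ∨ (¬ E v a ∧ ¬ E v b ∧ E v c)

/-- Triangles that share a vertex are equal. -/
def Clean (E : ℕ → ℕ → Prop) : Prop :=
  ∀ a b c b' c', Tri E a b c → Tri E a b' c' → b' = b ∨ b' = c

/-- vertices of triangles -/
def Core (E : ℕ → ℕ → Prop) (a : ℕ) : Prop := ∃ b c, Tri E a b c

theorem Gr.ne {X : Finset ℕ} {E : ℕ → ℕ → Prop} (h : Gr X E) {a b : ℕ} (hab : E a b) : a ≠ b :=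
  fun he => h.irr _ (he ▸ hab)

theorem Gr.mem' {X : Finset ℕ} {E : ℕ → ℕ → Prop} (h : Gr X E) {a b : ℕ} (hab : E a b) : b ∈ X :=
  h.mem _ _ (h.sym _ _ hab)

theorem Tri.rot {X : Finset ℕ} {E : ℕ → ℕ → Prop} (hG : Gr X E) {a b c : ℕ} (h : Tri E a b c) :
    Tri E b c a := ⟨h.2.1, hG.sym _ _ h.2.2, hG.sym _ _ h.1⟩

theorem Tri.swap {X : Finset ℕ} {E : ℕ → ℕ → Prop} (hG : Gr X E) {a b c : ℕ} (h : Tri E a b c) :
    Tri E a c b := ⟨h.2.2, hG.sym _ _ h.2.1, h.1⟩

theorem Clean.both {X : Finset ℕ} {E : ℕ → ℕ → Prop} (hG : Gr X E) (hC : Clean E)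
    {a b c b' c' : ℕ} (h : Tri E a b c) (h' : Tri E a b' c') :
    (b' = b ∧ c' = c) ∨ (b' = c ∧ c' = b) := by
  have h1 := hC _ _ _ _ _ h h'
  have h2 := hC _ _ _ _ _ h (h'.swap hG)
  have h3 : b' ≠ c' := hG.ne h'.2.1
  rcases h1 with h1 | h1 <;> rcases h2 with h2 | h2
  · exact absurd (h1.trans h2.symm) h3
  · exact Or.inl ⟨h1, h2⟩
  · exact Or.inr ⟨h1, h2⟩
  · exact absurd (h1.trans h2.symm) h3

/-- The linear structure: `t j i` is the vertex of class `i` of the `j`-th triangle. -/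
structure Lin (X : Finset ℕ) (E : ℕ → ℕ → Prop) (m : ℕ) (t : ℕ → Fin 3 → ℕ) (cls : ℕ → Fin 3)
    (c : ℕ → ℕ) : Prop where
  clst : ∀ j < m, ∀ i, cls (t j i) = i
  inj : ∀ j < m, ∀ l < m, ∀ i, t j i = t l i → j = l
  tri : ∀ j < m, Tri E (t j 0) (t j 1) (t j 2)
  all : ∀ a, Core E a → ∃ j < m, t j (cls a) = a
  st : ∀ u v, E u v → cls u ≠ cls v
  up : ∀ j < m, ∀ l < m, ∀ i, E (t j i) (t l (i + 1)) ↔ j ≤ l
  r1 : ∀ v ∈ X, ¬ Core E v → ∀ j < m, (E v (t j (cls v + 1)) ↔ c v ≤ j)
  r2 : ∀ v ∈ X, ¬ Core E v → ∀ j < m, (E v (t j (cls v + 2)) ↔ j < c v)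
  le : ∀ v, c v ≤ m
  mono : ∀ u v, ¬ Core E u → ¬ Core E v → E u v → cls v = cls u + 1 → c u ≤ c v

/-! ### Arithmetic of classes -/

theorem f3 (i k : Fin 3) : k = i ∨ k = i + 1 ∨ k = i + 2 := by
  revert i k; decide

theorem f3a (i : Fin 3) : i + 1 + 1 = i + 2 := by revert i; decide
theorem f3b (i : Fin 3) : i + 1 + 2 = i := by revert i; decide
theorem f3c (i : Fin 3) : i + 2 + 1 = i := by revert i; decide
theorem f3d (i : Fin 3) : i + 2 + 2 = i + 1 := by revert i; decide
theorem f3e (i : Fin 3) : i + 1 ≠ i := by revert i; decide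
theorem f3f (i : Fin 3) : i + 2 ≠ i := by revert i; decide
theorem f3g (i : Fin 3) : i + 1 ≠ i + 2 := by revert i; decide

/-! ### Existence -/

section
variable {X : Finset ℕ} {E : ℕ → ℕ → Prop}

/-- two different classes of a triangle are adjacent -/
theorem tri_adj (hG : Gr X E) {t : Fin 3 → ℕ} (h : Tri E (t 0) (t 1) (t 2)) {i k : Fin 3}
    (hik : i ≠ k) : E (t i) (t k) := by
  obtain ⟨h1, h2, h3⟩ := h
  fin_cases i <;> fin_cases k <;> first | exact absurd rfl hik | assumption | exact hG.sym _ _ (by assumption)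

theorem tri_cyc (hG : Gr X E) {t : Fin 3 → ℕ} (h : Tri E (t 0) (t 1) (t 2)) (i : Fin 3) :
    Tri E (t i) (t (i + 1)) (t (i + 2)) :=
  ⟨tri_adj hG h (f3e i).symm, tri_adj hG h (f3g i), tri_adj hG h (f3f i).symm⟩

/-- exactly one neighbour in a triangle, if one class is excluded -/
theorem one_nb (hG : Gr X E) (hP : Prismatic X E) {t : Fin 3 → ℕ} (h : Tri E (t 0) (t 1) (t 2))
    {v : ℕ} (hv : v ∈ X) (hne : ∀ k, v ≠ t k) {i : Fin 3} (hi : ¬ E v (t i)) :
    (E v (t (i + 1)) ↔ ¬ E v (t (i + 2))) := by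
  have h1 := hP _ _ _ v (tri_cyc hG h i) hv (hne _) (hne _) (hne _)
  tauto

/-- A clean prismatic graph with a triangle has the linear structure. -/
theorem exists_lin (hG : Gr X E) (hP : Prismatic X E) (hC : Clean E) {a : Fin 3 → ℕ}
    (ha : Tri E (a 0) (a 1) (a 2)) : ∃ (m : ℕ) (t : ℕ → Fin 3 → ℕ) (cls : ℕ → Fin 3)
      (c : ℕ → ℕ), 0 < m ∧ Lin X E m t cls c := by
  classical
  -- classes
  have hcls : ∀ v, ∃ k : Fin 3, v ∈ X → (v = a k ∨ ((∀ i, v ≠ a i) ∧ E v (a (k + 2)) ∧
      ¬ E v (a k) ∧ ¬ E v (a (k + 1)))) := by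
    intro v
    by_cases hv : v ∈ X
    · by_cases h : ∃ k, v = a k
      · obtain ⟨k, hk⟩ := h
        exact ⟨k, fun _ => Or.inl hk⟩
      · push Not at h
        rcases hP _ _ _ v ha hv (h 0) (h 1) (h 2) with h1 | h1 | h1
        · exact ⟨1, fun _ => Or.inr ⟨h, h1.1, h1.2.1, h1.2.2⟩⟩
        · exact ⟨2, fun _ => Or.inr ⟨h, h1.2.1, h1.2.2, h1.1⟩⟩
        · exact ⟨0, fun _ => Or.inr ⟨h, h1.2.2, h1.1, h1.2.1⟩⟩
    · exact ⟨0, fun h => absurd h hv⟩
  choose cls hcls using hcls
  have haX : ∀ i, a i ∈ X := by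
    intro i
    exact hG.mem _ _ (tri_adj hG ha (f3e i).symm)
  have hainj : ∀ i k, a i = a k → i = k := by
    intro i k h
    by_contra hik
    exact hG.ne (tri_adj hG ha hik) h
  have hcla : ∀ i, cls (a i) = i := by
    intro i
    rcases hcls (a i) (haX i) with h | h
    · exact (hainj _ _ h).symm
    · exact absurd rfl (h.1 i)
  -- classes are stable
  have hst : ∀ u v, E u v → cls u ≠ cls v := by
    intro u v huv he
    have hu := hG.mem _ _ huv
    have hv := hG.mem' huv
    rcases hcls u hu with h1 | ⟨h1, h2, h3, h4⟩ <;> rcases hcls v hv with h5 | ⟨h5, h6, h7, h8⟩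
    · rw [he, ← h5] at h1
      exact hG.ne huv h1
    · rw [h1, he] at huv
      exact h7 (hG.sym _ _ huv)
    · rw [h5, ← he] at huv
      exact h3 huv
    · -- triangle sharing a vertex with `a`
      rw [← he] at h6
      have h9 : Tri E (a (cls u + 2)) u v := ⟨hG.sym _ _ h2, huv, hG.sym _ _ h6⟩
      have h10 := hC _ _ _ _ _ (tri_cyc hG ha (cls u + 2)) h9
      rcases h10 with h10 | h10
      · exact h1 _ h10
      · exact h1 _ h10
  -- the other vertices of triangles
  have hoth : ∀ p, ∃ q : Fin 3 → ℕ, (Core E p ∧ cls p = 0) →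
      (q 0 = p ∧ Tri E (q 0) (q 1) (q 2) ∧ ∀ i, cls (q i) = i) := by
    intro p
    by_cases h : Core E p ∧ cls p = 0
    · obtain ⟨⟨b, d, hbd⟩, hp⟩ := h
      have h1 := hst _ _ hbd.1
      have h2 := hst _ _ hbd.2.1
      have h3 := hst _ _ hbd.2.2
      rw [hp] at h1 h3
      have key : (cls b = 1 ∧ cls d = 2) ∨ (cls b = 2 ∧ cls d = 1) := by
        revert h1 h2 h3
        generalize cls b = x
        generalize cls d = y
        revert x y
        decide
      rcases key with ⟨h4, h5⟩ | ⟨h4, h5⟩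
      · refine ⟨![p, b, d], fun _ => ⟨rfl, hbd, ?_⟩⟩
        intro i
        fin_cases i
        · exact hp
        · exact h4
        · exact h5
      · refine ⟨![p, d, b], fun _ => ⟨rfl, hbd.swap hG, ?_⟩⟩
        intro i
        fin_cases i
        · exact hp
        · exact h5
        · exact h4
    · exact ⟨fun _ => 0, fun h' => absurd h' h⟩
  choose q hq using hoth
  set C0 : Finset ℕ := X.filter fun p => Core E p ∧ cls p = 0 with hC0
  have hqC : ∀ p ∈ C0, q p 0 = p ∧ Tri E (q p 0) (q p 1) (q p 2) ∧ ∀ i, cls (q p i) = i := by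
    intro p hp
    exact hq p (Finset.mem_filter.1 hp).2
  have hqX : ∀ p ∈ C0, ∀ i, q p i ∈ X := by
    intro p hp i
    exact hG.mem _ _ (tri_adj hG (hqC p hp).2.1 (f3e i).symm)
  -- equality of triangles
  have heq : ∀ p ∈ C0, ∀ r ∈ C0, ∀ i k, q p i = q r k → p = r := by
    intro p hp r hr i k h
    have hik : i = k := by rw [← (hqC p hp).2.2 i, ← (hqC r hr).2.2 k, h]
    subst hik
    have h1 := tri_cyc hG (hqC p hp).2.1 i
    have h2 := tri_cyc hG (hqC r hr).2.1 i
    rw [← h] at h2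
    have hall : ∀ l, q p l = q r l := by
      have h3 := hC.both hG h1 h2
      have h4 : q r (i + 1) = q p (i + 1) ∧ q r (i + 2) = q p (i + 2) := by
        rcases h3 with h3 | h3
        · exact h3
        · exfalso
          have := congrArg cls h3.1
          rw [(hqC r hr).2.2, (hqC p hp).2.2] at this
          exact f3g i this
      intro l
      rcases f3 i l with rfl | rfl | rfl
      · exact h
      · exact h4.1.symm
      · exact h4.2.symm
    rw [← (hqC p hp).1, ← (hqC r hr).1, hall 0]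
  -- one neighbour
  have hone : ∀ r ∈ C0, ∀ v ∈ X, (∀ k, v ≠ q r k) →
      (E v (q r (cls v + 1)) ↔ ¬ E v (q r (cls v + 2))) := by
    intro r hr v hv hne
    refine one_nb hG hP (hqC r hr).2.1 hv hne ?_
    intro h
    exact hst _ _ h ((hqC r hr).2.2 _).symm
  -- propagation between triangles
  have hprop : ∀ p ∈ C0, ∀ r ∈ C0, p ≠ r → ∀ i, E (q p i) (q r (i + 1)) →
      E (q p (i + 1)) (q r (i + 1 + 1)) := by
    intro p hp r hr hpr i h
    have hne : ∀ i k, q p i ≠ q r k := fun i k he => hpr (heq p hp r hr i k he)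
    by_contra hcon
    -- then `q p (i+1)` is adjacent to `q r i`
    have h1 := hone r hr (q p (i + 1)) (hqX p hp _) (hne _)
    rw [(hqC p hp).2.2, f3b] at h1
    have h2 : E (q p (i + 1)) (q r i) := by
      by_contra h3
      exact hcon (h1.2 h3)
    -- the third vertex
    have h3 := hone r hr (q p (i + 2)) (hqX p hp _) (hne _)
    rw [(hqC p hp).2.2, f3c, f3d] at h3
    -- neighbours of `q r i` and `q r (i+1)` in the first triangle
    have h4 := hP _ _ _ (q r i) (tri_cyc hG (hqC p hp).2.1 i) (hqX r hr _) (hne _ _).symm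
      (hne _ _).symm (hne _ _).symm
    have h5 := hP _ _ _ (q r (i + 1)) (tri_cyc hG (hqC p hp).2.1 i) (hqX r hr _) (hne _ _).symm
      (hne _ _).symm (hne _ _).symm
    have h6 : E (q r i) (q p (i + 1)) := hG.sym _ _ h2
    have h7 : E (q r (i + 1)) (q p i) := hG.sym _ _ h
    have h8 : ¬ E (q r i) (q p (i + 2)) := by tauto
    have h9 : ¬ E (q r (i + 1)) (q p (i + 2)) := by tauto
    have h10 : ¬ E (q p (i + 2)) (q r i) := fun h => h8 (hG.sym _ _ h)
    have h11 : ¬ E (q p (i + 2)) (q r (i + 1)) := fun h => h9 (hG.sym _ _ h)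
    tauto
  -- the order
  set lt : ℕ → ℕ → Prop := fun p r => E (q p 0) (q r 1) with hlt
  have hltall : ∀ p ∈ C0, ∀ r ∈ C0, p ≠ r → ∀ i, (lt p r ↔ E (q p i) (q r (i + 1))) := by
    intro p hp r hr hpr i
    have h1 := hprop p hp r hr hpr
    have h01 := h1 0
    have h12 := h1 1
    have h20 := h1 2
    have e0 : (0 : Fin 3) + 1 = 1 := rfl
    have e1 : (1 : Fin 3) + 1 = 2 := rfl
    have e2 : (2 : Fin 3) + 1 = 0 := rfl
    rw [e0, e1] at h01
    rw [e1, e2] at h12
    rw [e2, e0] at h20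
    rw [hlt]
    fin_cases i
    · exact Iff.rfl
    · exact ⟨h01, fun h => h20 (h12 h)⟩
    · exact ⟨fun h => h12 (h01 h), h20⟩
  have htot : ∀ p ∈ C0, ∀ r ∈ C0, p ≠ r → (lt p r ↔ ¬ lt r p) := by
    intro p hp r hr hpr
    have hne : ∀ k, q p 0 ≠ q r k := fun k he => hpr (heq p hp r hr 0 k he)
    have h1 := hone r hr (q p 0) (hqX p hp _) hne
    rw [(hqC p hp).2.2] at h1
    have h2 := hltall r hr p hp hpr.symm 2
    have e0 : (0 : Fin 3) + 1 = 1 := rfl
    have e1 : (0 : Fin 3) + 2 = 2 := rfl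
    have e2 : (2 : Fin 3) + 1 = 0 := rfl
    rw [e0, e1] at h1
    rw [e2] at h2
    rw [h2]
    constructor
    · intro h3 h4
      exact h1.1 h3 (hG.sym _ _ h4)
    · intro h3
      exact h1.2 fun h4 => h3 (hG.sym _ _ h4)
  -- no triangles other than the given ones
  have hnotri : ∀ p ∈ C0, ∀ i, ∀ u v, Tri E (q p i) u v → u = q p (i + 1) ∨ u = q p (i + 2) := by
    intro p hp i u v h
    exact hC _ _ _ _ _ (tri_cyc hG (hqC p hp).2.1 i) h
  -- down-sets
  have hdown : ∀ v ∈ X, ∀ p ∈ C0, ∀ r ∈ C0, (∀ k, v ≠ q p k) → (∀ k, v ≠ q r k) → p ≠ r →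
      lt p r → E v (q r (cls v + 2)) → E v (q p (cls v + 2)) := by
    intro v hv p hp r hr hvp hvr hpr hlt' h
    by_contra hcon
    have h1 : E v (q p (cls v + 1)) := (hone p hp v hv hvp).2 hcon
    have h2 : E (q p (cls v + 1)) (q r (cls v + 1 + 1)) := (hltall p hp r hr hpr _).1 hlt'
    rw [f3a] at h2
    have h3 : Tri E (q r (cls v + 2)) v (q p (cls v + 1)) :=
      ⟨hG.sym _ _ h, h1, hG.sym _ _ h2⟩
    rcases hnotri r hr _ _ _ h3 with h4 | h4
    · exact hvr _ h4
    · exact hvr _ h4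
  have htrans : ∀ p ∈ C0, ∀ r ∈ C0, ∀ s ∈ C0, p ≠ r → r ≠ s → p ≠ s → lt p r → lt r s → lt p s := by
    intro p hp r hr s hs hpr hrs hps h1 h2
    by_contra h3
    have h4 : lt s p := by
      by_contra h5
      exact h3 ((htot p hp s hs hps).2 h5)
    -- `v = q p 0` lies above `s`, hence ...
    have h5 : E (q p 0) (q r 1) := h1
    have h6 : E (q r 1) (q s (1 + 1)) := (hltall r hr s hs hrs 1).1 h2
    have h7 : E (q s 2) (q p (2 + 1)) := (hltall s hs p hp (Ne.symm hps) 2).1 h4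
    have h8 : Tri E (q p 0) (q r 1) (q s 2) := ⟨h5, h6, hG.sym _ _ h7⟩
    rcases hnotri p hp _ _ _ h8 with h9 | h9
    · exact hpr (heq r hr p hp _ _ h9).symm
    · exact hpr (heq r hr p hp _ _ h9).symm
  -- ranks
  set rk : ℕ → ℕ := fun r => (C0.filter fun p => p ≠ r ∧ lt p r).card with hrk
  have hrklt : ∀ p ∈ C0, ∀ r ∈ C0, p ≠ r → (lt p r ↔ rk p < rk r) := by
    have h1 : ∀ p ∈ C0, ∀ r ∈ C0, p ≠ r → lt p r → rk p < rk r := by
      intro p hp r hr hpr h
      apply Finset.card_lt_card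
      rw [Finset.ssubset_iff_of_subset]
      · refine ⟨p, Finset.mem_filter.2 ⟨hp, hpr, h⟩, ?_⟩
        simp
      · intro s hs
        rw [Finset.mem_filter] at hs ⊢
        refine ⟨hs.1, ?_, ?_⟩
        · rintro rfl
          exact (htot p hp s hr hpr).1 h hs.2.2
        · have hsr : s ≠ r := by
            rintro rfl
            exact (htot p hp s hr hpr).1 h hs.2.2
          exact htrans s hs.1 p hp r hr hs.2.1 hpr hsr hs.2.2 h
    intro p hp r hr hpr
    refine ⟨h1 p hp r hr hpr, fun h => ?_⟩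
    by_contra h2
    have h3 : lt r p := by
      by_contra h4
      exact h2 ((htot p hp r hr hpr).2 h4)
    have := h1 r hr p hp hpr.symm h3
    omega
  set m := C0.card with hm
  have hrkm : ∀ p ∈ C0, rk p < m := by
    intro p hp
    apply Finset.card_lt_card
    rw [Finset.ssubset_iff_of_subset (Finset.filter_subset _ _)]
    exact ⟨p, hp, by simp⟩
  have hrkinj : ∀ p ∈ C0, ∀ r ∈ C0, rk p = rk r → p = r := by
    intro p hp r hr h
    by_contra hpr
    rcases em (lt p r) with h1 | h1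
    · have := (hrklt p hp r hr hpr).1 h1
      omega
    · have h2 : lt r p := by
        by_contra h4
        exact h1 ((htot p hp r hr hpr).2 h4)
      have := (hrklt r hr p hp (Ne.symm hpr)).1 h2
      omega
  have hsurj : ∀ j < m, ∃ p ∈ C0, rk p = j := by
    have h1 : C0.image rk = Finset.range m := by
      apply Finset.eq_of_subset_of_card_le
      · intro j hj
        obtain ⟨p, hp, rfl⟩ := Finset.mem_image.1 hj
        exact Finset.mem_range.2 (hrkm p hp)
      · rw [Finset.card_range, Finset.card_image_of_injOn]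
        intro p hp r hr h
        exact hrkinj p hp r hr h
    intro j hj
    have : j ∈ C0.image rk := by rw [h1]; exact Finset.mem_range.2 hj
    obtain ⟨p, hp, h⟩ := Finset.mem_image.1 this
    exact ⟨p, hp, h⟩
  have hsurj' : ∀ j, ∃ p, j < m → p ∈ C0 ∧ rk p = j := by
    intro j
    by_cases hj : j < m
    · obtain ⟨p, hp, h⟩ := hsurj j hj
      exact ⟨p, fun _ => ⟨hp, h⟩⟩
    · exact ⟨0, fun h => absurd h hj⟩
  choose e he using hsurj'
  -- every core vertex lies in one of the triangles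
  have hall : ∀ v, Core E v → ∃ p ∈ C0, q p (cls v) = v := by
    intro v hv
    obtain ⟨b, d, hbd⟩ := hv
    have hx : ∃ w : Fin 3 → ℕ, (∀ i, cls (w i) = i) ∧ w (cls v) = v ∧ Tri E (w 0) (w 1) (w 2) := by
      have h1 := hst _ _ hbd.1
      have h2 := hst _ _ hbd.2.1
      have h3 := hst _ _ hbd.2.2
      have hadj : ∀ x y, (x = v ∨ x = b ∨ x = d) → (y = v ∨ y = b ∨ y = d) → cls x ≠ cls y →
          E x y := by
        intro x y hx hy hxy
        obtain ⟨k1, k2, k3⟩ := hbd
        have k4 := hG.sym _ _ k1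
        have k5 := hG.sym _ _ k2
        have k6 := hG.sym _ _ k3
        rcases hx with rfl | rfl | rfl <;> rcases hy with rfl | rfl | rfl <;>
          first | exact absurd rfl hxy | assumption
      have hex : ∀ i : Fin 3, ∃ x, (x = v ∨ x = b ∨ x = d) ∧ cls x = i := by
        intro i
        have : cls v = i ∨ cls b = i ∨ cls d = i := by
          revert h1 h2 h3
          generalize cls v = x
          generalize cls b = y
          generalize cls d = z
          revert x y z i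
          decide
        rcases this with h | h | h
        · exact ⟨v, Or.inl rfl, h⟩
        · exact ⟨b, Or.inr (Or.inl rfl), h⟩
        · exact ⟨d, Or.inr (Or.inr rfl), h⟩
      choose w hw1 hw2 using hex
      refine ⟨w, hw2, ?_, ?_⟩
      · rcases hw1 (cls v) with h | h | h
        · exact h
        · exact absurd (by rw [← h, hw2]) h1
        · exact absurd (by rw [← h, hw2]) h3
      · refine ⟨?_, ?_, ?_⟩
        · exact hadj _ _ (hw1 0) (hw1 1) (by rw [hw2, hw2]; decide)
        · exact hadj _ _ (hw1 1) (hw1 2) (by rw [hw2, hw2]; decide)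
        · exact hadj _ _ (hw1 0) (hw1 2) (by rw [hw2, hw2]; decide)
    obtain ⟨w, hw1, hw2, hw3⟩ := hx
    have hw0 : w 0 ∈ C0 := Finset.mem_filter.2 ⟨hG.mem _ _ hw3.1, ⟨_, _, hw3⟩, hw1 0⟩
    refine ⟨w 0, hw0, ?_⟩
    have h1 := hqC _ hw0
    have h2 : ∀ i, q (w 0) i = w i := by
      have h3 := hC.both hG hw3 (h1.1 ▸ h1.2.1)
      have h4 : q (w 0) 1 = w 1 ∧ q (w 0) 2 = w 2 := by
        rcases h3 with h3 | h3
        · exact h3
        · exfalso
          have := congrArg cls h3.1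
          rw [h1.2.2, hw1] at this
          exact absurd this (by decide)
      intro i
      fin_cases i
      · exact h1.1
      · exact h4.1
      · exact h4.2
    rw [h2, hw2]
  -- no core vertex outside
  have hncore : ∀ v, ¬ Core E v → ∀ p ∈ C0, ∀ k, v ≠ q p k := by
    rintro v hv p hp k rfl
    exact hv ⟨_, _, tri_cyc hG (hqC p hp).2.1 k⟩
  -- cuts
  set c : ℕ → ℕ := fun v => (C0.filter fun r => E v (q r (cls v + 2))).card with hc
  have hcut : ∀ v ∈ X, ¬ Core E v → ∀ r ∈ C0, (E v (q r (cls v + 2)) ↔ rk r < c v) := by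
    intro v hv hvc r hr
    constructor
    · intro h
      apply Finset.card_lt_card
      rw [Finset.ssubset_iff_of_subset]
      · exact ⟨r, Finset.mem_filter.2 ⟨hr, h⟩, by simp⟩
      · intro p hp
        rw [Finset.mem_filter] at hp ⊢
        exact ⟨hp.1, hdown v hv p hp.1 r hr (hncore v hvc p hp.1) (hncore v hvc r hr) hp.2.1
          hp.2.2 h⟩
    · intro h
      by_contra h1
      have : c v ≤ rk r := by
        apply Finset.card_le_card
        intro p hp
        rw [Finset.mem_filter] at hp ⊢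
        have hpr : p ≠ r := by
          rintro rfl
          exact h1 hp.2
        refine ⟨hp.1, hpr, ?_⟩
        by_contra h2
        have h3 : lt r p := by
          by_contra h4
          exact h2 ((htot p hp.1 r hr hpr).2 h4)
        exact h1 (hdown v hv r hr p hp.1 (hncore v hvc r hr) (hncore v hvc p hp.1) hpr.symm h3
          hp.2)
      omega
  have hm0 : 0 < m := by
    apply Finset.card_pos.2
    exact ⟨a 0, Finset.mem_filter.2 ⟨haX 0, ⟨_, _, ha⟩, hcla 0⟩⟩
  refine ⟨m, fun j => q (e j), cls, c, hm0, ?_⟩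
  have heC : ∀ j < m, e j ∈ C0 := fun j hj => (he j hj).1
  have herk : ∀ j < m, rk (e j) = j := fun j hj => (he j hj).2
  refine ⟨?_, ?_, ?_, ?_, hst, ?_, ?_, ?_, ?_, ?_⟩
  · intro j hj i
    exact (hqC _ (heC j hj)).2.2 i
  · intro j hj l hl i h
    have := heq _ (heC j hj) _ (heC l hl) _ _ h
    rw [← herk j hj, ← herk l hl, this]
  · intro j hj
    exact (hqC _ (heC j hj)).2.1
  · intro v hv
    obtain ⟨p, hp, h⟩ := hall v hv
    have hpm := hrkm p hp
    refine ⟨rk p, hpm, ?_⟩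
    have : e (rk p) = p := hrkinj _ (heC _ hpm) _ hp (herk _ hpm)
    rw [this]
    exact h
  · intro j hj l hl i
    by_cases hjl : j = l
    · subst hjl
      simp only [le_refl, iff_true]
      exact tri_adj hG (hqC _ (heC j hj)).2.1 (f3e i).symm
    · have hne : e j ≠ e l := by
        intro h
        apply hjl
        rw [← herk j hj, ← herk l hl, h]
      rw [← hltall _ (heC j hj) _ (heC l hl) hne i, hrklt _ (heC j hj) _ (heC l hl) hne,
        herk j hj, herk l hl]
      omega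
  · intro v hv hvc j hj
    rw [hone _ (heC j hj) v hv (hncore v hvc _ (heC j hj)), hcut v hv hvc _ (heC j hj),
      herk j hj, not_lt]
  · intro v hv hvc j hj
    rw [hcut v hv hvc _ (heC j hj), herk j hj]
  · intro v
    exact Finset.card_filter_le _ _
  · intro u v hu hv huv hcl
    apply Finset.card_le_card
    intro r hr
    rw [Finset.mem_filter] at hr ⊢
    refine ⟨hr.1, ?_⟩
    by_contra h1
    have h2 := (hone r hr.1 v (hG.mem' huv) (hncore v hv r hr.1)).2 h1
    rw [hcl, f3a] at h2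
    have h3 : Tri E (q r (cls u + 2)) u v := ⟨hG.sym _ _ hr.2, huv, hG.sym _ _ h2⟩
    exact hu ⟨_, _, h3.rot hG⟩

end

end Pool.Agent.H.MP_ebc13b_lc.h61
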