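import Mathlib

/-!
Matchings given as lists of pairs: mates, certificates of maximality.
-/

namespace Pool.Agent.H.MP_ebc13b_lc.h61

/-- the list of all endpoints of a list of pairs -/
def ends (M : List (ℕ × ℕ)) : List ℕ := M.flatMap fun p => [p.1, p.2]

@[simp] theorem ends_nil : ends [] = [] := rfl
@[simp] theorem ends_cons (p : ℕ × ℕ) (M : List (ℕ × ℕ)) : ends (p :: M) = p.1 :: p.2 :: ends M := rfl
@[simp] theorem ends_append (M N : List (ℕ × ℕ)) : ends (M ++ N) = ends M ++ ends N := by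
  simp [ends]

theorem mem_ends {M : List (ℕ × ℕ)} {x : ℕ} : x ∈ ends M ↔ ∃ p ∈ M, x = p.1 ∨ x = p.2 := by
  simp [ends]

theorem length_ends (M : List (ℕ × ℕ)) : (ends M).length = 2 * M.length := by
  induction M with
  | nil => rfl
  | cons p M ih => simp [ih]; ring

/-- `M` is a matching of the graph with edge list `Es` -/
structure IsMat (Es M : List (ℕ × ℕ)) : Prop where
  sub : ∀ p ∈ M, p ∈ Es
  nd : (ends M).Nodup

/-- a graph: list of vertices and symmetric list of edges without loops -/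
structure IsG (Vs : List ℕ) (Es : List (ℕ × ℕ)) : Prop where
  sym : ∀ x y, (x, y) ∈ Es → (y, x) ∈ Es
  irr : ∀ x, (x, x) ∉ Es
  mem : ∀ x y, (x, y) ∈ Es → x ∈ Vs
  nd : Vs.Nodup

theorem IsG.mem' {Vs : List ℕ} {Es : List (ℕ × ℕ)} (h : IsG Vs Es) {x y : ℕ} (hxy : (x, y) ∈ Es) :
    y ∈ Vs := h.mem _ _ (h.sym _ _ hxy)

/-- the other endpoint of the pair containing `x`, or `x` itself -/
def mate (M : List (ℕ × ℕ)) (x : ℕ) : ℕ :=
  if ((M.filter fun p => decide (p.1 = x) || decide (p.2 = x)).headD (x, x)).1 = x then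
    ((M.filter fun p => decide (p.1 = x) || decide (p.2 = x)).headD (x, x)).2
  else ((M.filter fun p => decide (p.1 = x) || decide (p.2 = x)).headD (x, x)).1

theorem mate_eq_self {M : List (ℕ × ℕ)} {x : ℕ} (h : x ∉ ends M) : mate M x = x := by
  have h1 : (M.filter fun p => decide (p.1 = x) || decide (p.2 = x)) = [] := by
    rw [List.filter_eq_nil_iff]
    intro p hp hx
    apply h
    rw [mem_ends]
    simp only [Bool.or_eq_true, decide_eq_true_eq] at hx
    exact ⟨p, hp, hx.imp Eq.symm Eq.symm⟩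
  simp [mate, h1]

theorem mate_cases {M : List (ℕ × ℕ)} {x : ℕ} (h : x ∈ ends M) :
    (x, mate M x) ∈ M ∨ (mate M x, x) ∈ M := by
  set L := M.filter fun p => decide (p.1 = x) || decide (p.2 = x) with hL
  obtain ⟨p, hp, hx⟩ := mem_ends.1 h
  have hpL : p ∈ L := by
    rw [hL, List.mem_filter]
    refine ⟨hp, ?_⟩
    simp only [Bool.or_eq_true, decide_eq_true_eq]
    exact hx.imp Eq.symm Eq.symm
  obtain ⟨q, L', hq⟩ := List.exists_cons_of_ne_nil (List.ne_nil_of_mem hpL)
  have hqL : q ∈ L := by rw [hq]; exact List.mem_cons_self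
  rw [hL, List.mem_filter] at hqL
  obtain ⟨hqM, hqx⟩ := hqL
  simp only [Bool.or_eq_true, decide_eq_true_eq] at hqx
  have hm : mate M x = if q.1 = x then q.2 else q.1 := by
    unfold mate
    rw [← hL, hq]
    rfl
  by_cases h1 : q.1 = x
  · left
    rw [hm, if_pos h1]
    rw [← h1]
    exact hqM
  · right
    rw [hm, if_neg h1]
    have h2 := hqx.resolve_left h1
    rw [← h2]
    exact hqM

theorem nodup_pair_eq {M : List (ℕ × ℕ)} (hM : (ends M).Nodup) {p q : ℕ × ℕ} (hp : p ∈ M)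
    (hq : q ∈ M) (h : p.1 = q.1 ∨ p.1 = q.2 ∨ p.2 = q.1 ∨ p.2 = q.2) : p = q := by
  induction M with
  | nil => simp at hp
  | cons r M ih =>
    simp only [ends_cons, List.nodup_cons, List.mem_cons, not_or] at hM
    obtain ⟨⟨h1, h2⟩, h3, h4⟩ := hM
    have key : ∀ s ∈ M, ¬ (r.1 = s.1 ∨ r.1 = s.2 ∨ r.2 = s.1 ∨ r.2 = s.2) := by
      intro s hs hc
      rcases hc with hc | hc | hc | hc
      · exact h2 (mem_ends.2 ⟨s, hs, Or.inl hc⟩)
      · exact h2 (mem_ends.2 ⟨s, hs, Or.inr hc⟩)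
      · exact h3 (mem_ends.2 ⟨s, hs, Or.inl hc⟩)
      · exact h3 (mem_ends.2 ⟨s, hs, Or.inr hc⟩)
    rcases List.mem_cons.1 hp with hp1 | hp1 <;> rcases List.mem_cons.1 hq with hq1 | hq1
    · rw [hp1, hq1]
    · subst hp1
      exact absurd h (key q hq1)
    · subst hq1
      exact absurd (by rcases h with h | h | h | h <;> simp [h]) (key p hp1)
    · exact ih h4 hp1 hq1

theorem nodup_pair_ne {M : List (ℕ × ℕ)} (hM : (ends M).Nodup) {p : ℕ × ℕ} (hp : p ∈ M) :
    p.1 ≠ p.2 := by
  induction M with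
  | nil => simp at hp
  | cons r M ih =>
    simp only [ends_cons, List.nodup_cons, List.mem_cons, not_or] at hM
    obtain ⟨⟨h1, h2⟩, h3, h4⟩ := hM
    rcases List.mem_cons.1 hp with rfl | hp
    · exact h1
    · exact ih h4 hp

theorem mate_left {M : List (ℕ × ℕ)} (hM : (ends M).Nodup) {x y : ℕ} (h : (x, y) ∈ M) :
    mate M x = y := by
  have hx : x ∈ ends M := mem_ends.2 ⟨_, h, Or.inl rfl⟩
  rcases mate_cases hx with h1 | h1
  · have := nodup_pair_eq hM h h1 (Or.inl rfl)
    simp only [Prod.mk.injEq, true_and] at this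
    exact this.symm
  · have := nodup_pair_eq hM h h1 (Or.inr (Or.inl rfl))
    simp only [Prod.mk.injEq] at this
    rw [← this.1]; exact this.2.symm

theorem mate_right {M : List (ℕ × ℕ)} (hM : (ends M).Nodup) {x y : ℕ} (h : (x, y) ∈ M) :
    mate M y = x := by
  have hx : y ∈ ends M := mem_ends.2 ⟨_, h, Or.inr rfl⟩
  rcases mate_cases hx with h1 | h1
  · have := nodup_pair_eq hM h h1 (Or.inr (Or.inr (Or.inl rfl)))
    simp only [Prod.mk.injEq] at this
    rw [← this.2]; exact this.1.symm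
  · have := nodup_pair_eq hM h h1 (Or.inr (Or.inr (Or.inr rfl)))
    simp only [Prod.mk.injEq, and_true] at this
    exact this.symm

theorem mate_mem {M : List (ℕ × ℕ)} {x : ℕ} (h : x ∈ ends M) : mate M x ∈ ends M := by
  rcases mate_cases h with h1 | h1
  · exact mem_ends.2 ⟨_, h1, Or.inr rfl⟩
  · exact mem_ends.2 ⟨_, h1, Or.inl rfl⟩

theorem mate_mate {M : List (ℕ × ℕ)} (hM : (ends M).Nodup) (x : ℕ) : mate M (mate M x) = x := by
  by_cases hx : x ∈ ends M
  · rcases mate_cases hx with h1 | h1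
    · exact mate_right hM h1
    · exact mate_left hM h1
  · rw [mate_eq_self hx, mate_eq_self hx]

theorem mate_ne {M : List (ℕ × ℕ)} (hM : (ends M).Nodup) {x : ℕ} (h : x ∈ ends M) :
    mate M x ≠ x := by
  rcases mate_cases h with h1 | h1
  · exact (nodup_pair_ne hM h1).symm
  · exact nodup_pair_ne hM h1

theorem mate_mem_iff {M : List (ℕ × ℕ)} (hM : (ends M).Nodup) {x : ℕ} :
    mate M x ∈ ends M ↔ x ∈ ends M := by
  constructor
  · intro h
    have := mate_mem h
    rwa [mate_mate hM] at this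
  · exact mate_mem

theorem IsMat.mate_edge {Vs : List ℕ} {Es M : List (ℕ × ℕ)} (hG : IsG Vs Es) (hM : IsMat Es M)
    {x : ℕ} (h : x ∈ ends M) : (x, mate M x) ∈ Es := by
  rcases mate_cases h with h1 | h1
  · exact hM.sub _ h1
  · exact hG.sym _ _ (hM.sub _ h1)

theorem IsMat.ends_sub {Vs : List ℕ} {Es M : List (ℕ × ℕ)} (hG : IsG Vs Es) (hM : IsMat Es M)
    {x : ℕ} (h : x ∈ ends M) : x ∈ Vs := hG.mem _ _ (hM.mate_edge hG h)

/-- the labels of the cells with an odd number of elements -/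
def oddc (S : Finset ℕ) (c : ℕ → ℕ) : Finset ℕ :=
  (S.image c).filter fun r => Odd (S.filter fun x => c x = r).card

/-- certificate that no matching has more than `k` pairs -/
def Cert (Vs : List ℕ) (Es : List (ℕ × ℕ)) (k : ℕ) : Prop :=
  ∃ (A : Finset ℕ) (c : ℕ → ℕ), A ⊆ Vs.toFinset ∧
    (∀ x y, (x, y) ∈ Es → x ∉ A → y ∉ A → c x = c y) ∧
    Vs.length + A.card ≤ 2 * k + (oddc (Vs.toFinset \ A) c).card

theorem even_of_involution (S : Finset ℕ) (m : ℕ → ℕ) (h1 : ∀ x ∈ S, m x ∈ S)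
    (h2 : ∀ x ∈ S, m (m x) = x) (h3 : ∀ x ∈ S, m x ≠ x) : Even S.card := by
  have h : ∑ x ∈ S, (1 : ZMod 2) = 0 := by
    refine Finset.sum_involution (fun x _ => m x) ?_ ?_ ?_ ?_
    · intro x _; decide
    · intro x hx _; exact h3 x hx
    · intro x hx; exact h1 x hx
    · intro x hx; exact h2 x hx
  rw [Finset.sum_const, nsmul_eq_mul, mul_one] at h
  rw [even_iff_two_dvd]
  exact (ZMod.natCast_eq_zero_iff _ _).1 h

theorem cert_bound {Vs : List ℕ} {Es M : List (ℕ × ℕ)} (hG : IsG Vs Es) (hM : IsMat Es M)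
    {A : Finset ℕ} {c : ℕ → ℕ} (hA : A ⊆ Vs.toFinset)
    (hc : ∀ x y, (x, y) ∈ Es → x ∉ A → y ∉ A → c x = c y) :
    2 * M.length + (oddc (Vs.toFinset \ A) c).card + 2 * (A.filter fun x => x ∉ ends M).card ≤
      Vs.length + A.card := by
  classical
  set V := Vs.toFinset with hV
  set S := V \ A with hS
  set U := V \ (ends M).toFinset with hU
  have hVc : V.card = Vs.length := List.toFinset_card_of_nodup hG.nd
  have hsub : (ends M).toFinset ⊆ V := by
    intro x hx
    rw [List.mem_toFinset] at hx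
    rw [hV, List.mem_toFinset]
    exact hM.ends_sub hG hx
  have hUc : U.card + 2 * M.length = Vs.length := by
    have h1 := Finset.card_sdiff_add_card_eq_card hsub
    rw [List.toFinset_card_of_nodup hM.nd, length_ends, hVc] at h1
    exact h1
  -- choose a vertex in each odd cell
  have key : ∀ r ∈ oddc S c, ∃ x ∈ S, c x = r ∧ (x ∈ U ∨ (x ∈ ends M ∧ mate M x ∈ A)) := by
    intro r hr
    by_contra hcon
    push Not at hcon
    unfold oddc at hr
    rw [Finset.mem_filter] at hr
    obtain ⟨_, hodd⟩ := hr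
    apply (Nat.not_even_iff_odd.2 hodd)
    have hmem : ∀ x ∈ S.filter (fun x => c x = r), x ∈ ends M ∧ mate M x ∈ S ∧ c (mate M x) = r := by
      intro x hx
      rw [Finset.mem_filter] at hx
      obtain ⟨hxS, hxr⟩ := hx
      obtain ⟨h1, h2⟩ := hcon x hxS hxr
      have hxV : x ∈ V := (Finset.mem_sdiff.1 hxS).1
      have hxA : x ∉ A := (Finset.mem_sdiff.1 hxS).2
      have hxe : x ∈ ends M := by
        by_contra h
        exact h1 (Finset.mem_sdiff.2 ⟨hxV, fun h' => h (List.mem_toFinset.1 h')⟩)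
      have hmA := h2 hxe
      have hmV : mate M x ∈ V := by
        rw [hV, List.mem_toFinset]
        exact hM.ends_sub hG (mate_mem hxe)
      refine ⟨hxe, Finset.mem_sdiff.2 ⟨hmV, hmA⟩, ?_⟩
      rw [← hc _ _ (hM.mate_edge hG hxe) hxA hmA, hxr]
    refine even_of_involution _ (mate M) ?_ ?_ ?_
    · intro x hx
      obtain ⟨h1, h2, h3⟩ := hmem x hx
      exact Finset.mem_filter.2 ⟨h2, h3⟩
    · intro x _; exact mate_mate hM.nd x
    · intro x hx; exact mate_ne hM.nd (hmem x hx).1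
  choose! f hfS hfc hf using key
  set T : Finset (ℕ ⊕ ℕ) := (U \ A).disjSum (A \ U) with hT
  have hcard : (oddc S c).card ≤ T.card := by
    refine Finset.card_le_card_of_injOn
      (fun r => if f r ∈ U then Sum.inl (f r) else Sum.inr (mate M (f r))) ?_ ?_
    · intro r hr
      have hr' : r ∈ oddc S c := hr
      have hfA : f r ∉ A := (Finset.mem_sdiff.1 (hfS r hr')).2
      by_cases h : f r ∈ U
      · simp only [h, if_true, hT, Finset.mem_coe, Finset.inl_mem_disjSum, Finset.mem_sdiff]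
        exact ⟨trivial, hfA⟩
      · simp only [h, if_false, hT, Finset.mem_coe, Finset.inr_mem_disjSum, Finset.mem_sdiff]
        obtain ⟨h1, h2⟩ := (hf r hr').resolve_left h
        refine ⟨h2, fun h3 => ?_⟩
        exact (Finset.mem_sdiff.1 h3).2 (List.mem_toFinset.2 (mate_mem h1))
    · intro r hr s hs hrs
      have hr' : r ∈ oddc S c := hr
      have hs' : s ∈ oddc S c := hs
      simp only at hrs
      have : f r = f s := by
        split_ifs at hrs with h1 h2 h2
        · exact Sum.inl.inj hrs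
        · have h4 := congrArg (mate M) (Sum.inr.inj hrs)
          rwa [mate_mate hM.nd, mate_mate hM.nd] at h4
      rw [← hfc r hr', ← hfc s hs', this]
  rw [hT, Finset.card_disjSum] at hcard
  have hAU : A.filter (fun x => x ∉ ends M) = A ∩ U := by
    ext x
    simp only [Finset.mem_filter, Finset.mem_inter, hU, Finset.mem_sdiff, List.mem_toFinset]
    constructor
    · rintro ⟨h1, h2⟩
      exact ⟨h1, by simpa [hV] using hA h1, h2⟩
    · rintro ⟨h1, _, h2⟩
      exact ⟨h1, h2⟩
  have h1 := Finset.card_sdiff_add_card_inter A U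
  have h2 := Finset.card_sdiff_add_card_inter U A
  rw [Finset.inter_comm] at h2
  rw [hAU]
  omega

theorem Cert.le {Vs : List ℕ} {Es M : List (ℕ × ℕ)} {k : ℕ} (hG : IsG Vs Es)
    (h : Cert Vs Es k) (hM : IsMat Es M) : M.length ≤ k := by
  obtain ⟨A, c, hA, hc, hk⟩ := h
  have := cert_bound hG hM hA hc
  omega

end Pool.Agent.H.MP_ebc13b_lc.h61
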