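import Pool.Agent.H.MP_ebc13b_lc.h61.Aug
import Pool.Agent.H.MP_ebc13b_lc.h61.Lin

/-!
Perfect matchings in prismatic graphs with disjoint triangles.
-/

namespace Pool.Agent.H.MP_ebc13b_lc.h61

/-- `M` is a matching inside `W` -/
def Mch (E : ℕ → ℕ → Prop) (W : Finset ℕ) (M : List (ℕ × ℕ)) : Prop :=
  (∀ p ∈ M, E p.1 p.2 ∧ p.1 ∈ W ∧ p.2 ∈ W) ∧ (ends M).Nodup

/-- stable sets -/
def Stb (E : ℕ → ℕ → Prop) (D : Finset ℕ) : Prop := ∀ u ∈ D, ∀ v ∈ D, ¬ E u v

open scoped Classical in
/-- neighbours in `W` -/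
noncomputable def nbr (E : ℕ → ℕ → Prop) (W D : Finset ℕ) : Finset ℕ :=
  W.filter fun w => ∃ v ∈ D, E v w

theorem mem_nbr {E : ℕ → ℕ → Prop} {W D : Finset ℕ} {w : ℕ} :
    w ∈ nbr E W D ↔ w ∈ W ∧ ∃ v ∈ D, E v w := by
  classical
  unfold nbr
  rw [Finset.mem_filter]

section
variable {X : Finset ℕ} {E : ℕ → ℕ → Prop}

open scoped Classical in
/-- list of the edges inside `W` -/
noncomputable def edgesOf (E : ℕ → ℕ → Prop) (W : Finset ℕ) : List (ℕ × ℕ) :=
  ((W ×ˢ W).filter fun p => E p.1 p.2).toList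

theorem mem_edgesOf {W : Finset ℕ} {p : ℕ × ℕ} :
    p ∈ edgesOf E W ↔ (p.1 ∈ W ∧ p.2 ∈ W) ∧ E p.1 p.2 := by
  classical
  unfold edgesOf
  rw [Finset.mem_toList, Finset.mem_filter, Finset.mem_product]

theorem isG_of (hG : Gr X E) (W : Finset ℕ) : IsG W.toList (edgesOf E W) := by
  refine ⟨?_, ?_, ?_, W.nodup_toList⟩
  · intro x y h
    rw [mem_edgesOf] at h ⊢
    exact ⟨⟨h.1.2, h.1.1⟩, hG.sym _ _ h.2⟩
  · intro x h
    rw [mem_edgesOf] at h
    exact hG.irr _ h.2
  · intro x y h
    rw [mem_edgesOf] at h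
    rw [Finset.mem_toList]
    exact h.1.1

theorem mch_iff {W : Finset ℕ} {M : List (ℕ × ℕ)} : Mch E W M ↔ IsMat (edgesOf E W) M := by
  constructor
  · rintro ⟨h1, h2⟩
    exact ⟨fun p hp => mem_edgesOf.2 ⟨(h1 p hp).2, (h1 p hp).1⟩, h2⟩
  · rintro ⟨h1, h2⟩
    exact ⟨fun p hp => ⟨(mem_edgesOf.1 (h1 p hp)).2, (mem_edgesOf.1 (h1 p hp)).1⟩, h2⟩

/-- weak duality -/
theorem mch_bound (hG : Gr X E) {W : Finset ℕ} {M : List (ℕ × ℕ)} (hM : Mch E W M)
    {A : Finset ℕ} {c : ℕ → ℕ} (hA : A ⊆ W)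
    (hc : ∀ x ∈ W, ∀ y ∈ W, E x y → x ∉ A → y ∉ A → c x = c y) :
    2 * M.length + (oddc (W \ A) c).card ≤ W.card + A.card := by
  have h := cert_bound (isG_of hG W) (mch_iff.1 hM) (A := A) (c := c)
    (by rw [Finset.toList_toFinset]; exact hA) (by
      intro x y hxy hx hy
      rw [mem_edgesOf] at hxy
      exact hc x hxy.1.1 y hxy.1.2 hxy.2 hx hy)
  rw [Finset.toList_toFinset, Finset.length_toList] at h
  omega

/-- Tutte's theorem -/
theorem tutte_berge (hG : Gr X E) {W : Finset ℕ} (hW : Even W.card) :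
    (∃ M, Mch E W M ∧ 2 * M.length = W.card) ∨ ∃ (A : Finset ℕ) (c : ℕ → ℕ), A ⊆ W ∧
      (∀ x ∈ W, ∀ y ∈ W, E x y → x ∉ A → y ∉ A → c x = c y) ∧
      A.card + 2 ≤ (oddc (W \ A) c).card := by
  obtain ⟨h1, A, c, h2, h3, h4⟩ := maxMatch_spec (isG_of hG W)
  rw [Finset.toList_toFinset] at h2 h4
  rw [Finset.length_toList] at h4
  set M := maxMatch W.toList (edgesOf E W) with hM
  have h5 := mch_iff.2 h1
  have h6 : 2 * M.length ≤ W.card := by
    have := mch_bound hG h5 (A := ∅) (c := fun _ => 0) (Finset.empty_subset _)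
      (fun _ _ _ _ _ _ _ => rfl)
    simp at this
    omega
  rcases Nat.lt_or_ge (2 * M.length) W.card with h7 | h7
  · right
    refine ⟨A, c, h2, ?_, ?_⟩
    · intro x hx y hy hxy hxA hyA
      exact h3 x y (mem_edgesOf.2 ⟨⟨hx, hy⟩, hxy⟩) hxA hyA
    · obtain ⟨k, hk⟩ := hW
      omega
  · exact Or.inl ⟨M, h5, by omega⟩

/-- maximum matchings are matchings and are maximum -/
theorem card_of_mch (hG : Gr X E) {W : Finset ℕ} {M : List (ℕ × ℕ)} (hM : Mch E W M) :
    2 * M.length ≤ W.card := by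
  have := mch_bound hG hM (A := ∅) (c := fun _ => 0) (Finset.empty_subset _)
    (fun _ _ _ _ _ _ _ => rfl)
  simp at this
  omega

/-- two disjoint stable sides of the vertices not adjacent to `v` -/
theorem side_stable (hC : Clean E) (hG : Gr X E) {v x y u w : ℕ} (h : Tri E v x y)
    (huv : u ≠ v) (huy : u ≠ y) (hux : E u x) (hwx : E w x) : ¬ E u w := by
  intro huw
  have h1 : Tri E x y v := h.rot hG
  have h2 : Tri E x u w := ⟨hG.sym _ _ hux, huw, hG.sym _ _ hwx⟩
  rcases hC _ _ _ _ _ h1 h2 with h3 | h3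
  · exact huy h3
  · exact huv h3

theorem pm_criterion (hG : Gr X E) (hP : Prismatic X E) (hC : Clean E) {W : Finset ℕ}
    (hWX : W ⊆ X) (hclosed : ∀ v ∈ W, Core E v → ∃ x ∈ W, ∃ y ∈ W, Tri E v x y)
    (heven : Even W.card) {R K : Finset ℕ} (hR : ∀ v, v ∈ R ↔ v ∈ W ∧ ¬ Core E v)
    (hK : ∀ v, v ∈ K ↔ v ∈ W ∧ Core E v)
    (hρ : ∃ M, Mch E R M ∧ R.card ≤ 2 * M.length + K.card)
    (hα : ∀ D ⊆ W, Stb E D → (∃ v ∈ D, Core E v) → 2 * D.card ≤ W.card)
    (hβ : ∀ D ⊆ R, Stb E D → D.card ≤ (nbr E W D).card) :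
    ∃ M, Mch E W M ∧ 2 * M.length = W.card := by
  classical
  rcases tutte_berge hG heven with h | ⟨A, c, hA, hc, hq⟩
  · exact h
  exfalso
  have hWsplit : W.card = R.card + K.card := by
    have h1 : W = R ∪ K := by
      ext v
      rw [Finset.mem_union, hR, hK]
      tauto
    have h2 : Disjoint R K := by
      rw [Finset.disjoint_left]
      intro v hv hv'
      exact ((hR v).1 hv).2 ((hK v).1 hv').2
    rw [h1, Finset.card_union_of_disjoint h2]
  -- a core vertex outside the barrier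
  obtain ⟨v, hvW, hvA, hvc⟩ : ∃ v ∈ W, v ∉ A ∧ Core E v := by
    by_contra hcon
    push Not at hcon
    obtain ⟨M, hM, hρ'⟩ := hρ
    have h1 := mch_bound hG hM (A := A ∩ R) (c := c) Finset.inter_subset_right (by
      intro x hx y hy hxy hxA hyA
      refine hc x ((hR x).1 hx).1 y ((hR y).1 hy).1 hxy ?_ ?_
      · exact fun h => hxA (Finset.mem_inter.2 ⟨h, hx⟩)
      · exact fun h => hyA (Finset.mem_inter.2 ⟨h, hy⟩))
    have h2 : R \ (A ∩ R) = W \ A := by
      ext x
      simp only [Finset.mem_sdiff, Finset.mem_inter, hR]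
      constructor
      · rintro ⟨⟨h3, h4⟩, h5⟩
        exact ⟨h3, fun h6 => h5 ⟨h6, h3, h4⟩⟩
      · rintro ⟨h3, h4⟩
        exact ⟨⟨h3, hcon x h3 h4⟩, fun h5 => h4 h5.1⟩
    have h3 : A.card = (A ∩ R).card + K.card := by
      have h4 : A = (A ∩ R) ∪ K := by
        ext x
        simp only [Finset.mem_union, Finset.mem_inter, hR, hK]
        constructor
        · intro h5
          by_cases h6 : Core E x
          · exact Or.inr ⟨hA h5, h6⟩
          · exact Or.inl ⟨h5, hA h5, h6⟩
        · rintro (h5 | h5)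
          · exact h5.1
          · by_contra h6
            exact hcon x h5.1 h6 h5.2
      have h5 : Disjoint (A ∩ R) K := by
        rw [Finset.disjoint_left]
        intro x hx hx'
        exact ((hR x).1 (Finset.mem_inter.1 hx).2).2 ((hK x).1 hx').2
      calc A.card = ((A ∩ R) ∪ K).card := by rw [← h4]
        _ = _ := Finset.card_union_of_disjoint h5
    rw [h2] at h1
    omega
  obtain ⟨x, hx, y, hy, hT⟩ := hclosed v hvW hvc
  set r := c v with hr
  set O := (oddc (W \ A) c).erase r with hO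
  have hOcard : A.card + 1 ≤ O.card := by
    have h1 := Finset.pred_card_le_card_erase (s := oddc (W \ A) c) (a := r)
    rw [← hO] at h1
    omega
  -- vertices in other cells
  have hZ : ∀ w ∈ W \ A, c w ≠ r → (E w x ∧ ¬ E w y ∨ ¬ E w x ∧ E w y) ∧ w ≠ v ∧ w ≠ x ∧ w ≠ y := by
    intro w hw hwr
    rw [Finset.mem_sdiff] at hw
    have h1 : w ≠ v := by rintro rfl; exact hwr rfl
    have h2 : ∀ u ∈ W, E v u → w ≠ u := by
      rintro u hu hvu rfl
      exact hwr (hc v hvW w hw.1 hvu hvA hw.2).symm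
    have h3 := h2 x hx hT.1
    have h4 := h2 y hy hT.2.2
    have h5 : ¬ E w v := fun h => hwr (hc w hw.1 v hvW h hw.2 hvA)
    rcases hP _ _ _ w hT (hWX hw.1) h1 h3 h4 with h6 | h6 | h6
    · exact absurd h6.1 h5
    · exact ⟨Or.inl h6.2, h1, h3, h4⟩
    · exact ⟨Or.inr h6.2, h1, h3, h4⟩
  set cell : ℕ → Finset ℕ := fun s => (W \ A).filter fun w => c w = s with hcell
  set big : ℕ → Prop := fun s => ((cell s).filter fun w => E w y).card <
    ((cell s).filter fun w => E w x).card with hbig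
  set side : ℕ → Prop := fun w => if big (c w) then E w x else E w y with hside
  set D : Finset ℕ := (W \ A).filter fun w => c w ∈ O ∧ side w with hD
  set D' : Finset ℕ := (W \ A).filter fun w => c w ∈ O ∧ ¬ side w with hD'
  have hOr : ∀ s ∈ O, s ≠ r := fun s hs => (Finset.mem_erase.1 hs).1
  have hcard : D'.card + O.card ≤ D.card := by
    have h1 : D.card = ∑ s ∈ O, (D.filter fun w => c w = s).card :=
      Finset.card_eq_sum_card_fiberwise (fun w hw => (Finset.mem_filter.1 hw).2.1)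
    have h2 : D'.card = ∑ s ∈ O, (D'.filter fun w => c w = s).card :=
      Finset.card_eq_sum_card_fiberwise (fun w hw => (Finset.mem_filter.1 hw).2.1)
    rw [h1, h2, Finset.card_eq_sum_ones, ← Finset.sum_add_distrib]
    apply Finset.sum_le_sum
    intro s hs
    have hodd : Odd (cell s).card := by
      have := (Finset.mem_erase.1 hs).2
      unfold oddc at this
      exact (Finset.mem_filter.1 this).2
    have hsplit : ((cell s).filter fun w => E w x).card + ((cell s).filter fun w => E w y).card =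
        (cell s).card := by
      rw [← Finset.card_union_of_disjoint]
      · congr 1
        ext w
        simp only [Finset.mem_union, Finset.mem_filter]
        constructor
        · rintro (h | h) <;> exact h.1
        · intro h
          have h3 := Finset.mem_filter.1 h
          rcases (hZ w h3.1 (by rw [h3.2]; exact hOr s hs)).1 with h4 | h4
          · exact Or.inl ⟨h, h4.1⟩
          · exact Or.inr ⟨h, h4.2⟩
      · rw [Finset.disjoint_left]
        intro w hw hw'
        rw [Finset.mem_filter] at hw hw'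
        have h3 := Finset.mem_filter.1 hw.1
        rcases (hZ w h3.1 (by rw [h3.2]; exact hOr s hs)).1 with h4 | h4
        · exact h4.2 hw'.2
        · exact h4.1 hw.2
    by_cases hb : big s
    · have e1 : (D.filter fun w => c w = s) = (cell s).filter fun w => E w x := by
        ext w
        simp only [hD, hcell, hside, Finset.mem_filter]
        constructor
        · rintro ⟨⟨h3, h4, h5⟩, rfl⟩
          rw [if_pos hb] at h5
          exact ⟨⟨h3, rfl⟩, h5⟩
        · rintro ⟨⟨h3, rfl⟩, h5⟩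
          rw [if_pos hb]
          exact ⟨⟨h3, hs, h5⟩, rfl⟩
      have e2 : (D'.filter fun w => c w = s) = (cell s).filter fun w => E w y := by
        ext w
        simp only [hD', hcell, hside, Finset.mem_filter]
        constructor
        · rintro ⟨⟨h3, h4, h5⟩, rfl⟩
          rw [if_pos hb] at h5
          refine ⟨⟨h3, rfl⟩, ?_⟩
          rcases (hZ w h3 (hOr _ hs)).1 with h6 | h6
          · exact absurd h6.1 h5
          · exact h6.2
        · rintro ⟨⟨h3, rfl⟩, h5⟩
          rw [if_pos hb]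
          refine ⟨⟨h3, hs, ?_⟩, rfl⟩
          rcases (hZ w h3 (hOr _ hs)).1 with h6 | h6
          · exact absurd h5 h6.2
          · exact h6.1
      rw [e1, e2]
      exact hb
    · have e1 : (D.filter fun w => c w = s) = (cell s).filter fun w => E w y := by
        ext w
        simp only [hD, hcell, hside, Finset.mem_filter]
        constructor
        · rintro ⟨⟨h3, h4, h5⟩, rfl⟩
          rw [if_neg hb] at h5
          exact ⟨⟨h3, rfl⟩, h5⟩
        · rintro ⟨⟨h3, rfl⟩, h5⟩
          rw [if_neg hb]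
          exact ⟨⟨h3, hs, h5⟩, rfl⟩
      have e2 : (D'.filter fun w => c w = s) = (cell s).filter fun w => E w x := by
        ext w
        simp only [hD', hcell, hside, Finset.mem_filter]
        constructor
        · rintro ⟨⟨h3, h4, h5⟩, rfl⟩
          rw [if_neg hb] at h5
          refine ⟨⟨h3, rfl⟩, ?_⟩
          rcases (hZ w h3 (hOr _ hs)).1 with h6 | h6
          · exact h6.1
          · exact absurd h6.2 h5
        · rintro ⟨⟨h3, rfl⟩, h5⟩
          rw [if_neg hb]
          refine ⟨⟨h3, hs, ?_⟩, rfl⟩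
          rcases (hZ w h3 (hOr _ hs)).1 with h6 | h6
          · exact h6.2
          · exact absurd h5 h6.1
      rw [e1, e2]
      simp only [hbig, not_lt] at hb
      obtain ⟨k, hk⟩ := hodd
      omega
  have hDW : D ⊆ W := fun w hw => (Finset.mem_sdiff.1 (Finset.mem_filter.1 hw).1).1
  -- same cell, same side
  have hsame : ∀ u ∈ D, ∀ w ∈ W \ A, E u w → c w = c u ∧ ¬ side w := by
    intro u hu w hw huw
    have hu' := Finset.mem_filter.1 hu
    have hu1 := Finset.mem_sdiff.1 hu'.1
    have hw1 := Finset.mem_sdiff.1 hw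
    have h1 : c u = c w := hc u hu1.1 w hw1.1 huw hu1.2 hw1.2
    refine ⟨h1.symm, fun hsw => ?_⟩
    have h2 := hu'.2.2
    have h3 := (hZ u hu'.1 (hOr _ hu'.2.1)).2
    simp only [hside] at h2 hsw
    rw [← h1] at hsw
    by_cases hb : big (c u)
    · rw [if_pos hb] at h2 hsw
      exact side_stable hC hG hT h3.1 h3.2.2 h2 hsw huw
    · rw [if_neg hb] at h2 hsw
      exact side_stable hC hG (hT.swap hG) h3.1 h3.2.1 h2 hsw huw
  have hDst : Stb E D := by
    intro u hu w hw huw
    have hw' := Finset.mem_filter.1 hw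
    exact (hsame u hu w hw'.1 huw).2 hw'.2.2
  have hDN : (nbr E W D).card < D.card := by
    have h1 : nbr E W D ⊆ A ∪ D' := by
      intro w hw
      rw [mem_nbr] at hw
      obtain ⟨hwW, u, hu, huw⟩ := hw
      rw [Finset.mem_union]
      by_cases hwA : w ∈ A
      · exact Or.inl hwA
      · right
        have hw' : w ∈ W \ A := Finset.mem_sdiff.2 ⟨hwW, hwA⟩
        obtain ⟨h2, h3⟩ := hsame u hu w hw' huw
        refine Finset.mem_filter.2 ⟨hw', ?_, h3⟩
        rw [h2]
        exact (Finset.mem_filter.1 hu).2.1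
    have h2 := (Finset.card_le_card h1).trans (Finset.card_union_le _ _)
    omega
  -- conclusion
  by_cases hDR : D ⊆ R
  · have := hβ D hDR hDst
    omega
  · obtain ⟨v0, hv0D, hv0R⟩ := Finset.not_subset.1 hDR
    have hv0W := hDW hv0D
    have hv0c : Core E v0 := by
      by_contra h
      exact hv0R ((hR v0).2 ⟨hv0W, h⟩)
    obtain ⟨x0, hx0, y0, hy0, hT0⟩ := hclosed v0 hv0W hv0c
    set Z := W \ (D ∪ nbr E W D) with hZdef
    have hZ0 : ∀ z ∈ Z, z ∈ W ∧ z ∉ D ∧ (∀ u ∈ D, ¬ E u z) := by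
      intro z hz
      rw [hZdef, Finset.mem_sdiff, Finset.mem_union, not_or, mem_nbr] at hz
      exact ⟨hz.1, hz.2.1, fun u hu huz => hz.2.2 ⟨hz.1, u, hu, huz⟩⟩
    have hZ1 : ∀ z ∈ Z, (E z x0 ∧ ¬ E z y0 ∨ ¬ E z x0 ∧ E z y0) ∧ z ≠ v0 ∧ z ≠ x0 ∧ z ≠ y0 := by
      intro z hz
      obtain ⟨h1, h2, h3⟩ := hZ0 z hz
      have h4 : z ≠ v0 := by rintro rfl; exact h2 hv0D
      have h5 : z ≠ x0 := by rintro rfl; exact h3 v0 hv0D hT0.1
      have h6 : z ≠ y0 := by rintro rfl; exact h3 v0 hv0D hT0.2.2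
      have h7 : ¬ E z v0 := fun h => h3 v0 hv0D (hG.sym _ _ h)
      rcases hP _ _ _ z hT0 (hWX h1) h4 h5 h6 with h8 | h8 | h8
      · exact absurd h8.1 h7
      · exact ⟨Or.inl h8.2, h4, h5, h6⟩
      · exact ⟨Or.inr h8.2, h4, h5, h6⟩
    have key : ∀ S ⊆ Z, Stb E S → 2 * (D.card + S.card) ≤ W.card := by
      intro S hS hSst
      have h1 : Disjoint D S := by
        rw [Finset.disjoint_left]
        intro u hu hu'
        exact (hZ0 u (hS hu')).2.1 hu
      rw [← Finset.card_union_of_disjoint h1]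
      apply hα
      · intro u hu
        rcases Finset.mem_union.1 hu with h | h
        · exact hDW h
        · exact (hZ0 u (hS h)).1
      · intro u hu w hw huw
        rcases Finset.mem_union.1 hu with h | h <;> rcases Finset.mem_union.1 hw with h' | h'
        · exact hDst u h w h' huw
        · exact (hZ0 w (hS h')).2.2 u h huw
        · exact (hZ0 u (hS h)).2.2 w h' (hG.sym _ _ huw)
        · exact hSst u h w h' huw
      · exact ⟨v0, Finset.mem_union_left _ hv0D, hv0c⟩
    have k1 := key (Z.filter fun z => E z x0) (Finset.filter_subset _ _) (by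
      intro u hu w hw
      rw [Finset.mem_filter] at hu hw
      have h1 := (hZ1 u hu.1).2
      exact side_stable hC hG hT0 h1.1 h1.2.2 hu.2 hw.2)
    have k2 := key (Z.filter fun z => ¬ E z x0) (Finset.filter_subset _ _) (by
      intro u hu w hw
      rw [Finset.mem_filter] at hu hw
      have h1 := hZ1 u hu.1
      have h2 := hZ1 w hw.1
      exact side_stable hC hG (hT0.swap hG) h1.2.1 h1.2.2.1 (by tauto) (by tauto))
    have h1 := Finset.card_filter_add_card_filter_not (s := Z) (fun z => E z x0)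
    have h2 : Disjoint D (nbr E W D) := by
      rw [Finset.disjoint_left]
      intro u hu hu'
      obtain ⟨_, w, hw, hwu⟩ := mem_nbr.1 hu'
      exact hDst w hw u hu hwu
    have h3 : D ∪ nbr E W D ⊆ W := by
      intro u hu
      rcases Finset.mem_union.1 hu with h | h
      · exact hDW h
      · exact (mem_nbr.1 h).1
    have h4 := Finset.card_sdiff_add_card_eq_card h3
    rw [Finset.card_union_of_disjoint h2] at h4
    have h5 : Z.card = (W \ (D ∪ nbr E W D)).card := rfl
    omega

end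

end Pool.Agent.H.MP_ebc13b_lc.h61
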