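import Pool.Agent.H.MP_ebc13b_lc.h61.Inst

/-!
Correctness of the parser; colourings of a graph and coverings of the complement by cliques.
-/

namespace Pool.Agent.H.MP_ebc13b_lc.h61

open Pool.Agent.H.MP_5be563_lc.PT

/-- reading an entry of a matrix written row by row -/
theorem getD_flatMap (n : ℕ) (f : ℕ → ℕ → Bool) (rest : List Bool) : ∀ (m i j : ℕ), i < m → j < n →
    (((List.range m).flatMap fun i => (List.range n).map (f i)) ++ rest).getD (i * n + j) false =
      f i j := by
  intro m
  induction m generalizing f rest with
  | zero => intro i j hi; omega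
  | succ m ih =>
    intro i j hi hj
    rw [List.range_succ_eq_map, List.flatMap_cons, List.append_assoc]
    cases i with
    | zero =>
      rw [Nat.zero_mul, Nat.zero_add, List.getD_append _ _ _ _ (by simpa using hj)]
      simp [List.getD_eq_getElem?_getD, hj]
    | succ i =>
      have e : (i + 1) * n + j = ((List.range n).map (f 0)).length + (i * n + j) := by
        rw [List.length_map, List.length_range]; ring
      rw [e, List.getD_append_right _ _ _ _ (by omega), Nat.add_sub_cancel_left, List.flatMap_map]
      exact ih (fun i => f (i + 1)) rest i j (by omega) hj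

theorem finRange_flatMap {β : Type} (n : ℕ) (f : ℕ → List β) :
    (List.finRange n).flatMap (fun i => f i.1) = (List.range n).flatMap f := by
  rw [← List.map_coe_finRange_eq_range, List.flatMap_map]

theorem finRange_map {β : Type} (n : ℕ) (f : ℕ → β) :
    (List.finRange n).map (fun i => f i.1) = (List.range n).map f := by
  rw [← List.map_coe_finRange_eq_range, List.map_map]
  rfl

/-- adjacency on natural numbers -/
def Inst.A (x : Inst) (i j : ℕ) : Prop := ∃ (hi : i < x.n) (hj : j < x.n), x.G.Adj ⟨i, hi⟩ ⟨j, hj⟩

open Classical in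
theorem encode_eq (x : Inst) : x.encode = List.replicate x.n true ++ (false ::
    (((List.range x.n).flatMap fun i => (List.range x.n).map fun j => decide (x.A i j)) ++
      Nat.bits x.k)) := by
  classical
  unfold Inst.encode
  have h1 : ((List.finRange x.n).flatMap
      (fun i => (List.finRange x.n).map (fun j => decide (x.G.Adj i j)))) =
      (List.range x.n).flatMap fun i => (List.range x.n).map fun j => decide (x.A i j) := by
    rw [← finRange_flatMap x.n (fun i => (List.range x.n).map fun j => decide (x.A i j))]
    apply List.flatMap_congr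
    intro i _
    rw [← finRange_map x.n (fun j => decide (x.A i.1 j))]
    apply List.map_congr_left
    intro j _
    congr 1
    apply propext
    exact ⟨fun h => ⟨i.2, j.2, h⟩, fun ⟨_, _, h⟩ => h⟩
  rw [h1]
  simp

theorem pn_encode (x : Inst) : pn x.encode = x.n := by
  classical
  unfold pn
  rw [encode_eq, List.takeWhile_append_of_pos (by simp)]
  simp

open Classical in
theorem drop_encode (x : Inst) : x.encode.drop (x.n + 1) =
    ((List.range x.n).flatMap fun i => (List.range x.n).map fun j => decide (x.A i j)) ++
      Nat.bits x.k := by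
  classical
  rw [encode_eq, ← List.drop_drop]
  have h := List.drop_left (l₁ := List.replicate x.n true) (l₂ := false ::
    (((List.range x.n).flatMap fun i => (List.range x.n).map fun j => decide (x.A i j)) ++
      Nat.bits x.k))
  rw [List.length_replicate] at h
  rw [h]
  rfl

theorem ent_encode (x : Inst) {i j : ℕ} (hi : i < x.n) (hj : j < x.n) :
    ent x.encode i j = true ↔ x.A i j := by
  classical
  unfold ent
  rw [pn_encode, drop_encode, getD_flatMap x.n (fun i j => decide (x.A i j)) _ x.n i j hi hj]
  simp

theorem EE_encode (x : Inst) {i j : ℕ} : EE (pEs x.encode) i j ↔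
    i < x.n ∧ j < x.n ∧ i ≠ j ∧ ¬ x.A i j := by
  unfold EE pEs
  rw [pn_encode]
  simp only [List.mem_flatMap, List.mem_range, List.mem_map, List.mem_filter, Bool.and_eq_true,
    Bool.not_eq_true', decide_eq_false_iff_not, Prod.mk.injEq]
  constructor
  · rintro ⟨a, ha, b, ⟨hb, h1, h2⟩, rfl, rfl⟩
    refine ⟨ha, hb, h1, fun h3 => ?_⟩
    rw [(ent_encode x ha hb).2 h3] at h2
    exact Bool.noConfusion h2
  · rintro ⟨hi, hj, h1, h2⟩
    refine ⟨i, hi, j, ⟨hj, h1, ?_⟩, rfl, rfl⟩
    rw [← Bool.not_eq_true, ent_encode x hi hj]
    exact h2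

theorem pk_encode (x : Inst) : pk x.encode = min x.n x.k := by
  classical
  unfold pk
  rw [pn_encode, drop_encode]
  have hl : ((List.range x.n).flatMap fun i => (List.range x.n).map fun j =>
      decide (x.A i j)).length = x.n * x.n := by
    rw [List.length_flatMap]
    simp
  have hd : (((List.range x.n).flatMap fun i => (List.range x.n).map fun j => decide (x.A i j)) ++
      Nat.bits x.k).drop (x.n * x.n) = Nat.bits x.k := by
    rw [← hl, List.drop_left]
  rw [hd]
  have h1 : ((List.range x.n).filter fun i => ble (ubits (i + 1)) (Nat.bits x.k)) =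
      (List.range x.n).filter fun i => decide (i < x.k) := by
    apply List.filter_congr
    intro i _
    rw [Bool.eq_iff_iff, ble_iff, bval_ubits, bval_bits, decide_eq_true_eq]
    omega
  rw [h1]
  have h2 : ∀ n k : ℕ, ((List.range n).filter fun i => decide (i < k)).length = min n k := by
    intro n k
    induction n with
    | zero => simp
    | succ n ih =>
      rw [List.range_succ, List.filter_append, List.length_append, ih]
      by_cases h : n < k
      · rw [List.filter_cons_of_pos (by simpa using h)]
        simp
        omega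
      · rw [List.filter_cons_of_neg (by simpa using h)]
        simp
        omega
  exact h2 _ _

theorem gr_encode (x : Inst) : Gr (Finset.range x.n) (EE (pEs x.encode)) := by
  refine ⟨?_, ?_, ?_⟩
  · intro a b h
    rw [EE_encode] at h ⊢
    refine ⟨h.2.1, h.1, h.2.2.1.symm, fun h1 => h.2.2.2 ?_⟩
    obtain ⟨h2, h3, h4⟩ := h1
    exact ⟨h3, h2, h4.symm⟩
  · intro a h
    rw [EE_encode] at h
    exact h.2.2.1 rfl
  · intro a b h
    rw [EE_encode] at h
    exact Finset.mem_range.2 h.1

theorem colK_iff (x : Inst) (k : ℕ) :
    ColK (Finset.range x.n) (EE (pEs x.encode)) k ↔ x.G.Colorable k := by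
  constructor
  · rintro ⟨f, h1, h2⟩
    refine ⟨SimpleGraph.Coloring.mk (fun v => (⟨f v.1, h1 v.1 (Finset.mem_range.2 v.2)⟩ : Fin k)) ?_⟩
    intro u v huv h
    have h3 : f u.1 = f v.1 := congrArg Fin.val h
    have h4 : u.1 ≠ v.1 := fun h5 => huv.ne (Fin.ext h5)
    have h5 := h2 u.1 (Finset.mem_range.2 u.2) v.1 (Finset.mem_range.2 v.2) h4 h3
    rw [EE_encode] at h5
    exact h5.2.2.2 ⟨u.2, v.2, huv⟩
  · rintro ⟨C⟩
    refine ⟨fun v => if h : v < x.n then (C ⟨v, h⟩).1 else 0, ?_, ?_⟩
    · intro v hv
      rw [Finset.mem_range] at hv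
      simp only [dif_pos hv]
      exact (C ⟨v, hv⟩).2
    · intro u hu v hv huv h
      rw [Finset.mem_range] at hu hv
      simp only [dif_pos hu, dif_pos hv] at h
      rw [EE_encode]
      refine ⟨hu, hv, huv, fun h1 => ?_⟩
      obtain ⟨_, _, h2⟩ := h1
      exact C.valid h2 (Fin.ext h)

theorem colorable_min (x : Inst) : x.G.Colorable (min x.n x.k) ↔ x.G.Colorable x.k := by
  rcases le_total x.n x.k with h | h
  · rw [Nat.min_eq_left h]
    have h1 : x.G.Colorable x.n := by
      have := x.G.colorable_of_fintype
      rwa [Fintype.card_fin] at this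
    exact ⟨fun h2 => h2.mono h, fun _ => h1⟩
  · rw [Nat.min_eq_right h]

/-- The decision procedure is correct whenever the complement is prismatic and its triangles are
pairwise disjoint. -/
theorem dec_iff (x : Inst) (hP : Prismatic (Finset.range x.n) (EE (pEs x.encode)))
    (hC : Clean (EE (pEs x.encode))) : dec x.encode = true ↔ x.G.Colorable x.k := by
  unfold dec
  rw [pn_encode, pk_encode, alg_iff (gr_encode x) hP hC, colK_iff, colorable_min]

end Pool.Agent.H.MP_ebc13b_lc.h61
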