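import Pool.Agent.H.MP_ebc13b_lc.h61.Aug

/-!
The building blocks of the matching algorithm are computable in polynomial time.
-/

namespace Pool.Agent.H.MP_ebc13b_lc.h61

open Pool.Agent.H.MP_5be563_lc.PT

section
variable {α : Type} [Enc α]

/-! ### Sizes -/

/-- numbers at most `K` -/
def NB (K : ℕ) (l : List ℕ) : Prop := ∀ x ∈ l, x ≤ K

/-- pairs of numbers at most `K` -/
def EB (K : ℕ) (M : List (ℕ × ℕ)) : Prop := ∀ p ∈ M, p.1 ≤ K ∧ p.2 ≤ K

theorem NB.sz_le {K L : ℕ} {l : List ℕ} (h : NB K l) (hl : l.length ≤ L) :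
    sz l ≤ L * (2 * K + 2) + 1 := by
  refine (sz_le_of_forall l (2 * K + 1) ?_).trans ?_
  · intro a ha
    rw [sz_nat]
    have := h a ha
    omega
  · exact Nat.add_le_add_right (Nat.mul_le_mul_right (2 * K + 2) hl) 1

theorem EB.sz_le {K L : ℕ} {M : List (ℕ × ℕ)} (h : EB K M) (hl : M.length ≤ L) :
    sz M ≤ L * (4 * K + 4) + 1 := by
  refine (sz_le_of_forall M (4 * K + 3) ?_).trans ?_
  · intro a ha
    rw [sz_prod, sz_nat, sz_nat]
    have := h a ha
    omega
  · exact Nat.add_le_add_right (Nat.mul_le_mul_right (4 * K + 4) hl) 1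

theorem nb_sz (l : List ℕ) : NB (sz l) l := by
  intro x hx
  have := sz_mem_lt hx
  rw [sz_nat] at this
  omega

theorem eb_sz (M : List (ℕ × ℕ)) : EB (sz M) M := by
  intro p hp
  have := sz_mem_lt hp
  rw [sz_prod, sz_nat, sz_nat] at this
  omega

theorem NB.mono {K K' : ℕ} {l : List ℕ} (h : NB K l) (hK : K ≤ K') : NB K' l :=
  fun x hx => (h x hx).trans hK

theorem EB.mono {K K' : ℕ} {M : List (ℕ × ℕ)} (h : EB K M) (hK : K ≤ K') : EB K' M :=
  fun x hx => ⟨(h x hx).1.trans hK, (h x hx).2.trans hK⟩

theorem NB.append {K : ℕ} {l m : List ℕ} (h : NB K l) (h' : NB K m) : NB K (l ++ m) := by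
  intro x hx
  rcases List.mem_append.1 hx with hx | hx
  · exact h x hx
  · exact h' x hx

theorem EB.append {K : ℕ} {l m : List (ℕ × ℕ)} (h : EB K l) (h' : EB K m) : EB K (l ++ m) := by
  intro x hx
  rcases List.mem_append.1 hx with hx | hx
  · exact h x hx
  · exact h' x hx

theorem NB.ends {K : ℕ} {M : List (ℕ × ℕ)} (h : EB K M) : NB K (ends M) := by
  intro x hx
  obtain ⟨p, hp, rfl | rfl⟩ := mem_ends.1 hx
  · exact (h p hp).1
  · exact (h p hp).2

theorem NB.headD {K : ℕ} {l : List ℕ} (h : NB K l) : l.headD 0 ≤ K := by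
  cases l with
  | nil => simp
  | cons a l => exact h a List.mem_cons_self

theorem mate_le {K : ℕ} {M : List (ℕ × ℕ)} (h : EB K M) {x : ℕ} (hx : x ≤ K) :
    mate M x ≤ K := by
  by_cases hxM : x ∈ ends M
  · exact (NB.ends h) _ (mate_mem hxM)
  · rwa [mate_eq_self hxM]

theorem EB.pairUp {K : ℕ} {l : List ℕ} (h : NB K l) : EB K (pairUp l) := by
  intro p hp
  obtain ⟨h1, h2⟩ := mem_pairUp hp
  exact ⟨h _ h1, h _ h2⟩

theorem length_pairUp_le (l : List ℕ) : (pairUp l).length ≤ l.length := by
  induction l using h61.pairUp.induct with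
  | case1 a b t ih => simp only [h61.pairUp, List.length_cons]; omega
  | case2 l hl =>
    cases l with
    | nil => simp [h61.pairUp]
    | cons a l =>
      cases l with
      | nil => simp [h61.pairUp]
      | cons b l => exact absurd rfl (hl a b l)

/-! ### Functions -/

@[fun_prop]
theorem Poly.ends {M : α → List (ℕ × ℕ)} (hM : Poly M) : Poly (fun a => ends (M a)) := by
  unfold h61.ends
  fun_prop

@[fun_prop]
theorem Poly.mate {M : α → List (ℕ × ℕ)} {x : α → ℕ} (hM : Poly M) (hx : Poly x) :
    Poly (fun a => mate (M a) (x a)) := by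
  unfold h61.mate
  fun_prop

@[fun_prop]
theorem Poly.evens {E : α → List (List ℕ)} (hE : Poly E) : Poly (fun a => evens (E a)) := by
  unfold h61.evens
  fun_prop

@[fun_prop]
theorem Poly.odds {E : α → List (List ℕ)} (hE : Poly E) : Poly (fun a => odds (E a)) := by
  unfold h61.odds
  fun_prop

@[fun_prop]
theorem Poly.cands {Es : α → List (ℕ × ℕ)} {E : α → List (List ℕ)} (hEs : Poly Es)
    (hE : Poly E) : Poly (fun a => cands (Es a) (E a)) := by
  unfold h61.cands
  fun_prop

theorem ext_eq (Es M : List (ℕ × ℕ)) (E : List (List ℕ)) : ext Es M E =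
    (cands Es E).head?.elim E (fun c => (mate M c.2 :: c.2 :: c.1) :: E) := by
  unfold ext
  cases (cands Es E).head? <;> rfl

@[fun_prop]
theorem Poly.ext {Es M : α → List (ℕ × ℕ)} {E : α → List (List ℕ)} (hEs : Poly Es)
    (hM : Poly M) (hE : Poly E) : Poly (fun a => ext (Es a) (M a) (E a)) := by
  simp only [ext_eq]
  fun_prop

@[fun_prop]
theorem Poly.start {Vs : α → List ℕ} {M : α → List (ℕ × ℕ)} (hVs : Poly Vs) (hM : Poly M) :
    Poly (fun a => start (Vs a) (M a)) := by
  unfold h61.start
  fun_prop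

theorem grow_bd {K : ℕ} {Vs : List ℕ} {Es M : List (ℕ × ℕ)} (hV : NB K Vs) (hE : EB K Es)
    (hM : EB K M) (n : ℕ) : (grow Vs Es M n).length ≤ Vs.length + n ∧
      ∀ p ∈ grow Vs Es M n, p.length ≤ 1 + 2 * n ∧ NB K p := by
  induction n with
  | zero =>
    unfold grow start
    constructor
    · simpa using List.length_filter_le _ _
    · intro p hp
      simp only [Function.iterate_zero, id_eq, List.mem_map, List.mem_filter] at hp
      obtain ⟨x, ⟨hx, _⟩, rfl⟩ := hp
      exact ⟨by simp, fun y hy => by rw [List.mem_singleton] at hy; exact hy ▸ hV x hx⟩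
  | succ n ih =>
    obtain ⟨h1, h2⟩ := ih
    rw [grow_succ, ext_eq]
    cases hc : (cands Es (grow Vs Es M n)).head? with
    | none =>
      simp only [Option.elim_none]
      exact ⟨by omega, fun p hp => ⟨by have := (h2 p hp).1; omega, (h2 p hp).2⟩⟩
    | some c =>
      obtain ⟨p, y⟩ := c
      obtain ⟨h3, h4, _⟩ := mem_cands.1 (List.mem_of_mem_head? hc)
      simp only [Option.elim_some, List.length_cons]
      refine ⟨by omega, fun q hq => ?_⟩
      have hy : y ≤ K := (hE _ h4).2
      rcases List.mem_cons.1 hq with rfl | hq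
      · refine ⟨by have := (h2 p h3).1; simp; omega, fun x hx => ?_⟩
        rcases List.mem_cons.1 hx with rfl | hx
        · exact mate_le hM hy
        · rcases List.mem_cons.1 hx with rfl | hx
          · exact hy
          · exact (h2 p h3).2 x hx
      · exact ⟨by have := (h2 q hq).1; omega, (h2 q hq).2⟩

theorem sz_paths {K L N : ℕ} {E : List (List ℕ)} (h1 : E.length ≤ N)
    (h2 : ∀ p ∈ E, p.length ≤ L ∧ NB K p) : sz E ≤ N * (L * (2 * K + 2) + 2) + 1 := by
  refine (sz_le_of_forall E (L * (2 * K + 2) + 1) fun p hp => (h2 p hp).2.sz_le (h2 p hp).1).trans ?_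
  exact Nat.add_le_add_right (Nat.mul_le_mul_right (L * (2 * K + 2) + 2) h1) 1

@[fun_prop]
theorem Poly.forest {Vs : α → List ℕ} {Es M : α → List (ℕ × ℕ)} (hVs : Poly Vs) (hEs : Poly Es)
    (hM : Poly M) : Poly (fun a => forest (Vs a) (Es a) (M a)) := by
  have hK : PBdd (fun a => sz (Vs a) + sz (Es a) + sz (M a)) := (hVs.sz_le.add hEs.sz_le).add hM.sz_le
  have hL : PBdd (fun a => 1 + 2 * (sz (Vs a) + 1)) :=
    (PBdd.const 1).add ((PBdd.const 2).mul (hVs.sz_le.add (PBdd.const 1)))
  have hN : PBdd (fun a => sz (Vs a) + (sz (Vs a) + 1)) := hVs.sz_le.add (hVs.sz_le.add (PBdd.const 1))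
  have key := Poly.iterate (f := fun a E => h61.ext (Es a) (M a) E)
    (s := fun a => h61.start (Vs a) (M a)) (n := fun a => (Vs a).length + 1)
    (B := fun a => (sz (Vs a) + (sz (Vs a) + 1)) *
      ((1 + 2 * (sz (Vs a) + 1)) * (2 * (sz (Vs a) + sz (Es a) + sz (M a)) + 2) + 2) + 1)
    (by fun_prop) (by fun_prop) (by fun_prop)
    ((hN.mul ((hL.mul (((PBdd.const 2).mul hK).add (PBdd.const 2))).add (PBdd.const 2))).add
      (PBdd.const 1)) (by
      intro a k hk
      have h := grow_bd (K := sz (Vs a) + sz (Es a) + sz (M a)) (Vs := Vs a) (Es := Es a)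
        (M := M a) ((nb_sz _).mono (by omega)) ((eb_sz _).mono (by omega))
        ((eb_sz _).mono (by omega)) k
      have hl := length_lt_sz (Vs a)
      change sz (grow (Vs a) (Es a) (M a) k) ≤ _
      refine sz_paths ?_ ?_
      · have := h.1
        omega
      · intro p hp
        have := h.2 p hp
        refine ⟨?_, this.2⟩
        have := this.1
        omega)
  exact key

@[fun_prop]
theorem Poly.hasE {Es : α → List (ℕ × ℕ)} {x y : α → ℕ} (hEs : Poly Es) (hx : Poly x)
    (hy : Poly y) : Poly (fun a => hasE (Es a) (x a) (y a)) := by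
  unfold h61.hasE
  fun_prop

@[fun_prop]
theorem Poly.pick {Es : α → List (ℕ × ℕ)} {E : α → List (List ℕ)} (hEs : Poly Es)
    (hE : Poly E) : Poly (fun a => pick (Es a) (E a)) := by
  unfold h61.pick
  fun_prop

@[fun_prop]
theorem Poly.stem {p q : α → List ℕ} (hp : Poly p) (hq : Poly q) :
    Poly (fun a => stem (p a) (q a)) := by
  unfold h61.stem
  fun_prop

@[fun_prop]
theorem Poly.rst {p q : α → List ℕ} (hp : Poly p) (hq : Poly q) :
    Poly (fun a => rst (p a) (q a)) := by
  unfold h61.rst
  fun_prop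

theorem pairUp_eq (l : List ℕ) : pairUp l =
    ((List.range l.length).filter fun i => decide (2 * i + 1 < l.length)).map
      fun i => (l.getD (2 * i) 0, l.getD (2 * i + 1) 0) := by
  induction l using h61.pairUp.induct with
  | case1 a b t ih =>
    rw [h61.pairUp, ih]
    have e : (List.range (a :: b :: t).length).filter
        (fun i => decide (2 * i + 1 < (a :: b :: t).length)) =
        0 :: ((List.range t.length).filter fun i => decide (2 * i + 1 < t.length)).map
          Nat.succ := by
      rw [List.length_cons, List.length_cons, List.range_succ_eq_map, List.filter_cons_of_pos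
        (by simp), List.filter_map, List.range_succ, List.filter_append]
      have h1 : ([t.length].filter ((fun i => decide (2 * i + 1 < t.length + 1 + 1)) ∘ Nat.succ)) = [] := by
        rw [List.filter_eq_nil_iff]
        intro x hx
        rw [List.mem_singleton] at hx
        subst hx
        simp
        omega
      rw [h1, List.append_nil]
      congr 2
      apply List.filter_congr
      intro x _
      simp only [Function.comp_apply, Nat.succ_eq_add_one]
      congr 1
      exact propext (by omega)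
    rw [e, List.map_cons, List.map_map]
    simp only [List.cons.injEq]
    refine ⟨by simp, ?_⟩
    apply List.map_congr_left
    intro i _
    simp only [Function.comp_apply, Nat.succ_eq_add_one]
    have e1 : 2 * (i + 1) = 2 * i + 1 + 1 := by ring
    have e2 : 2 * (i + 1) + 1 = 2 * i + 1 + 1 + 1 := by ring
    rw [e1]
    simp
  | case2 l hl =>
    cases l with
    | nil => simp [h61.pairUp]
    | cons a l =>
      cases l with
      | nil => simp [h61.pairUp]
      | cons b l => exact absurd rfl (hl a b l)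

@[fun_prop]
theorem Poly.pairUp {l : α → List ℕ} (hl : Poly l) : Poly (fun a => pairUp (l a)) := by
  simp only [pairUp_eq]
  fun_prop

@[fun_prop]
theorem Poly.augM {M : α → List (ℕ × ℕ)} {p q : α → List ℕ} (hM : Poly M) (hp : Poly p)
    (hq : Poly q) : Poly (fun a => augM (M a) (p a) (q a)) := by
  unfold h61.augM
  fun_prop

@[fun_prop]
theorem Poly.flowM {M : α → List (ℕ × ℕ)} {p q : α → List ℕ} (hM : Poly M) (hp : Poly p)
    (hq : Poly q) : Poly (fun a => flowM (M a) (p a) (q a)) := by
  unfold h61.flowM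
  fun_prop

@[fun_prop]
theorem Poly.cV {r V : α → List ℕ} (hr : Poly r) (hV : Poly V) :
    Poly (fun a => cV (r a) (V a)) := by
  unfold h61.cV
  fun_prop

@[fun_prop]
theorem Poly.con {z x : α → ℕ} {r : α → List ℕ} (hz : Poly z) (hr : Poly r) (hx : Poly x) :
    Poly (fun a => con (z a) (r a) (x a)) := by
  unfold h61.con
  fun_prop

@[fun_prop]
theorem Poly.cE {z : α → ℕ} {r : α → List ℕ} {Es : α → List (ℕ × ℕ)} (hz : Poly z)
    (hr : Poly r) (hE : Poly Es) : Poly (fun a => cE (z a) (r a) (Es a)) := by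
  unfold h61.cE
  fun_prop

@[fun_prop]
theorem Poly.rotStep {v : α → ℕ} {l : α → List ℕ} (hv : Poly v) (hl : Poly l) :
    Poly (fun a => rotStep (v a) (l a)) := by
  unfold h61.rotStep
  fun_prop

theorem rotStep_perm (v : ℕ) (l : List ℕ) : (rotStep v l).Perm l := by
  unfold rotStep
  split_ifs
  · exact List.Perm.refl _
  · cases l with
    | nil => simp
    | cons a l =>
      simp only [List.tail_cons, List.take_succ_cons, List.take_zero]
      exact List.perm_append_singleton a l

theorem rot_iter_perm (v : ℕ) (k : ℕ) (l : List ℕ) : ((rotStep v)^[k] l).Perm l := by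
  induction k with
  | zero => exact List.Perm.refl _
  | succ k ih => rw [Function.iterate_succ_apply']; exact (rotStep_perm v _).trans ih

theorem sz_perm {l m : List ℕ} (h : l.Perm m) : sz l = sz m := by
  rw [sz_list, sz_list, h.length_eq, (h.map _).sum_eq]

@[fun_prop]
theorem Poly.rotTo {v : α → ℕ} {l : α → List ℕ} (hv : Poly v) (hl : Poly l) :
    Poly (fun a => rotTo (v a) (l a)) := by
  exact Poly.iterate (f := fun a m => h61.rotStep (v a) m) (s := l) (n := fun a => (l a).length)
    (B := fun a => sz (l a)) (by fun_prop) hl (by fun_prop) hl.sz_le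
    (fun a k _ => (sz_perm (rot_iter_perm (v a) k (l a))).le)

@[fun_prop]
theorem Poly.avoid {z : α → ℕ} {M : α → List (ℕ × ℕ)} (hz : Poly z) (hM : Poly M) :
    Poly (fun a => avoid (z a) (M a)) := by
  unfold h61.avoid
  fun_prop

@[fun_prop]
theorem Poly.port {Es M : α → List (ℕ × ℕ)} {c : α → List ℕ} (hE : Poly Es) (hc : Poly c)
    (hM : Poly M) : Poly (fun a => port (Es a) (c a) (M a)) := by
  unfold h61.port
  fun_prop

@[fun_prop]
theorem Poly.expand {Es M : α → List (ℕ × ℕ)} {c : α → List ℕ} (hE : Poly Es) (hc : Poly c)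
    (hM : Poly M) : Poly (fun a => expand (Es a) (c a) (M a)) := by
  unfold h61.expand
  fun_prop

end

end Pool.Agent.H.MP_ebc13b_lc.h61
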